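import Pool.Agent.Q9.EL.ECL

/-!
# Universal almost periods of the logarithms of the L-series on the edge
-/

set_option autoImplicit false

namespace Pool.Agent.Q9.EL

open MeasureTheory Filter Topology NumberField IsDedekindDomain
open scoped ENNReal
open Pool.Agent.Helper873.Mean Pool.Agent.Helper873.Monomial Pool.Agent.Helper873.Product
  Pool.Agent.Helper873.OneVar
open Pool.Agent.TH339.MP (PP wt fr ee qq TX PS two_le_qq continuous_PS wt_nonneg bl
  boundary M_nonneg FF bb norm_bb hasProd_L nm tm mem_TX ap bl_angle lv hasSum_all exp_lv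
  PS_tendsto ae_notMem elf S6 lfac av av_triv two_le_nm exists_beta cpow_two ee_pow norm_ee
  card_S6 sum_dg_le dg pr nm_eq Sp mem_Sp)

/-! ### relative density -/

lemma zt_sub (s t : ℝ) : zt (s - t) = zt s - zt t := by
  funext k
  unfold zt
  rw [Pi.sub_apply, ← AddCircle.coe_sub]
  congr 1
  ring

lemma rel_dense {V : Set Tor} (hV : V ∈ 𝓝 (0 : Tor)) :
    ∃ l : ℝ, 0 ≤ l ∧ ∀ x : ℝ, ∃ τ : ℝ, x ≤ τ ∧ τ ≤ x + l ∧ zt τ ∈ V := by
  obtain ⟨V', hV'V, hV'o, hV'0⟩ := mem_nhds_iff.1 hV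
  have hcomp : IsCompact (closure (Set.range zt)) := isClosed_closure.isCompact
  obtain ⟨F, hF⟩ := hcomp.elim_finite_subcover (fun t : ℝ => {z : Tor | z - zt t ∈ V'})
    (fun t => hV'o.preimage (continuous_id.sub continuous_const)) (by
      intro z hz
      have h1 : {y : Tor | z - y ∈ V'} ∈ 𝓝 z := by
        have hcz : Continuous fun y : Tor => z - y := continuous_const.sub continuous_id
        refine hcz.continuousAt.preimage_mem_nhds ?_
        rw [sub_self]
        exact hV'o.mem_nhds hV'0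
      obtain ⟨y, hy1, t, rfl⟩ := mem_closure_iff_nhds.1 hz _ h1
      exact Set.mem_iUnion.2 ⟨t, hy1⟩)
  set R : ℝ := ∑ t ∈ F, |t| with hR
  have hR0 : 0 ≤ R := Finset.sum_nonneg fun _ _ => abs_nonneg _
  refine ⟨2 * R, by linarith, fun x => ?_⟩
  have h2 : zt (x + R) ∈ ⋃ t ∈ F, {z : Tor | z - zt t ∈ V'} :=
    hF (subset_closure ⟨x + R, rfl⟩)
  simp only [Set.mem_iUnion] at h2
  obtain ⟨t, ht, h3⟩ := h2
  have h4 : |t| ≤ R := Finset.single_le_sum (f := fun t => |t|) (fun _ _ => abs_nonneg _) ht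
  have h5 := abs_le.1 h4
  refine ⟨x + R - t, by linarith [h5.2], by linarith [h5.1], ?_⟩
  rw [zt_sub]
  exact hV'V h3

/-- `τ` is an almost period for the primes up to `X` -/
def Near (X : ℕ) (δ τ : ℝ) : Prop := ∀ p : ℕ, p.Prime → p ≤ X → ‖ee (-Real.log p) τ - 1‖ ≤ δ

lemma zet_zt_ee (t : ℝ) (p : ℕ) (hp : p.Prime) :
    zet (zt t (Nat.count Nat.Prime p)) = ee (-Real.log p) t := by
  unfold zt
  rw [zet_coe, Nat.nth_count hp]
  unfold Pool.Agent.TH339.MP.ee
  congr 1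
  have hpi : (Real.pi : ℝ) ≠ 0 := Real.pi_ne_zero
  have : 2 * Real.pi * (t * Real.log p / (2 * Real.pi)) = t * Real.log p := by
    field_simp
  rw [this]
  push_cast
  ring

lemma rel_dense_near (X : ℕ) {δ : ℝ} (hδ : 0 < δ) :
    ∃ l : ℝ, 0 ≤ l ∧ ∀ x : ℝ, ∃ τ : ℝ, x ≤ τ ∧ τ ≤ x + l ∧ Near X δ τ := by
  have hV : {z : Tor | ∀ p ∈ Finset.range (X + 1), p.Prime →
      ‖zet (z (Nat.count Nat.Prime p)) - 1‖ < δ} ∈ 𝓝 (0 : Tor) := by
    have h1 : ∀ p ∈ Finset.range (X + 1), ∀ᶠ z : Tor in 𝓝 0, p.Prime →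
        ‖zet (z (Nat.count Nat.Prime p)) - 1‖ < δ := by
      intro p _
      have hc : Continuous fun z : Tor => ‖zet (z (Nat.count Nat.Prime p)) - 1‖ :=
        ((continuous_zet.comp (continuous_apply (A := fun _ : ℕ => UnitAddCircle)
          (Nat.count Nat.Prime p))).sub continuous_const).norm
      have h2 := hc.tendsto (0 : Tor)
      have h3 : ‖zet ((0 : Tor) (Nat.count Nat.Prime p)) - 1‖ = 0 := by
        rw [Pi.zero_apply]
        unfold zet
        simp
      rw [h3] at h2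
      exact (h2.eventually (gt_mem_nhds hδ)).mono fun z hz _ => hz
    have h2 := (Finset.eventually_all (Finset.range (X + 1))).2 h1
    exact h2
  obtain ⟨l, hl, H⟩ := rel_dense hV
  refine ⟨l, hl, fun x => ?_⟩
  obtain ⟨τ, h1, h2, h3⟩ := H x
  refine ⟨τ, h1, h2, fun p hp hpX => ?_⟩
  have h4 := h3 p (Finset.mem_range.2 (by omega)) hp
  rw [zet_zt_ee τ p hp] at h4
  exact h4.le

/-! ### the prime sums -/

lemma pow_sub_one_le {w : ℂ} (hw : ‖w‖ ≤ 1) (n : ℕ) : ‖w ^ n - 1‖ ≤ n * ‖w - 1‖ := by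
  induction n with
  | zero => simp
  | succ n ih =>
    have e : w ^ (n + 1) - 1 = w ^ n * (w - 1) + (w ^ n - 1) := by ring
    rw [e]
    refine (norm_add_le _ _).trans ?_
    have h1 : ‖w ^ n * (w - 1)‖ ≤ ‖w - 1‖ := by
      rw [norm_mul, norm_pow]
      exact mul_le_of_le_one_left (norm_nonneg _) (pow_le_one₀ (norm_nonneg _) hw)
    push_cast
    linarith

lemma ee_add (l s t : ℝ) : ee l (s + t) = ee l s * ee l t := by
  unfold Pool.Agent.TH339.MP.ee
  rw [← Complex.exp_add]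
  congr 1
  push_cast
  ring

lemma ee_fr_close {X : ℕ} {δ τ : ℝ} (h : Near X δ τ) {x : PP} (hx : x ∈ TX X) :
    ‖ee (fr x) τ - 1‖ ≤ (x.2 + 1 : ℕ) * δ := by
  have h1 : ee (fr x) τ = ee (-Real.log (x.1 : ℕ)) τ ^ (x.2 + 1) := by
    rw [ee_pow]
    congr 1
    unfold Pool.Agent.TH339.MP.fr
    ring
  rw [h1]
  refine (pow_sub_one_le (norm_ee _ _).le _).trans ?_
  have h2 : (x.1 : ℕ) ≤ X := by
    have h3 := (mem_TX X x).1 hx
    unfold Pool.Agent.TH339.MP.qq at h3
    exact (Nat.le_self_pow (by omega) _).trans h3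
  have := h x.1 x.1.2 h2
  gcongr

lemma PS_close {b : PP → ℂ} {M : ℝ} (hb : ∀ x, ‖b x‖ ≤ M / (x.2 + 1 : ℕ)) {X : ℕ} {δ τ : ℝ}
    (h : Near X δ τ) (t : ℝ) : ‖PS b X (t + τ) - PS b X t‖ ≤ M * δ * (TX X).card := by
  have hM := M_nonneg hb
  have e : PS b X (t + τ) - PS b X t =
      ∑ x ∈ TX X, (b x * (wt 1 x : ℂ)) * ee (fr x) t * (ee (fr x) τ - 1) := by
    unfold Pool.Agent.TH339.MP.PS
    rw [← Finset.sum_sub_distrib]
    refine Finset.sum_congr rfl fun x _ => ?_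
    rw [ee_add]
    ring
  rw [e]
  refine (norm_sum_le_of_le (n := fun _ => M * δ) _ fun x hx => ?_).trans ?_
  · rw [norm_mul, norm_mul, norm_mul, norm_ee, mul_one, Complex.norm_real,
      Real.norm_of_nonneg (wt_nonneg 1 x)]
    have h1 := ee_fr_close h hx
    have h2 : wt 1 x ≤ 1 := by
      have := Pool.Agent.TH339.MP.wt_one x
      rw [this, div_le_one (by have := two_le_qq x; positivity)]
      have := two_le_qq x
      exact_mod_cast (by omega : 1 ≤ qq x)
    have h0 := wt_nonneg 1 x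
    have hk : (0 : ℝ) < (x.2 + 1 : ℕ) := by positivity
    calc ‖b x‖ * wt 1 x * ‖ee (fr x) τ - 1‖ ≤ (M / (x.2 + 1 : ℕ)) * 1 * ((x.2 + 1 : ℕ) * δ) := by
          have := hb x
          gcongr
      _ = M * δ := by field_simp
  · rw [Finset.sum_const, nsmul_eq_mul]
    exact le_of_eq (by ring)

/-- closeness in the mean over the unit intervals -/
theorem ap_close {b : PP → ℂ} {M : ℝ} (hb : ∀ x, ‖b x‖ ≤ M / (x.2 + 1 : ℕ)) {g : ℝ → ℂ}
    {X : ℕ} (hX : 2 ≤ X) {δ τ η : ℝ} (h : Near X δ τ) (hg : ∀ t, ‖g (t + τ) - g t‖ ≤ η) (a : ℝ) :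
    ∫⁻ t in Set.Icc a (a + 1), ENNReal.ofReal (‖(g (t + τ) + bl b (t + τ)) - (g t + bl b t)‖ ^ 2) ≤
      ENNReal.ofReal (4 * (2 * (64800 * M ^ 2 / Real.log X) + (M * δ * (TX X).card) ^ 2 + η ^ 2)) := by
  have hM := M_nonneg hb
  have hl : 0 < Real.log X := Real.log_pos (by exact_mod_cast (by omega : 1 < X))
  obtain ⟨hm, -, hbd⟩ := boundary hb
  set f : ℝ → ℝ≥0∞ := fun u => ENNReal.ofReal (‖bl b u - PS b X u‖ ^ 2) with hf
  have hfm : AEMeasurable f := by
    exact ((hm.sub (continuous_PS b X).aemeasurable).norm.pow_const 2).ennreal_ofReal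
  set C : ℝ := (M * δ * (TX X).card) ^ 2 + η ^ 2 with hC
  have hpt : ∀ t, ENNReal.ofReal (‖(g (t + τ) + bl b (t + τ)) - (g t + bl b t)‖ ^ 2) ≤
      4 * (f (t + τ) + f t + ENNReal.ofReal C) := by
    intro t
    have h4 : (4 : ℝ≥0∞) = ENNReal.ofReal 4 := by simp
    rw [hf, h4, ← ENNReal.ofReal_add (by positivity) (by positivity),
      ← ENNReal.ofReal_add (by positivity) (by positivity), ← ENNReal.ofReal_mul (by norm_num)]
    refine ENNReal.ofReal_le_ofReal ?_
    have e : (g (t + τ) + bl b (t + τ)) - (g t + bl b t) =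
        (bl b (t + τ) - PS b X (t + τ)) + (-(bl b t - PS b X t)) +
          (PS b X (t + τ) - PS b X t) + (g (t + τ) - g t) := by ring
    have h1 := norm_add_le ((bl b (t + τ) - PS b X (t + τ)) + (-(bl b t - PS b X t)) +
          (PS b X (t + τ) - PS b X t)) (g (t + τ) - g t)
    have h2 := norm_add₃_le (a := bl b (t + τ) - PS b X (t + τ)) (b := -(bl b t - PS b X t))
      (c := PS b X (t + τ) - PS b X t)
    rw [norm_neg] at h2
    rw [e]
    have h5 := PS_close hb h t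
    have h6 := hg t
    have n1 := norm_nonneg (bl b (t + τ) - PS b X (t + τ))
    have n2 := norm_nonneg (bl b t - PS b X t)
    have n3 := norm_nonneg (PS b X (t + τ) - PS b X t)
    have n4 := norm_nonneg (g (t + τ) - g t)
    set A := ‖bl b (t + τ) - PS b X (t + τ)‖
    set B := ‖bl b t - PS b X t‖
    set U := ‖PS b X (t + τ) - PS b X t‖
    set V := ‖g (t + τ) - g t‖
    have h7 : U ^ 2 ≤ (M * δ * (TX X).card) ^ 2 := by gcongr
    have h8 : V ^ 2 ≤ η ^ 2 := by gcongr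
    calc _ ≤ (A + B + U + V) ^ 2 := by
          refine pow_le_pow_left₀ (norm_nonneg _) ?_ 2
          linarith
      _ ≤ 4 * (A ^ 2 + B ^ 2 + (U ^ 2 + V ^ 2)) := by
        nlinarith [sq_nonneg (A - B), sq_nonneg (A - U), sq_nonneg (A - V), sq_nonneg (B - U),
          sq_nonneg (B - V), sq_nonneg (U - V)]
      _ ≤ 4 * (A ^ 2 + B ^ 2 + C) := by
        rw [hC]
        linarith
  have htr : ∫⁻ t in Set.Icc a (a + 1), f (t + τ) = ∫⁻ t in Set.Icc (a + τ) (a + τ + 1), f t := by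
    have h1 := (measurePreserving_add_right (volume : Measure ℝ) τ).setLIntegral_comp_preimage_emb
      (measurableEmbedding_addRight τ) f (Set.Icc (a + τ) (a + τ + 1))
    rw [← h1]
    congr 2
    ext t
    simp only [Set.mem_preimage, Set.mem_Icc]
    constructor
    · rintro ⟨h2, h3⟩
      exact ⟨by linarith, by linarith⟩
    · rintro ⟨h2, h3⟩
      exact ⟨by linarith, by linarith⟩
  have hfm' : AEMeasurable (fun t => f (t + τ)) (volume.restrict (Set.Icc a (a + 1))) :=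
    (hfm.comp_quasiMeasurePreserving
      (measurePreserving_add_right (volume : Measure ℝ) τ).quasiMeasurePreserving).restrict
  calc _ ≤ ∫⁻ t in Set.Icc a (a + 1), 4 * (f (t + τ) + f t + ENNReal.ofReal C) :=
        lintegral_mono hpt
    _ = 4 * ((∫⁻ t in Set.Icc a (a + 1), f (t + τ)) + (∫⁻ t in Set.Icc a (a + 1), f t) +
        ENNReal.ofReal C) := by
      rw [lintegral_const_mul' _ _ (by norm_num), lintegral_add_right _ measurable_const,
        lintegral_add_left' hfm', setLIntegral_const, Real.volume_Icc]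
      congr 2
      rw [show a + 1 - a = 1 by ring, ENNReal.ofReal_one, mul_one]
    _ ≤ 4 * (ENNReal.ofReal (64800 * M ^ 2 / Real.log X) +
        ENNReal.ofReal (64800 * M ^ 2 / Real.log X) + ENNReal.ofReal C) := by
      rw [htr]
      gcongr
      · exact hbd X hX (a + τ)
      · exact hbd X hX a
    _ = _ := by
      have h4 : (4 : ℝ≥0∞) = ENNReal.ofReal 4 := by simp
      rw [h4, ← ENNReal.ofReal_add (by positivity) (by positivity),
        ← ENNReal.ofReal_add (by positivity) (by positivity), ← ENNReal.ofReal_mul (by norm_num)]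
      congr 1
      rw [hC]
      ring

/-! ### the primes above `6` -/

lemma log_lip {y y' : ℂ} (hy : ‖y‖ ≤ 958 / 1000) (hy' : ‖y'‖ ≤ 958 / 1000) :
    ‖Complex.log (1 - y') - Complex.log (1 - y)‖ ≤ 24 * ‖y' - y‖ := by
  have hd : ∀ z ∈ Metric.closedBall (0 : ℂ) (958 / 1000),
      HasDerivWithinAt (fun z => Complex.log (1 - z)) (-(1 / (1 - z)))
        (Metric.closedBall (0 : ℂ) (958 / 1000)) z := by
    intro z hz
    rw [mem_closedBall_zero_iff] at hz
    have hre : 1 - z ∈ Complex.slitPlane := by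
      left
      have h1 := (Complex.re_le_norm z).trans hz
      rw [Complex.sub_re, Complex.one_re]
      linarith
    have h1 : HasDerivAt (fun z : ℂ => 1 - z) (-1) z := by
      simpa using (hasDerivAt_id z).const_sub (1 : ℂ)
    have h2 := h1.clog hre
    rw [← neg_div]
    exact h2.hasDerivWithinAt
  have hb : ∀ z ∈ Metric.closedBall (0 : ℂ) (958 / 1000), ‖-(1 / (1 - z))‖ ≤ 24 := by
    intro z hz
    rw [mem_closedBall_zero_iff] at hz
    rw [norm_neg, norm_div, norm_one]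
    have h1 : 42 / 1000 ≤ ‖1 - z‖ := by
      have h2 := norm_sub_norm_le (1 : ℂ) z
      rw [norm_one] at h2
      linarith
    rw [div_le_iff₀ (by linarith)]
    linarith
  exact (convex_closedBall (0 : ℂ) (958 / 1000)).norm_image_sub_le_of_norm_hasDerivWithin_le hd hb
    (mem_closedBall_zero_iff.2 hy) (mem_closedBall_zero_iff.2 hy')

section
variable {K : Type} [Field K] [NumberField K] {c : ℕ → ℂ} (hc : ∀ n, ‖c n‖ ≤ 1)
  (W : HeightOneSpectrum (𝓞 K) → WeierstrassCurve (𝓞 K))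

lemma nm_close {δ τ : ℝ} (h : Near 3 δ τ) {v : HeightOneSpectrum (𝓞 K)}
    (hv : v ∈ (S6 : Finset (HeightOneSpectrum (𝓞 K)))) :
    ‖((nm v : ℕ) : ℂ) ^ (-((τ : ℂ) * Complex.I)) - 1‖ ≤ Module.finrank ℚ K * δ ∧
      ‖((nm v : ℕ) : ℂ) ^ (-((τ : ℂ) * Complex.I))‖ = 1 := by
  classical
  have hpr : (pr v : ℕ) ≤ 3 := by
    unfold Pool.Agent.TH339.MP.S6 at hv
    rcases Finset.mem_union.1 hv with h1 | h1
    · have h2 := (mem_Sp _ _).1 h1
      rw [h2]
      decide
    · have h2 := (mem_Sp _ _).1 h1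
      rw [h2]
  have hdg : dg v ≤ Module.finrank ℚ K := by
    have h1 := sum_dg_le (K := K) (pr v)
    refine le_trans ?_ h1
    exact Finset.single_le_sum (f := fun v => dg v) (fun _ _ => Nat.zero_le _)
      ((mem_Sp _ _).2 rfl)
  have hp := (pr v).2
  have hpe : ((pr v : ℕ) : ℂ) ^ (-((τ : ℂ) * Complex.I)) = ee (-Real.log (pr v : ℕ)) τ := by
    have h1 := Pool.Agent.TH339.MP.cpow_eq (pr v) 0 τ
    rw [Complex.ofReal_zero, zero_add, neg_zero, Real.rpow_zero, Complex.ofReal_one, one_mul] at h1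
    exact h1
  have hq : ((nm v : ℕ) : ℂ) ^ (-((τ : ℂ) * Complex.I)) = ee (-Real.log (pr v : ℕ)) τ ^ dg v := by
    rw [← hpe]
    exact Pool.Agent.TH339.MP.nm_cpow v _
  have h0 := h (pr v) hp hpr
  have hδ : 0 ≤ δ := (norm_nonneg _).trans h0
  rw [hq]
  refine ⟨(pow_sub_one_le (norm_ee _ _).le _).trans ?_, ?_⟩
  · gcongr
  · rw [norm_pow, norm_ee, one_pow]

include hc in
lemma lec_close {δ τ : ℝ} (h : Near 3 δ τ) {v : HeightOneSpectrum (𝓞 K)}
    (hv : v ∈ (S6 : Finset (HeightOneSpectrum (𝓞 K)))) {s : ℂ} (hs : 3 / 2 ≤ s.re) :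
    ‖lec c W v (s + τ * Complex.I) - lec c W v s‖ ≤ 32 * (Module.finrank ℚ K * δ) := by
  classical
  obtain ⟨h1, h2⟩ := nm_close h hv
  have hs' : 3 / 2 ≤ (s + τ * Complex.I).re := by simpa using hs
  have hn : ((nm v : ℕ) : ℂ) ≠ 0 := by
    have := two_le_nm v
    exact Nat.cast_ne_zero.2 (by omega)
  set u : ℂ := ((nm v : ℕ) : ℂ) ^ (-((τ : ℂ) * Complex.I)) with hu
  have hx : ((nm v : ℕ) : ℂ) ^ (-(s + τ * Complex.I)) = ((nm v : ℕ) : ℂ) ^ (-s) * u := by
    rw [neg_add, Complex.cpow_add _ _ hn]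
  obtain ⟨q1, q2, q3⟩ := q_half (two_le_nm v) hs
  have hcx := norm_cx hc v s
  set Y : ℂ := c (nm v) * ((nm v : ℕ) : ℂ) ^ (-s) with hY
  have hYn := norm_nonneg Y
  have hdiff : yv c W v (s + τ * Complex.I) - yv c W v s =
      (av W v : ℂ) * Y * (u - 1) -
        (if (W v).Δ ∈ v.asIdeal then 0 else ((nm v : ℕ) : ℂ)) * Y ^ 2 * ((u - 1) * (u + 1)) := by
    unfold yv
    rw [hx, hY]
    ring
  have hu1 : ‖u + 1‖ ≤ 2 := by
    refine (norm_add_le _ _).trans ?_
    rw [h2, norm_one]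
    norm_num
  have h7 : ‖(if (W v).Δ ∈ v.asIdeal then (0 : ℂ) else ((nm v : ℕ) : ℂ))‖ ≤ (nm v : ℝ) := by
    split_ifs
    · simp
    · simp
  have hy : ‖yv c W v (s + τ * Complex.I) - yv c W v s‖ ≤ 1.3 * ‖u - 1‖ := by
    rw [hdiff]
    refine (norm_sub_le _ _).trans ?_
    have t1 : ‖(av W v : ℂ) * Y * (u - 1)‖ ≤ 708 / 1000 * ‖u - 1‖ := by
      rw [norm_mul, norm_mul, Complex.norm_real]
      refine mul_le_mul_of_nonneg_right ?_ (norm_nonneg _)
      exact (mul_le_mul (av_triv W v) hcx hYn (Nat.cast_nonneg _)).trans q1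
    have t2 : ‖(if (W v).Δ ∈ v.asIdeal then 0 else ((nm v : ℕ) : ℂ)) * Y ^ 2 *
        ((u - 1) * (u + 1))‖ ≤ 1 / 4 * (‖u - 1‖ * 2) := by
      rw [norm_mul, norm_mul, norm_mul, norm_pow]
      refine mul_le_mul ?_ (by gcongr) (by positivity) (by norm_num)
      exact (mul_le_mul h7 (pow_le_pow_left₀ hYn hcx 2) (by positivity)
        (Nat.cast_nonneg _)).trans q2
    have := norm_nonneg (u - 1)
    linarith
  have hlog := log_lip (norm_yv hc W v hs) (norm_yv hc W v hs')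
  unfold lec
  rw [show -Complex.log (1 - yv c W v (s + τ * Complex.I)) - -Complex.log (1 - yv c W v s) =
    -(Complex.log (1 - yv c W v (s + τ * Complex.I)) - Complex.log (1 - yv c W v s)) by ring,
    norm_neg]
  have := norm_nonneg (u - 1)
  linarith

include hc in
lemma h6_close {δ τ : ℝ} (h : Near 3 δ τ) {s : ℂ} (hs : 3 / 2 ≤ s.re) :
    ‖h6 c W (s + τ * Complex.I) - h6 c W s‖ ≤ 64 * (Module.finrank ℚ K : ℝ) ^ 2 * δ := by
  have hδ : 0 ≤ δ := (norm_nonneg _).trans (h 2 Nat.prime_two (by norm_num))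
  unfold h6
  rw [← Finset.sum_sub_distrib]
  refine (norm_sum_le_of_le (n := fun _ => 32 * (Module.finrank ℚ K * δ)) _
    fun v hv => lec_close hc W h hv hs).trans ?_
  rw [Finset.sum_const, nsmul_eq_mul]
  have h1 : ((S6 : Finset (HeightOneSpectrum (𝓞 K))).card : ℝ) ≤ 2 * Module.finrank ℚ K := by
    exact_mod_cast card_S6
  calc _ ≤ (2 * Module.finrank ℚ K : ℝ) * (32 * (Module.finrank ℚ K * δ)) := by gcongr
    _ = _ := by ring

end

end Pool.Agent.Q9.EL
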