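import Mathlib

/-!
# Chebyshev polynomials of the second kind on ellipses
-/

set_option autoImplicit false

namespace Pool.Agent.Q9.EL

open MeasureTheory Filter Topology Polynomial Finset
open Polynomial.Chebyshev (U T)

/-- the ellipse with the foci `±1` and the sum of the semi-axes `r` -/
def ell (r : ℝ) : Set ℂ := {z : ℂ | ‖z - 1‖ + ‖z + 1‖ < r + 1 / r}

lemma isOpen_ell (r : ℝ) : IsOpen (ell r) := isOpen_lt (by fun_prop) continuous_const

lemma convex_ell (r : ℝ) : Convex ℝ (ell r) := by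
  have h1 : ConvexOn ℝ Set.univ (fun z : ℂ => ‖z - 1‖) := by
    have := (convexOn_univ_norm (E := ℂ)).translate_left (-1)
    simpa [Function.comp_def, sub_eq_add_neg, add_comm] using this
  have h2 : ConvexOn ℝ Set.univ (fun z : ℂ => ‖z + 1‖) := by
    have := (convexOn_univ_norm (E := ℂ)).translate_left 1
    simpa [Function.comp_def, add_comm] using this
  have h3 := (h1.add h2).convex_lt (r + 1 / r)
  simpa [ell] using h3

lemma norm_cos_sub (θ : ℂ) : ‖Complex.cos θ - 1‖ = Real.cosh θ.im - Real.cos θ.re := by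
  have h1 : 0 ≤ Real.cosh θ.im - Real.cos θ.re := by
    have := Real.one_le_cosh θ.im
    have := Real.cos_le_one θ.re
    linarith
  rw [Complex.norm_def, ← Real.sqrt_sq h1]
  congr 1
  rw [Complex.cos_eq, Complex.normSq_apply]
  have e1 : (Complex.cos (θ.re : ℂ)) = ((Real.cos θ.re : ℝ) : ℂ) := by push_cast; rfl
  have e2 : (Complex.cosh (θ.im : ℂ)) = ((Real.cosh θ.im : ℝ) : ℂ) := by push_cast; rfl
  have e3 : (Complex.sin (θ.re : ℂ)) = ((Real.sin θ.re : ℝ) : ℂ) := by push_cast; rfl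
  have e4 : (Complex.sinh (θ.im : ℂ)) = ((Real.sinh θ.im : ℝ) : ℂ) := by push_cast; rfl
  rw [e1, e2, e3, e4]
  simp only [Complex.sub_re, Complex.mul_re, Complex.ofReal_re, Complex.ofReal_im, mul_zero,
    sub_zero, Complex.I_re, Complex.mul_im, zero_mul, add_zero, Complex.I_im, mul_one,
    Complex.one_re, Complex.sub_im, Complex.one_im, zero_sub, sub_self]
  have h5 := Real.sin_sq_add_cos_sq θ.re
  have h6 := Real.cosh_sq θ.im
  have h7 : Real.sinh θ.im ^ 2 = Real.cosh θ.im ^ 2 - 1 := by linarith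
  have h8 : Real.sin θ.re ^ 2 = 1 - Real.cos θ.re ^ 2 := by linarith
  calc _ = Real.cos θ.re ^ 2 * Real.cosh θ.im ^ 2 - 2 * (Real.cos θ.re * Real.cosh θ.im) + 1 +
        Real.sin θ.re ^ 2 * Real.sinh θ.im ^ 2 := by ring
    _ = _ := by
        rw [h7, h8]
        ring

lemma norm_cos_add (θ : ℂ) : ‖Complex.cos θ + 1‖ = Real.cosh θ.im + Real.cos θ.re := by
  have h := norm_cos_sub (θ + Real.pi)
  rw [Complex.cos_add_pi] at h
  have e1 : -Complex.cos θ - 1 = -(Complex.cos θ + 1) := by ring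
  rw [e1, norm_neg] at h
  rw [h]
  simp [Real.cos_add_pi]

lemma cos_mem_ell {r : ℝ} (hr : 1 < r) (θ : ℂ) : Complex.cos θ ∈ ell r ↔ |θ.im| < Real.log r := by
  have hr0 : 0 < r := by linarith
  have h1 : 0 < Real.log r := Real.log_pos hr
  have h2 : Real.cosh (Real.log r) = (r + 1 / r) / 2 := by
    rw [Real.cosh_log hr0, one_div]
  unfold ell
  rw [Set.mem_ofPred_eq, norm_cos_sub, norm_cos_add]
  have h3 : Real.cosh θ.im < Real.cosh (Real.log r) ↔ |θ.im| < |Real.log r| := Real.cosh_lt_cosh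
  rw [abs_of_pos h1] at h3
  rw [← h3, h2]
  constructor
  · intro h
    linarith
  · intro h
    linarith

lemma norm_cos_le (θ : ℂ) : ‖Complex.cos θ‖ ≤ Real.exp |θ.im| := by
  unfold Complex.cos
  rw [norm_div, Complex.norm_ofNat, div_le_iff₀ two_pos]
  refine (norm_add_le _ _).trans ?_
  rw [Complex.norm_exp, Complex.norm_exp]
  have e1 : (θ * Complex.I).re = -θ.im := by simp
  have e2 : (-θ * Complex.I).re = θ.im := by simp
  rw [e1, e2]
  have h1 : Real.exp (-θ.im) ≤ Real.exp |θ.im| := Real.exp_le_exp.2 (neg_le_abs _)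
  have h2 : Real.exp θ.im ≤ Real.exp |θ.im| := Real.exp_le_exp.2 (le_abs_self _)
  linarith

lemma norm_U_cos_le (n : ℕ) (θ : ℂ) :
    ‖(U ℂ n).eval (Complex.cos θ)‖ ≤ (n + 1) * Real.exp |θ.im| ^ n := by
  induction n with
  | zero => simp
  | succ n ih =>
    have h1 := Polynomial.Chebyshev.U_eq_X_mul_U_add_T ℂ n
    have h2 : (U ℂ ((n + 1 : ℕ) : ℤ)).eval (Complex.cos θ) =
        Complex.cos θ * (U ℂ n).eval (Complex.cos θ) + Complex.cos (((n + 1 : ℕ) : ℂ) * θ) := by
      push_cast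
      rw [h1, eval_add, eval_mul, eval_X, Polynomial.Chebyshev.T_complex_cos]
      push_cast
      ring
    rw [h2]
    have h3 : ‖Complex.cos (((n + 1 : ℕ) : ℂ) * θ)‖ ≤ Real.exp |θ.im| ^ (n + 1) := by
      refine (norm_cos_le _).trans (le_of_eq ?_)
      rw [← Real.exp_nat_mul]
      congr 1
      have : (((n + 1 : ℕ) : ℂ) * θ).im = ((n + 1 : ℕ) : ℝ) * θ.im := by
        rw [Complex.mul_im, Complex.natCast_re, Complex.natCast_im, zero_mul, add_zero]
      rw [this, abs_mul, Nat.abs_cast]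
    refine (norm_add_le _ _).trans ?_
    rw [norm_mul]
    have hE : 0 ≤ Real.exp |θ.im| := (Real.exp_pos _).le
    calc _ ≤ Real.exp |θ.im| * ((n + 1) * Real.exp |θ.im| ^ n) + Real.exp |θ.im| ^ (n + 1) :=
          add_le_add (mul_le_mul (norm_cos_le θ) ih (norm_nonneg _) hE) h3
      _ = _ := by
          push_cast
          ring

/-- the bound on the ellipse -/
lemma norm_U_le {r : ℝ} (hr : 1 < r) (n : ℕ) {z : ℂ} (hz : z ∈ ell r) :
    ‖(U ℂ n).eval z‖ ≤ (n + 1) * r ^ n := by
  obtain ⟨θ, rfl⟩ := Complex.cos_surjective z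
  have h1 := (cos_mem_ell hr θ).1 hz
  refine (norm_U_cos_le n θ).trans ?_
  have h2 : Real.exp |θ.im| ≤ r := by
    rw [← Real.le_log_iff_exp_le (by linarith)]
    exact h1.le
  gcongr

/-! ### the contour shift -/

/-- the trigonometric integral over the full period -/
lemma integral_full {g : ℝ → ℂ} (hg : Continuous g) :
    ∫ x in (-Real.pi)..Real.pi, g x = ∫ x in (0 : ℝ)..Real.pi, (g x + g (-x)) := by
  rw [← intervalIntegral.integral_add_adjacent_intervals (hg.intervalIntegrable (-Real.pi) 0)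
    (hg.intervalIntegrable 0 Real.pi)]
  have h1 : ∫ x in (0 : ℝ)..Real.pi, (g x + g (-x)) =
      (∫ x in (0 : ℝ)..Real.pi, g x) + ∫ x in (0 : ℝ)..Real.pi, g (-x) :=
    intervalIntegral.integral_add (hg.intervalIntegrable _ _)
      ((hg.comp continuous_neg).intervalIntegrable _ _)
  rw [h1, intervalIntegral.integral_comp_neg, neg_zero]
  ring

/-- the contour shift for a function analytic on an ellipse -/
lemma shift_bound {φ : ℂ → ℂ} {r ρ : ℝ} (hr : 1 < r) (hrρ : r < ρ)
    (hφ : DifferentiableOn ℂ φ (ell ρ)) :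
    ∃ C : ℝ, ∀ k : ℕ, ‖∫ θ in (0 : ℝ)..Real.pi, φ (Complex.cos θ) *
      (Complex.sin θ * Complex.sin (k * θ))‖ ≤ C * (1 / r) ^ k := by
  have hρ : 1 < ρ := hr.trans hrρ
  have hr0 : 0 < r := by linarith
  set y : ℝ := Real.log r with hy
  have hy0 : 0 < y := Real.log_pos hr
  have hyρ : y < Real.log ρ := Real.log_lt_log hr0 hrρ
  have hmem : ∀ θ : ℂ, |θ.im| ≤ y → Complex.cos θ ∈ ell ρ := fun θ hθ =>
    (cos_mem_ell hρ θ).2 (hθ.trans_lt hyρ)
  -- continuity of `φ ∘ cos` along horizontal lines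
  have hcont : ∀ c : ℝ, |c| ≤ y → Continuous fun x : ℝ => φ (Complex.cos (x + c * Complex.I)) := by
    intro c hc
    refine hφ.continuousOn.comp_continuous (by fun_prop) fun x => hmem _ ?_
    simpa using hc
  have hc0 : Continuous fun x : ℝ => φ (Complex.cos x) := by
    have := hcont 0 (by rw [abs_zero]; exact hy0.le)
    simpa using this
  -- the bound on the top side
  obtain ⟨B, hB⟩ := (isCompact_Icc (a := -Real.pi) (b := Real.pi)).exists_bound_of_continuousOn
    ((hcont y (by rw [abs_of_pos hy0])).mul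
      (by fun_prop : Continuous fun x : ℝ => Complex.sin (x + y * Complex.I))).continuousOn
  refine ⟨Real.pi * |B|, fun k => ?_⟩
  set Ψ : ℂ → ℂ := fun θ => φ (Complex.cos θ) * (Complex.sin θ * Complex.exp (k * θ * Complex.I))
    with hΨ
  have hdiff : DifferentiableOn ℂ Ψ (Set.uIcc (-Real.pi) Real.pi ×ℂ Set.uIcc 0 y) := by
    intro θ hθ
    have h1 : θ.im ∈ Set.uIcc 0 y := hθ.2
    rw [Set.uIcc_of_le hy0.le] at h1
    have h2 : |θ.im| ≤ y := by
      rw [abs_of_nonneg h1.1]
      exact h1.2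
    have h3 : DifferentiableAt ℂ φ (Complex.cos θ) :=
      hφ.differentiableAt ((isOpen_ell ρ).mem_nhds (hmem θ h2))
    have h4 : DifferentiableAt ℂ (fun θ => φ (Complex.cos θ)) θ :=
      DifferentiableAt.comp θ h3 Complex.differentiable_cos.differentiableAt
    exact (h4.mul (by fun_prop)).differentiableWithinAt
  have hrect := Complex.integral_boundary_rect_eq_zero_of_differentiableOn Ψ
    ((-Real.pi : ℝ) : ℂ) ((Real.pi : ℝ) + (y : ℝ) * Complex.I) (by simpa using hdiff)
  have hper : ∀ t : ℝ, Ψ (((Real.pi : ℝ) : ℂ) + t * Complex.I) =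
      Ψ (((-Real.pi : ℝ) : ℂ) + t * Complex.I) := by
    intro t
    have e : ((Real.pi : ℝ) : ℂ) + t * Complex.I =
        ((-Real.pi : ℝ) : ℂ) + t * Complex.I + 2 * Real.pi := by
      push_cast
      ring
    rw [e, hΨ]
    simp only
    rw [Complex.cos_add_two_pi, Complex.sin_add_two_pi]
    congr 2
    rw [mul_add, add_mul, Complex.exp_add]
    have : Complex.exp ((k : ℂ) * (2 * Real.pi) * Complex.I) = 1 := by
      rw [Complex.exp_eq_one_iff]
      exact ⟨k, by push_cast; ring⟩
    rw [this, mul_one]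
  simp only [Complex.ofReal_re, Complex.ofReal_im, Complex.add_re, Complex.mul_re, Complex.I_re,
    mul_zero, Complex.I_im, mul_one, sub_self, add_zero, Complex.add_im, Complex.mul_im, zero_add,
    Complex.ofReal_zero, zero_mul] at hrect
  simp_rw [hper] at hrect
  rw [add_sub_cancel_right, sub_eq_zero] at hrect
  -- the full integral
  have hfull : ∫ x in (-Real.pi)..Real.pi, Ψ x = 2 * Complex.I *
      ∫ θ in (0 : ℝ)..Real.pi, φ (Complex.cos θ) * (Complex.sin θ * Complex.sin (k * θ)) := by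
    have hcΨ : Continuous fun x : ℝ => Ψ x :=
      hc0.mul (by fun_prop : Continuous fun x : ℝ =>
        Complex.sin (x : ℂ) * Complex.exp (k * (x : ℂ) * Complex.I))
    rw [integral_full hcΨ, ← intervalIntegral.integral_const_mul]
    refine intervalIntegral.integral_congr fun x _ => ?_
    simp only [hΨ]
    push_cast
    rw [Complex.cos_neg, Complex.sin_neg]
    have h1 : Complex.exp ((k : ℂ) * x * Complex.I) =
        Complex.cos (k * x) + Complex.sin (k * x) * Complex.I := Complex.exp_mul_I _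
    have h2 : Complex.exp ((k : ℂ) * (-(x : ℂ)) * Complex.I) =
        Complex.cos (k * x) - Complex.sin (k * x) * Complex.I := by
      have e : (k : ℂ) * (-(x : ℂ)) * Complex.I = (-((k : ℂ) * x)) * Complex.I := by ring
      rw [e, Complex.exp_mul_I, Complex.cos_neg, Complex.sin_neg]
      ring
    rw [h1, h2]
    ring
  have htop : ‖∫ x in (-Real.pi)..Real.pi, Ψ (x + y * Complex.I)‖ ≤
      |B| * (1 / r) ^ k * |Real.pi - -Real.pi| := by
    refine intervalIntegral.norm_integral_le_of_norm_le_const fun x hx => ?_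
    rw [Set.uIoc_of_le (by linarith [Real.pi_pos])] at hx
    have h1 := hB x ⟨hx.1.le, hx.2⟩
    have h2 : ‖Complex.exp ((k : ℂ) * (x + y * Complex.I) * Complex.I)‖ = (1 / r) ^ k := by
      rw [Complex.norm_exp]
      have : ((k : ℂ) * (x + y * Complex.I) * Complex.I).re = (k : ℝ) * (-y) := by
        simp
      rw [this, Real.exp_nat_mul, Real.exp_neg, hy, Real.exp_log hr0, one_div]
    rw [hΨ]
    simp only
    rw [← mul_assoc, norm_mul, h2]
    gcongr
    exact h1.trans (le_abs_self B)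
  rw [hrect] at hfull
  have h5 : ‖2 * Complex.I * ∫ θ in (0 : ℝ)..Real.pi, φ (Complex.cos θ) *
      (Complex.sin θ * Complex.sin (k * θ))‖ ≤ |B| * (1 / r) ^ k * |Real.pi - -Real.pi| := by
    rw [← hfull]
    exact htop
  rw [norm_mul, norm_mul, Complex.norm_I, Complex.norm_ofNat, mul_one] at h5
  have h6 : |Real.pi - -Real.pi| = 2 * Real.pi := by
    rw [abs_of_pos (by linarith [Real.pi_pos])]
    ring
  rw [h6] at h5
  nlinarith [h5]

end Pool.Agent.Q9.EL
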