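import Pool.Agent.Q9.EL.Bes1

/-!
# Chebyshev coefficients and analyticity
-/

set_option autoImplicit false

namespace Pool.Agent.Q9.EL

open MeasureTheory Filter Topology Polynomial Finset
open Polynomial.Chebyshev (U T)

/-- the Chebyshev coefficients of the second kind of a function on `[-1, 1]` -/
noncomputable def chc (f : ℝ → ℂ) (n : ℕ) : ℂ :=
  (2 / Real.pi) * ∫ u in (-1 : ℝ)..1, f u * ((U ℂ n).eval (u : ℂ) * ((Real.sqrt (1 - u ^ 2) : ℝ) : ℂ))

/-- the substitution `u = cos θ` -/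
lemma cos_subst {g : ℝ → ℂ} (hg : ContinuousOn g (Set.Icc (-1) 1)) :
    ∫ u in (-1 : ℝ)..1, g u = ∫ θ in (0 : ℝ)..Real.pi, (Real.sin θ : ℂ) * g (Real.cos θ) := by
  have h := intervalIntegral.integral_deriv_smul_comp' (a := 0) (b := Real.pi) (f := Real.cos)
    (f' := fun x => -Real.sin x) (g := g) (fun x _ => Real.hasDerivAt_cos x)
    (by fun_prop) (hg.mono (by
      rintro _ ⟨x, _, rfl⟩
      exact ⟨Real.neg_one_le_cos x, Real.cos_le_one x⟩))
  have h3 : ∫ x in (1 : ℝ)..(-1), g x = -∫ x in (-1 : ℝ)..1, g x :=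
    intervalIntegral.integral_symm _ _
  rw [Real.cos_zero, Real.cos_pi, h3] at h
  have h2 : ∫ θ in (0 : ℝ)..Real.pi, (-Real.sin θ) • (g ∘ Real.cos) θ =
      -∫ θ in (0 : ℝ)..Real.pi, (Real.sin θ : ℂ) * g (Real.cos θ) := by
    rw [← intervalIntegral.integral_neg]
    refine intervalIntegral.integral_congr fun x _ => ?_
    simp
  rw [h2] at h
  exact (neg_injective h).symm

lemma sqrt_cos {θ : ℝ} (h0 : 0 ≤ θ) (h1 : θ ≤ Real.pi) :
    Real.sqrt (1 - Real.cos θ ^ 2) = Real.sin θ := by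
  have h := Real.sin_sq_add_cos_sq θ
  have e : 1 - Real.cos θ ^ 2 = Real.sin θ ^ 2 := by linarith
  rw [e, Real.sqrt_sq (Real.sin_nonneg_of_nonneg_of_le_pi h0 h1)]

lemma continuous_w : Continuous fun u : ℝ => ((Real.sqrt (1 - u ^ 2) : ℝ) : ℂ) := by
  fun_prop

lemma continuous_U (n : ℤ) : Continuous fun u : ℝ => (U ℂ n).eval (u : ℂ) := by
  fun_prop

/-- the coefficients of a continuous function as trigonometric integrals -/
lemma chc_cos {g : ℝ → ℂ} (hg : ContinuousOn g (Set.Icc (-1) 1)) (n : ℕ) :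
    chc g n = (2 / Real.pi) * ∫ θ in (0 : ℝ)..Real.pi, g (Real.cos θ) *
      (Complex.sin θ * Complex.sin (((n + 1 : ℕ) : ℂ) * θ)) := by
  unfold chc
  rw [cos_subst (g := fun u : ℝ => g u * ((U ℂ n).eval (u : ℂ) *
    ((Real.sqrt (1 - u ^ 2) : ℝ) : ℂ))) (hg.mul ((continuous_U n).mul continuous_w).continuousOn)]
  congr 1
  refine intervalIntegral.integral_congr fun θ hθ => ?_
  rw [Set.uIcc_of_le Real.pi_pos.le] at hθ
  rw [sqrt_cos hθ.1 hθ.2]
  have h1 := Polynomial.Chebyshev.U_complex_cos (θ : ℂ) n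
  push_cast at h1 ⊢
  rw [← h1]
  ring

/-- **the coefficients of an analytic function decay geometrically** -/
lemma chc_bound {φ : ℂ → ℂ} {r ρ : ℝ} (hr : 1 < r) (hrρ : r < ρ)
    (hφ : DifferentiableOn ℂ φ (ell ρ)) :
    ∃ C : ℝ, ∀ n : ℕ, ‖chc (fun u => φ u) n‖ ≤ C * (1 / r) ^ n := by
  obtain ⟨C, hC⟩ := shift_bound hr hrρ hφ
  have hρ : 1 < ρ := hr.trans hrρ
  have hmem : ∀ u : ℝ, u ∈ Set.Icc (-1 : ℝ) 1 → (u : ℂ) ∈ ell ρ := by
    intro u hu
    have : (u : ℂ) = Complex.cos ((Real.arccos u : ℝ) : ℂ) := by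
      rw [← Complex.ofReal_cos, Real.cos_arccos hu.1 hu.2]
    rw [this, cos_mem_ell hρ]
    simpa using Real.log_pos hρ
  have hcont : ContinuousOn (fun u : ℝ => φ u) (Set.Icc (-1) 1) :=
    hφ.continuousOn.comp Complex.continuous_ofReal.continuousOn hmem
  have hr0 : 0 < 1 / r := by positivity
  refine ⟨2 / Real.pi * (|C| * (1 / r)), fun n => ?_⟩
  rw [chc_cos hcont, norm_mul]
  have h1 := hC (n + 1)
  have e : ‖(2 / Real.pi : ℂ)‖ = 2 / Real.pi := by
    rw [norm_div, Complex.norm_ofNat, Complex.norm_real, Real.norm_of_nonneg Real.pi_pos.le]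
  rw [e, mul_assoc]
  refine mul_le_mul_of_nonneg_left ?_ (by positivity)
  have h2 : ∫ θ in (0 : ℝ)..Real.pi, φ ((Real.cos θ : ℝ) : ℂ) *
      (Complex.sin θ * Complex.sin (((n + 1 : ℕ) : ℂ) * θ)) =
      ∫ θ in (0 : ℝ)..Real.pi, φ (Complex.cos θ) *
      (Complex.sin θ * Complex.sin (((n + 1 : ℕ) : ℂ) * θ)) := by
    refine intervalIntegral.integral_congr fun θ _ => ?_
    simp only [Complex.ofReal_cos]
  rw [h2]
  refine h1.trans ?_
  rw [pow_succ]
  have : C * ((1 / r) ^ n * (1 / r)) ≤ |C| * ((1 / r) ^ n * (1 / r)) :=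
    mul_le_mul_of_nonneg_right (le_abs_self C) (by positivity)
  refine this.trans (le_of_eq ?_)
  ring

/-- orthogonality -/
lemma sin_orth (m n : ℕ) : ∫ θ in (0 : ℝ)..Real.pi,
    Complex.sin (((m + 1 : ℕ) : ℂ) * θ) * Complex.sin (((n + 1 : ℕ) : ℂ) * θ) =
      if m = n then (Real.pi / 2 : ℂ) else 0 := by
  have h1 : ∀ k : ℤ, ∫ θ in (0 : ℝ)..Real.pi, Complex.cos ((k : ℂ) * θ) =
      if k = 0 then (Real.pi : ℂ) else 0 := by
    intro k
    split_ifs with hk
    · subst hk
      simp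
    · have hk' : (k : ℂ) ≠ 0 := by exact_mod_cast hk
      rw [integral_cos_mul_complex hk']
      have : Complex.sin ((k : ℂ) * (Real.pi : ℝ)) = 0 := Complex.sin_int_mul_pi k
      rw [this]
      simp
  have h2 : ∀ θ : ℝ, Complex.sin (((m + 1 : ℕ) : ℂ) * θ) * Complex.sin (((n + 1 : ℕ) : ℂ) * θ) =
      (1 / 2) * (Complex.cos ((((m : ℤ) - n : ℤ) : ℂ) * θ) -
        Complex.cos ((((m : ℤ) + n + 2 : ℤ) : ℂ) * θ)) := by
    intro θ
    have e1 : (((m : ℤ) - n : ℤ) : ℂ) * θ = ((m + 1 : ℕ) : ℂ) * θ - ((n + 1 : ℕ) : ℂ) * θ := by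
      push_cast
      ring
    have e2 : (((m : ℤ) + n + 2 : ℤ) : ℂ) * θ = ((m + 1 : ℕ) : ℂ) * θ + ((n + 1 : ℕ) : ℂ) * θ := by
      push_cast
      ring
    rw [e1, e2, Complex.cos_sub, Complex.cos_add]
    ring
  simp_rw [h2]
  rw [intervalIntegral.integral_const_mul, intervalIntegral.integral_sub, h1, h1]
  · have h3 : (m : ℤ) + n + 2 ≠ 0 := by omega
    rw [if_neg h3]
    by_cases h : m = n
    · subst h
      simp
      ring
    · have h4 : (m : ℤ) - n ≠ 0 := by omega
      rw [if_neg h4, if_neg h]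
      simp
  · exact (by fun_prop : Continuous fun θ : ℝ =>
      Complex.cos ((((m : ℤ) - n : ℤ) : ℂ) * θ)).intervalIntegrable _ _
  · exact (by fun_prop : Continuous fun θ : ℝ =>
      Complex.cos ((((m : ℤ) + n + 2 : ℤ) : ℂ) * θ)).intervalIntegrable _ _

lemma chc_U (m n : ℕ) : chc (fun u => (U ℂ m).eval (u : ℂ)) n = if m = n then 1 else 0 := by
  rw [chc_cos (continuous_U m).continuousOn]
  have h1 : ∫ θ in (0 : ℝ)..Real.pi, (U ℂ m).eval ((Real.cos θ : ℝ) : ℂ) *
      (Complex.sin θ * Complex.sin (((n + 1 : ℕ) : ℂ) * θ)) =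
      ∫ θ in (0 : ℝ)..Real.pi,
        Complex.sin (((m + 1 : ℕ) : ℂ) * θ) * Complex.sin (((n + 1 : ℕ) : ℂ) * θ) := by
    refine intervalIntegral.integral_congr fun θ _ => ?_
    have h1 := Polynomial.Chebyshev.U_complex_cos (θ : ℂ) m
    push_cast at h1 ⊢
    rw [← h1]
    ring
  rw [h1, sin_orth]
  have hpi : (Real.pi : ℂ) ≠ 0 := by exact_mod_cast Real.pi_ne_zero
  split_ifs
  · field_simp
  · simp

/-! ### completeness -/

section
variable {Φ : ℝ → ℂ}

lemma int_poly (hΦ : IntervalIntegrable Φ volume (-1) 1) (P : ℂ[X]) :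
    IntervalIntegrable (fun u : ℝ => Φ u * P.eval (u : ℂ)) volume (-1) 1 :=
  hΦ.mul_continuousOn (by fun_prop : Continuous fun u : ℝ => P.eval (u : ℂ)).continuousOn

lemma moments_zero (hΦ : IntervalIntegrable Φ volume (-1) 1)
    (h : ∀ n : ℕ, ∫ u in (-1 : ℝ)..1, Φ u * (U ℂ n).eval (u : ℂ) = 0) (P : ℂ[X]) :
    ∫ u in (-1 : ℝ)..1, Φ u * P.eval (u : ℂ) = 0 := by
  let Λ : ℂ[X] →ₗ[ℂ] ℂ :=
    { toFun := fun P => ∫ u in (-1 : ℝ)..1, Φ u * P.eval (u : ℂ)
      map_add' := by
        intro P Q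
        rw [← intervalIntegral.integral_add (int_poly hΦ P) (int_poly hΦ Q)]
        refine intervalIntegral.integral_congr fun u _ => ?_
        simp only [eval_add]
        ring
      map_smul' := by
        intro a P
        rw [RingHom.id_apply, smul_eq_mul, ← intervalIntegral.integral_const_mul]
        refine intervalIntegral.integral_congr fun u _ => ?_
        simp only [eval_smul, smul_eq_mul]
        ring }
  have hU : ∀ n : ℤ, Λ (U ℂ n) = 0 := by
    intro n
    rcases le_or_gt 0 n with hn | hn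
    · obtain ⟨k, rfl⟩ := Int.eq_ofNat_of_zero_le hn
      exact h k
    · obtain ⟨k, hk⟩ := Int.eq_ofNat_of_zero_le (show 0 ≤ -n - 1 by omega)
      rcases Nat.eq_zero_or_pos k with h0 | h0
      · have : n = -1 := by omega
        rw [this, Polynomial.Chebyshev.U_neg_one, map_zero]
      · have : n = -((k - 1 : ℕ) : ℤ) - 2 := by omega
        rw [this, Polynomial.Chebyshev.U_neg_sub_two, map_neg, neg_eq_zero]
        exact h (k - 1)
  have hX : ∀ (m : ℕ) (n : ℤ), Λ (X ^ m * U ℂ n) = 0 := by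
    intro m
    induction m with
    | zero =>
      intro n
      rw [pow_zero, one_mul]
      exact hU n
    | succ m ih =>
      intro n
      have e : X ^ (m + 1) * U ℂ n = (1 / 2 : ℂ) • (X ^ m * U ℂ (n + 1)) +
          (1 / 2 : ℂ) • (X ^ m * U ℂ (n - 1)) := by
        rw [Polynomial.Chebyshev.U_add_one, ← smul_add, ← mul_add, sub_add_cancel,
          smul_eq_C_mul]
        have e2 : (C (1 / 2 : ℂ)) * (X ^ m * (2 * X * U ℂ n)) =
            (C (1 / 2 : ℂ) * 2) * (X ^ (m + 1) * U ℂ n) := by ring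
        have e3 : (C (1 / 2 : ℂ)) * 2 = 1 := by
          have : (2 : ℂ[X]) = C 2 := rfl
          rw [this, ← C_mul]
          norm_num
        rw [e2, e3, one_mul]
      rw [e, map_add, map_smul, map_smul, ih, ih]
      simp
  have hP : ∀ P : ℂ[X], Λ P = 0 := by
    intro P
    induction P using Polynomial.induction_on' with
    | add p q hp hq => rw [map_add, hp, hq, add_zero]
    | monomial n a =>
      have e : monomial n a = a • (X ^ n * U ℂ 0) := by
        rw [Polynomial.Chebyshev.U_zero, mul_one, smul_X_eq_monomial]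
      rw [e, map_smul, hX, smul_zero]
  exact hP P

/-- an integrable function orthogonal to all polynomials vanishes -/
lemma ae_zero_of_moments (hΦ : IntegrableOn Φ (Set.Icc (-1) 1))
    (h : ∀ P : ℂ[X], ∫ u in (-1 : ℝ)..1, Φ u * P.eval (u : ℂ) = 0) :
    ∀ᵐ u : ℝ, u ∈ Set.Icc (-1 : ℝ) 1 → Φ u = 0 := by
  have hind : Integrable ((Set.Icc (-1 : ℝ) 1).indicator Φ) :=
    (integrable_indicator_iff measurableSet_Icc).2 hΦ
  have hii : IntervalIntegrable Φ volume (-1) 1 := by
    rw [intervalIntegrable_iff_integrableOn_Icc_of_le (by norm_num)]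
    exact hΦ
  have key := ae_eq_zero_of_integral_contDiff_smul_eq_zero hind.locallyIntegrable
    (fun g hg _ => ?_)
  · filter_upwards [key] with u hu hmem
    rwa [Set.indicator_of_mem hmem] at hu
  · have hgc : Continuous g := hg.continuous
    have h1 : ∫ x, g x • (Set.Icc (-1 : ℝ) 1).indicator Φ x =
        ∫ u in (-1 : ℝ)..1, Φ u * ((g u : ℝ) : ℂ) := by
      rw [intervalIntegral.integral_of_le (by norm_num), ← integral_Icc_eq_integral_Ioc,
        ← integral_indicator measurableSet_Icc]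
      congr 1
      funext x
      by_cases hx : x ∈ Set.Icc (-1 : ℝ) 1
      · rw [Set.indicator_of_mem hx, Set.indicator_of_mem hx, Complex.real_smul, mul_comm]
      · rw [Set.indicator_of_notMem hx, Set.indicator_of_notMem hx, smul_zero]
    rw [h1]
    have hgi : IntervalIntegrable (fun u : ℝ => Φ u * ((g u : ℝ) : ℂ)) volume (-1) 1 :=
      hii.mul_continuousOn (by fun_prop : Continuous fun u : ℝ => ((g u : ℝ) : ℂ)).continuousOn
    set B : ℝ := ∫ u in (-1 : ℝ)..1, ‖Φ u‖ with hB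
    have hB0 : 0 ≤ B := intervalIntegral.integral_nonneg (by norm_num) fun u _ => norm_nonneg _
    have h2 : ∀ ε : ℝ, 0 < ε → ‖∫ u in (-1 : ℝ)..1, Φ u * ((g u : ℝ) : ℂ)‖ ≤ ε * B := by
      intro ε hε
      obtain ⟨p, hp⟩ := exists_polynomial_near_of_continuousOn (-1) 1 g hgc.continuousOn ε hε
      have h3 := h (p.map (algebraMap ℝ ℂ))
      have e : ∫ u in (-1 : ℝ)..1, Φ u * ((g u : ℝ) : ℂ) =
          ∫ u in (-1 : ℝ)..1, Φ u * (((g u - p.eval u : ℝ)) : ℂ) := by
        have h4 : ∫ u in (-1 : ℝ)..1, Φ u * (((g u - p.eval u : ℝ)) : ℂ) =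
            (∫ u in (-1 : ℝ)..1, Φ u * ((g u : ℝ) : ℂ)) -
              ∫ u in (-1 : ℝ)..1, Φ u * (p.map (algebraMap ℝ ℂ)).eval (u : ℂ) := by
          rw [← intervalIntegral.integral_sub hgi (int_poly hii _)]
          refine intervalIntegral.integral_congr fun u _ => ?_
          have h5 : (p.map (algebraMap ℝ ℂ)).eval (u : ℂ) = ((p.eval u : ℝ) : ℂ) := by
            rw [eval_map, ← Complex.coe_algebraMap, eval₂_at_apply]
          rw [h5]
          push_cast
          ring
        rw [h4, h3, sub_zero]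
      rw [e]
      refine (intervalIntegral.norm_integral_le_integral_norm (by norm_num)).trans ?_
      rw [hB, ← intervalIntegral.integral_const_mul]
      refine intervalIntegral.integral_mono_on (by norm_num) ?_ (hii.norm.const_mul ε) ?_
      · refine IntervalIntegrable.norm ?_
        exact hii.mul_continuousOn
          (by fun_prop : Continuous fun u : ℝ => (((g u - p.eval u : ℝ)) : ℂ)).continuousOn
      · intro u hu
        rw [norm_mul, Complex.norm_real, mul_comm]
        refine mul_le_mul_of_nonneg_right ?_ (norm_nonneg _)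
        rw [Real.norm_eq_abs, abs_sub_comm]
        exact (hp u hu).le
    have h3 : ‖∫ u in (-1 : ℝ)..1, Φ u * ((g u : ℝ) : ℂ)‖ ≤ 0 := by
      refine le_of_forall_pos_le_add fun ε hε => ?_
      have h4 := h2 (ε / (B + 1)) (by positivity)
      have h5 : ε / (B + 1) * B ≤ ε := by
        rw [div_mul_eq_mul_div, div_le_iff₀ (by positivity)]
        nlinarith
      linarith
    exact norm_le_zero_iff.1 h3

end

/-- **a function with geometrically decaying coefficients is analytic** -/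
theorem analytic_of_chc {f : ℝ → ℂ} (hf : IntegrableOn f (Set.Icc (-1) 1)) {r C : ℝ} (hr : 1 < r)
    (h : ∀ n, ‖chc f n‖ ≤ C * (1 / r) ^ n) :
    ∃ G : ℂ → ℂ, DifferentiableOn ℂ G (ell r) ∧ ∀ᵐ u : ℝ, u ∈ Set.Ioo (-1 : ℝ) 1 → f u = G u := by
  set G : ℂ → ℂ := fun z => ∑' n : ℕ, chc f n * (U ℂ n).eval z with hG
  have hr0 : 0 < r := by linarith
  have hC0 : 0 ≤ C := by
    have := (norm_nonneg _).trans (h 0)
    simpa using this
  -- the bounds
  have hsum : ∀ r' : ℝ, 1 < r' → r' < r → Summable fun n : ℕ => C * (1 / r) ^ n * ((n + 1) * r' ^ n) := by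
    intro r' h1 h2
    have h3 : ‖r' / r‖ < 1 := by
      rw [Real.norm_of_nonneg (by positivity), div_lt_one hr0]
      exact h2
    have h4 := (summable_pow_mul_geometric_of_norm_lt_one 1 h3).add
      (summable_geometric_of_norm_lt_one h3)
    refine (h4.mul_left C).congr fun n => ?_
    rw [div_pow, one_div, inv_pow]
    field_simp
  have hbd : ∀ r' : ℝ, 1 < r' → ∀ (n : ℕ) (z : ℂ), z ∈ ell r' →
      ‖chc f n * (U ℂ n).eval z‖ ≤ C * (1 / r) ^ n * ((n + 1) * r' ^ n) := by
    intro r' h1 n z hz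
    rw [norm_mul]
    exact mul_le_mul (h n) (norm_U_le h1 n hz) (norm_nonneg _) (by positivity)
  have hell : ∀ z ∈ ell r, ∃ r' : ℝ, 1 < r' ∧ r' < r ∧ z ∈ ell r' := by
    intro z hz
    have h1 : Tendsto (fun x : ℝ => x + 1 / x) (𝓝[<] r) (𝓝 (r + 1 / r)) := by
      have : ContinuousAt (fun x : ℝ => x + 1 / x) r :=
        continuousAt_id.add (continuousAt_const.div continuousAt_id hr0.ne')
      exact this.tendsto.mono_left nhdsWithin_le_nhds
    have h2 : ∀ᶠ x in 𝓝[<] r, z ∈ ell x := h1.eventually (lt_mem_nhds hz)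
    have h3 : ∀ᶠ x in 𝓝[<] r, 1 < x := nhdsWithin_le_nhds (lt_mem_nhds hr)
    obtain ⟨x, hx1, hx2, hx3⟩ := (h2.and (h3.and self_mem_nhdsWithin)).exists
    exact ⟨x, hx2, hx3, hx1⟩
  have hGd : DifferentiableOn ℂ G (ell r) := by
    intro z hz
    obtain ⟨r', h1, h2, h3⟩ := hell z hz
    have h4 : DifferentiableOn ℂ G (ell r') :=
      Complex.differentiableOn_tsum_of_summable_norm (hsum r' h1 h2)
        (fun n => (((U ℂ n).differentiable).const_mul (chc f n)).differentiableOn)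
        (isOpen_ell r') (fun n z hz => hbd r' h1 n z hz)
    exact (h4.differentiableAt ((isOpen_ell r').mem_nhds h3)).differentiableWithinAt
  refine ⟨G, hGd, ?_⟩
  -- the segment
  set r₁ : ℝ := (1 + r) / 2 with hr₁
  have h1r₁ : 1 < r₁ := by rw [hr₁]; linarith
  have hr₁r : r₁ < r := by rw [hr₁]; linarith
  have hmem : ∀ ρ : ℝ, 1 < ρ → ∀ u : ℝ, u ∈ Set.Icc (-1 : ℝ) 1 → (u : ℂ) ∈ ell ρ := by
    intro ρ hρ u hu
    have : (u : ℂ) = Complex.cos ((Real.arccos u : ℝ) : ℂ) := by
      rw [← Complex.ofReal_cos, Real.cos_arccos hu.1 hu.2]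
    rw [this, cos_mem_ell hρ]
    simpa using Real.log_pos hρ
  have hGc : ContinuousOn (fun u : ℝ => G u) (Set.Icc (-1) 1) :=
    hGd.continuousOn.comp Complex.continuous_ofReal.continuousOn (hmem r hr)
  -- the coefficients of `G`
  have hGcoef : ∀ n : ℕ, chc (fun u => G u) n = chc f n := by
    intro n
    set W : ℝ → ℂ := fun u => (U ℂ n).eval (u : ℂ) * ((Real.sqrt (1 - u ^ 2) : ℝ) : ℂ) with hW
    have hWc : Continuous W := (continuous_U n).mul continuous_w
    obtain ⟨B, hB⟩ := (isCompact_Icc (a := (-1 : ℝ)) (b := 1)).exists_bound_of_continuousOn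
      hWc.continuousOn
    have hs : HasSum (fun m : ℕ => ∫ u in (-1 : ℝ)..1, (chc f m * (U ℂ m).eval (u : ℂ)) * W u)
        (∫ u in (-1 : ℝ)..1, G u * W u) := by
      refine intervalIntegral.hasSum_integral_of_dominated_convergence
        (fun m _ => C * (1 / r) ^ m * ((m + 1) * r₁ ^ m) * |B|) (fun m => ?_) (fun m => ?_) ?_ ?_ ?_
      · exact ((((continuous_U m).const_mul _).mul hWc)).aestronglyMeasurable
      · refine Eventually.of_forall fun u hu => ?_
        rw [Set.uIoc_of_le (by norm_num)] at hu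
        have hu' : u ∈ Set.Icc (-1 : ℝ) 1 := Set.Ioc_subset_Icc_self hu
        rw [norm_mul]
        exact mul_le_mul (hbd r₁ h1r₁ m u (hmem r₁ h1r₁ u hu'))
          ((hB u hu').trans (le_abs_self B)) (norm_nonneg _) (by positivity)
      · exact Eventually.of_forall fun u _ => (hsum r₁ h1r₁ hr₁r).mul_right _
      · exact intervalIntegrable_const
      · refine Eventually.of_forall fun u hu => ?_
        rw [Set.uIoc_of_le (by norm_num)] at hu
        have hu' : u ∈ Set.Icc (-1 : ℝ) 1 := Set.Ioc_subset_Icc_self hu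
        have h5 : Summable fun m : ℕ => chc f m * (U ℂ m).eval (u : ℂ) :=
          Summable.of_norm_bounded (hsum r₁ h1r₁ hr₁r)
            fun m => hbd r₁ h1r₁ m u (hmem r₁ h1r₁ u hu')
        exact h5.hasSum.mul_right _
    have h6 : ∀ m : ℕ, ∫ u in (-1 : ℝ)..1, (chc f m * (U ℂ m).eval (u : ℂ)) * W u =
        if m = n then chc f n * (Real.pi / 2) else 0 := by
      intro m
      have h7 := chc_U m n
      unfold chc at h7
      have h8 : ∫ u in (-1 : ℝ)..1, (U ℂ m).eval (u : ℂ) *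
          ((U ℂ n).eval (u : ℂ) * ((Real.sqrt (1 - u ^ 2) : ℝ) : ℂ)) =
          if m = n then (Real.pi / 2 : ℂ) else 0 := by
        have hpi : (Real.pi : ℂ) ≠ 0 := by exact_mod_cast Real.pi_ne_zero
        have h9 : (Real.pi / 2 : ℂ) * (2 / Real.pi) = 1 := by field_simp
        have h10 := congrArg (fun z => (Real.pi / 2 : ℂ) * z) h7
        simp only [← mul_assoc] at h10
        rw [h9, one_mul] at h10
        simp only [mul_assoc] at h10
        rw [h10]
        split_ifs <;> simp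
      have h9 : ∫ u in (-1 : ℝ)..1, (chc f m * (U ℂ m).eval (u : ℂ)) * W u =
          chc f m * ∫ u in (-1 : ℝ)..1, (U ℂ m).eval (u : ℂ) *
          ((U ℂ n).eval (u : ℂ) * ((Real.sqrt (1 - u ^ 2) : ℝ) : ℂ)) := by
        rw [← intervalIntegral.integral_const_mul]
        refine intervalIntegral.integral_congr fun u _ => ?_
        simp only [hW]
        ring
      rw [h9, h8]
      split_ifs with hmn
      · rw [hmn]
      · simp
    simp_rw [h6] at hs
    have h7 := hs.unique (hasSum_ite_eq n (chc f n * (Real.pi / 2)))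
    unfold chc
    rw [h7]
    have hpi : (Real.pi : ℂ) ≠ 0 := by exact_mod_cast Real.pi_ne_zero
    unfold chc
    field_simp
  -- the difference
  set Φ : ℝ → ℂ := fun u => (f u - G u) * ((Real.sqrt (1 - u ^ 2) : ℝ) : ℂ) with hΦ
  have hGi : IntegrableOn (fun u : ℝ => G u) (Set.Icc (-1) 1) := hGc.integrableOn_Icc
  have hΦi : IntegrableOn Φ (Set.Icc (-1) 1) :=
    (hf.sub hGi).mul_continuousOn continuous_w.continuousOn isCompact_Icc
  have hii : IntervalIntegrable Φ volume (-1) 1 := by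
    rw [intervalIntegrable_iff_integrableOn_Icc_of_le (by norm_num)]
    exact hΦi
  have hz : ∀ n : ℕ, ∫ u in (-1 : ℝ)..1, Φ u * (U ℂ n).eval (u : ℂ) = 0 := by
    intro n
    have h1 := hGcoef n
    unfold chc at h1
    have hpi : (2 / Real.pi : ℂ) ≠ 0 := by
      have : (Real.pi : ℂ) ≠ 0 := by exact_mod_cast Real.pi_ne_zero
      exact div_ne_zero two_ne_zero this
    have h2 := mul_left_cancel₀ hpi h1
    have hW : Continuous fun u : ℝ => (U ℂ n).eval (u : ℂ) * ((Real.sqrt (1 - u ^ 2) : ℝ) : ℂ) :=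
      (continuous_U n).mul continuous_w
    have i1 : IntervalIntegrable (fun u : ℝ => f u *
        ((U ℂ n).eval (u : ℂ) * ((Real.sqrt (1 - u ^ 2) : ℝ) : ℂ))) volume (-1) 1 := by
      have : IntervalIntegrable f volume (-1) 1 := by
        rw [intervalIntegrable_iff_integrableOn_Icc_of_le (by norm_num)]
        exact hf
      exact this.mul_continuousOn hW.continuousOn
    have i2 : IntervalIntegrable (fun u : ℝ => G u *
        ((U ℂ n).eval (u : ℂ) * ((Real.sqrt (1 - u ^ 2) : ℝ) : ℂ))) volume (-1) 1 := by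
      have : IntervalIntegrable (fun u : ℝ => G u) volume (-1) 1 := by
        rw [intervalIntegrable_iff_integrableOn_Icc_of_le (by norm_num)]
        exact hGi
      exact this.mul_continuousOn hW.continuousOn
    have h3 : ∫ u in (-1 : ℝ)..1, Φ u * (U ℂ n).eval (u : ℂ) =
        (∫ u in (-1 : ℝ)..1, f u *
        ((U ℂ n).eval (u : ℂ) * ((Real.sqrt (1 - u ^ 2) : ℝ) : ℂ))) -
        ∫ u in (-1 : ℝ)..1, G u *
        ((U ℂ n).eval (u : ℂ) * ((Real.sqrt (1 - u ^ 2) : ℝ) : ℂ)) := by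
      rw [← intervalIntegral.integral_sub i1 i2]
      refine intervalIntegral.integral_congr fun u _ => ?_
      simp only [hΦ]
      ring
    rw [h3, h2, sub_self]
  have hae := ae_zero_of_moments hΦi (moments_zero hii hz)
  filter_upwards [hae] with u hu hmemu
  have h1 := hu (Set.Ioo_subset_Icc_self hmemu)
  have h2 : ((Real.sqrt (1 - u ^ 2) : ℝ) : ℂ) ≠ 0 := by
    have h3 : 0 < 1 - u ^ 2 := by nlinarith [hmemu.1, hmemu.2]
    exact_mod_cast (Real.sqrt_pos.2 h3).ne'
  have h3 := (mul_eq_zero.1 h1).resolve_right h2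
  exact sub_eq_zero.1 h3

end Pool.Agent.Q9.EL
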