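import Pool.Agent.Q9.EL.Bes2
import Pool.Agent.Q9.EL.Law

/-!
# The Chebyshev coefficients of the boundary function are sums of Bessel functions
-/

set_option autoImplicit false

namespace Pool.Agent.Q9.EL

open MeasureTheory Filter Topology Polynomial Finset
open Polynomial.Chebyshev (U T)
open Pool.Agent.TH339.MP (PP wt fr ee qq TX PS two_le_qq fr_eq continuous_PS wt_nonneg bl
  boundary M_nonneg ee_add mem_TX)

/-- the Bessel function `J_k(y)`, by Hansen's integral -/
noncomputable def bes (k : ℕ) (y : ℝ) : ℂ :=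
  Complex.I ^ k / Real.pi * ∫ θ in (0 : ℝ)..Real.pi,
    Complex.exp (-(Complex.I * y * Real.cos θ)) * Complex.cos (k * θ)

/-- the coefficients of an exponential function -/
lemma chc_exp (n : ℕ) {y : ℝ} (hy : y ≠ 0) :
    chc (fun u => Complex.exp (-(Complex.I * y * u))) n =
      2 * Complex.I * ((n + 1 : ℕ) : ℂ) / Complex.I ^ (n + 1) * (bes (n + 1) y / y) := by
  set k : ℕ := n + 1 with hk
  have hyc : (y : ℂ) ≠ 0 := by exact_mod_cast hy
  have hpi : (Real.pi : ℂ) ≠ 0 := by exact_mod_cast Real.pi_ne_zero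
  rw [chc_cos (by fun_prop)]
  set A : ℝ → ℂ := fun θ => Complex.exp (-(Complex.I * y * Real.cos θ)) with hA
  have hAc : Continuous A := by
    rw [hA]
    fun_prop
  have hAd : ∀ θ : ℝ, HasDerivAt A (A θ * (Complex.I * y * Real.sin θ)) θ := by
    intro θ
    have h1 : HasDerivAt (fun θ : ℝ => ((Real.cos θ : ℝ) : ℂ)) (((-Real.sin θ : ℝ)) : ℂ) θ :=
      (Real.hasDerivAt_cos θ).ofReal_comp
    have h2 := (h1.const_mul (Complex.I * y)).neg.cexp
    refine h2.congr_deriv ?_
    rw [hA]
    simp only [Pi.neg_apply]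
    push_cast
    ring
  have hSd : ∀ θ : ℝ, HasDerivAt (fun θ : ℝ => Complex.sin (k * θ)) (Complex.cos (k * θ) * k) θ := by
    intro θ
    have h1 : HasDerivAt (fun θ : ℝ => (k : ℂ) * (θ : ℂ)) ((k : ℂ) * 1) θ :=
      (hasDerivAt_id θ).ofReal_comp.const_mul (k : ℂ)
    have h2 := (Complex.hasDerivAt_sin ((k : ℂ) * θ)).comp θ h1
    rw [mul_one] at h2
    exact h2
  have hparts := intervalIntegral.integral_mul_deriv_eq_deriv_mul
    (u := fun θ : ℝ => Complex.sin (k * θ)) (v := A) (a := 0) (b := Real.pi)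
    (fun x _ => hSd x) (fun x _ => hAd x)
    ((by fun_prop : Continuous fun θ : ℝ => Complex.cos (k * θ) * k).intervalIntegrable _ _)
    ((hAc.mul (by fun_prop : Continuous fun θ : ℝ =>
      Complex.I * y * ((Real.sin θ : ℝ) : ℂ))).intervalIntegrable _ _)
  have e0 : Complex.sin ((k : ℂ) * ((Real.pi : ℝ) : ℂ)) = 0 := Complex.sin_nat_mul_pi k
  rw [e0, Complex.ofReal_zero, mul_zero, Complex.sin_zero, zero_mul, zero_mul, sub_zero,
    zero_sub] at hparts
  have e1 : ∫ θ in (0 : ℝ)..Real.pi, Complex.sin (k * θ) * (A θ * (Complex.I * y * Real.sin θ)) =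
      (Complex.I * y) * ∫ θ in (0 : ℝ)..Real.pi,
        Complex.exp (-(Complex.I * y * ((Real.cos θ : ℝ) : ℂ))) *
          (Complex.sin θ * Complex.sin ((k : ℂ) * θ)) := by
    rw [← intervalIntegral.integral_const_mul]
    refine intervalIntegral.integral_congr fun θ _ => ?_
    simp only [hA]
    push_cast
    ring
  have e2 : ∫ θ in (0 : ℝ)..Real.pi, Complex.cos (k * θ) * k * A θ =
      k * ∫ θ in (0 : ℝ)..Real.pi, Complex.exp (-(Complex.I * y * Real.cos θ)) *
        Complex.cos (k * θ) := by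
    rw [← intervalIntegral.integral_const_mul]
    refine intervalIntegral.integral_congr fun θ _ => ?_
    simp only [hA]
    ring
  rw [e1, e2] at hparts
  unfold bes
  set J1 := ∫ θ in (0 : ℝ)..Real.pi, Complex.exp (-(Complex.I * y * ((Real.cos θ : ℝ) : ℂ))) *
    (Complex.sin θ * Complex.sin ((k : ℂ) * θ)) with hJ1
  set J2 := ∫ θ in (0 : ℝ)..Real.pi, Complex.exp (-(Complex.I * y * Real.cos θ)) *
    Complex.cos (k * θ) with hJ2
  have hI : Complex.I ^ k ≠ 0 := pow_ne_zero _ Complex.I_ne_zero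
  have h3 : J1 = Complex.I * k / y * J2 := by
    have h4 : Complex.I * y * J1 = Complex.I * y * (Complex.I * k / y * J2) := by
      rw [hparts]
      field_simp
      linear_combination (-(J2 * k)) * Complex.I_sq
    exact mul_left_cancel₀ (mul_ne_zero Complex.I_ne_zero hyc) h4
  rw [h3]
  field_simp

section
variable {b : PP → ℂ} {M : ℝ}

/-- the window -/
lemma win_ii (hb : ∀ x, ‖b x‖ ≤ M / (x.2 + 1 : ℕ)) (a c : ℝ) :
    IntervalIntegrable (bl b) volume a c := by
  wlog hac : a ≤ c generalizing a c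
  · exact (this c a (by linarith)).symm
  set T : ℝ := max (c - a) 1 with hT
  have hmb := (boundary hb).1
  have h1 : 1 ≤ T := le_max_right _ _
  have hi0 : IntervalIntegrable (fun t => bl b t - PS b 2 t) volume a (a + T) := by
    refine (time_close hb le_rfl a h1).1.mono_fun' ?_ (Eventually.of_forall fun t => le_rfl)
    exact (hmb.sub (continuous_PS b 2).aemeasurable).aestronglyMeasurable.restrict
  have hi1 : IntervalIntegrable (bl b) volume a (a + T) := by
    have := hi0.add ((continuous_PS b 2).intervalIntegrable a (a + T))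
    refine this.congr ?_
    intro t _
    simp
  refine hi1.mono_set ?_
  rw [Set.uIcc_of_le hac, Set.uIcc_of_le (by linarith)]
  exact Set.Icc_subset_Icc le_rfl (by linarith [le_max_left (c - a) 1])

lemma aff_int {f : ℝ → ℂ} {τ h : ℝ} (hh : 0 < h)
    (hf : IntervalIntegrable f volume (τ - h) (τ + h)) :
    IntervalIntegrable (fun u => f (τ + h * u)) volume (-1) 1 := by
  have h1 := hf.comp_add_left τ
  have e1 : τ - h - τ = -h := by ring
  have e2 : τ + h - τ = h := by ring
  rw [e1, e2] at h1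
  have h2 := h1.comp_mul_left (c := h)
  have e3 : -h / h = -1 := by field_simp
  have e4 : h / h = 1 := by field_simp
  rwa [e3, e4] at h2

lemma win_close (hb : ∀ x, ‖b x‖ ≤ M / (x.2 + 1 : ℕ)) (τ : ℝ) {h : ℝ} (hh : 0 < h) :
    Tendsto (fun X : ℕ => ∫ u in (-1 : ℝ)..1, ‖bl b (τ + h * u) - PS b X (τ + h * u)‖) atTop
      (𝓝 0) := by
  set T : ℝ := max (2 * h) 1 with hT
  have hT1 : 1 ≤ T := le_max_right _ _
  have h1 : Tendsto (fun X : ℕ => h⁻¹ * (T * dl M X)) atTop (𝓝 0) := by
    have := ((dl_tendsto M).const_mul T).const_mul h⁻¹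
    simpa using this
  refine squeeze_zero' (Eventually.of_forall fun X =>
    intervalIntegral.integral_nonneg (by norm_num) fun u _ => norm_nonneg _) ?_ h1
  filter_upwards [eventually_ge_atTop 2] with X hX
  obtain ⟨h2, h3⟩ := time_close hb hX (τ - h) hT1
  have e : ∫ u in (-1 : ℝ)..1, ‖bl b (τ + h * u) - PS b X (τ + h * u)‖ =
      h⁻¹ * ∫ t in (τ + h * (-1))..(τ + h * 1), ‖bl b t - PS b X t‖ := by
    have := intervalIntegral.integral_comp_add_mul (a := -1) (b := 1)
      (fun t : ℝ => ‖bl b t - PS b X t‖) hh.ne' τ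
    rw [this, smul_eq_mul]
  rw [e]
  refine mul_le_mul_of_nonneg_left ?_ (by positivity)
  have e1 : τ + h * (-1) = τ - h := by ring
  have e2 : τ + h * 1 = τ + h := by ring
  rw [e1, e2]
  refine le_trans ?_ h3
  refine intervalIntegral.integral_mono_interval le_rfl (by linarith) ?_ ?_ h2
  · linarith [le_max_left (2 * h) 1]
  · exact Eventually.of_forall fun t => norm_nonneg _

/-- linearity of the coefficients -/
lemma chc_int {f : ℝ → ℂ} (hf : IntervalIntegrable f volume (-1) 1) (n : ℕ) :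
    IntervalIntegrable (fun u : ℝ => f u * ((U ℂ n).eval (u : ℂ) *
      ((Real.sqrt (1 - u ^ 2) : ℝ) : ℂ))) volume (-1) 1 :=
  hf.mul_continuousOn ((continuous_U n).mul continuous_w).continuousOn

lemma chc_add {f g : ℝ → ℂ} (hf : IntervalIntegrable f volume (-1) 1)
    (hg : IntervalIntegrable g volume (-1) 1) (n : ℕ) :
    chc (fun u => f u + g u) n = chc f n + chc g n := by
  unfold chc
  rw [← mul_add, ← intervalIntegral.integral_add (chc_int hf n) (chc_int hg n)]
  congr 1
  refine intervalIntegral.integral_congr fun u _ => ?_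
  ring

lemma chc_smul (a : ℂ) (f : ℝ → ℂ) (n : ℕ) : chc (fun u => a * f u) n = a * chc f n := by
  have h1 : ∫ u in (-1 : ℝ)..1, a * f u * ((U ℂ n).eval (u : ℂ) *
      ((Real.sqrt (1 - u ^ 2) : ℝ) : ℂ)) = a * ∫ u in (-1 : ℝ)..1, f u * ((U ℂ n).eval (u : ℂ) *
      ((Real.sqrt (1 - u ^ 2) : ℝ) : ℂ)) := by
    rw [← intervalIntegral.integral_const_mul]
    refine intervalIntegral.integral_congr fun u _ => ?_
    ring
  unfold chc
  rw [h1]
  ring

lemma chc_zero (n : ℕ) : chc (fun _ => 0) n = 0 := by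
  unfold chc
  simp

lemma chc_sum {ι : Type*} (S : Finset ι) (f : ι → ℝ → ℂ)
    (hf : ∀ i ∈ S, IntervalIntegrable (f i) volume (-1) 1) (n : ℕ) :
    chc (fun u => ∑ i ∈ S, f i u) n = ∑ i ∈ S, chc (f i) n := by
  classical
  induction S using Finset.induction_on with
  | empty => simpa using chc_zero n
  | insert i S hi ih =>
    simp_rw [Finset.sum_insert hi]
    have h1 : IntervalIntegrable (fun u => ∑ j ∈ S, f j u) volume (-1) 1 := by
      have := IntervalIntegrable.sum S (f := f) (fun j hj => hf j (Finset.mem_insert_of_mem hj))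
      refine this.congr fun u _ => ?_
      simp
    rw [chc_add (hf i (Finset.mem_insert_self _ _)) h1,
      ih fun j hj => hf j (Finset.mem_insert_of_mem hj)]

lemma chc_lim (hb : ∀ x, ‖b x‖ ≤ M / (x.2 + 1 : ℕ)) (τ : ℝ) {h : ℝ} (hh : 0 < h) (n : ℕ) :
    Tendsto (fun X : ℕ => chc (fun u => PS b X (τ + h * u)) n) atTop
      (𝓝 (chc (fun u => bl b (τ + h * u)) n)) := by
  set W : ℝ → ℂ := fun u => (U ℂ n).eval (u : ℂ) * ((Real.sqrt (1 - u ^ 2) : ℝ) : ℂ) with hW
  have hWc : Continuous W := (continuous_U n).mul continuous_w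
  obtain ⟨B, hB⟩ := (isCompact_Icc (a := (-1 : ℝ)) (b := 1)).exists_bound_of_continuousOn
    hWc.continuousOn
  rw [tendsto_iff_norm_sub_tendsto_zero]
  have h1 : Tendsto (fun X : ℕ => ‖(2 / Real.pi : ℂ)‖ * (|B| *
      ∫ u in (-1 : ℝ)..1, ‖bl b (τ + h * u) - PS b X (τ + h * u)‖)) atTop (𝓝 0) := by
    have := ((win_close hb τ hh).const_mul |B|).const_mul ‖(2 / Real.pi : ℂ)‖
    simpa using this
  refine squeeze_zero (fun X => norm_nonneg _) (fun X => ?_) h1
  have i1 : IntervalIntegrable (fun u => bl b (τ + h * u)) volume (-1) 1 :=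
    aff_int hh (win_ii hb _ _)
  have i2 : IntervalIntegrable (fun u => PS b X (τ + h * u)) volume (-1) 1 :=
    ((continuous_PS b X).comp (by fun_prop)).intervalIntegrable _ _
  have e : chc (fun u => PS b X (τ + h * u)) n - chc (fun u => bl b (τ + h * u)) n =
      (2 / Real.pi) * ∫ u in (-1 : ℝ)..1, (PS b X (τ + h * u) - bl b (τ + h * u)) * W u := by
    unfold chc
    rw [← mul_sub, ← intervalIntegral.integral_sub (chc_int i2 n) (chc_int i1 n)]
    congr 1
    refine intervalIntegral.integral_congr fun u _ => ?_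
    simp only [hW]
    ring
  rw [e, norm_mul]
  refine mul_le_mul_of_nonneg_left ?_ (norm_nonneg _)
  rw [← intervalIntegral.integral_const_mul]
  refine (intervalIntegral.norm_integral_le_integral_norm (by norm_num)).trans ?_
  refine intervalIntegral.integral_mono_on (by norm_num) ?_ ?_ ?_
  · exact ((i2.sub i1).mul_continuousOn hWc.continuousOn).norm
  · exact ((i1.sub i2).norm.const_mul |B|)
  · intro u hu
    rw [norm_mul, norm_sub_rev, mul_comm]
    refine mul_le_mul_of_nonneg_right ?_ (norm_nonneg _)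
    exact (hB u hu).trans (le_abs_self B)

/-- the Bessel sums -/
noncomputable def BS (b : PP → ℂ) (τ h : ℝ) (k X : ℕ) : ℂ :=
  ∑ x ∈ TX X, (b x * (wt 1 x : ℂ)) * ee (fr x) τ *
    (bes k (h * Real.log (qq x)) / ((h * Real.log (qq x) : ℝ) : ℂ))

lemma chc_PS (b : PP → ℂ) (τ : ℝ) {h : ℝ} (hh : 0 < h) (n X : ℕ) :
    chc (fun u => PS b X (τ + h * u)) n =
      2 * Complex.I * ((n + 1 : ℕ) : ℂ) / Complex.I ^ (n + 1) * BS b τ h (n + 1) X := by
  unfold Pool.Agent.TH339.MP.PS
  have hee : ∀ l : ℝ, Continuous (ee l) := by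
    intro l
    unfold Pool.Agent.TH339.MP.ee
    fun_prop
  rw [chc_sum]
  · unfold BS
    rw [Finset.mul_sum]
    refine Finset.sum_congr rfl fun x _ => ?_
    have hq := two_le_qq x
    have hlog : 0 < Real.log (qq x) := Real.log_pos (by exact_mod_cast hq)
    set y : ℝ := h * Real.log (qq x) with hy
    have hy0 : y ≠ 0 := by positivity
    have h1 : (fun u : ℝ => (b x * (wt 1 x : ℂ)) * ee (fr x) (τ + h * u)) =
        fun u : ℝ => ((b x * (wt 1 x : ℂ)) * ee (fr x) τ) *
          Complex.exp (-(Complex.I * y * u)) := by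
      funext u
      rw [ee_add]
      have h2 : ee (fr x) (h * u) = Complex.exp (-(Complex.I * y * u)) := by
        unfold Pool.Agent.TH339.MP.ee
        rw [fr_eq, hy]
        congr 1
        push_cast
        ring
      rw [h2]
      ring
    rw [h1, chc_smul, chc_exp n hy0]
    ring
  · intro x _
    exact (continuous_const.mul ((hee _).comp (by fun_prop))).intervalIntegrable _ _

end

end Pool.Agent.Q9.EL
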