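import Mathlib

/-!
# Local continuations across a vertical line, and their gluing
-/

set_option autoImplicit false

namespace Pool.Agent.Q9.EL

open Filter Topology Set

/-- `F` has an analytic continuation without zeros from `Re s > e` to a neighbourhood of `w` -/
def Loc (F : ℂ → ℂ) (e : ℝ) (w : ℂ) : Prop :=
  ∃ (g : ℂ → ℂ) (r : ℝ), 0 < r ∧ DifferentiableOn ℂ g (Metric.ball w r) ∧
    (∀ s ∈ Metric.ball w r, g s ≠ 0) ∧ ∀ s ∈ Metric.ball w r, e < s.re → g s = F s

/-- multiplication by an analytic function without zeros -/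
lemma Loc.mul {F F' Q : ℂ → ℂ} {e : ℝ} {w : ℂ} {r₀ : ℝ} (hr₀ : 0 < r₀)
    (hQ : DifferentiableOn ℂ Q (Metric.ball w r₀)) (hQ0 : ∀ s ∈ Metric.ball w r₀, Q s ≠ 0)
    (hF : ∀ s ∈ Metric.ball w r₀, e < s.re → F' s = F s * Q s) (h : Loc F e w) : Loc F' e w := by
  obtain ⟨g, r, hr, h1, h2, h3⟩ := h
  have hs1 : Metric.ball w (min r r₀) ⊆ Metric.ball w r := Metric.ball_subset_ball (min_le_left _ _)
  have hs2 : Metric.ball w (min r r₀) ⊆ Metric.ball w r₀ :=
    Metric.ball_subset_ball (min_le_right _ _)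
  refine ⟨fun s => g s * Q s, min r r₀, lt_min hr hr₀, (h1.mono hs1).mul (hQ.mono hs2),
    fun s hs => mul_ne_zero (h2 s (hs1 hs)) (hQ0 s (hs2 hs)), fun s hs he => ?_⟩
  simp only
  rw [hF s (hs2 hs) he, h3 s (hs1 hs) he]

lemma Loc.congr {F F' : ℂ → ℂ} {e : ℝ} {w : ℂ} (hF : ∀ s, e < s.re → F' s = F s) :
    Loc F e w ↔ Loc F' e w := by
  constructor
  · rintro ⟨g, r, hr, h1, h2, h3⟩
    exact ⟨g, r, hr, h1, h2, fun s hs he => (h3 s hs he).trans (hF s he).symm⟩
  · rintro ⟨g, r, hr, h1, h2, h3⟩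
    exact ⟨g, r, hr, h1, h2, fun s hs he => (h3 s hs he).trans (hF s he)⟩

lemma Loc.shift {F : ℂ → ℂ} {e κ : ℝ} {w : ℂ} :
    Loc (fun s => F (s + κ)) e w ↔ Loc F (e + κ) (w + κ) := by
  constructor
  · rintro ⟨g, r, hr, h1, h2, h3⟩
    have hb : ∀ s ∈ Metric.ball (w + κ) r, s - κ ∈ Metric.ball w r := by
      intro s hs
      rw [Metric.mem_ball, dist_eq_norm] at hs ⊢
      have : s - κ - w = s - (w + κ) := by ring
      rw [this]
      exact hs
    refine ⟨fun s => g (s - κ), r, hr, ?_, fun s hs => h2 _ (hb s hs), fun s hs he => ?_⟩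
    · exact h1.comp (by fun_prop : Differentiable ℂ fun s : ℂ => s - κ).differentiableOn hb
    · have h4 := h3 (s - κ) (hb s hs) (by
        rw [Complex.sub_re, Complex.ofReal_re]
        linarith)
      simpa using h4
  · rintro ⟨g, r, hr, h1, h2, h3⟩
    have hb : ∀ s ∈ Metric.ball w r, s + κ ∈ Metric.ball (w + κ) r := by
      intro s hs
      rw [Metric.mem_ball, dist_eq_norm] at hs ⊢
      have : s + κ - (w + κ) = s - w := by ring
      rw [this]
      exact hs
    refine ⟨fun s => g (s + κ), r, hr, ?_, fun s hs => h2 _ (hb s hs), fun s hs he => ?_⟩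
    · exact h1.comp (by fun_prop : Differentiable ℂ fun s : ℂ => s + κ).differentiableOn hb
    · refine h3 (s + κ) (hb s hs) ?_
      rw [Complex.add_re, Complex.ofReal_re]
      linarith

/-- `F` has a meromorphic continuation from `Re s > e` to a neighbourhood of `w`, of order `m` at `w` -/
def Mer (F : ℂ → ℂ) (e : ℝ) (w : ℂ) (m : ℤ) : Prop :=
  ∃ g : ℂ → ℂ, MeromorphicAt g w ∧ meromorphicOrderAt g w = m ∧
    ∀ᶠ s in 𝓝 w, e < s.re → g s = F s

lemma mer_iff_loc {F : ℂ → ℂ} {e : ℝ} {w : ℂ} (hw : w.re = e) (m : ℤ) :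
    Mer F e w m ↔ Loc (fun s => (s - w) ^ (-m) * F s) e w := by
  have hne : ∀ s : ℂ, e < s.re → s - w ≠ 0 := by
    intro s hs h
    rw [sub_eq_zero] at h
    rw [h, hw] at hs
    exact lt_irrefl _ hs
  constructor
  · rintro ⟨g, hg, ho, hF⟩
    obtain ⟨g₀, ha, h0, he⟩ := (meromorphicOrderAt_eq_int_iff hg).1 ho
    have e1 : ∀ᶠ s in 𝓝 w, g₀ s ≠ 0 := ha.continuousAt.eventually_ne h0
    have e2 : ∀ᶠ s in 𝓝 w, AnalyticAt ℂ g₀ s := ha.eventually_analyticAt
    have e3 : ∀ᶠ s in 𝓝 w, s ≠ w → g s = (s - w) ^ m • g₀ s := by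
      have := eventually_nhdsWithin_iff.1 he
      filter_upwards [this] with s hs hsw using hs hsw
    obtain ⟨r, hr, H⟩ := Metric.eventually_nhds_iff_ball.1 (e1.and (e2.and (e3.and hF)))
    refine ⟨g₀, r, hr, fun s hs => (H s hs).2.1.differentiableAt.differentiableWithinAt,
      fun s hs => (H s hs).1, fun s hs hse => ?_⟩
    obtain ⟨-, -, h3, h4⟩ := H s hs
    have h5 := h3 (sub_ne_zero.1 (hne s hse))
    simp only
    rw [← h4 hse, h5, smul_eq_mul, ← mul_assoc, ← zpow_add₀ (hne s hse), neg_add_cancel, zpow_zero,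
      one_mul]
  · rintro ⟨g₀, r, hr, h1, h2, h3⟩
    have ha : AnalyticAt ℂ g₀ w :=
      h1.analyticAt (Metric.isOpen_ball.mem_nhds (Metric.mem_ball_self hr))
    have hm : MeromorphicAt (fun s => (s - w) ^ m * g₀ s) w := by
      refine MeromorphicAt.fun_mul ?_ ha.meromorphicAt
      exact ((analyticAt_id.sub analyticAt_const).meromorphicAt).zpow m
    refine ⟨fun s => (s - w) ^ m * g₀ s, hm, ?_, ?_⟩
    · rw [meromorphicOrderAt_eq_int_iff hm]
      exact ⟨g₀, ha, h2 w (Metric.mem_ball_self hr), Eventually.of_forall fun s => rfl⟩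
    · filter_upwards [Metric.ball_mem_nhds w hr] with s hs hse
      rw [h3 s hs hse, ← mul_assoc, ← zpow_add₀ (hne s hse), add_neg_cancel, zpow_zero, one_mul]

/-- every meromorphic continuation has an order -/
lemma exists_mer {F : ℂ → ℂ} {e : ℝ} {w : ℂ} (hw : w.re = e) (hF : ∀ s, e < s.re → F s ≠ 0)
    {g : ℂ → ℂ} (hg : MeromorphicAt g w) (h : ∀ᶠ s in 𝓝 w, e < s.re → g s = F s) :
    ∃ m : ℤ, Mer F e w m := by
  have hne : meromorphicOrderAt g w ≠ ⊤ := by
    intro ht
    rw [meromorphicOrderAt_eq_top_iff] at ht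
    have ht' := eventually_nhdsWithin_iff.1 ht
    obtain ⟨r, hr, H⟩ := Metric.eventually_nhds_iff_ball.1 (ht'.and h)
    have hre : e < (w + ((r / 2 : ℝ) : ℂ)).re := by
      rw [Complex.add_re, Complex.ofReal_re, hw]
      linarith
    have hmem : w + ((r / 2 : ℝ) : ℂ) ∈ Metric.ball w r := by
      rw [Metric.mem_ball, dist_eq_norm, add_sub_cancel_left, Complex.norm_real,
        Real.norm_of_nonneg (by positivity)]
      linarith
    obtain ⟨h1, h2⟩ := H _ hmem
    refine hF _ hre ?_
    rw [← h2 hre]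
    refine h1 ?_
    intro h3
    have h4 : w + ((r / 2 : ℝ) : ℂ) = w := h3
    rw [h4, hw] at hre
    exact lt_irrefl _ hre
  obtain ⟨m, hm⟩ := WithTop.ne_top_iff_exists.1 hne
  exact ⟨m, g, hg, hm.symm, h⟩

/-- **Gluing.** -/
theorem glue {F : ℂ → ℂ} {e : ℝ} (hFd : DifferentiableOn ℂ F {s : ℂ | e < s.re})
    (hF : ∀ s, e < s.re → F s ≠ 0) (A : Set ℝ) :
    (∀ τ ∈ A, ∃ m : ℤ, Mer F e (e + τ * Complex.I) m) ↔
    ∃ (U : Set ℂ) (G : ℂ → ℂ), IsOpen U ∧ {s : ℂ | e < s.re} ⊆ U ∧
      (∀ τ ∈ A, ((e : ℂ) + τ * Complex.I) ∈ U) ∧ MeromorphicOn G U ∧ ∀ s, e < s.re → G s = F s := by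
  have hre : ∀ τ : ℝ, ((e : ℂ) + τ * Complex.I).re = e := by
    intro τ
    simp
  constructor
  · intro H
    choose! m hm using H
    have hL : ∀ τ ∈ A, Loc (fun s => (s - ((e : ℂ) + τ * Complex.I)) ^ (-(m τ)) * F s) e
        (e + τ * Complex.I) := fun τ hτ => (mer_iff_loc (hre τ) (m τ)).1 (hm τ hτ)
    unfold Loc at hL
    choose! g r hr hg hg0 hgF using hL
    set w : ℝ → ℂ := fun τ => (e : ℂ) + τ * Complex.I with hw
    -- the key identity on overlaps
    have key : ∀ τ ∈ A, ∀ τ' ∈ A, ∀ s ∈ Metric.ball (w τ) (r τ) ∩ Metric.ball (w τ') (r τ'),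
        (s - w τ) ^ (m τ).toNat * (s - w τ') ^ (-(m τ')).toNat * g τ s =
          (s - w τ') ^ (m τ').toNat * (s - w τ) ^ (-(m τ)).toNat * g τ' s := by
      intro τ hτ τ' hτ'
      set O : Set ℂ := Metric.ball (w τ) (r τ) ∩ Metric.ball (w τ') (r τ') with hO
      intro s hs
      have hOo : IsOpen O := Metric.isOpen_ball.inter Metric.isOpen_ball
      have hOc : IsPreconnected O := ((convex_ball _ _).inter (convex_ball _ _)).isPreconnected
      -- a point of `O` to the right of the line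
      obtain ⟨z₀, hz₀, hz₀e⟩ : ∃ z ∈ O, e < z.re := by
        have hrefl : ∀ t : ℝ, ∀ z : ℂ, dist ((((2 * e - z.re : ℝ) : ℂ)) + z.im * Complex.I) (w t) =
            dist z (w t) := by
          intro t z
          rw [dist_eq_norm, dist_eq_norm, Complex.norm_def, Complex.norm_def]
          congr 1
          rw [Complex.normSq_apply, Complex.normSq_apply]
          simp only [hw, Complex.sub_re, Complex.add_re, Complex.ofReal_re, Complex.mul_re,
            Complex.I_re, mul_zero, Complex.ofReal_im, Complex.I_im, mul_one, sub_self, add_zero,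
            Complex.sub_im, Complex.add_im, Complex.mul_im, zero_add]
          ring
        -- move a bit to the right
        obtain ⟨ε, hε, hεO⟩ := Metric.isOpen_iff.1 hOo s hs
        set z₁ : ℂ := s + ((ε / 2 : ℝ) : ℂ) with hz₁
        have hz₁O : z₁ ∈ O := by
          refine hεO ?_
          rw [Metric.mem_ball, dist_eq_norm, hz₁, add_sub_cancel_left, Complex.norm_real,
            Real.norm_of_nonneg (by positivity)]
          linarith
        rcases lt_trichotomy e z₁.re with h | h | h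
        · exact ⟨z₁, hz₁O, h⟩
        · obtain ⟨δ, hδ, hδO⟩ := Metric.isOpen_iff.1 hOo z₁ hz₁O
          refine ⟨z₁ + ((δ / 2 : ℝ) : ℂ), hδO ?_, ?_⟩
          · rw [Metric.mem_ball, dist_eq_norm, add_sub_cancel_left, Complex.norm_real,
              Real.norm_of_nonneg (by positivity)]
            linarith
          · rw [Complex.add_re, Complex.ofReal_re]
            linarith
        · refine ⟨((2 * e - z₁.re : ℝ) : ℂ) + z₁.im * Complex.I, ⟨?_, ?_⟩, ?_⟩
          · rw [Metric.mem_ball, hrefl]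
            exact hz₁O.1
          · rw [Metric.mem_ball, hrefl]
            exact hz₁O.2
          · simp
            linarith
      have hpd : ∀ (c : ℂ) (n : ℕ), Differentiable ℂ fun s : ℂ => (s - c) ^ n := by
        intro c n
        fun_prop
      have hd1 : DifferentiableOn ℂ (fun s => (s - w τ) ^ (m τ).toNat *
          (s - w τ') ^ (-(m τ')).toNat * g τ s) O :=
        (((hpd _ _).mul (hpd _ _)).differentiableOn).mul ((hg τ hτ).mono inter_subset_left)
      have hd2 : DifferentiableOn ℂ (fun s => (s - w τ') ^ (m τ').toNat *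
          (s - w τ) ^ (-(m τ)).toNat * g τ' s) O :=
        (((hpd _ _).mul (hpd _ _)).differentiableOn).mul ((hg τ' hτ').mono inter_subset_right)
      have ha1 := hd1.analyticOnNhd hOo
      have ha2 := hd2.analyticOnNhd hOo
      refine ha1.eqOn_of_preconnected_of_eventuallyEq ha2 hOc hz₀ ?_ hs
      have hV : IsOpen {s : ℂ | e < s.re} := isOpen_lt continuous_const Complex.continuous_re
      filter_upwards [hOo.mem_nhds hz₀, hV.mem_nhds hz₀e] with z hz hze
      have hze' : e < z.re := hze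
      have n1 : ∀ t : ℝ, z - w t ≠ 0 := by
        intro t h
        rw [sub_eq_zero] at h
        rw [h, hre t] at hze'
        exact lt_irrefl _ hze'
      rw [hgF τ hτ z hz.1 hze', hgF τ' hτ' z hz.2 hze']
      have e1 : ∀ (c : ℂ) (k : ℤ), c ≠ 0 → c ^ k.toNat * c ^ (-k) = c ^ (-k).toNat := by
        intro c k hc
        have h1 : (k.toNat : ℤ) + (-k) = ((-k).toNat : ℤ) := by omega
        rw [← zpow_natCast, ← zpow_natCast, ← zpow_add₀ hc, h1]
      have e2 := e1 (z - w τ) (m τ) (n1 τ)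
      have e3 := e1 (z - w τ') (m τ') (n1 τ')
      calc _ = ((z - w τ) ^ (m τ).toNat * (z - w τ) ^ (-(m τ))) *
            (z - w τ') ^ (-(m τ')).toNat * F z := by ring
        _ = (z - w τ) ^ (-(m τ)).toNat * ((z - w τ') ^ (m τ').toNat *
            (z - w τ') ^ (-(m τ'))) * F z := by rw [e2, e3]
        _ = _ := by ring
    -- no other pole or zero in the ball
    have hval : ∀ τ ∈ A, ∀ τ' ∈ A, ∀ s ∈ Metric.ball (w τ) (r τ) ∩ Metric.ball (w τ') (r τ'),
        s ≠ w τ → (s - w τ') ^ (m τ') * g τ' s = (s - w τ) ^ (m τ) * g τ s := by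
      intro τ hτ τ' hτ' s hs hsw
      have h1 := key τ hτ τ' hτ' s hs
      have hn : s - w τ ≠ 0 := sub_ne_zero.2 hsw
      have g1 := hg0 τ hτ s hs.1
      have g2 := hg0 τ' hτ' s hs.2
      have e1 : ∀ (c : ℂ) (k : ℤ), c ≠ 0 → c ^ k = c ^ k.toNat * (c ^ (-k).toNat)⁻¹ := by
        intro c k hc
        have h1 : k = (k.toNat : ℤ) + (-((-k).toNat : ℤ)) := by omega
        conv_lhs => rw [h1]
        rw [zpow_add₀ hc, zpow_neg, zpow_natCast, zpow_natCast]
      by_cases hsw' : s = w τ'
      · -- the exponent vanishes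
        have hz : s - w τ' = 0 := sub_eq_zero.2 hsw'
        have hm0 : m τ' = 0 := by
          rw [hz] at h1
          rcases lt_trichotomy (m τ') 0 with h | h | h
          · exfalso
            have k1 : (m τ').toNat = 0 := by omega
            have k2 : (-(m τ')).toNat ≠ 0 := by omega
            rw [k1, zero_pow k2, pow_zero, mul_zero, zero_mul, one_mul] at h1
            exact (mul_ne_zero (pow_ne_zero _ hn) g2) h1.symm
          · exact h
          · exfalso
            have k1 : (m τ').toNat ≠ 0 := by omega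
            have k2 : (-(m τ')).toNat = 0 := by omega
            rw [k2, zero_pow k1, pow_zero, mul_one, zero_mul, zero_mul] at h1
            exact (mul_ne_zero (pow_ne_zero _ hn) g1) h1
        rw [hm0] at h1 ⊢
        simp only [Int.toNat_zero, neg_zero, pow_zero, mul_one, one_mul, zpow_zero] at h1 ⊢
        rw [e1 _ _ hn]
        have hq : (s - w τ) ^ (-(m τ)).toNat ≠ 0 := pow_ne_zero _ hn
        field_simp
        linear_combination -h1
      · have hn' : s - w τ' ≠ 0 := sub_ne_zero.2 hsw'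
        rw [e1 _ _ hn, e1 _ _ hn']
        have hq : (s - w τ) ^ (-(m τ)).toNat ≠ 0 := pow_ne_zero _ hn
        have hq' : (s - w τ') ^ (-(m τ')).toNat ≠ 0 := pow_ne_zero _ hn'
        field_simp
        linear_combination -h1
    classical
    set G : ℂ → ℂ := fun s => if e < s.re then F s else
      if h : ∃ τ, τ ∈ A ∧ s ∈ Metric.ball (w τ) (r τ) then
        (s - w h.choose) ^ (m h.choose) * g h.choose s else 0 with hG
    have hGval : ∀ τ ∈ A, ∀ s ∈ Metric.ball (w τ) (r τ), s ≠ w τ →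
        G s = (s - w τ) ^ (m τ) * g τ s := by
      intro τ hτ s hs hsw
      rw [hG]
      simp only
      split_ifs with h1 h2
      · have hn : s - w τ ≠ 0 := sub_ne_zero.2 hsw
        rw [hgF τ hτ s hs h1, ← mul_assoc, ← zpow_add₀ hn, add_neg_cancel, zpow_zero, one_mul]
      · obtain ⟨h3, h4⟩ := h2.choose_spec
        exact hval τ hτ _ h3 s ⟨hs, h4⟩ hsw
      · exact absurd ⟨τ, hτ, hs⟩ h2
    refine ⟨{s : ℂ | e < s.re} ∪ ⋃ τ ∈ A, Metric.ball (w τ) (r τ), G, ?_, subset_union_left, ?_, ?_,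
      ?_⟩
    · refine (isOpen_lt continuous_const Complex.continuous_re).union ?_
      exact isOpen_biUnion fun τ _ => Metric.isOpen_ball
    · intro τ hτ
      refine Or.inr (mem_iUnion₂.2 ⟨τ, hτ, ?_⟩)
      exact Metric.mem_ball_self (hr τ hτ)
    · rintro s (hs | hs)
      · have h1 : AnalyticAt ℂ F s := hFd.analyticAt
          ((isOpen_lt continuous_const Complex.continuous_re).mem_nhds hs)
        refine h1.meromorphicAt.congr ?_
        refine Filter.EventuallyEq.filter_mono ?_ nhdsWithin_le_nhds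
        filter_upwards [(isOpen_lt continuous_const Complex.continuous_re).mem_nhds hs] with z hz
        have hz' : e < z.re := hz
        rw [hG]
        simp only
        rw [if_pos hz']
      · obtain ⟨τ, hτ, hs'⟩ := mem_iUnion₂.1 hs
        have h1 : MeromorphicAt (fun z => (z - w τ) ^ (m τ) * g τ z) s := by
          refine MeromorphicAt.fun_mul ?_ ?_
          · exact ((analyticAt_id.sub analyticAt_const).meromorphicAt).zpow (m τ)
          · exact ((hg τ hτ).analyticAt (Metric.isOpen_ball.mem_nhds hs')).meromorphicAt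
        refine h1.congr ?_
        have h2 : ∀ᶠ z in 𝓝[≠] s, z ∈ Metric.ball (w τ) (r τ) :=
          nhdsWithin_le_nhds (Metric.isOpen_ball.mem_nhds hs')
        have h3 : ∀ᶠ z in 𝓝[≠] s, z ≠ w τ := by
          by_cases h : s = w τ
          · rw [h]
            exact self_mem_nhdsWithin
          · exact nhdsWithin_le_nhds (isOpen_ne.mem_nhds h)
        filter_upwards [h2, h3] with z hz1 hz2
        exact (hGval τ hτ z hz1 hz2).symm
    · intro s hs
      rw [hG]
      simp only
      rw [if_pos hs]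
  · rintro ⟨U, G, hU, -, hA, hGm, hGF⟩ τ hτ
    exact exists_mer (hre τ) hF (hGm _ (hA τ hτ)) (Eventually.of_forall fun s hs => hGF s hs)

end Pool.Agent.Q9.EL
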