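import Pool.Agent.Q9.EL.Bes3
import Pool.Agent.Q9.EL.Loc
import Pool.Agent.TH339.MP.X6

/-!
# Continuation to a half-plane and the coefficients of the boundary function
-/

set_option autoImplicit false

namespace Pool.Agent.Q9.EL

open MeasureTheory Filter Topology Polynomial Finset
open Polynomial.Chebyshev (U T)
open Pool.Agent.TH339.MP (PP PS bl boundary FF tm M_nonneg radial_x unique_b ap
  ae_notMem differentiableOn_FF)
open Pool.Agent.W350.Edge (divSet)

/-! ### gluing -/

/-- gluing of analytic continuations over convex symmetric sets -/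
theorem glue_convex {F : ℂ → ℂ} {e : ℝ} {ι : Type*} (O : ι → Set ℂ) (g : ι → ℂ → ℂ)
    (hO : ∀ i, IsOpen (O i)) (hc : ∀ i, Convex ℝ (O i))
    (hs : ∀ i, ∀ z ∈ O i, (((2 * e - z.re : ℝ) : ℂ) + z.im * Complex.I) ∈ O i)
    (hg : ∀ i, DifferentiableOn ℂ (g i) (O i)) (hF : DifferentiableOn ℂ F {s : ℂ | e < s.re})
    (hgF : ∀ i, ∀ s ∈ O i, e < s.re → g i s = F s) :
    ∃ G : ℂ → ℂ, DifferentiableOn ℂ G ({s : ℂ | e < s.re} ∪ ⋃ i, O i) ∧
      (∀ s, e < s.re → G s = F s) ∧ ∀ i, ∀ s ∈ O i, G s = g i s := by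
  have key : ∀ i j, ∀ s ∈ O i ∩ O j, g i s = g j s := by
    intro i j s hs'
    have hOo : IsOpen (O i ∩ O j) := (hO i).inter (hO j)
    have hOc : IsPreconnected (O i ∩ O j) := ((hc i).inter (hc j)).isPreconnected
    obtain ⟨z₀, hz₀, hz₀e⟩ : ∃ z ∈ O i ∩ O j, e < z.re := by
      obtain ⟨ε, hε, hεO⟩ := Metric.isOpen_iff.1 hOo s hs'
      set z₁ : ℂ := s + ((ε / 2 : ℝ) : ℂ) with hz₁
      have hz₁O : z₁ ∈ O i ∩ O j := by
        refine hεO ?_
        rw [Metric.mem_ball, dist_eq_norm, hz₁, add_sub_cancel_left, Complex.norm_real,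
          Real.norm_of_nonneg (by positivity)]
        linarith
      rcases lt_trichotomy e z₁.re with h | h | h
      · exact ⟨z₁, hz₁O, h⟩
      · obtain ⟨δ, hδ, hδO⟩ := Metric.isOpen_iff.1 hOo z₁ hz₁O
        refine ⟨z₁ + ((δ / 2 : ℝ) : ℂ), hδO ?_, ?_⟩
        · rw [Metric.mem_ball, dist_eq_norm, add_sub_cancel_left, Complex.norm_real,
            Real.norm_of_nonneg (by positivity)]
          linarith
        · rw [Complex.add_re, Complex.ofReal_re]
          linarith
      · refine ⟨((2 * e - z₁.re : ℝ) : ℂ) + z₁.im * Complex.I, ⟨hs i _ hz₁O.1, hs j _ hz₁O.2⟩, ?_⟩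
        simp
        linarith
    have ha1 := ((hg i).mono (Set.inter_subset_left (t := O j))).analyticOnNhd hOo
    have ha2 := ((hg j).mono (Set.inter_subset_right (s := O i))).analyticOnNhd hOo
    refine ha1.eqOn_of_preconnected_of_eventuallyEq ha2 hOc hz₀ ?_ hs'
    have hV : IsOpen {s : ℂ | e < s.re} := isOpen_lt continuous_const Complex.continuous_re
    filter_upwards [hOo.mem_nhds hz₀, hV.mem_nhds hz₀e] with z hz hze
    rw [hgF i z hz.1 hze, hgF j z hz.2 hze]
  classical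
  set G : ℂ → ℂ := fun s => if e < s.re then F s else
    if h : ∃ i, s ∈ O i then g h.choose s else 0 with hG
  have h1 : ∀ s, e < s.re → G s = F s := by
    intro s hs'
    rw [hG]
    simp only
    rw [if_pos hs']
  have h2 : ∀ i, ∀ s ∈ O i, G s = g i s := by
    intro i s hs'
    rw [hG]
    simp only
    split_ifs with h3 h4
    · exact (hgF i s hs' h3).symm
    · exact key _ _ s ⟨h4.choose_spec, hs'⟩
    · exact absurd ⟨i, hs'⟩ h4
  refine ⟨G, ?_, h1, h2⟩
  have hV : IsOpen {s : ℂ | e < s.re} := isOpen_lt continuous_const Complex.continuous_re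
  rintro s (hs' | hs')
  · refine (((hF.differentiableAt (hV.mem_nhds hs')).congr_of_eventuallyEq
      ?_)).differentiableWithinAt
    filter_upwards [hV.mem_nhds hs'] with z hz using h1 z hz
  · obtain ⟨i, hi⟩ := Set.mem_iUnion.1 hs'
    refine ((((hg i).differentiableAt ((hO i).mem_nhds hi)).congr_of_eventuallyEq
      ?_)).differentiableWithinAt
    filter_upwards [(hO i).mem_nhds hi] with z hz using h2 i z hz

/-! ### affine changes of variable -/

lemma null_aff {N : Set ℝ} (hN : volume N = 0) (τ : ℝ) {h : ℝ} (hh : 0 < h) :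
    volume ((fun u : ℝ => τ + h * u) ⁻¹' N) = 0 := by
  have e : (fun u : ℝ => τ + h * u) ⁻¹' N = (h * ·) ⁻¹' ((τ + ·) ⁻¹' N) := rfl
  rw [e, Real.volume_preimage_mul_left hh.ne', measure_preimage_add, hN, mul_zero]

lemma ae_aff {p : ℝ → Prop} (hp : ∀ᵐ t : ℝ, p t) (τ : ℝ) {h : ℝ} (hh : 0 < h) :
    ∀ᵐ u : ℝ, p (τ + h * u) := by
  rw [ae_iff] at hp ⊢
  exact null_aff hp τ hh

/-- the coordinate in which the window is `[-1, 1]` -/
noncomputable def psi (τ h : ℝ) (s : ℂ) : ℂ := (-Complex.I * (s - 1) - τ) / h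

/-- the ellipse in the `s`-plane -/
def Es (τ h r : ℝ) : Set ℂ := psi τ h ⁻¹' ell r

lemma differentiable_psi (τ h : ℝ) : Differentiable ℂ (psi τ h) := by
  unfold psi
  fun_prop

lemma isOpen_Es (τ h r : ℝ) : IsOpen (Es τ h r) :=
  (isOpen_ell r).preimage (differentiable_psi τ h).continuous

lemma psi_line (τ : ℝ) {h : ℝ} (hh : 0 < h) (z : ℂ) :
    psi τ h (1 + (τ + h * z) * Complex.I) = z := by
  have hc : (h : ℂ) ≠ 0 := by exact_mod_cast hh.ne'
  unfold psi
  rw [div_eq_iff hc]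
  linear_combination (-(τ : ℂ) - h * z) * Complex.I_mul_I

lemma line_psi (τ : ℝ) {h : ℝ} (hh : 0 < h) (s : ℂ) :
    1 + (τ + h * psi τ h s) * Complex.I = s := by
  have hc : (h : ℂ) ≠ 0 := by exact_mod_cast hh.ne'
  unfold psi
  rw [mul_div_cancel₀ _ hc]
  linear_combination (1 - s) * Complex.I_mul_I

lemma convex_Es (τ h r : ℝ) : Convex ℝ (Es τ h r) := by
  intro x hx y hy a b ha hb hab
  have h1 : psi τ h (a • x + b • y) = a • psi τ h x + b • psi τ h y := by
    unfold psi
    simp only [Complex.real_smul]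
    have e : (a : ℂ) + b = 1 := by exact_mod_cast hab
    have e1 : (1 : ℂ) = a + b := e.symm
    have e2 : (-Complex.I * ((a : ℂ) * x + b * y - 1) - τ) =
        (a : ℂ) * (-Complex.I * (x - 1) - τ) + b * (-Complex.I * (y - 1) - τ) := by
      linear_combination (Complex.I - τ) * e1
    rw [e2]
    ring
  have h2 := convex_ell r hx hy ha hb hab
  change psi τ h (a • x + b • y) ∈ ell r
  rw [h1]
  exact h2

lemma symm_Es (τ : ℝ) {h : ℝ} (hh : 0 < h) (r : ℝ) (z : ℂ) (hz : z ∈ Es τ h r) :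
    (((2 * 1 - z.re : ℝ) : ℂ) + z.im * Complex.I) ∈ Es τ h r := by
  have h1 : psi τ h (((2 * 1 - z.re : ℝ) : ℂ) + z.im * Complex.I) =
      (starRingEnd ℂ) (psi τ h z) := by
    unfold psi
    rw [map_div₀, map_sub, map_mul, map_neg, Complex.conj_I, map_sub, map_one, Complex.conj_ofReal,
      Complex.conj_ofReal]
    congr 1
    have e : (starRingEnd ℂ) z = z.re - z.im * Complex.I :=
      Complex.ext (by simp) (by simp)
    rw [e]
    push_cast
    ring
  change psi τ h _ ∈ ell r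
  rw [h1]
  have h2 : psi τ h z ∈ ell r := hz
  unfold ell at h2 ⊢
  rw [Set.mem_ofPred_eq] at h2 ⊢
  have e1 : (starRingEnd ℂ) (psi τ h z) - 1 = (starRingEnd ℂ) (psi τ h z - 1) := by simp
  have e2 : (starRingEnd ℂ) (psi τ h z) + 1 = (starRingEnd ℂ) (psi τ h z + 1) := by simp
  rw [e1, e2, RCLike.norm_conj, RCLike.norm_conj]
  exact h2

/-- the shape of the ellipse -/
lemma ell_im {ρ : ℝ} (hρ : 1 < ρ) {z : ℂ} (hz : z ∈ ell ρ) : |z.im| ≤ (ρ - 1 / ρ) / 2 := by
  obtain ⟨θ, rfl⟩ := Complex.cos_surjective z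
  have h1 := (cos_mem_ell hρ θ).1 hz
  have h2 : (Complex.cos θ).im = -(Real.sin θ.re * Real.sinh θ.im) := by
    rw [Complex.cos_eq]
    have e1 : (Complex.cos (θ.re : ℂ)) = ((Real.cos θ.re : ℝ) : ℂ) := by push_cast; rfl
    have e2 : (Complex.cosh (θ.im : ℂ)) = ((Real.cosh θ.im : ℝ) : ℂ) := by push_cast; rfl
    have e3 : (Complex.sin (θ.re : ℂ)) = ((Real.sin θ.re : ℝ) : ℂ) := by push_cast; rfl
    have e4 : (Complex.sinh (θ.im : ℂ)) = ((Real.sinh θ.im : ℝ) : ℂ) := by push_cast; rfl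
    rw [e1, e2, e3, e4]
    simp only [Complex.sub_im, Complex.mul_im, Complex.mul_re, Complex.ofReal_re,
      Complex.ofReal_im, Complex.I_re, Complex.I_im]
    ring
  rw [h2, abs_neg, abs_mul]
  have h3 : |Real.sinh θ.im| ≤ Real.sinh (Real.log ρ) := by
    rw [Real.abs_sinh]
    exact Real.sinh_le_sinh.2 h1.le
  have h4 : Real.sinh (Real.log ρ) = (ρ - 1 / ρ) / 2 := by
    rw [Real.sinh_log (by linarith), one_div]
  rw [← h4]
  calc _ ≤ 1 * Real.sinh (Real.log ρ) :=
        mul_le_mul (Real.abs_sin_le_one _) h3 (abs_nonneg _) zero_le_one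
    _ = _ := one_mul _

lemma ell_norm {ρ : ℝ} {z : ℂ} (hz : z ∈ ell ρ) : ‖z‖ ≤ (ρ + 1 / ρ) / 2 := by
  have h1 : ‖z - 1‖ + ‖z + 1‖ < ρ + 1 / ρ := hz
  have h2 : ‖(z - 1) + (z + 1)‖ ≤ ‖z - 1‖ + ‖z + 1‖ := norm_add_le _ _
  have h3 : (z - 1) + (z + 1) = 2 * z := by ring
  rw [h3, norm_mul, Complex.norm_ofNat] at h2
  linarith

/-! ### the logarithmic term -/

lemma log_ii (a c : ℝ) :
    IntervalIntegrable (fun t : ℝ => Complex.log (Complex.I * t)) volume a c := by
  have h0 : IntervalIntegrable Real.log volume a c := intervalIntegral.intervalIntegrable_log'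
  have h1 : IntervalIntegrable (fun t : ℝ => ((Real.log t : ℝ) : ℂ)) volume a c :=
    ⟨Integrable.ofReal h0.1, Integrable.ofReal h0.2⟩
  have h2 : IntervalIntegrable (fun t : ℝ => ((Complex.arg (Complex.I * t) : ℝ) : ℂ) * Complex.I)
      volume a c := by
    refine (intervalIntegrable_const (c := Real.pi)).mono_fun' ?_ ?_
    · refine Measurable.aestronglyMeasurable ?_
      refine Measurable.mul_const ?_ _
      exact Complex.measurable_ofReal.comp (Complex.measurable_arg.comp (by fun_prop))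
    · refine Eventually.of_forall fun t => ?_
      simp only
      rw [norm_mul, Complex.norm_I, mul_one, Complex.norm_real]
      exact Complex.abs_arg_le_pi _
  refine (h1.add h2).congr fun t _ => ?_
  rw [Complex.log, norm_mul, Complex.norm_I, one_mul, Complex.norm_real, Real.norm_eq_abs,
    Real.log_abs]

section
variable {b : PP → ℂ} {M : ℝ}

/-- the boundary function of `m log (s - 1) + FF b` on the window -/
noncomputable def fm (b : PP → ℂ) (m : ℤ) (τ h : ℝ) (u : ℝ) : ℂ :=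
  bl b (τ + h * u) + m * Complex.log (Complex.I * ((τ + h * u : ℝ) : ℂ))

lemma fm_ii (hb : ∀ x, ‖b x‖ ≤ M / (x.2 + 1 : ℕ)) (m : ℤ) (τ : ℝ) {h : ℝ} (hh : 0 < h) :
    IntervalIntegrable (fm b m τ h) volume (-1) 1 :=
  (aff_int hh (win_ii hb _ _)).add ((aff_int hh (log_ii _ _)).const_mul (m : ℂ))

lemma edge_tendsto (t : ℝ) : Tendsto (fun x : ℝ => (1 + t * Complex.I + x : ℂ)) (𝓝[>] 0)
    (𝓝 (1 + t * Complex.I)) := by
  have h3 : Tendsto (fun x : ℝ => (1 + t * Complex.I + x : ℂ)) (𝓝 0)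
      (𝓝 (1 + t * Complex.I + ((0 : ℝ) : ℂ))) :=
    (continuous_const.add Complex.continuous_ofReal).tendsto _
  rw [Complex.ofReal_zero, add_zero] at h3
  exact h3.mono_left nhdsWithin_le_nhds

lemma zpow_split (z : ℂ) (hz : z ≠ 0) (m : ℤ) : z ^ m * z ^ (-m).toNat = z ^ m.toNat := by
  have h1 : m + ((-m).toNat : ℤ) = (m.toNat : ℤ) := by omega
  rw [← zpow_natCast, ← zpow_natCast, ← zpow_add₀ hz, h1]

/-- **from the coefficients to the continuation** -/
lemma cont_ell (hb : ∀ x, ‖b x‖ ≤ M / (x.2 + 1 : ℕ)) (m : ℤ) (τ : ℝ) {h r C : ℝ} (hh : 0 < h)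
    (hr : 1 < r) (H : ∀ n, ‖chc (fm b m τ h) n‖ ≤ C * (1 / r) ^ n) :
    ∃ g : ℂ → ℂ, DifferentiableOn ℂ g (Es τ h r) ∧ (∀ s ∈ Es τ h r, g s ≠ 0) ∧
      ∀ s ∈ Es τ h r, 1 < s.re → g s = (s - 1) ^ m * Complex.exp (FF b s) := by
  have hfi : IntegrableOn (fm b m τ h) (Set.Icc (-1) 1) := by
    rw [← intervalIntegrable_iff_integrableOn_Icc_of_le (by norm_num)]
    exact fm_ii hb m τ hh
  obtain ⟨G, hG, hGe⟩ := analytic_of_chc hfi hr H
  have hgd : DifferentiableOn ℂ (fun s => Complex.exp (G (psi τ h s))) (Es τ h r) :=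
    DifferentiableOn.cexp (hG.comp (differentiable_psi τ h).differentiableOn fun s hs => hs)
  refine ⟨fun s => Complex.exp (G (psi τ h s)), hgd, fun s _ => Complex.exp_ne_zero _, ?_⟩
  -- the good points
  set Z : Set ℝ := {t : ℝ | ∃ u ∈ Set.Ioo (-1 : ℝ) 1, t = τ + h * u ∧ fm b m τ h u = G u ∧
    t ∉ divSet (ap b) ∧ t ≠ 0} with hZ
  have hZ0 : volume Z ≠ 0 := by
    intro h0
    have h1 := null_aff h0 τ hh
    have h2 : ∀ᵐ u : ℝ, u ∉ (fun u : ℝ => τ + h * u) ⁻¹' Z := measure_eq_zero_iff_ae_notMem.1 h1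
    have h3 : ∀ᵐ t : ℝ, t ≠ 0 := by
      rw [ae_iff]
      simp
    have h4 : ∀ᵐ u : ℝ, u ∉ Set.Ioo (-1 : ℝ) 1 := by
      filter_upwards [h2, hGe, ae_aff (ae_notMem hb) τ hh, ae_aff h3 τ hh] with u k1 k2 k3 k4 k5
      exact k1 ⟨u, k5, rfl, k2 k5, k3, k4⟩
    have h5 := measure_eq_zero_iff_ae_notMem.2 h4
    rw [Real.volume_Ioo] at h5
    norm_num at h5
  have hZU : ∀ t ∈ Z, (1 + t * Complex.I : ℂ) ∈ Es τ h r := by
    rintro t ⟨u, hu, rfl, -⟩
    change psi τ h _ ∈ ell r
    have e : (1 + ((τ + h * u : ℝ) : ℂ) * Complex.I : ℂ) = 1 + (τ + h * (u : ℂ)) * Complex.I := by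
      push_cast
      ring
    rw [e, psi_line τ hh]
    have : (u : ℂ) = Complex.cos ((Real.arccos u : ℝ) : ℂ) := by
      rw [← Complex.ofReal_cos, Real.cos_arccos hu.1.le hu.2.le]
    rw [this, cos_mem_ell hr]
    simpa using Real.log_pos hr
  have hconv : IsPreconnected (Es τ h r ∩ {s : ℂ | 1 < s.re}) :=
    ((convex_Es τ h r).inter (convex_halfSpace_re_gt 1)).isPreconnected
  have hpd : ∀ k : ℕ, Differentiable ℂ fun s : ℂ => (s - 1) ^ k := by
    intro k
    fun_prop
  have huq := unique_b hb (isOpen_Es τ h r) hconv (h := fun s => (s - 1) ^ m.toNat)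
    (g := fun s => Complex.exp (G (psi τ h s)) * (s - 1) ^ (-m).toNat)
    (hpd _).differentiableOn (hgd.mul (hpd _).differentiableOn) hZ0 hZU (fun t ht => ?_)
  · intro s hs hs1
    have hne : s - 1 ≠ 0 := by
      intro h0
      rw [sub_eq_zero] at h0
      rw [h0] at hs1
      simp at hs1
    have h1 := huq s hs hs1
    have h2 := zpow_split (s - 1) hne m
    have h3 : (s - 1) ^ (-m).toNat ≠ 0 := pow_ne_zero _ hne
    refine mul_right_cancel₀ h3 ?_
    simp only at h1 ⊢
    rw [← h1, ← h2]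
    ring
  · have hU := hZU t ht
    obtain ⟨u, hu, htu, hGu, htd, ht0⟩ := ht
    have h1 := radial_x hb htd
    have h2 := edge_tendsto t
    have h3 : ContinuousAt (fun s => Complex.exp (G (psi τ h s))) (1 + t * Complex.I) :=
      hgd.continuousOn.continuousAt ((isOpen_Es τ h r).mem_nhds hU)
    have h4 := h3.tendsto.comp h2
    have h5 : ∀ k : ℕ, Tendsto (fun x : ℝ => (1 + t * Complex.I + x - 1 : ℂ) ^ k) (𝓝[>] 0)
        (𝓝 ((1 + t * Complex.I - 1 : ℂ) ^ k)) := fun k => ((h2.sub_const 1).pow k)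
    have h6 := ((h5 m.toNat).mul ((Complex.continuous_exp.tendsto _).comp h1)).sub
      (h4.mul (h5 (-m).toNat))
    have hval : (1 + t * Complex.I - 1 : ℂ) ^ m.toNat * Complex.exp (bl b t) -
        Complex.exp (G (psi τ h (1 + t * Complex.I))) * (1 + t * Complex.I - 1 : ℂ) ^ (-m).toNat
          = 0 := by
      have e1 : (1 + t * Complex.I - 1 : ℂ) = Complex.I * t := by ring
      have e2 : psi τ h (1 + t * Complex.I) = u := by
        have e : (1 + (t : ℂ) * Complex.I : ℂ) = 1 + (τ + h * (u : ℂ)) * Complex.I := by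
          rw [htu]
          push_cast
          ring
        rw [e, psi_line τ hh]
      have hne : Complex.I * t ≠ 0 :=
        mul_ne_zero Complex.I_ne_zero (by exact_mod_cast ht0)
      rw [e1, e2, ← hGu]
      unfold fm
      rw [← htu, Complex.exp_add, Complex.exp_int_mul, Complex.exp_log hne,
        ← zpow_split (Complex.I * t) hne m]
      ring
    rw [hval] at h6
    refine h6.congr fun x => ?_
    simp

/-- **from the continuation to the coefficients** -/
lemma coef_half (hb : ∀ x, ‖b x‖ ≤ M / (x.2 + 1 : ℕ)) (m : ℤ) (τ : ℝ) {h δ r : ℝ} (hh : 0 < h)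
    (hδ : 0 < δ) (hr : 1 < r) (hrδ : h * (r - 1 / r) < 2 * δ) {g : ℂ → ℂ}
    (hg : DifferentiableOn ℂ g {s : ℂ | 1 - δ < s.re}) (hg0 : ∀ s : ℂ, 1 - δ < s.re → g s ≠ 0)
    (hgF : ∀ s : ℂ, 1 < s.re → g s = (s - 1) ^ m * Complex.exp (FF b s)) :
    ∃ C : ℝ, ∀ n, ‖chc (fm b m τ h) n‖ ≤ C * (1 / r) ^ n := by
  -- a slightly larger ellipse
  obtain ⟨ρ, hrρ, hρδ⟩ : ∃ ρ : ℝ, r < ρ ∧ h * (ρ - 1 / ρ) < 2 * δ := by
    have hr0 : r ≠ 0 := by linarith
    have h1 : ContinuousAt (fun x : ℝ => h * (x - 1 / x)) r :=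
      continuousAt_const.mul (continuousAt_id.sub (continuousAt_const.div continuousAt_id hr0))
    have h2 : ∀ᶠ x in 𝓝[>] r, h * (x - 1 / x) < 2 * δ :=
      nhdsWithin_le_nhds (h1.eventually (gt_mem_nhds hrδ))
    obtain ⟨x, hx1, hx2⟩ := (h2.and self_mem_nhdsWithin).exists
    exact ⟨x, hx2, hx1⟩
  have hρ1 : 1 < ρ := hr.trans hrρ
  set a : ℝ := h * ((ρ - 1 / ρ) / 2) with ha
  set B : ℝ := h * ((ρ + 1 / ρ) / 2) with hB
  have haδ : a < δ := by
    rw [ha]
    linarith
  have ha0 : 0 ≤ a := by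
    have : 1 / ρ ≤ 1 := by
      rw [div_le_one (by linarith)]
      exact hρ1.le
    have : 0 ≤ (ρ - 1 / ρ) / 2 := by linarith
    positivity
  have hB0 : 0 < B := by positivity
  -- the disc
  set Rb : ℝ := B ^ 2 / (δ - a) with hRb
  have hRb0 : 0 < Rb := div_pos (by positivity) (by linarith)
  set c : ℂ := 1 + Rb + τ * Complex.I with hc
  have hcre : c.re = 1 + Rb := by
    rw [hc]
    simp
  have hball : Metric.ball c (Rb + δ) ⊆ {s : ℂ | 1 - δ < s.re} := by
    intro s hs
    rw [Metric.mem_ball, dist_eq_norm] at hs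
    have h1 := Complex.abs_re_le_norm (s - c)
    rw [Complex.sub_re, hcre] at h1
    have h2 := neg_abs_le (s.re - (1 + Rb))
    change 1 - δ < s.re
    linarith
  have hsub : ∀ z ∈ ell ρ, (1 + (τ + h * z) * Complex.I : ℂ) ∈ Metric.ball c (Rb + δ) := by
    intro z hz
    have h1 := ell_im hρ1 hz
    have h2 := (Complex.abs_re_le_norm z).trans (ell_norm hz)
    rw [Metric.mem_ball, dist_eq_norm]
    have e : (1 + (τ + h * z) * Complex.I : ℂ) - c = (((-(h * z.im) - Rb : ℝ)) : ℂ) +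
        ((h * z.re : ℝ) : ℂ) * Complex.I := by
      rw [hc]
      conv_lhs => rw [← Complex.re_add_im z]
      push_cast
      linear_combination ((h : ℂ) * z.im) * Complex.I_mul_I
    rw [e, Complex.norm_def, Real.sqrt_lt' (by linarith), Complex.normSq_add_mul_I]
    have h3 : |h * z.im| ≤ a := by
      rw [abs_mul, abs_of_pos hh, ha]
      exact mul_le_mul_of_nonneg_left h1 hh.le
    have h4 : |h * z.re| ≤ B := by
      rw [abs_mul, abs_of_pos hh, hB]
      exact mul_le_mul_of_nonneg_left h2 hh.le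
    have h5 : (h * z.re) ^ 2 ≤ B ^ 2 := by
      rw [← sq_abs]
      exact pow_le_pow_left₀ (abs_nonneg _) h4 2
    have h6 : (-(h * z.im) - Rb) ^ 2 ≤ (a + Rb) ^ 2 := by
      rw [← sq_abs]
      refine pow_le_pow_left₀ (abs_nonneg _) ?_ 2
      rw [abs_le] at h3 ⊢
      constructor <;> linarith [h3.1, h3.2]
    have h7 : Rb * (δ - a) = B ^ 2 := by
      rw [hRb]
      exact div_mul_cancel₀ _ (by linarith)
    have h8 : 0 < (δ - a) * (δ + a) := mul_pos (by linarith) (by linarith)
    nlinarith [h5, h6, h7, h8, hB0]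
  -- the logarithm on the disc
  have hgb : DifferentiableOn ℂ g (Metric.ball c (Rb + δ)) := hg.mono hball
  have hgb0 : ∀ s ∈ Metric.ball c (Rb + δ), g s ≠ 0 := fun s hs => hg0 s (hball hs)
  have hgder : DifferentiableOn ℂ (deriv g) (Metric.ball c (Rb + δ)) :=
    hgb.deriv Metric.isOpen_ball
  obtain ⟨L, hL⟩ := (hgder.div hgb hgb0).isExactOn_ball
  have hLd : DifferentiableOn ℂ L (Metric.ball c (Rb + δ)) := fun s hs =>
    (hL s hs).differentiableAt.differentiableWithinAt
  obtain ⟨c₀, hc₀⟩ : ∃ c₀ : ℂ, ∀ s ∈ Metric.ball c (Rb + δ), g s * Complex.exp (-L s) = c₀ := by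
    refine Metric.isOpen_ball.exists_is_const_of_deriv_eq_zero
      (convex_ball c (Rb + δ)).isPreconnected (hgb.mul hLd.neg.cexp) fun s hs => ?_
    have h1 : HasDerivAt g (deriv g s) s :=
      (hgb.differentiableAt (Metric.isOpen_ball.mem_nhds hs)).hasDerivAt
    have h2 := h1.mul (hL s hs).neg.cexp
    have h3 := h2.deriv
    have h0 := hgb0 s hs
    have e : deriv g s * Complex.exp (-L s) + g s * (Complex.exp (-L s) *
        -(deriv g s / g s)) = 0 := by
      field_simp
      ring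
    exact h3.trans e
  have hcc : c ∈ Metric.ball c (Rb + δ) := Metric.mem_ball_self (by linarith)
  have hc₀ne : c₀ ≠ 0 := by
    rw [← hc₀ c hcc]
    exact mul_ne_zero (hgb0 c hcc) (Complex.exp_ne_zero _)
  set L₁ : ℂ → ℂ := fun s => L s + Complex.log c₀ with hL₁
  have hL₁d : DifferentiableOn ℂ L₁ (Metric.ball c (Rb + δ)) := hLd.add_const _
  have hL₁e : ∀ s ∈ Metric.ball c (Rb + δ), Complex.exp (L₁ s) = g s := by
    intro s hs
    rw [hL₁]
    simp only
    rw [Complex.exp_add, Complex.exp_log hc₀ne, ← hc₀ s hs, mul_comm (g s), ← mul_assoc,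
      ← Complex.exp_add, add_neg_cancel, Complex.exp_zero, one_mul]
  -- comparison with the Dirichlet series
  set V : Set ℂ := Metric.ball c (Rb + δ) ∩ {s : ℂ | 1 < s.re} with hV
  have hVo : IsOpen V := Metric.isOpen_ball.inter (isOpen_lt continuous_const Complex.continuous_re)
  have hVc : IsPreconnected V :=
    ((convex_ball c (Rb + δ)).inter (convex_halfSpace_re_gt 1)).isPreconnected
  have hslit : ∀ s : ℂ, 1 < s.re → s - 1 ∈ Complex.slitPlane := by
    intro s hs
    refine Or.inl ?_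
    rw [Complex.sub_re, Complex.one_re]
    linarith
  set D : ℂ → ℂ := fun s => FF b s + m * Complex.log (s - 1) - L₁ s with hD
  have hDd : DifferentiableOn ℂ D V := by
    refine DifferentiableOn.sub (DifferentiableOn.add
      ((differentiableOn_FF hb).mono Set.inter_subset_right) ?_) (hL₁d.mono Set.inter_subset_left)
    refine DifferentiableOn.const_mul ?_ _
    exact DifferentiableOn.clog (by fun_prop) fun s hs => hslit s hs.2
  have hDe : ∀ s ∈ V, Complex.exp (D s) = 1 := by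
    intro s hs
    have hne : s - 1 ≠ 0 := Complex.slitPlane_ne_zero (hslit s hs.2)
    rw [hD]
    simp only
    rw [Complex.exp_sub, hL₁e s hs.1, hgF s hs.2, Complex.exp_add, Complex.exp_int_mul,
      Complex.exp_log hne, mul_comm, div_self]
    exact mul_ne_zero (zpow_ne_zero _ hne) (Complex.exp_ne_zero _)
  obtain ⟨c₁, hc₁⟩ : ∃ c₁ : ℂ, ∀ s ∈ V, D s = c₁ := by
    refine hVo.exists_is_const_of_deriv_eq_zero hVc hDd fun s hs => ?_
    have h1 : HasDerivAt D (deriv D s) s := (hDd.differentiableAt (hVo.mem_nhds hs)).hasDerivAt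
    have h2 : HasDerivAt (fun s => Complex.exp (D s)) (Complex.exp (D s) * deriv D s) s := h1.cexp
    have h3 : (fun s => Complex.exp (D s)) =ᶠ[𝓝 s] fun _ => 1 := by
      filter_upwards [hVo.mem_nhds hs] with z hz using hDe z hz
    have h4 : HasDerivAt (fun s => Complex.exp (D s)) 0 s :=
      (hasDerivAt_const s (1 : ℂ)).congr_of_eventuallyEq h3
    have h5 := h2.unique h4
    rw [hDe s hs, one_mul] at h5
    exact h5
  -- the boundary function
  set φ : ℂ → ℂ := fun z => L₁ (1 + (τ + h * z) * Complex.I) + c₁ with hφ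
  have hφd : DifferentiableOn ℂ φ (ell ρ) := by
    refine DifferentiableOn.add_const _ ?_
    exact hL₁d.comp (by fun_prop : Differentiable ℂ fun z : ℂ =>
      (1 + (τ + h * z) * Complex.I : ℂ)).differentiableOn hsub
  have hae : ∀ᵐ u : ℝ, u ∈ Set.Ioo (-1 : ℝ) 1 → fm b m τ h u = φ u := by
    have h3 : ∀ᵐ t : ℝ, t ≠ 0 := by
      rw [ae_iff]
      simp
    filter_upwards [ae_aff (ae_notMem hb) τ hh, ae_aff h3 τ hh] with u k3 k4 k5
    set t : ℝ := τ + h * u with ht
    have huell : (u : ℂ) ∈ ell ρ := by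
      have : (u : ℂ) = Complex.cos ((Real.arccos u : ℝ) : ℂ) := by
        rw [← Complex.ofReal_cos, Real.cos_arccos k5.1.le k5.2.le]
      rw [this, cos_mem_ell hρ1]
      simpa using Real.log_pos hρ1
    have het : (1 + (t : ℂ) * Complex.I : ℂ) = 1 + (τ + h * (u : ℂ)) * Complex.I := by
      rw [ht]
      push_cast
      ring
    have hmem : (1 + t * Complex.I : ℂ) ∈ Metric.ball c (Rb + δ) := by
      rw [het]
      exact hsub _ huell
    have h1 := radial_x hb k3
    have h2 := edge_tendsto t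
    have h4 : ContinuousAt L₁ (1 + t * Complex.I) :=
      hL₁d.continuousOn.continuousAt (Metric.isOpen_ball.mem_nhds hmem)
    have hsl : Complex.I * t ∈ Complex.slitPlane := by
      refine Or.inr ?_
      simp
      exact k4
    have h5 : Tendsto (fun x : ℝ => Complex.log (1 + t * Complex.I + x - 1 : ℂ)) (𝓝[>] 0)
        (𝓝 (Complex.log (Complex.I * t))) := by
      have h6 : Tendsto (fun x : ℝ => (1 + t * Complex.I + x - 1 : ℂ)) (𝓝[>] 0)
          (𝓝 (Complex.I * t)) := by
        have := h2.sub_const 1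
        have e : (1 + t * Complex.I - 1 : ℂ) = Complex.I * t := by ring
        rwa [e] at this
      exact (continuousAt_clog hsl).tendsto.comp h6
    have h6 : Tendsto (fun x : ℝ => L₁ (1 + t * Complex.I + x) + c₁ -
        m * Complex.log (1 + t * Complex.I + x - 1 : ℂ)) (𝓝[>] 0)
        (𝓝 (L₁ (1 + t * Complex.I) + c₁ - m * Complex.log (Complex.I * t))) :=
      ((h4.tendsto.comp h2).add_const c₁).sub (h5.const_mul (m : ℂ))
    have h7 : (fun x : ℝ => FF b (1 + t * Complex.I + x)) =ᶠ[𝓝[>] 0]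
        fun x : ℝ => L₁ (1 + t * Complex.I + x) + c₁ -
        m * Complex.log (1 + t * Complex.I + x - 1 : ℂ) := by
      have h8 := h2.eventually (Metric.isOpen_ball.mem_nhds hmem)
      filter_upwards [h8, self_mem_nhdsWithin] with x hx hx0
      have hx0' : (0 : ℝ) < x := hx0
      have h9 := hc₁ (1 + t * Complex.I + x) ⟨hx, by
        simp only [Set.mem_ofPred_eq, Complex.add_re, Complex.one_re, Complex.mul_re,
          Complex.ofReal_re, Complex.I_re, mul_zero, Complex.ofReal_im, Complex.I_im, mul_one,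
          sub_self, add_zero]
        linarith⟩
      rw [hD] at h9
      simp only at h9
      rw [← h9]
      ring
    have h8 := tendsto_nhds_unique h1 (h6.congr' h7.symm)
    unfold fm
    rw [← ht, h8, hφ]
    simp only
    rw [← het]
    ring
  obtain ⟨C, hC⟩ := chc_bound hr hrρ hφd
  refine ⟨C, fun n => ?_⟩
  have h1 : chc (fm b m τ h) n = chc (fun u => φ u) n := by
    unfold chc
    congr 1
    refine intervalIntegral.integral_congr_ae ?_
    have h2 : ∀ᵐ u : ℝ, u ≠ 1 := by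
      rw [ae_iff]
      simp
    filter_upwards [hae, h2] with u k1 k2 k3
    rw [Set.uIoc_of_le (by norm_num)] at k3
    rw [k1 ⟨k3.1, lt_of_le_of_ne k3.2 k2⟩]
  rw [h1]
  exact hC n

/-- **The criterion for the half-plane.** -/
theorem half_iff (hb : ∀ x, ‖b x‖ ≤ M / (x.2 + 1 : ℕ)) (m : ℤ) {h δ : ℝ} (hh : 0 < h)
    (hδ : 0 < δ) :
    (∃ g : ℂ → ℂ, DifferentiableOn ℂ g {s : ℂ | 1 - δ < s.re} ∧
      (∀ s : ℂ, 1 - δ < s.re → g s ≠ 0) ∧
      ∀ s : ℂ, 1 < s.re → g s = (s - 1) ^ m * Complex.exp (FF b s)) ↔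
    ∀ τ r : ℝ, 1 < r → h * (r - 1 / r) < 2 * δ →
      ∃ C : ℝ, ∀ n, ‖chc (fm b m τ h) n‖ ≤ C * (1 / r) ^ n := by
  constructor
  · rintro ⟨g, hg, hg0, hgF⟩ τ r hr hrδ
    exact coef_half hb m τ hh hδ hr hrδ hg hg0 hgF
  · intro H
    have hex : ∀ i : {p : ℝ × ℝ // 1 < p.2 ∧ h * (p.2 - 1 / p.2) < 2 * δ},
        ∃ g : ℂ → ℂ, DifferentiableOn ℂ g (Es i.1.1 h i.1.2) ∧ (∀ s ∈ Es i.1.1 h i.1.2, g s ≠ 0) ∧
          ∀ s ∈ Es i.1.1 h i.1.2, 1 < s.re → g s = (s - 1) ^ m * Complex.exp (FF b s) := by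
      intro i
      obtain ⟨C, hC⟩ := H i.1.1 i.1.2 i.2.1 i.2.2
      exact cont_ell hb m i.1.1 hh i.2.1 hC
    choose g hg hg0 hgF using hex
    have hne : ∀ s : ℂ, 1 < s.re → s - 1 ≠ 0 := by
      intro s hs h0
      rw [sub_eq_zero] at h0
      rw [h0] at hs
      simp at hs
    have hFd : DifferentiableOn ℂ (fun s => (s - 1) ^ m * Complex.exp (FF b s))
        {s : ℂ | 1 < s.re} := by
      refine DifferentiableOn.mul ?_ (differentiableOn_FF hb).cexp
      intro s hs
      have h1 : DifferentiableAt ℂ (fun s : ℂ => s - 1) s := by fun_prop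
      exact (h1.zpow (Or.inl (hne s hs))).differentiableWithinAt
    obtain ⟨G, hG, hGF, hGg⟩ := glue_convex (e := 1)
      (fun i : {p : ℝ × ℝ // 1 < p.2 ∧ h * (p.2 - 1 / p.2) < 2 * δ} => Es i.1.1 h i.1.2) g
      (fun i => isOpen_Es _ _ _) (fun i => convex_Es _ _ _)
      (fun i z hz => symm_Es _ hh _ z hz) hg hFd hgF
    have hcov : ∀ s : ℂ, 1 - δ < s.re → 1 < s.re ∨
        ∃ i : {p : ℝ × ℝ // 1 < p.2 ∧ h * (p.2 - 1 / p.2) < 2 * δ}, s ∈ Es i.1.1 h i.1.2 := by
      intro s hs
      rcases lt_or_ge 1 s.re with h1 | h1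
      · exact Or.inl h1
      · right
        set y : ℝ := (1 - s.re) / h with hy
        have hy0 : 0 ≤ y := div_nonneg (by linarith) hh.le
        have hyδ : y < δ / h := by
          rw [hy]
          exact div_lt_div_of_pos_right (by linarith) hh
        set y' : ℝ := (y + δ / h) / 2 with hy'
        have h2 : y < y' := by rw [hy']; linarith
        have h3 : y' < δ / h := by rw [hy']; linarith
        have h4 : 0 < y' := lt_of_le_of_lt hy0 h2
        set q : ℝ := Real.sqrt (1 + y' ^ 2) with hq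
        have hq2 : q ^ 2 = 1 + y' ^ 2 := Real.sq_sqrt (by positivity)
        have hq0 : 0 < q := Real.sqrt_pos.2 (by positivity)
        have hq1 : 1 < q := by nlinarith
        have hr1 : 1 < y' + q := by linarith
        have hinv : 1 / (y' + q) = q - y' := by
          rw [div_eq_iff (by linarith)]
          nlinarith
        refine ⟨⟨(s.im, y' + q), hr1, ?_⟩, ?_⟩
        · simp only
          rw [hinv]
          have : h * (δ / h) = δ := by field_simp
          nlinarith
        · change psi s.im h s ∈ ell (y' + q)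
          have e : psi s.im h s = (y : ℂ) * Complex.I := by
            unfold psi
            rw [hy]
            have hs' : s = s.re + s.im * Complex.I := (Complex.re_add_im s).symm
            have e0 : -Complex.I * (s - 1) - s.im = (1 - s.re) * Complex.I := by
              linear_combination (-Complex.I) * hs' - (s.im : ℂ) * Complex.I_mul_I
            rw [e0]
            push_cast
            ring
          rw [e]
          unfold ell
          rw [Set.mem_ofPred_eq, hinv]
          have e1 : ‖(y : ℂ) * Complex.I - 1‖ = Real.sqrt (1 + y ^ 2) := by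
            rw [Complex.norm_def]
            congr 1
            rw [Complex.normSq_apply]
            simp
            ring
          have e2 : ‖(y : ℂ) * Complex.I + 1‖ = Real.sqrt (1 + y ^ 2) := by
            rw [Complex.norm_def]
            congr 1
            rw [Complex.normSq_apply]
            simp
            ring
          rw [e1, e2]
          have h5 : Real.sqrt (1 + y ^ 2) < q := by
            rw [hq]
            refine Real.sqrt_lt_sqrt (by positivity) ?_
            nlinarith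
          linarith
    refine ⟨G, ?_, ?_, hGF⟩
    · refine hG.mono fun s hs => ?_
      rcases hcov s hs with h1 | ⟨i, hi⟩
      · exact Or.inl h1
      · exact Or.inr (Set.mem_iUnion.2 ⟨i, hi⟩)
    · intro s hs
      rcases hcov s hs with h1 | ⟨i, hi⟩
      · rw [hGF s h1]
        exact mul_ne_zero (zpow_ne_zero _ (hne s h1)) (Complex.exp_ne_zero _)
      · rw [hGg i s hi]
        exact hg0 i s hi

end

end Pool.Agent.Q9.EL
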