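import Pool.Agent.Q9.EL.Bes4

/-!
# The Bessel series and the criterion
-/

set_option autoImplicit false

namespace Pool.Agent.Q9.EL

open MeasureTheory Filter Topology Polynomial Finset
open Polynomial.Chebyshev (U T)
open Pool.Agent.TH339.MP (PP PS bl boundary FF tm M_nonneg wt ee fr qq TX mem_TX two_le_qq tm_eq
  norm_tm norm_b_le wt_nonneg prime_pos two_le_prime rpow_neg_le_half qq_injective)

/-! ### the sum of `1 / (p log p)` -/

lemma theta_dyadic (j : ℕ) : ∑ p ∈ (Finset.range (2 ^ (j + 1))).filter Nat.Prime, Real.log p ≤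
    Real.log 4 * 2 ^ (j + 1) := by
  have h1 := Chebyshev.theta_le_log4_mul_x (x := ((2 ^ (j + 1) : ℕ) : ℝ)) (by positivity)
  rw [Chebyshev.theta_eq_sum_Icc] at h1
  push_cast at h1
  refine le_trans ?_ h1
  refine Finset.sum_le_sum_of_subset_of_nonneg ?_ ?_
  · intro p hp
    rw [Finset.mem_filter, Finset.mem_range] at hp
    rw [Finset.mem_filter, Finset.mem_Icc]
    refine ⟨⟨Nat.zero_le _, ?_⟩, hp.2⟩
    refine Nat.le_floor ?_
    have : (p : ℝ) ≤ ((2 ^ (j + 1) : ℕ) : ℝ) := by exact_mod_cast hp.1.le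
    push_cast at this
    exact this
  · intro p _ _
    exact Real.log_natCast_nonneg p

lemma prime_sum_bound (S : Finset ℕ) (hS : ∀ p ∈ S, p.Prime) :
    ∑ p ∈ S, 1 / ((p : ℝ) * Real.log p) ≤
      ∑' j : ℕ, 2 * Real.log 4 / Real.log 2 ^ 2 * (1 / (j : ℝ) ^ 2) := by
  classical
  have hl2 : 0 < Real.log 2 := Real.log_pos (by norm_num)
  have hl4 : 0 < Real.log 4 := Real.log_pos (by norm_num)
  have hs : Summable fun j : ℕ => 2 * Real.log 4 / Real.log 2 ^ 2 * (1 / (j : ℝ) ^ 2) :=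
    (Real.summable_one_div_nat_pow.2 (by norm_num)).mul_left _
  set T : Finset ℕ := S.image (Nat.log 2) with hT
  have h1 : ∑ p ∈ S, 1 / ((p : ℝ) * Real.log p) =
      ∑ j ∈ T, ∑ p ∈ S with Nat.log 2 p = j, 1 / ((p : ℝ) * Real.log p) :=
    (Finset.sum_fiberwise_of_maps_to (fun p hp => Finset.mem_image_of_mem _ hp) _).symm
  rw [h1]
  refine (Finset.sum_le_sum fun j _ => ?_).trans
    (hs.sum_le_tsum T fun j _ => by positivity)
  -- one dyadic block
  rcases Nat.eq_zero_or_pos j with hj | hj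
  · subst hj
    have h2 : (S.filter fun p => Nat.log 2 p = 0) = ∅ := by
      rw [Finset.filter_eq_empty_iff]
      intro p hp h0
      have h3 := (hS p hp).two_le
      have : 1 ≤ Nat.log 2 p := Nat.log_pos (by norm_num) h3
      omega
    rw [h2]
    simp
  · have hjr : (0 : ℝ) < j := by exact_mod_cast hj
    have h2 : ∀ p ∈ S.filter (fun p => Nat.log 2 p = j), 1 / ((p : ℝ) * Real.log p) ≤
        Real.log p * (1 / (2 ^ j * (j * Real.log 2) ^ 2)) := by
      intro p hp
      rw [Finset.mem_filter] at hp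
      have hpr := hS p hp.1
      have h3 : 2 ^ j ≤ p := by
        rw [← hp.2]
        exact Nat.pow_log_le_self 2 hpr.ne_zero
      have h3r : (2 : ℝ) ^ j ≤ p := by exact_mod_cast h3
      have h4 : j * Real.log 2 ≤ Real.log p := by
        rw [← Real.log_pow]
        exact Real.log_le_log (by positivity) h3r
      have h5 : 0 < j * Real.log 2 := by positivity
      have h6 : 0 < Real.log p := by linarith
      have h7 : (0 : ℝ) < 2 ^ j := by positivity
      have hp0 : (0 : ℝ) < p := by linarith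
      rw [mul_one_div, div_le_div_iff₀ (by positivity) (by positivity), one_mul]
      calc 2 ^ j * (j * Real.log 2) ^ 2 ≤ p * Real.log p ^ 2 := by gcongr
        _ = _ := by ring
    refine (Finset.sum_le_sum h2).trans ?_
    rw [← Finset.sum_mul]
    have h3 : ∑ p ∈ S.filter (fun p => Nat.log 2 p = j), Real.log p ≤
        Real.log 4 * 2 ^ (j + 1) := by
      refine le_trans ?_ (theta_dyadic j)
      refine Finset.sum_le_sum_of_subset_of_nonneg ?_ fun p _ _ => Real.log_natCast_nonneg p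
      intro p hp
      rw [Finset.mem_filter] at hp
      rw [Finset.mem_filter, Finset.mem_range]
      refine ⟨?_, hS p hp.1⟩
      rw [← hp.2]
      exact Nat.lt_pow_succ_log_self (by norm_num) p
    calc _ ≤ Real.log 4 * 2 ^ (j + 1) * (1 / (2 ^ j * (j * Real.log 2) ^ 2)) := by gcongr
      _ = _ := by
        rw [pow_succ]
        field_simp

lemma summable_prime_log : Summable fun p : Nat.Primes =>
    1 / (((p : ℕ) : ℝ) * Real.log (p : ℕ)) := by
  classical
  refine summable_of_sum_le (c := ∑' j : ℕ, 2 * Real.log 4 / Real.log 2 ^ 2 * (1 / (j : ℝ) ^ 2))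
    (fun p => ?_) (fun S => ?_)
  · have := prime_pos p
    have := Real.log_natCast_nonneg (p : ℕ)
    positivity
  · have h1 := prime_sum_bound (S.map ⟨fun p : Nat.Primes => (p : ℕ), Nat.Primes.coe_nat_injective⟩)
      (fun p hp => by
        rw [Finset.mem_map] at hp
        obtain ⟨q, _, rfl⟩ := hp
        exact q.2)
    rw [Finset.sum_map] at h1
    exact h1

/-! ### the Bessel series -/

lemma norm_bes_le (k : ℕ) (y : ℝ) : ‖bes k y‖ ≤ 1 := by
  unfold bes
  have h1 : ‖∫ θ in (0 : ℝ)..Real.pi, Complex.exp (-(Complex.I * y * Real.cos θ)) *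
      Complex.cos (k * θ)‖ ≤ 1 * |Real.pi - 0| := by
    refine intervalIntegral.norm_integral_le_of_norm_le_const fun θ _ => ?_
    rw [norm_mul, Complex.norm_exp]
    have e1 : (-(Complex.I * y * ((Real.cos θ : ℝ) : ℂ))).re = 0 := by
      have : -(Complex.I * y * ((Real.cos θ : ℝ) : ℂ)) =
          ((-(y * Real.cos θ) : ℝ) : ℂ) * Complex.I := by
        push_cast
        ring
      rw [this]
      simp
    rw [e1, Real.exp_zero, one_mul]
    have e2 : Complex.cos ((k : ℂ) * θ) = ((Real.cos (k * θ) : ℝ) : ℂ) := by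
      push_cast
      rfl
    rw [e2, Complex.norm_real, Real.norm_eq_abs]
    exact Real.abs_cos_le_one _
  rw [norm_mul, norm_div, norm_pow, Complex.norm_I, one_pow, Complex.norm_real,
    Real.norm_of_nonneg Real.pi_pos.le]
  rw [sub_zero, abs_of_pos Real.pi_pos, one_mul] at h1
  calc _ ≤ 1 / Real.pi * Real.pi := by gcongr
    _ = 1 := by
      have := Real.pi_ne_zero
      field_simp

/-- the terms of the Bessel series -/
noncomputable def bt (b : PP → ℂ) (τ h : ℝ) (k : ℕ) (x : PP) : ℂ :=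
  tm b (1 + τ * Complex.I) x * (bes k (h * Real.log (qq x)) / ((h * Real.log (qq x) : ℝ) : ℂ))

section
variable {b : PP → ℂ} {M : ℝ}

lemma summable_bt (hb : ∀ x, ‖b x‖ ≤ M / (x.2 + 1 : ℕ)) (τ : ℝ) {h : ℝ} (hh : 0 < h) (k : ℕ) :
    Summable fun x => ‖bt b τ h k x‖ := by
  have hM := M_nonneg hb
  have hg : Summable fun j : ℕ => ((1 : ℝ) / 2) ^ j :=
    summable_geometric_of_lt_one (by norm_num) (by norm_num)
  have h1 := summable_prime_log.mul_of_nonneg hg (fun p => by
    have := prime_pos p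
    have := Real.log_natCast_nonneg (p : ℕ)
    positivity) (fun j => by positivity)
  refine Summable.of_nonneg_of_le (fun x => norm_nonneg _) (fun x => ?_) (h1.mul_left (M / h))
  obtain ⟨p, j⟩ := x
  unfold bt
  have hp := prime_pos p
  have hlp : 0 < Real.log (p : ℕ) := Real.log_pos (by
    have := two_le_prime p
    linarith)
  have hq : Real.log (p : ℕ) ≤ Real.log (qq (p, j)) := by
    have e : (qq (p, j) : ℝ) = ((p : ℕ) : ℝ) ^ (j + 1) := by
      unfold Pool.Agent.TH339.MP.qq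
      push_cast
      rfl
    rw [e, Real.log_pow]
    have : (1 : ℝ) ≤ ((j + 1 : ℕ) : ℝ) := by exact_mod_cast Nat.le_add_left 1 j
    nlinarith
  have hre : ((1 : ℂ) + τ * Complex.I).re = 1 := by simp
  rw [norm_mul, norm_tm, hre, norm_div, Complex.norm_real,
    Real.norm_of_nonneg (by positivity : 0 ≤ h * Real.log (qq (p, j)))]
  have hw : wt 1 (p, j) ≤ 1 / ((p : ℕ) : ℝ) * (1 / 2) ^ j := by
    unfold Pool.Agent.TH339.MP.wt
    simp only
    rw [pow_succ, mul_comm]
    have e : ((p : ℕ) : ℝ) ^ (-1 : ℝ) = 1 / ((p : ℕ) : ℝ) := by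
      rw [Real.rpow_neg_one, one_div]
    rw [e]
    have h2 := rpow_neg_le_half p (le_refl (1 : ℝ))
    rw [e] at h2
    gcongr
  have hbx : ‖b (p, j)‖ ≤ M := norm_b_le hb _
  calc ‖b (p, j)‖ * wt 1 (p, j) * (‖bes k (h * Real.log (qq (p, j)))‖ /
        (h * Real.log (qq (p, j))))
      ≤ M * (1 / ((p : ℕ) : ℝ) * (1 / 2) ^ j) * (1 / (h * Real.log (p : ℕ))) := by
        gcongr
        · exact wt_nonneg _ _
        · exact norm_bes_le _ _
    _ = _ := by
        field_simp

lemma tendsto_TX : Tendsto TX atTop atTop := by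
  refine tendsto_atTop_finset_of_monotone ?_ ?_
  · intro X Y hXY x hx
    rw [mem_TX] at hx ⊢
    exact hx.trans hXY
  · intro x
    exact ⟨qq x, (mem_TX _ _).2 le_rfl⟩

/-- **the coefficients of the boundary function** -/
lemma chc_bl (hb : ∀ x, ‖b x‖ ≤ M / (x.2 + 1 : ℕ)) (τ : ℝ) {h : ℝ} (hh : 0 < h) (n : ℕ) :
    chc (fun u => bl b (τ + h * u)) n =
      2 * Complex.I * ((n + 1 : ℕ) : ℂ) / Complex.I ^ (n + 1) * ∑' x, bt b τ h (n + 1) x := by
  have h1 := chc_lim hb τ hh n
  simp_rw [chc_PS b τ hh] at h1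
  have h2 : Tendsto (fun X : ℕ => BS b τ h (n + 1) X) atTop (𝓝 (∑' x, bt b τ h (n + 1) x)) := by
    have h3 := (summable_bt hb τ hh (n + 1)).of_norm.hasSum.comp tendsto_TX
    refine h3.congr fun X => ?_
    unfold BS bt
    simp only [Function.comp_apply]
    refine Finset.sum_congr rfl fun x _ => ?_
    have := tm_eq b 1 τ x
    rw [Complex.ofReal_one] at this
    rw [this]
  exact tendsto_nhds_unique h1 (h2.const_mul _)

/-- the coefficient -/
noncomputable def ck (b : PP → ℂ) (m : ℤ) (τ h : ℝ) (k : ℕ) : ℂ :=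
  2 * Complex.I * (k : ℂ) / Complex.I ^ k * (∑' x, bt b τ h k x) +
    m * chc (fun u => Complex.log (Complex.I * ((τ + h * u : ℝ) : ℂ))) (k - 1)

lemma chc_fm (hb : ∀ x, ‖b x‖ ≤ M / (x.2 + 1 : ℕ)) (m : ℤ) (τ : ℝ) {h : ℝ} (hh : 0 < h) (n : ℕ) :
    chc (fm b m τ h) n = ck b m τ h (n + 1) := by
  have h1 : chc (fm b m τ h) n = chc (fun u => bl b (τ + h * u)) n +
      chc (fun u => (m : ℂ) * Complex.log (Complex.I * ((τ + h * u : ℝ) : ℂ))) n :=
    chc_add (aff_int hh (win_ii hb _ _)) ((aff_int hh (log_ii _ _)).const_mul (m : ℂ)) n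
  rw [h1, chc_smul, chc_bl hb τ hh]
  rfl

/-- **The Bessel criterion.** -/
theorem bessel_iff {F : ℂ → ℂ} {κ : ℝ} (hb : ∀ x, ‖b x‖ ≤ M / (x.2 + 1 : ℕ))
    (hF : ∀ s : ℂ, 1 < s.re → F (s + κ) = Complex.exp (FF b s)) (m : ℤ) {h δ : ℝ} (hh : 0 < h)
    (hδ : 0 < δ) :
    (∃ g : ℂ → ℂ, DifferentiableOn ℂ g {s : ℂ | κ + 1 - δ < s.re} ∧
      (∀ s : ℂ, κ + 1 - δ < s.re → g s ≠ 0) ∧
      ∀ s : ℂ, κ + 1 < s.re → g s = (s - ((κ + 1 : ℝ) : ℂ)) ^ m * F s) ↔
    ∀ τ r : ℝ, 1 < r → h * (r - 1 / r) < 2 * δ →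
      ∃ C : ℝ, ∀ k : ℕ, 1 ≤ k → ‖ck b m τ h k‖ ≤ C / r ^ k := by
  have h1 := half_iff hb m hh hδ
  have h2 : (∀ τ r : ℝ, 1 < r → h * (r - 1 / r) < 2 * δ →
      ∃ C : ℝ, ∀ n, ‖chc (fm b m τ h) n‖ ≤ C * (1 / r) ^ n) ↔
      ∀ τ r : ℝ, 1 < r → h * (r - 1 / r) < 2 * δ →
      ∃ C : ℝ, ∀ k : ℕ, 1 ≤ k → ‖ck b m τ h k‖ ≤ C / r ^ k := by
    refine forall_congr' fun τ => forall_congr' fun r => forall_congr' fun hr => forall_congr'
      fun _ => ?_
    have hr0 : 0 < r := by linarith
    constructor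
    · rintro ⟨C, hC⟩
      refine ⟨C * r, fun k hk => ?_⟩
      obtain ⟨n, rfl⟩ := Nat.exists_eq_add_of_le' hk
      have := hC n
      rw [chc_fm hb m τ hh] at this
      refine this.trans (le_of_eq ?_)
      rw [one_div, inv_pow, pow_succ]
      field_simp
    · rintro ⟨C, hC⟩
      refine ⟨C / r, fun n => ?_⟩
      rw [chc_fm hb m τ hh]
      refine (hC (n + 1) (by omega)).trans (le_of_eq ?_)
      rw [one_div, inv_pow, pow_succ]
      field_simp
  rw [← h2, ← h1]
  constructor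
  · rintro ⟨g, hg, hg0, hgF⟩
    refine ⟨fun s => g (s + κ), ?_, ?_, ?_⟩
    · refine hg.comp (by fun_prop : Differentiable ℂ fun s : ℂ => s + κ).differentiableOn ?_
      intro s hs
      have hs' : 1 - δ < s.re := hs
      change κ + 1 - δ < (s + κ).re
      rw [Complex.add_re, Complex.ofReal_re]
      linarith
    · intro s hs
      refine hg0 _ ?_
      rw [Complex.add_re, Complex.ofReal_re]
      linarith
    · intro s hs
      simp only
      rw [hgF, hF s hs]
      · congr 2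
        push_cast
        ring
      · rw [Complex.add_re, Complex.ofReal_re]
        linarith
  · rintro ⟨g, hg, hg0, hgF⟩
    refine ⟨fun s => g (s - κ), ?_, ?_, ?_⟩
    · refine hg.comp (by fun_prop : Differentiable ℂ fun s : ℂ => s - κ).differentiableOn ?_
      intro s hs
      have hs' : κ + 1 - δ < s.re := hs
      change 1 - δ < (s - κ).re
      rw [Complex.sub_re, Complex.ofReal_re]
      linarith
    · intro s hs
      refine hg0 _ ?_
      rw [Complex.sub_re, Complex.ofReal_re]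
      linarith
    · intro s hs
      have h3 : 1 < (s - κ).re := by
        rw [Complex.sub_re, Complex.ofReal_re]
        linarith
      simp only
      rw [hgF _ h3, ← hF _ h3, sub_add_cancel]
      congr 2
      push_cast
      ring

end

end Pool.Agent.Q9.EL
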