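import Pool.Agent.Q9.EL.Bes5

/-!
# Euler products over the prime numbers
-/

set_option autoImplicit false

namespace Pool.Agent.Q9.EL

open MeasureTheory Filter Topology Finset
open Pool.Agent.TH339.MP (PP FF tm summable_tm wt wt_nonneg prime_pos two_le_prime
  rpow_neg_le_half)

variable {N : ℕ}

open Classical in
/-- the coefficient of `p^{-n(s - w/2)}` in the logarithm of the Euler product -/
noncomputable def cfQ (w : ℝ) (S : Set Nat.Primes) (α : Nat.Primes → Fin N → ℂ) (c : ℕ → ℂ)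
    (p : Nat.Primes) (n : ℕ) : ℂ :=
  if p ∈ S then 0 else
    c p ^ n * (∑ j, α p j ^ n) / ((n : ℂ) * (((((p : ℕ) : ℝ) ^ (w / 2)) ^ n : ℝ) : ℂ))

/-- the same, as a function on the prime powers -/
noncomputable def bQ (w : ℝ) (S : Set Nat.Primes) (α : Nat.Primes → Fin N → ℂ) (c : ℕ → ℂ)
    (x : PP) : ℂ := cfQ w S α c x.1 (x.2 + 1)

variable {w : ℝ} {S : Set Nat.Primes} {α : Nat.Primes → Fin N → ℂ} {c : ℕ → ℂ}

lemma norm_bQ (hc : ∀ n, ‖c n‖ ≤ 1)
    (hα : ∀ p, p ∉ S → ∀ j, ‖α p j‖ = ((p : ℕ) : ℝ) ^ (w / 2)) (x : PP) :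
    ‖bQ w S α c x‖ ≤ (N : ℝ) / (x.2 + 1 : ℕ) := by
  obtain ⟨p, k⟩ := x
  unfold bQ cfQ
  split_ifs with h
  · rw [norm_zero]
    positivity
  · have hp : (0 : ℝ) < ((p : ℕ) : ℝ) ^ (w / 2) := Real.rpow_pos_of_pos (prime_pos p) _
    simp only
    rw [norm_div, norm_mul, norm_pow, norm_mul, Complex.norm_natCast, Complex.norm_real,
      Real.norm_of_nonneg (by positivity)]
    have h1 : ‖∑ j, α p j ^ (k + 1)‖ ≤ N * (((p : ℕ) : ℝ) ^ (w / 2)) ^ (k + 1) := by
      refine (norm_sum_le _ _).trans ?_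
      have : ∀ j ∈ (Finset.univ : Finset (Fin N)), ‖α p j ^ (k + 1)‖ ≤
          (((p : ℕ) : ℝ) ^ (w / 2)) ^ (k + 1) := by
        intro j _
        rw [norm_pow, hα p h j]
      refine (Finset.sum_le_card_nsmul _ _ _ this).trans ?_
      rw [Finset.card_univ, Fintype.card_fin, nsmul_eq_mul]
    have h2 : ‖c p‖ ^ (k + 1) ≤ 1 := pow_le_one₀ (norm_nonneg _) (hc _)
    rw [div_le_div_iff₀ (by positivity) (by positivity)]
    calc ‖c p‖ ^ (k + 1) * ‖∑ j, α p j ^ (k + 1)‖ * ((k + 1 : ℕ) : ℝ)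
        ≤ 1 * (N * (((p : ℕ) : ℝ) ^ (w / 2)) ^ (k + 1)) * ((k + 1 : ℕ) : ℝ) := by gcongr
      _ = _ := by ring

open Classical in
/-- the Euler product -/
noncomputable def LQ (S : Set Nat.Primes) (α : Nat.Primes → Fin N → ℂ) (c : ℕ → ℂ) (s : ℂ) : ℂ :=
  ∏' p : Nat.Primes, if p ∈ S then 1 else ∏ j, (1 - c p * α p j * ((p : ℕ) : ℂ) ^ (-s))⁻¹

lemma LQ_eq (hc : ∀ n, ‖c n‖ ≤ 1)
    (hα : ∀ p, p ∉ S → ∀ j, ‖α p j‖ = ((p : ℕ) : ℝ) ^ (w / 2)) {s : ℂ} (hs : 1 < s.re) :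
    LQ S α c (s + ((w / 2 : ℝ) : ℂ)) = Complex.exp (FF (bQ w S α c) s) := by
  classical
  have hsum := summable_tm (norm_bQ hc hα) hs
  set z : Nat.Primes → Fin N → ℂ := fun p j =>
    c p * α p j * ((p : ℕ) : ℂ) ^ (-(s + ((w / 2 : ℝ) : ℂ))) with hz
  have hne : ∀ p : Nat.Primes, ((p : ℕ) : ℂ) ≠ 0 := fun p => by exact_mod_cast p.2.ne_zero
  have hpw : ∀ p : Nat.Primes, (((((p : ℕ) : ℝ) ^ (w / 2)) : ℝ) : ℂ) =
      ((p : ℕ) : ℂ) ^ (((w / 2 : ℝ)) : ℂ) := by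
    intro p
    rw [Complex.ofReal_cpow (Nat.cast_nonneg _)]
    norm_cast
  have hzlt : ∀ p, p ∉ S → ∀ j, ‖z p j‖ < 1 := by
    intro p hp j
    rw [hz]
    simp only
    rw [norm_mul, norm_mul, hα p hp j, Complex.norm_natCast_cpow_of_pos p.2.pos]
    have e : (-(s + ((w / 2 : ℝ) : ℂ))).re = -s.re - w / 2 := by
      rw [Complex.neg_re, Complex.add_re, Complex.ofReal_re]
      ring
    rw [e, mul_assoc, ← Real.rpow_add (prime_pos p)]
    have e2 : w / 2 + (-s.re - w / 2) = -s.re := by ring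
    rw [e2]
    have h1 := rpow_neg_le_half p hs.le
    have h2 : 0 ≤ ((p : ℕ) : ℝ) ^ (-s.re) := Real.rpow_nonneg (prime_pos p).le _
    calc ‖c p‖ * ((p : ℕ) : ℝ) ^ (-s.re) ≤ 1 * (1 / 2) := by
          refine mul_le_mul (hc _) ?_ h2 zero_le_one
          linarith
      _ < 1 := by norm_num
  -- the terms of the double series
  have hterm : ∀ p, p ∉ S → ∀ k : ℕ, tm (bQ w S α c) s (p, k) =
      ∑ j, z p j ^ (k + 1) / ((k + 1 : ℕ) : ℂ) := by
    intro p hp k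
    unfold Pool.Agent.TH339.MP.tm bQ cfQ
    simp only
    rw [if_neg hp, ← Finset.sum_div]
    have h1 : ∀ j, z p j ^ (k + 1) = c p ^ (k + 1) * α p j ^ (k + 1) *
        ((((p : ℕ) : ℂ) ^ (-s)) ^ (k + 1) / ((((p : ℕ) : ℂ) ^ (((w / 2 : ℝ)) : ℂ)) ^ (k + 1))) := by
      intro j
      rw [hz]
      simp only
      rw [mul_pow, mul_pow, ← div_pow]
      congr 2
      rw [neg_add, Complex.cpow_add _ _ (hne p), Complex.cpow_neg _ (((w / 2 : ℝ)) : ℂ),
        ← div_eq_mul_inv]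
    simp_rw [h1]
    rw [← Finset.sum_mul]
    have h2 : ∑ j, c p ^ (k + 1) * α p j ^ (k + 1) = c p ^ (k + 1) * ∑ j, α p j ^ (k + 1) := by
      rw [Finset.mul_sum]
    rw [h2, Complex.ofReal_pow, hpw]
    have h3 : (((k + 1 : ℕ)) : ℂ) ≠ 0 := by exact_mod_cast Nat.succ_ne_zero k
    have h4 : (((p : ℕ) : ℂ) ^ (((w / 2 : ℝ)) : ℂ)) ≠ 0 := by
      rw [Complex.cpow_ne_zero_iff]
      exact Or.inl (hne p)
    field_simp
  have hfib : ∀ p : Nat.Primes, HasSum (fun k : ℕ => tm (bQ w S α c) s (p, k))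
      (if p ∈ S then 0 else ∑ j, -Complex.log (1 - z p j)) := by
    intro p
    by_cases hp : p ∈ S
    · rw [if_pos hp]
      have : (fun k : ℕ => tm (bQ w S α c) s (p, k)) = fun _ => 0 := by
        funext k
        unfold Pool.Agent.TH339.MP.tm bQ cfQ
        simp only
        rw [if_pos hp, zero_mul]
      rw [this]
      exact hasSum_zero
    · rw [if_neg hp]
      simp_rw [hterm p hp]
      refine hasSum_sum fun j _ => ?_
      have h1 := Complex.hasSum_taylorSeries_neg_log (hzlt p hp j)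
      rw [← hasSum_nat_add_iff' 1] at h1
      simp only [range_one, sum_singleton, pow_zero, CharP.cast_eq_zero, div_zero, sub_zero] at h1
      exact h1
  have htot := hsum.hasSum.prod_fiberwise hfib
  have hprod := htot.cexp
  have hval : FF (bQ w S α c) s = ∑' x, tm (bQ w S α c) s x := rfl
  rw [hval, ← hprod.tprod_eq]
  unfold LQ
  refine tprod_congr fun p => ?_
  simp only [Function.comp_apply]
  by_cases hp : p ∈ S
  · rw [if_pos hp, if_pos hp, Complex.exp_zero]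
  · rw [if_neg hp, if_neg hp, Complex.exp_sum]
    refine Finset.prod_congr rfl fun j _ => ?_
    have h1 : 1 - z p j ≠ 0 := by
      intro h
      have h2 := hzlt p hp j
      rw [sub_eq_zero] at h
      rw [← h, norm_one] at h2
      exact lt_irrefl _ h2
    rw [Complex.exp_neg, Complex.exp_log h1]

end Pool.Agent.Q9.EL
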