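import Pool.Agent.Q9.EL.Ste

/-!
# Averages over the Dirichlet characters of a large prime modulus
-/

set_option autoImplicit false

namespace Pool.Agent.Q9.EL

open MeasureTheory Filter Topology
open scoped ENNReal
open Pool.Agent.Helper873.Mean Pool.Agent.Helper873.Monomial Pool.Agent.Helper873.Product
  Pool.Agent.Helper873.OneVar
open Pool.Agent.TH339.MP (PP wt fr ee qq TX PS two_le_qq continuous_PS wt_nonneg bl
  boundary M_nonneg mem_TX ap PS_tendsto ae_notMem ee_zero norm_ap)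

lemma exists_zet {w : ℂ} (hw : ‖w‖ = 1) : ∃ θ : UnitAddCircle, zet θ = w := by
  refine ⟨((-(w.arg / (2 * Real.pi)) : ℝ) : UnitAddCircle), ?_⟩
  rw [zet_coe]
  have h1 : (2 * Real.pi * -(w.arg / (2 * Real.pi)) : ℝ) = -w.arg := by
    have := Real.pi_ne_zero
    field_simp
  have h3 := Complex.norm_mul_exp_arg_mul_I w
  rw [hw, Complex.ofReal_one, one_mul] at h3
  rw [h1, Complex.ofReal_neg, neg_neg]
  exact h3

open Classical in
/-- an angle of a number of absolute value one -/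
noncomputable def ang1 (w : ℂ) : UnitAddCircle := if h : ∃ θ, zet θ = w then h.choose else 0

lemma zet_ang1 {w : ℂ} (hw : ‖w‖ = 1) : zet (ang1 w) = w := by
  unfold ang1
  rw [dif_pos (exists_zet hw)]
  exact (exists_zet hw).choose_spec

/-- the point of the torus of a completely multiplicative function -/
noncomputable def zc (c : ℕ → ℂ) : Tor := fun k => ang1 (c (Nat.nth Nat.Prime k))

lemma fz_zc {c : ℕ → ℂ} (hc1 : c 1 = 1) (hcm : ∀ m n, c (m * n) = c m * c n) {n : ℕ} (hn : n ≠ 0)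
    (hu : ∀ p, p.Prime → p ∣ n → ‖c p‖ = 1) : fz (zc c) n = c n := by
  induction n using Nat.recOnMul with
  | zero => exact absurd rfl hn
  | one => rw [fz_one, hc1]
  | prime p hp =>
    rw [fz_prime _ hp]
    unfold zc
    rw [Nat.nth_count hp]
    exact zet_ang1 (hu p hp dvd_rfl)
  | mul a b iha ihb =>
    have ha : a ≠ 0 := fun h => hn (by rw [h, zero_mul])
    have hb : b ≠ 0 := fun h => hn (by rw [h, mul_zero])
    rw [fz_mul, hcm, iha ha fun p hp h => hu p hp (h.mul_right b),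
      ihb hb fun p hp h => hu p hp (h.mul_left a)]

section
variable {q : ℕ}

lemma norm_chi_one [NeZero q] (χ : DirichletCharacter ℂ q) {n : ℕ} (h : n.Coprime q) :
    ‖χ (n : ZMod q)‖ = 1 := by
  obtain ⟨u, hu⟩ : IsUnit ((n : ℕ) : ZMod q) := (ZMod.isUnit_iff_coprime n q).2 h
  rw [← hu]
  exact χ.unit_norm_eq_one u

/-- the point of the torus of a character -/
noncomputable def zx (χ : DirichletCharacter ℂ q) : Tor := zc fun n : ℕ => χ (n : ZMod q)

lemma fz_zx [NeZero q] (hq : q.Prime) (χ : DirichletCharacter ℂ q) {n : ℕ} (hn : n ≠ 0)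
    (hnq : ∀ p, p.Prime → p ∣ n → p < q) : fz (zx χ) n = χ (n : ZMod q) := by
  unfold zx
  refine fz_zc (c := fun n : ℕ => χ (n : ZMod q)) (by simp) (fun a b => by simp) hn ?_
  intro p hp hpn
  refine norm_chi_one χ ?_
  exact (Nat.coprime_primes hp hq).2 (hnq p hp hpn).ne

/-- the average over the characters modulo `q` -/
noncomputable def av (q : ℕ) (f : Tor → ℂ) (t : ℝ) : ℂ :=
  (∑ᶠ χ : DirichletCharacter ℂ q, f (zx χ + zt t)) / (q.totient : ℂ)

lemma av_eq [NeZero q] (f : Tor → ℂ) (t : ℝ) :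
    av q f t = (∑ χ : DirichletCharacter ℂ q, f (zx χ + zt t)) / (q.totient : ℂ) := by
  unfold av
  rw [finsum_eq_sum_of_fintype]

lemma card_char [NeZero q] : (Fintype.card (DirichletCharacter ℂ q)) = q.totient := by
  rw [← Nat.card_eq_fintype_card]
  exact DirichletCharacter.card_eq_totient_of_hasEnoughRootsOfUnity ℂ q

lemma av_le [NeZero q] {f : Tor → ℂ} {B : ℝ} (hB : ∀ z, ‖f z‖ ≤ B) (t : ℝ) : ‖av q f t‖ ≤ B := by
  rw [av_eq, norm_div, Complex.norm_natCast]
  have hpos : (0 : ℝ) < q.totient := by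
    exact_mod_cast Nat.totient_pos.2 (Nat.pos_of_ne_zero (NeZero.ne q))
  rw [div_le_iff₀ hpos]
  refine (norm_sum_le_of_le (n := fun _ => B) _ fun χ _ => hB _).trans ?_
  rw [Finset.sum_const, Finset.card_univ, card_char, nsmul_eq_mul, mul_comm]

lemma orth_char [NeZero q] (hq : q.Prime) {m n : ℕ} (hm : m + 1 < q) (hn : n + 1 < q) (t : ℝ)
    {f : C(Tor, ℂ)} (hf : f = chiC m * star (chiC n)) : av q f t = ∫ z, f z ∂tor := by
  have hpos : (q.totient : ℂ) ≠ 0 := by
    have : q.totient ≠ 0 := (Nat.totient_pos.2 (Nat.pos_of_ne_zero (NeZero.ne q))).ne'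
    exact_mod_cast this
  have hchi : ∀ (k : ℕ), k + 1 < q → ∀ χ : DirichletCharacter ℂ q,
      chi k (zx χ + zt t) = χ ((k + 1 : ℕ) : ZMod q) * ee (-Real.log (k + 1 : ℕ)) t := by
    intro k hk χ
    have h1 : chi k (zx χ + zt t) = fz (zx χ + zt t) (k + 1) := by
      unfold fz
      rw [if_neg (Nat.succ_ne_zero k), Nat.add_sub_cancel]
    rw [h1, fz_add, fz_zt t (Nat.succ_ne_zero k), fz_zx hq χ (Nat.succ_ne_zero k)]
    intro p hp hpd
    exact lt_of_le_of_lt (Nat.le_of_dvd (Nat.succ_pos k) hpd) hk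
  have hval : ∀ χ : DirichletCharacter ℂ q, f (zx χ + zt t) =
      χ (((n + 1 : ℕ) : ZMod q)⁻¹) * χ ((m + 1 : ℕ) : ZMod q) *
        (ee (-Real.log (m + 1 : ℕ)) t * star (ee (-Real.log (n + 1 : ℕ)) t)) := by
    intro χ
    rw [hf]
    simp only [ContinuousMap.mul_apply, ContinuousMap.star_apply, chiC, ContinuousMap.coe_mk]
    have : Fact q.Prime := ⟨hq⟩
    rw [hchi m hm, hchi n hn, star_mul', MulChar.star_apply', MulChar.inv_apply']
    ring
  rw [av_eq]
  simp_rw [hval]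
  rw [← Finset.sum_mul, DirichletCharacter.sum_char_inv_mul_char_eq ℂ
    ((ZMod.isUnit_iff_coprime (n + 1) q).2 ((Nat.coprime_of_lt_prime (Nat.succ_ne_zero n) hn hq).symm))]
  by_cases h : m = n
  · subst h
    rw [if_pos rfl]
    have h1 : ∀ z : Tor, f z = 1 := by
      intro z
      rw [hf]
      simp only [ContinuousMap.mul_apply, ContinuousMap.star_apply, chiC, ContinuousMap.coe_mk]
      rw [← starRingEnd_apply, Complex.mul_conj, Complex.normSq_eq_norm_sq, norm_chi]
      simp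
    simp_rw [h1]
    have h2 : ee (-Real.log (m + 1 : ℕ)) t * star (ee (-Real.log (m + 1 : ℕ)) t) = 1 := by
      rw [← starRingEnd_apply, Complex.mul_conj, Complex.normSq_eq_norm_sq,
        Pool.Agent.TH339.MP.norm_ee]
      simp
    rw [h2, mul_one, div_self hpos]
    simp
  · have h0 : ∫ z, f z ∂tor = 0 := by
      rw [hf]
      exact orth m n h
    rw [h0, if_neg, zero_mul, zero_div]
    intro h1
    have h2 := (ZMod.natCast_eq_natCast_iff' (n + 1) (m + 1) q).1 h1
    rw [Nat.mod_eq_of_lt hn, Nat.mod_eq_of_lt hm] at h2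
    omega

end

/-- the average over the characters is close to the space mean -/
def EqX (f : C(Tor, ℂ)) : Prop :=
  ∀ ε : ℝ, 0 < ε → ∃ q0 : ℕ, ∀ q : ℕ, q.Prime → q0 ≤ q → ∀ t : ℝ,
    ‖av q f t - ∫ z, f z ∂tor‖ ≤ ε

lemma eqX_V (f : C(Tor, ℂ)) (hf : f ∈ V) : EqX f := by
  unfold V at hf
  induction hf using Submodule.span_induction with
  | mem f hf =>
    obtain ⟨p, rfl⟩ := hf
    intro ε hε
    refine ⟨p.1 + p.2 + 2, fun q hq hqq t => ?_⟩
    have : NeZero q := ⟨hq.ne_zero⟩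
    rw [orth_char hq (m := p.1) (n := p.2) (by omega) (by omega) t rfl, sub_self, norm_zero]
    exact hε.le
  | zero =>
    intro ε hε
    refine ⟨2, fun q hq _ t => ?_⟩
    have : NeZero q := ⟨hq.ne_zero⟩
    rw [av_eq]
    simp [hε.le]
  | add f g _ _ hf hg =>
    intro ε hε
    obtain ⟨T1, H1⟩ := hf (ε / 2) (half_pos hε)
    obtain ⟨T2, H2⟩ := hg (ε / 2) (half_pos hε)
    refine ⟨max T1 T2, fun q hq hqq t => ?_⟩
    have : NeZero q := ⟨hq.ne_zero⟩
    have k1 := H1 q hq ((le_max_left _ _).trans hqq) t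
    have k2 := H2 q hq ((le_max_right _ _).trans hqq) t
    have e1 : ∫ z, (f + g) z ∂tor = ∫ z, f z ∂tor + ∫ z, g z ∂tor := by
      simp only [ContinuousMap.add_apply]
      exact integral_add (integrable_C f) (integrable_C g)
    have e2 : av q (f + g : C(Tor, ℂ)) t = av q f t + av q g t := by
      rw [av_eq, av_eq, av_eq]
      simp only [ContinuousMap.add_apply]
      rw [Finset.sum_add_distrib, add_div]
    rw [e1, e2, show av q f t + av q g t - (∫ z, f z ∂tor + ∫ z, g z ∂tor) =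
      (av q f t - ∫ z, f z ∂tor) + (av q g t - ∫ z, g z ∂tor) by ring]
    exact (norm_add_le _ _).trans (by linarith)
  | smul c f _ hf =>
    intro ε hε
    have hc : 0 < ‖c‖ + 1 := by positivity
    obtain ⟨T1, H1⟩ := hf (ε / (‖c‖ + 1)) (by positivity)
    refine ⟨T1, fun q hq hqq t => ?_⟩
    have : NeZero q := ⟨hq.ne_zero⟩
    have k1 := H1 q hq hqq t
    have e1 : ∫ z, (c • f) z ∂tor = c * ∫ z, f z ∂tor := by
      simp only [ContinuousMap.smul_apply, smul_eq_mul]
      exact integral_const_mul _ _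
    have e2 : av q (c • f : C(Tor, ℂ)) t = c * av q f t := by
      rw [av_eq, av_eq]
      simp only [ContinuousMap.smul_apply, smul_eq_mul]
      rw [← Finset.mul_sum, mul_div_assoc]
    rw [e1, e2, ← mul_sub, norm_mul]
    calc ‖c‖ * ‖av q f t - ∫ z, f z ∂tor‖ ≤ (‖c‖ + 1) * (ε / (‖c‖ + 1)) := by
          gcongr
          linarith
      _ = ε := by field_simp

/-- the approximation step -/
lemma closeX {q : ℕ} [NeZero q] {f g : C(Tor, ℂ)} {δ : ℝ} (h : ‖f - g‖ ≤ δ) {t : ℝ} {ε : ℝ}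
    (hg : ‖av q g t - ∫ z, g z ∂tor‖ ≤ ε) : ‖av q f t - ∫ z, f z ∂tor‖ ≤ ε + 2 * δ := by
  have hpt : ∀ z, ‖f z - g z‖ ≤ δ := fun z => ((f - g).norm_coe_le_norm z).trans h
  have h2 : av q f t - av q g t = av q (fun z => f z - g z) t := by
    rw [av_eq, av_eq, av_eq, Finset.sum_sub_distrib, sub_div]
  have h3 := av_le (q := q) hpt t
  rw [← h2] at h3
  have h4 : ‖∫ z, g z ∂tor - ∫ z, f z ∂tor‖ ≤ δ := by
    rw [← integral_sub (integrable_C g) (integrable_C f)]
    have h5 := norm_integral_le_of_norm_le_const (μ := tor) (f := fun z => g z - f z) (C := δ)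
      (Filter.Eventually.of_forall fun z => by
        rw [norm_sub_rev]; exact hpt z)
    simpa using h5
  have h6 : av q f t - ∫ z, f z ∂tor =
      (av q f t - av q g t) + (av q g t - ∫ z, g z ∂tor) + (∫ z, g z ∂tor - ∫ z, f z ∂tor) := by ring
  rw [h6]
  calc _ ≤ ‖av q f t - av q g t‖ + ‖av q g t - ∫ z, g z ∂tor‖ +
      ‖∫ z, g z ∂tor - ∫ z, f z ∂tor‖ := norm_add₃_le
    _ ≤ _ := by linarith

/-- **Equidistribution of the characters of a large prime modulus, uniformly over a totally bounded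
family of test functions and over the shifts.** -/
theorem chi_unif {S : Set C(Tor, ℂ)} (hS : TotallyBounded S) {ε : ℝ} (hε : 0 < ε) :
    ∃ q0 : ℕ, ∀ q : ℕ, q.Prime → q0 ≤ q → ∀ t : ℝ, ∀ f ∈ S,
      ‖av q f t - ∫ z, f z ∂tor‖ ≤ ε := by
  have hX : ∀ f : C(Tor, ℂ), EqX f := by
    intro f ε hε
    obtain ⟨g, hg, hfg⟩ := dense f (ε / 4) (by positivity)
    obtain ⟨T0, H⟩ := eqX_V g hg (ε / 2) (by positivity)
    refine ⟨T0, fun q hq hqq t => ?_⟩
    have : NeZero q := ⟨hq.ne_zero⟩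
    have := closeX (q := q) hfg.le (H q hq hqq t)
    linarith
  obtain ⟨P, hP, hcov⟩ := (Metric.totallyBounded_iff.1 hS) (ε / 4) (by positivity)
  choose T0 H using fun g : C(Tor, ℂ) => hX g (ε / 2) (by positivity)
  obtain ⟨B, hB⟩ := (hP.image T0).bddAbove
  refine ⟨B, fun q hq hqq t f hf => ?_⟩
  have : NeZero q := ⟨hq.ne_zero⟩
  obtain ⟨g, hg, hfg⟩ := Set.mem_iUnion₂.1 (hcov hf)
  rw [Metric.mem_ball, dist_eq_norm] at hfg
  have h2 : T0 g ≤ q := (hB (Set.mem_image_of_mem T0 hg)).trans hqq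
  have := closeX (q := q) hfg.le (H g q hq h2 t)
  linarith

end Pool.Agent.Q9.EL
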