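import Pool.Agent.Q9.EL.Ext

/-!
# Analytic continuation across the edge implies approximation by polynomials
-/

set_option autoImplicit false

namespace Pool.Agent.Q9.EL

open MeasureTheory Filter Topology Polynomial Finset
open scoped ENNReal NNReal
open Pool.Agent.TH339.MP (PP PS bl boundary FF tm M_nonneg continuous_PS radial_x unique_b ap
  ae_notMem differentiableOn_FF)
open Pool.Agent.W350.Edge (divSet)

/-- the Taylor polynomials -/
lemma taylor_poly {G : ℂ → ℂ} {c : ℂ} {ρ : ℝ} (hρ : 0 < ρ)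
    (hG : DifferentiableOn ℂ G (Metric.ball c ρ)) :
    ∃ C : ℝ, 0 < C ∧ ∀ d : ℕ, ∃ P : ℂ[X], P.natDegree ≤ d ∧
      ∀ z : ℂ, ‖z - c‖ ≤ ρ / 40 → ‖G z - P.eval z‖ ≤ C * (1 / 10) ^ d := by
  set R : ℝ≥0 := ⟨ρ / 2, by positivity⟩ with hR
  have hR0 : 0 < R := by
    rw [← NNReal.coe_pos]
    exact half_pos hρ
  have hRc : (R : ℝ) = ρ / 2 := rfl
  have h1 : DifferentiableOn ℂ G (Metric.closedBall c R) := by
    refine hG.mono (Metric.closedBall_subset_ball ?_)
    rw [hRc]
    linarith
  have h2 := h1.hasFPowerSeriesOnBall hR0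
  set r : ℝ≥0 := ⟨ρ / 4, by positivity⟩ with hr
  have hrc : (r : ℝ) = ρ / 4 := rfl
  have hrR : (r : ℝ≥0∞) < R := by
    rw [ENNReal.coe_lt_coe, ← NNReal.coe_lt_coe, hrc, hRc]
    linarith
  obtain ⟨a, ha, C, hC, H⟩ := h2.uniform_geometric_approx' hrR
  refine ⟨C, hC, fun d => ?_⟩
  set p := cauchyPowerSeries G c R with hp
  refine ⟨∑ k ∈ Finset.range (d + 1), Polynomial.C (p.coeff k) * (X - Polynomial.C c) ^ k, ?_, ?_⟩
  · refine natDegree_sum_le_of_forall_le _ _ fun k hk => ?_
    refine natDegree_mul_le.trans ?_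
    rw [natDegree_C, zero_add]
    refine (natDegree_pow_le).trans ?_
    rw [natDegree_X_sub_C, mul_one]
    have := Finset.mem_range.1 hk
    omega
  · intro z hz
    have h3 := H (z - c) (by
      rw [Metric.mem_ball, dist_zero_right, hrc]
      linarith) (d + 1)
    rw [add_sub_cancel] at h3
    have e : p.partialSum (d + 1) (z - c) =
        (∑ k ∈ Finset.range (d + 1), Polynomial.C (p.coeff k) * (X - Polynomial.C c) ^ k).eval z := by
      rw [FormalMultilinearSeries.partialSum, eval_finsetSum]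
      refine Finset.sum_congr rfl fun k _ => ?_
      rw [FormalMultilinearSeries.apply_eq_pow_smul_coeff]
      simp only [eval_mul, eval_C, eval_pow, eval_sub, eval_X, smul_eq_mul]
      ring
    rw [← e]
    refine h3.trans ?_
    have h4 : a * (‖z - c‖ / r) ≤ 1 / 10 := by
      rw [hrc]
      have : ‖z - c‖ / (ρ / 4) ≤ 1 / 10 := by
        rw [div_le_iff₀ (by positivity)]
        linarith
      calc _ ≤ 1 * (‖z - c‖ / (ρ / 4)) := by
            gcongr
            exact ha.2.le
        _ ≤ _ := by rwa [one_mul]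
    have h5 : 0 ≤ a * (‖z - c‖ / r) := mul_nonneg ha.1.le (by positivity)
    calc C * (a * (‖z - c‖ / r)) ^ (d + 1) ≤ C * (1 / 10) ^ (d + 1) := by
          gcongr
      _ ≤ C * (1 / 10) ^ d := by
          refine mul_le_mul_of_nonneg_left ?_ hC.le
          exact pow_le_pow_of_le_one (by norm_num) (by norm_num) (Nat.le_succ d)

section
variable {b : PP → ℂ} {M : ℝ} {τ : ℝ}

/-- if the boundary function is analytic, then the sums are approximated by polynomials -/
lemma appr_of_bl (hb : ∀ x, ‖b x‖ ≤ M / (x.2 + 1 : ℕ)) {G : ℂ → ℂ} {ρ : ℝ} (hρ : 0 < ρ)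
    (hG : DifferentiableOn ℂ G (Metric.ball (τ : ℂ) ρ))
    (hbl : ∀ᵐ t : ℝ, t ∈ Set.Ioo (τ - ρ) (τ + ρ) → bl b t = G t) : Appr b τ := by
  obtain ⟨C, hC, H⟩ := taylor_poly hρ hG
  set h : ℝ := min (ρ / 40) (1 / 2) with hh
  have h0 : 0 < h := lt_min (by positivity) (by norm_num)
  have hhρ : h ≤ ρ / 40 := min_le_left _ _
  obtain ⟨hm, -, -⟩ := boundary hb
  refine ⟨h, 2 * (1 + 2 * h * C ^ 2), h0, fun d => ?_⟩
  obtain ⟨P, hP, hPe⟩ := H d
  obtain ⟨X₁, hX₁⟩ := bl_PS (τ := τ) hb (min_le_right (ρ / 40) (1 / 2)) (ε := (1 / 100) ^ d)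
    (by positivity)
  refine ⟨P, hP, X₁, fun X hX => ?_⟩
  have hle : τ - h ≤ τ + h := by linarith
  have hB : 0 ≤ 2 * (1 + 2 * h * C ^ 2) * (1 / 100 : ℝ) ^ d := by
    have := h0.le
    positivity
  refine int_le_of_lint ((meas_PS b X P).norm.pow 2) (fun t => sq_nonneg _) hle hB ?_
  have h1 : ∫⁻ t in Set.Icc (τ - h) (τ + h), ENNReal.ofReal (‖bl b t - P.eval (t : ℂ)‖ ^ 2) ≤
      ENNReal.ofReal (2 * h * (C ^ 2 * (1 / 100) ^ d)) := by
    have h2 : ∫⁻ t in Set.Icc (τ - h) (τ + h), ENNReal.ofReal (‖bl b t - P.eval (t : ℂ)‖ ^ 2) ≤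
        ∫⁻ _ in Set.Icc (τ - h) (τ + h), ENNReal.ofReal (C ^ 2 * (1 / 100) ^ d) := by
      refine lintegral_mono_ae ?_
      refine (ae_restrict_iff' measurableSet_Icc).2 ?_
      filter_upwards [hbl] with t ht htJ
      have h3 : t ∈ Set.Ioo (τ - ρ) (τ + ρ) := ⟨by linarith [htJ.1], by linarith [htJ.2]⟩
      rw [ht h3]
      refine ENNReal.ofReal_le_ofReal ?_
      have h4 : ‖(t : ℂ) - τ‖ ≤ ρ / 40 := by
        rw [← Complex.ofReal_sub, Complex.norm_real, Real.norm_eq_abs, abs_le]
        constructor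
        · linarith [htJ.1]
        · linarith [htJ.2]
      calc _ ≤ (C * (1 / 10) ^ d) ^ 2 := by
            gcongr
            exact hPe _ h4
        _ = _ := by
            rw [mul_pow, ← pow_mul, mul_comm d 2, pow_mul]
            norm_num
    refine h2.trans ?_
    rw [setLIntegral_const, Real.volume_Icc]
    have e : τ + h - (τ - h) = 2 * h := by ring
    rw [e, ← ENNReal.ofReal_mul (by positivity), mul_comm]
  calc _ ≤ ∫⁻ t in Set.Icc (τ - h) (τ + h), (2 * ENNReal.ofReal (‖PS b X t - bl b t‖ ^ 2) +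
        2 * ENNReal.ofReal (‖bl b t - P.eval (t : ℂ)‖ ^ 2)) :=
        lintegral_mono fun t => sq_add_le _ _ _
    _ = 2 * (∫⁻ t in Set.Icc (τ - h) (τ + h), ENNReal.ofReal (‖PS b X t - bl b t‖ ^ 2)) +
        2 * ∫⁻ t in Set.Icc (τ - h) (τ + h),
          ENNReal.ofReal (‖bl b t - P.eval (t : ℂ)‖ ^ 2) := by
        rw [lintegral_add_left', lintegral_const_mul', lintegral_const_mul']
        · exact ENNReal.ofNat_ne_top
        · exact ENNReal.ofNat_ne_top
        · refine AEMeasurable.const_mul (AEMeasurable.ennreal_ofReal ?_) _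
          exact AEMeasurable.pow_const (AEMeasurable.norm
            ((continuous_PS b X).aemeasurable.sub hm.restrict)) _
    _ ≤ 2 * ENNReal.ofReal ((1 / 100) ^ d) +
        2 * ENNReal.ofReal (2 * h * (C ^ 2 * (1 / 100) ^ d)) := by
        gcongr
        have h5 := hX₁ X hX
        refine le_trans (le_of_eq ?_) h5
        congr 1
        funext t
        rw [norm_sub_rev]
    _ = ENNReal.ofReal (2 * (1 + 2 * h * C ^ 2) * (1 / 100) ^ d) := by
        have e : (2 : ℝ≥0∞) = ENNReal.ofReal 2 := by simp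
        rw [e, ← ENNReal.ofReal_mul (by norm_num), ← ENNReal.ofReal_mul (by norm_num),
          ← ENNReal.ofReal_add (by positivity) (by positivity)]
        congr 1
        ring

lemma appr_of_cont (hb : ∀ x, ‖b x‖ ≤ M / (x.2 + 1 : ℕ)) (H : ContN b τ) : Appr b τ := by
  obtain ⟨g, r, hr, hg, hg0, he⟩ := H
  set w : ℂ := 1 + τ * Complex.I with hw
  have hww : w ∈ Metric.ball w r := Metric.mem_ball_self hr
  -- a logarithm of `g` near `w`
  have hgw : g w ≠ 0 := hg0 w hww
  have hca : ContinuousAt g w := hg.continuousOn.continuousAt (Metric.isOpen_ball.mem_nhds hww)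
  have hq : Tendsto (fun s => g s / g w) (𝓝 w) (𝓝 1) := by
    have := hca.tendsto.div_const (g w)
    rwa [div_self hgw] at this
  have hev : ∀ᶠ s in 𝓝 w, g s / g w ∈ Complex.slitPlane :=
    hq.eventually (Complex.isOpen_slitPlane.mem_nhds (by simp))
  obtain ⟨ρ₀, hρ₀, hsl⟩ := Metric.eventually_nhds_iff_ball.1 hev
  set ρ : ℝ := min ρ₀ r with hρ
  have hρ0 : 0 < ρ := lt_min hρ₀ hr
  have hsub : Metric.ball w ρ ⊆ Metric.ball w r := Metric.ball_subset_ball (min_le_right _ _)
  set L : ℂ → ℂ := fun s => Complex.log (g s / g w) + Complex.log (g w) with hL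
  have hLd : DifferentiableOn ℂ L (Metric.ball w ρ) := by
    refine DifferentiableOn.add_const _ ?_
    refine DifferentiableOn.clog ((hg.mono hsub).div_const _) fun s hs => ?_
    exact hsl s (Metric.ball_subset_ball (min_le_left _ _) hs)
  have hLe : ∀ s ∈ Metric.ball w ρ, Complex.exp (L s) = g s := by
    intro s hs
    rw [hL]
    simp only
    rw [Complex.exp_add, Complex.exp_log hgw, Complex.exp_log, div_mul_cancel₀ _ hgw]
    exact div_ne_zero (hg0 s (hsub hs)) hgw
  -- the difference is constant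
  set V : Set ℂ := Metric.ball w ρ ∩ {s : ℂ | 1 < s.re} with hV
  have hVo : IsOpen V := Metric.isOpen_ball.inter (isOpen_lt continuous_const Complex.continuous_re)
  have hVc : IsPreconnected V :=
    ((convex_ball w ρ).inter (convex_halfSpace_re_gt 1)).isPreconnected
  set D : ℂ → ℂ := fun s => FF b s - L s with hD
  have hDd : DifferentiableOn ℂ D V :=
    ((differentiableOn_FF hb).mono Set.inter_subset_right).sub (hLd.mono Set.inter_subset_left)
  have hDe : ∀ s ∈ V, Complex.exp (D s) = 1 := by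
    intro s hs
    rw [hD]
    simp only
    rw [Complex.exp_sub, hLe s hs.1, he s (hsub hs.1) hs.2, div_self (Complex.exp_ne_zero _)]
  have hDz : ∀ s ∈ V, deriv D s = 0 := by
    intro s hs
    have h1 : HasDerivAt D (deriv D s) s := (hDd.differentiableAt (hVo.mem_nhds hs)).hasDerivAt
    have h2 : HasDerivAt (fun s => Complex.exp (D s)) (Complex.exp (D s) * deriv D s) s := h1.cexp
    have h3 : (fun s => Complex.exp (D s)) =ᶠ[𝓝 s] fun _ => 1 := by
      filter_upwards [hVo.mem_nhds hs] with z hz using hDe z hz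
    have h4 : HasDerivAt (fun s => Complex.exp (D s)) 0 s :=
      (hasDerivAt_const s (1 : ℂ)).congr_of_eventuallyEq h3
    have h5 := h2.unique h4
    rw [hDe s hs, one_mul] at h5
    exact h5
  obtain ⟨c, hc⟩ : ∃ c, ∀ s ∈ V, FF b s = L s + c := by
    obtain ⟨c, hc⟩ := hVo.exists_is_const_of_deriv_eq_zero hVc hDd hDz
    refine ⟨c, fun s hs => ?_⟩
    have := hc s hs
    rw [hD] at this
    simp only at this
    rw [← this]
    ring
  -- the boundary function
  set ψ : ℂ → ℂ := fun z => 1 + z * Complex.I with hψ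
  have hψb : ∀ z ∈ Metric.ball (τ : ℂ) ρ, ψ z ∈ Metric.ball w ρ := by
    intro z hz
    rw [Metric.mem_ball, dist_eq_norm] at hz ⊢
    have e : ψ z - w = (z - τ) * Complex.I := by
      rw [hψ, hw]
      simp only
      ring
    rw [e, norm_mul, Complex.norm_I, mul_one]
    exact hz
  refine appr_of_bl hb hρ0 (G := fun z => L (ψ z) + c) ?_ ?_
  · refine DifferentiableOn.add_const _ ?_
    exact hLd.comp (by fun_prop : Differentiable ℂ ψ).differentiableOn hψb
  · filter_upwards [ae_notMem hb] with t ht htI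
    have hmem : (1 + t * Complex.I : ℂ) ∈ Metric.ball w ρ := by
      have h1 : (t : ℂ) ∈ Metric.ball (τ : ℂ) ρ := by
        rw [Metric.mem_ball, dist_eq_norm, ← Complex.ofReal_sub, Complex.norm_real,
          Real.norm_eq_abs, abs_lt]
        constructor
        · linarith [htI.1]
        · linarith [htI.2]
      exact hψb _ h1
    have h1 := radial_x hb ht
    have h2 : Tendsto (fun x : ℝ => (1 + t * Complex.I + x : ℂ)) (𝓝[>] 0)
        (𝓝 (1 + t * Complex.I)) := by
      have h3 : Tendsto (fun x : ℝ => (1 + t * Complex.I + x : ℂ)) (𝓝 0)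
          (𝓝 (1 + t * Complex.I + ((0 : ℝ) : ℂ))) :=
        (continuous_const.add Complex.continuous_ofReal).tendsto _
      rw [Complex.ofReal_zero, add_zero] at h3
      exact h3.mono_left nhdsWithin_le_nhds
    have h3 : ContinuousAt L (1 + t * Complex.I) :=
      hLd.continuousOn.continuousAt (Metric.isOpen_ball.mem_nhds hmem)
    have h4 : Tendsto (fun x : ℝ => L (1 + t * Complex.I + x) + c) (𝓝[>] 0)
        (𝓝 (L (1 + t * Complex.I) + c)) := (h3.tendsto.comp h2).add_const c
    have h5 : (fun x : ℝ => FF b (1 + t * Complex.I + x)) =ᶠ[𝓝[>] 0]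
        fun x : ℝ => L (1 + t * Complex.I + x) + c := by
      have h6 := h2.eventually (Metric.isOpen_ball.mem_nhds hmem)
      filter_upwards [h6, self_mem_nhdsWithin] with x hx hx0
      refine hc _ ⟨hx, ?_⟩
      have : (0 : ℝ) < x := hx0
      simp only [Set.mem_ofPred_eq, Complex.add_re, Complex.one_re, Complex.mul_re,
        Complex.ofReal_re, Complex.I_re, mul_zero, Complex.ofReal_im, Complex.I_im, mul_one,
        sub_self, add_zero]
      linarith
    exact tendsto_nhds_unique h1 (h4.congr' h5.symm)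

/-- **Continuation without zeros is equivalent to approximation by polynomials.** -/
theorem cont_iff (hb : ∀ x, ‖b x‖ ≤ M / (x.2 + 1 : ℕ)) : ContN b τ ↔ Appr b τ :=
  ⟨appr_of_cont hb, cont_of_appr hb⟩

end

end Pool.Agent.Q9.EL
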