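import Pool.Agent.TH345.ET.X
import Pool.Agent.TH339.MP.U3

/-!
# The boundary function of the L-series of an elliptic curve: Harnack inequality on the edge
-/

set_option autoImplicit false

namespace Pool.Agent.Q9.EL

open Finset Filter Topology MeasureTheory NumberField IsDedekindDomain
open Pool.Agent.TH339.MP (PP FF elf S6 nm bl ap boundary edge_harnack elf_triv card_S6 bl_angle
  norm_rpow_le two_le_nm av_triv)
open Pool.Agent.TH345.ET (hE hE_analytic elf_hasProd' ep bv elf_analytic den_ne)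
open Pool.Agent.W350.Edge (divSet)

section
variable {K : Type} [Field K] [NumberField K]

/-- the point `3/2 + iτ` -/
noncomputable def edg (τ : ℝ) : ℂ := 3 / 2 + τ * Complex.I

/-- the angle -/
def ang (τ C : ℝ) : Set ℂ := {s : ℂ | 3 / 2 < s.re ∧ ‖s - edg τ‖ ≤ C * (s.re - 3 / 2)}

lemma edg_sub (τ : ℝ) : edg τ - 1 / 2 = ep τ := by
  unfold edg ep
  ring

lemma ep_add (τ : ℝ) : ep τ + 1 / 2 = edg τ := by
  rw [← edg_sub, sub_add_cancel]

lemma edg_re (τ : ℝ) : (edg τ).re = 3 / 2 := by unfold edg; simp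

lemma elf_ne (W : HeightOneSpectrum (𝓞 K) → WeierstrassCurve (𝓞 K))
    (v : HeightOneSpectrum (𝓞 K)) {s : ℂ} (hs : 3 / 2 ≤ s.re) : elf W v s ≠ 0 := by
  unfold elf Pool.Agent.TH339.MP.lfac
  refine inv_ne_zero (den_ne (two_le_nm v) (av_triv W v) ?_ hs)
  split_ifs
  · simp
  · simp

lemma elf_edge (W : HeightOneSpectrum (𝓞 K) → WeierstrassCurve (𝓞 K))
    (v : HeightOneSpectrum (𝓞 K)) (τ : ℝ) :
    ‖elf W v (edg τ)‖ ≤ 24 ∧ ‖(elf W v (edg τ))⁻¹‖ ≤ 24 := by
  have hc : ContinuousAt (elf W v) (edg τ) := (elf_analytic W v (by rw [edg_re])).continuousAt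
  have hci : ContinuousAt (fun s => (elf W v s)⁻¹) (edg τ) := hc.inv₀ (elf_ne W v (by rw [edg_re]))
  have hx : Tendsto (fun x : ℝ => edg τ + x) (𝓝[>] 0) (𝓝 (edg τ)) := by
    have h4 : Continuous fun x : ℝ => (edg τ + x : ℂ) := by fun_prop
    have h5 := h4.tendsto 0
    rw [Complex.ofReal_zero, add_zero] at h5
    exact h5.mono_left nhdsWithin_le_nhds
  have hev : ∀ᶠ x : ℝ in 𝓝[>] 0, ‖elf W v (edg τ + x)‖ ≤ 24 ∧ ‖(elf W v (edg τ + x))⁻¹‖ ≤ 24 := by
    filter_upwards [self_mem_nhdsWithin] with x hx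
    have hx0 : 0 < x := hx
    refine elf_triv W v ?_
    have : (edg τ + x).re = 3 / 2 + x := by
      rw [Complex.add_re, edg_re, Complex.ofReal_re]
    rw [this]
    linarith
  exact ⟨le_of_tendsto (hc.tendsto.comp hx).norm (hev.mono fun x hx => hx.1),
    le_of_tendsto (hci.tendsto.comp hx).norm (hev.mono fun x hx => hx.2)⟩

lemma hE_bd {W : HeightOneSpectrum (𝓞 K) → WeierstrassCurve (𝓞 K)} {s : ℂ}
    (hs : ∀ v, ‖elf W v (s + 1 / 2)‖ ≤ 24 ∧ ‖(elf W v (s + 1 / 2))⁻¹‖ ≤ 24) {r : ℝ}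
    (hr : 2 * Module.finrank ℚ K * |r| < 1) : ‖hE W s‖ ^ r ≤ 24 := by
  refine norm_rpow_le card_S6 ?_ ?_ hr.le
  · unfold hE
    rw [norm_prod]
    calc _ ≤ ∏ v ∈ (S6 : Finset (HeightOneSpectrum (𝓞 K))), (24 : ℝ) :=
          Finset.prod_le_prod (fun _ _ => norm_nonneg _) fun v _ => (hs v).1
      _ = _ := by rw [Finset.prod_const]
  · unfold hE
    rw [← Finset.prod_inv_distrib, norm_prod]
    calc _ ≤ ∏ v ∈ (S6 : Finset (HeightOneSpectrum (𝓞 K))), (24 : ℝ) :=
          Finset.prod_le_prod (fun _ _ => norm_nonneg _) fun v _ => (hs v).2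
      _ = _ := by rw [Finset.prod_const]

lemma norm_exp_rpow (w : ℂ) (c : ℝ) : ‖Complex.exp w‖ ^ c = ‖Complex.exp ((c : ℂ) * w)‖ := by
  rw [Complex.norm_exp, Complex.norm_exp, ← Real.exp_mul]
  congr 1
  simp
  ring

lemma L_pos (W : HeightOneSpectrum (𝓞 K) → WeierstrassCurve (𝓞 K)) (τ : ℝ) {h : ℝ} (hh : 0 < h) :
    0 < ‖∏' v, elf W v (edg τ + h)‖ := by
  obtain ⟨b, hb, hprod⟩ := elf_hasProd' W
  have hre : 3 / 2 < (edg τ + h).re := by
    rw [Complex.add_re, edg_re, Complex.ofReal_re]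
    linarith
  have h1 : 1 < (edg τ + h - 1 / 2).re := by
    have : (edg τ + h - 1 / 2).re = (edg τ + h).re - 1 / 2 := by simp
    rw [this]
    linarith
  have h2 := hprod _ h1
  rw [sub_add_cancel] at h2
  rw [h2.tprod_eq, norm_pos_iff]
  refine mul_ne_zero ?_ (Complex.exp_ne_zero _)
  unfold hE
  refine Finset.prod_ne_zero_iff.2 fun v _ => ?_
  rw [sub_add_cancel]
  exact elf_ne W v hre.le

/-- **The boundary function of the L-series of an elliptic curve.** -/
theorem ec_main (W : HeightOneSpectrum (𝓞 K) → WeierstrassCurve (𝓞 K)) :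
    ∃ l : ℝ → ℂ, AEMeasurable l ∧
      (∃ N : Set ℝ, dimH N = 0 ∧ ∀ τ : ℝ, τ ∉ N → l τ ≠ 0 ∧ ∀ C : ℝ,
        Tendsto (fun s => ∏' v, elf W v s) (𝓝[ang τ C] (edg τ)) (𝓝 (l τ))) ∧
      ∀ c : ℝ, 2 * Module.finrank ℚ K * |c| < 1 → ∀ h : ℝ, 0 < h → h ≤ 1 / 2 → ∀ t : ℝ,
        IntegrableOn (fun u => ‖l u‖ ^ c) (Set.Icc (t - h / 2) (t + h / 2)) ∧
        (1 - 2 * Module.finrank ℚ K * |c|) / 576000 * h * ‖∏' v, elf W v (edg t + h)‖ ^ c ≤
          ∫ u in (t - h / 2)..(t + h / 2), ‖l u‖ ^ c ∧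
        ∫ u in (t - h / 2)..(t + h / 2), ‖l u‖ ^ c ≤
          576000 / (1 - 2 * Module.finrank ℚ K * |c|) * h * ‖∏' v, elf W v (edg t + h)‖ ^ c := by
  obtain ⟨b, hb, hprod⟩ := elf_hasProd' W
  have hL : ∀ s : ℂ, 3 / 2 < s.re → ∏' v, elf W v s =
      hE W (s - 1 / 2) * Complex.exp (FF b (s - 1 / 2)) := by
    intro s hs
    have h1 : 1 < (s - 1 / 2).re := by
      have : (s - 1 / 2).re = s.re - 1 / 2 := by simp
      rw [this]
      linarith
    have h2 := hprod _ h1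
    rw [sub_add_cancel] at h2
    exact h2.tprod_eq
  have hEc : Continuous fun τ : ℝ => hE W (ep τ) := by
    rw [continuous_iff_continuousAt]
    intro τ
    have h1 : ContinuousAt ep τ := by
      unfold ep
      fun_prop
    exact (hE_analytic W τ).continuousAt.comp h1
  have hE0 : ∀ τ, hE W (ep τ) ≠ 0 := by
    intro τ
    unfold hE
    refine Finset.prod_ne_zero_iff.2 fun v _ => ?_
    rw [ep_add]
    exact elf_ne W v (by rw [edg_re])
  have hmeas : AEMeasurable (bl b) := (boundary hb).1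
  have hlm : AEMeasurable (bv b (hE W)) := by
    unfold bv
    exact hEc.measurable.aemeasurable.mul (Complex.measurable_exp.comp_aemeasurable hmeas)
  refine ⟨bv b (hE W), hlm, ⟨_, (boundary hb).2.1, fun τ hτ => ⟨?_, fun C => ?_⟩⟩,
    fun c hc h hh hh2 t => ?_⟩
  · unfold bv
    exact mul_ne_zero (hE0 τ) (Complex.exp_ne_zero _)
  · have h5 := (Complex.continuous_exp.tendsto _).comp (bl_angle hb hτ C)
    have h6 : Tendsto (fun s : ℂ => s - edg τ) (𝓝[ang τ C] (edg τ))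
        (𝓝[{z : ℂ | 0 < z.re ∧ ‖z‖ ≤ C * z.re}] 0) := by
      rw [tendsto_nhdsWithin_iff]
      constructor
      · have h7 : Tendsto (fun s : ℂ => s - edg τ) (𝓝 (edg τ)) (𝓝 (edg τ - edg τ)) :=
          (continuous_id.sub continuous_const).tendsto _
        rw [sub_self] at h7
        exact h7.mono_left nhdsWithin_le_nhds
      · filter_upwards [self_mem_nhdsWithin] with s hs
        have hre : (s - edg τ).re = s.re - 3 / 2 := by
          rw [Complex.sub_re, edg_re]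
        refine ⟨?_, ?_⟩
        · rw [hre]
          linarith [hs.1]
        · rw [hre]
          exact hs.2
    have h7 : Tendsto (fun s : ℂ => hE W (s - 1 / 2)) (𝓝[ang τ C] (edg τ))
        (𝓝 (hE W (ep τ))) := by
      have h8 : Tendsto (fun s : ℂ => s - 1 / 2) (𝓝 (edg τ)) (𝓝 (edg τ - 1 / 2)) :=
        (continuous_id.sub continuous_const).tendsto _
      rw [edg_sub] at h8
      exact (((hE_analytic W τ).continuousAt.tendsto).comp h8).mono_left nhdsWithin_le_nhds
    refine (h7.mul (h5.comp h6)).congr' ?_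
    filter_upwards [self_mem_nhdsWithin] with s hs
    rw [hL s hs.1]
    simp only [Function.comp_apply]
    congr 3
    unfold edg
    ring
  · -- the inequality
    have hc' : ‖(c : ℂ)‖ * ((Module.finrank ℚ K : ℝ) * 2) < 1 := by
      rw [Complex.norm_real, Real.norm_eq_abs]
      calc |c| * ((Module.finrank ℚ K : ℝ) * 2) = 2 * Module.finrank ℚ K * |c| := by ring
        _ < 1 := hc
    have hcm : 2 * Module.finrank ℚ K * |(-c)| < 1 := by rwa [abs_neg]
    obtain ⟨i1, i2, i3⟩ := edge_harnack hb hh hh2 t (c : ℂ) hc'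
    have hMc : ‖(c : ℂ)‖ * ((Module.finrank ℚ K : ℝ) * 2) = 2 * Module.finrank ℚ K * |c| := by
      rw [Complex.norm_real, Real.norm_eq_abs]
      ring
    rw [hMc] at i2 i3
    set w : ℂ := FF b (((1 + h : ℝ) : ℂ) + t * Complex.I) with hw
    -- the size of the factors above `6`
    have hEu : ∀ u : ℝ, ‖hE W (ep u)‖ ^ c ≤ 24 ∧ (24 : ℝ)⁻¹ ≤ ‖hE W (ep u)‖ ^ c := by
      intro u
      have h1 : ∀ v, ‖elf W v (ep u + 1 / 2)‖ ≤ 24 ∧ ‖(elf W v (ep u + 1 / 2))⁻¹‖ ≤ 24 := by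
        intro v
        rw [ep_add]
        exact elf_edge W v u
      have h2 := hE_bd h1 hcm
      have h3 : 0 < ‖hE W (ep u)‖ := norm_pos_iff.2 (hE0 u)
      refine ⟨hE_bd h1 hc, ?_⟩
      rw [Real.rpow_neg h3.le] at h2
      rwa [inv_le_comm₀ (by norm_num) (Real.rpow_pos_of_pos h3 c)]
    have hre : 3 / 2 < (edg t + h).re := by
      rw [Complex.add_re, edg_re, Complex.ofReal_re]
      linarith
    have hsub : edg t + h - 1 / 2 = ((1 + h : ℝ) : ℂ) + t * Complex.I := by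
      unfold edg
      push_cast
      ring
    have hEw0 : hE W (edg t + h - 1 / 2) ≠ 0 := by
      unfold hE
      refine Finset.prod_ne_zero_iff.2 fun v _ => ?_
      rw [sub_add_cancel]
      exact elf_ne W v hre.le
    have hEw : ‖hE W (edg t + h - 1 / 2)‖ ^ c ≤ 24 ∧
        (24 : ℝ)⁻¹ ≤ ‖hE W (edg t + h - 1 / 2)‖ ^ c := by
      have h1 : ∀ v, ‖elf W v (edg t + h - 1 / 2 + 1 / 2)‖ ≤ 24 ∧
          ‖(elf W v (edg t + h - 1 / 2 + 1 / 2))⁻¹‖ ≤ 24 := by
        intro v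
        rw [sub_add_cancel]
        exact elf_triv W v hre
      have h2 := hE_bd h1 hcm
      have h3 : 0 < ‖hE W (edg t + h - 1 / 2)‖ := norm_pos_iff.2 hEw0
      refine ⟨hE_bd h1 hc, ?_⟩
      rw [Real.rpow_neg h3.le] at h2
      rwa [inv_le_comm₀ (by norm_num) (Real.rpow_pos_of_pos h3 c)]
    set P : ℝ := ‖Complex.exp ((c : ℂ) * w)‖ with hP
    have hP0 : 0 ≤ P := norm_nonneg _
    have hLc : ‖∏' v, elf W v (edg t + h)‖ ^ c = ‖hE W (edg t + h - 1 / 2)‖ ^ c * P := by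
      rw [hL _ hre, norm_mul, Real.mul_rpow (norm_nonneg _) (norm_nonneg _), norm_exp_rpow, hsub]
    have hl : ∀ u, ‖bv b (hE W) u‖ ^ c = ‖hE W (ep u)‖ ^ c * ‖Complex.exp ((c : ℂ) * bl b u)‖ := by
      intro u
      unfold bv
      rw [norm_mul, Real.mul_rpow (norm_nonneg _) (norm_nonneg _), norm_exp_rpow]
    have hm : AEStronglyMeasurable (fun u => ‖bv b (hE W) u‖ ^ c)
        (volume.restrict (Set.Icc (t - h / 2) (t + h / 2))) :=
      ((hlm.norm.pow_const c).aestronglyMeasurable).restrict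
    have i0 : IntegrableOn (fun u => ‖bv b (hE W) u‖ ^ c) (Set.Icc (t - h / 2) (t + h / 2)) := by
      refine Integrable.mono' (i1.const_mul 24) hm (Eventually.of_forall fun u => ?_)
      rw [Real.norm_of_nonneg (Real.rpow_nonneg (norm_nonneg _) _), hl u]
      exact mul_le_mul_of_nonneg_right (hEu u).1 (norm_nonneg _)
    have hab : t - h / 2 ≤ t + h / 2 := by linarith
    have j0 : IntervalIntegrable (fun u => ‖bv b (hE W) u‖ ^ c) volume (t - h / 2) (t + h / 2) := by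
      rw [intervalIntegrable_iff_integrableOn_Icc_of_le hab]
      exact i0
    have j1 : IntervalIntegrable (fun u => ‖Complex.exp ((c : ℂ) * bl b u)‖) volume
        (t - h / 2) (t + h / 2) := by
      rw [intervalIntegrable_iff_integrableOn_Icc_of_le hab]
      exact i1
    have hD : 0 < 1 - 2 * (Module.finrank ℚ K : ℝ) * |c| := by linarith
    refine ⟨i0, ?_, ?_⟩
    · rw [hLc]
      have k1 : ∫ u in (t - h / 2)..(t + h / 2), (24 : ℝ)⁻¹ * ‖Complex.exp ((c : ℂ) * bl b u)‖ ≤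
          ∫ u in (t - h / 2)..(t + h / 2), ‖bv b (hE W) u‖ ^ c := by
        refine intervalIntegral.integral_mono_on hab (j1.const_mul _) j0 fun u _ => ?_
        rw [hl u]
        exact mul_le_mul_of_nonneg_right (hEu u).2 (norm_nonneg _)
      rw [intervalIntegral.integral_const_mul] at k1
      refine le_trans ?_ k1
      have k2 : (1 - 2 * (Module.finrank ℚ K : ℝ) * |c|) / 576000 * h *
          (‖hE W (edg t + h - 1 / 2)‖ ^ c * P) ≤
          (1 - 2 * (Module.finrank ℚ K : ℝ) * |c|) / 576000 * h * (24 * P) :=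
        mul_le_mul_of_nonneg_left (mul_le_mul_of_nonneg_right hEw.1 hP0) (by positivity)
      refine k2.trans ?_
      have k3 := mul_le_mul_of_nonneg_left i2 (by norm_num : (0 : ℝ) ≤ (24 : ℝ)⁻¹)
      refine le_trans (le_of_eq ?_) k3
      rw [hP]
      ring
    · rw [hLc]
      have k1 : ∫ u in (t - h / 2)..(t + h / 2), ‖bv b (hE W) u‖ ^ c ≤
          ∫ u in (t - h / 2)..(t + h / 2), (24 : ℝ) * ‖Complex.exp ((c : ℂ) * bl b u)‖ := by
        refine intervalIntegral.integral_mono_on hab j0 (j1.const_mul _) fun u _ => ?_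
        rw [hl u]
        exact mul_le_mul_of_nonneg_right (hEu u).1 (norm_nonneg _)
      rw [intervalIntegral.integral_const_mul] at k1
      refine k1.trans ?_
      have k2 : 576000 / (1 - 2 * (Module.finrank ℚ K : ℝ) * |c|) * h * ((24 : ℝ)⁻¹ * P) ≤
          576000 / (1 - 2 * (Module.finrank ℚ K : ℝ) * |c|) * h *
            (‖hE W (edg t + h - 1 / 2)‖ ^ c * P) :=
        mul_le_mul_of_nonneg_left (mul_le_mul_of_nonneg_right hEw.2 hP0) (by positivity)
      refine le_trans ?_ k2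
      have k3 := mul_le_mul_of_nonneg_left i3 (by norm_num : (0 : ℝ) ≤ (24 : ℝ))
      refine k3.trans (le_of_eq ?_)
      rw [hP]
      ring

end

end Pool.Agent.Q9.EL
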