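import Pool.Agent.Q9.EL.ECL

/-!
# The boundary values of the logarithm of the twisted L-series of an elliptic curve
-/

set_option autoImplicit false

namespace Pool.Agent.Q9.EL

open MeasureTheory Filter Topology NumberField IsDedekindDomain
open Pool.Agent.TH339.MP (PP bl boundary FF nm ap elf S6 av two_le_nm ae_notMem cpow_two)
open Pool.Agent.W350.Edge (divSet dimH_divSet)

section
variable {K : Type} [Field K] [NumberField K] {c : ℕ → ℂ}

/-- the boundary value of the logarithm, the limit along the horizontal line -/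
noncomputable def bE (c : ℕ → ℂ) (W : HeightOneSpectrum (𝓞 K) → WeierstrassCurve (𝓞 K)) (τ : ℝ) : ℂ :=
  limUnder (𝓝[>] (0 : ℝ)) fun h : ℝ => lE c W (edg τ + h)

lemma edg_eq_epw (τ : ℝ) : edg τ = epw 1 τ := by
  unfold edg epw
  push_cast
  ring

lemma ang_eq (τ C : ℝ) : ang τ C = angw 1 τ C := by
  unfold ang angw
  rw [edg_eq_epw]
  norm_num

variable (hc : ∀ n, ‖c n‖ ≤ 1) (W : HeightOneSpectrum (𝓞 K) → WeierstrassCurve (𝓞 K))
include hc

lemma lE_limit {b : PP → ℂ} {M : ℝ} (hb : ∀ x, ‖b x‖ ≤ M / (x.2 + 1 : ℕ))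
    (hL : ∀ s : ℂ, 3 / 2 < s.re → lE c W s = h6 c W s + FF b (s - 1 / 2)) {τ : ℝ}
    (hτ : τ ∉ divSet (ap b)) (C : ℝ) :
    Tendsto (lE c W) (𝓝[ang τ C] (edg τ)) (𝓝 (h6 c W (edg τ) + bl b τ)) := by
  have h1 := lw_angle (w := 1) hb hτ C
  rw [← edg_eq_epw, ← ang_eq] at h1
  have h2 : Tendsto (h6 c W) (𝓝[ang τ C] (edg τ)) (𝓝 (h6 c W (edg τ))) :=
    (h6_cont hc W (by rw [edg_re])).tendsto.mono_left nhdsWithin_le_nhds
  refine (h2.add h1).congr' ?_
  filter_upwards [self_mem_nhdsWithin] with s hs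
  have e : s - 1 / 2 = s - ((1 : ℝ) : ℂ) / 2 := by norm_num
  rw [hL s hs.1, e]
  rfl

lemma bE_eq {b : PP → ℂ} {M : ℝ} (hb : ∀ x, ‖b x‖ ≤ M / (x.2 + 1 : ℕ))
    (hL : ∀ s : ℂ, 3 / 2 < s.re → lE c W s = h6 c W s + FF b (s - 1 / 2)) {τ : ℝ}
    (hτ : τ ∉ divSet (ap b)) : bE c W τ = h6 c W (edg τ) + bl b τ := by
  unfold bE
  refine Tendsto.limUnder_eq ?_
  refine (lE_limit hc W hb hL hτ 1).comp ?_
  rw [tendsto_nhdsWithin_iff]
  constructor
  · have h3 : Tendsto (fun h : ℝ => edg τ + (h : ℂ)) (𝓝 0) (𝓝 (edg τ + ((0 : ℝ) : ℂ))) :=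
      (continuous_const.add Complex.continuous_ofReal).tendsto _
    rw [Complex.ofReal_zero, add_zero] at h3
    exact h3.mono_left nhdsWithin_le_nhds
  · filter_upwards [self_mem_nhdsWithin] with h hh
    have hh' : (0 : ℝ) < h := hh
    have e : (edg τ + (h : ℂ)).re = 3 / 2 + h := by
      rw [Complex.add_re, edg_re, Complex.ofReal_re]
    refine ⟨?_, ?_⟩
    · rw [e]
      linarith
    · rw [e, add_sub_cancel_left, Complex.norm_real, Real.norm_of_nonneg hh'.le]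
      linarith

/-- **The boundary function of the logarithm.** -/
theorem bE_main : ∃ b : PP → ℂ,
    (∀ x, ‖b x‖ ≤ ((2 * Module.finrank ℚ K : ℕ) : ℝ) / (x.2 + 1 : ℕ)) ∧
    (∀ s : ℂ, 3 / 2 < s.re → lE c W s = h6 c W s + FF b (s - 1 / 2)) ∧
    (∀ τ : ℝ, τ ∉ divSet (ap b) → bE c W τ = h6 c W (edg τ) + bl b τ) ∧
    dimH {τ : ℝ | ¬ ∀ C : ℝ, Tendsto (lE c W) (𝓝[ang τ C] (edg τ)) (𝓝 (bE c W τ))} = 0 := by
  obtain ⟨b, hb, h2⟩ := lE_main hc W
  have hL : ∀ s : ℂ, 3 / 2 < s.re → lE c W s = h6 c W s + FF b (s - 1 / 2) := fun s hs =>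
    (h2 s hs).2
  refine ⟨b, hb, hL, fun τ hτ => bE_eq hc W hb hL hτ, ?_⟩
  refine le_antisymm ?_ bot_le
  rw [← (boundary hb).2.1]
  refine dimH_mono fun τ hτ => ?_
  by_contra h
  refine hτ fun C => ?_
  rw [bE_eq hc W hb hL h]
  exact lE_limit hc W hb hL h C

/-- the Euler product -/
lemma exp_lE {s : ℂ} (hs : 3 / 2 < s.re) :
    HasProd (fun v => (1 - yv c W v s)⁻¹) (Complex.exp (lE c W s)) := by
  obtain ⟨b, hb, h2⟩ := lE_main hc W
  have h3 : HasProd (fun v => Complex.exp (lec c W v s)) (Complex.exp (lE c W s)) :=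
    (h2 s hs).1.hasSum.cexp
  convert h3 using 1
  funext v
  unfold lec
  rw [Complex.exp_neg, Complex.exp_log]
  exact Complex.slitPlane_ne_zero (yv_ne hc W v hs.le)

end

end Pool.Agent.Q9.EL
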