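import Pool.Agent.Q9.EL.Law
import Pool.Agent.TH339.MP.U3

/-!
# The mean values of complex powers of Euler products on the edge
-/

set_option autoImplicit false

namespace Pool.Agent.Q9.EL

open MeasureTheory Filter Topology Complex
open scoped ENNReal NNReal
open Pool.Agent.TH339.MP (PP wt fr ee qq two_le_qq fr_eq wt_nonneg bl boundary M_nonneg FF tm norm_tm
  ZZ exp_ZZ summable_wt wt_exp fr_nonpos radial hardy_lint continuous_FF differentiableOn_FF
  ae_notMem zeta_norm_bound ap)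
open Pool.Agent.W350.Edge (divSet)

section
variable {b : PP → ℂ} {M : ℝ}

lemma norm_FF (hb : ∀ x, ‖b x‖ ≤ M / (x.2 + 1 : ℕ)) {s : ℂ} (hs : 1 < s.re) :
    ‖FF b s‖ ≤ M * ZZ s.re := by
  have hle : ∀ x, ‖tm b s x‖ ≤ M * (wt s.re x / (x.2 + 1 : ℕ)) := by
    intro x
    rw [norm_tm]
    refine (mul_le_mul_of_nonneg_right (hb x) (wt_nonneg _ x)).trans (le_of_eq ?_)
    ring
  have hs2 : Summable fun x : PP => M * (wt s.re x / (x.2 + 1 : ℕ)) := (summable_wt hs).mul_left M
  unfold Pool.Agent.TH339.MP.FF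
  have h1 : Summable fun x => ‖tm b s x‖ :=
    Summable.of_nonneg_of_le (fun _ => norm_nonneg _) hle hs2
  calc _ ≤ ∑' x, ‖tm b s x‖ := norm_tsum_le_tsum_norm h1
    _ ≤ ∑' x : PP, M * (wt s.re x / (x.2 + 1 : ℕ)) := h1.tsum_le_tsum hle hs2
    _ = _ := by
      rw [tsum_mul_left]
      rfl

lemma ZZ_nonneg (σ : ℝ) : 0 ≤ ZZ σ := by
  unfold Pool.Agent.TH339.MP.ZZ
  exact tsum_nonneg fun x => div_nonneg (wt_nonneg _ x) (Nat.cast_nonneg _)

lemma norm_exp_sub (w : ℂ) : ‖Complex.exp w - 1‖ ≤ Real.exp ‖w‖ - 1 := by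
  have h := Complex.norm_exp_sub_sum_le_exp_norm_sub_sum w 1
  simpa using h

/-- the majorant -/
noncomputable def gk (κ : ℝ) (x : ℝ) : ℝ := ‖riemannZeta (x : ℂ)‖ ^ κ - 1

lemma gk_eq (κ : ℝ) {x : ℝ} (hx : 1 < x) : gk κ x = Real.exp (κ * ZZ x) - 1 := by
  unfold gk
  rw [← exp_ZZ hx, ← Real.exp_mul, mul_comm]

lemma gk_nonneg {κ : ℝ} (hκ : 0 ≤ κ) {x : ℝ} (hx : 1 < x) : 0 ≤ gk κ x := by
  rw [gk_eq κ hx]
  have : (1 : ℝ) ≤ Real.exp (κ * ZZ x) := Real.one_le_exp (mul_nonneg hκ (ZZ_nonneg x))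
  linarith

lemma norm_G (hb : ∀ x, ‖b x‖ ≤ M / (x.2 + 1 : ℕ)) {s : ℂ} (hs : 1 < s.re) :
    ‖Complex.exp (FF b s) - 1‖ ≤ gk M s.re := by
  rw [gk_eq M hs]
  refine (norm_exp_sub _).trans ?_
  have := norm_FF hb hs
  gcongr

lemma ZZ_decay {x : ℝ} (hx : 2 ≤ x) : ZZ x ≤ Real.exp (-(Real.log 2) * (x - 2)) * ZZ 2 := by
  unfold Pool.Agent.TH339.MP.ZZ
  rw [← tsum_mul_left]
  refine (summable_wt (by linarith : 1 < x)).tsum_le_tsum (fun y => ?_)
    ((summable_wt (by norm_num : (1 : ℝ) < 2)).mul_left _)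
  rw [mul_div_assoc']
  have h2 := two_le_qq y
  have h1 : wt x y ≤ Real.exp (-(Real.log 2) * (x - 2)) * wt 2 y := by
    rw [wt_exp, wt_exp, ← Real.exp_add]
    refine Real.exp_le_exp.2 ?_
    have h3 : fr y ≤ -Real.log 2 := by
      rw [fr_eq]
      have : Real.log 2 ≤ Real.log (qq y) := Real.log_le_log (by norm_num) (by exact_mod_cast h2)
      linarith
    nlinarith
  gcongr

lemma gk_cont (κ : ℝ) : ContinuousOn (gk κ) (Set.Ioi 1) := by
  intro x hx
  have hx1 : (1 : ℝ) < x := hx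
  have h1 : ((x : ℝ) : ℂ) ≠ 1 := by
    intro h
    have : x = 1 := by exact_mod_cast h
    linarith
  have h2 : ContinuousAt (fun y : ℝ => riemannZeta (y : ℂ)) x :=
    (differentiableAt_riemannZeta h1).continuousAt.comp Complex.continuous_ofReal.continuousAt
  have h3 : ‖riemannZeta (x : ℂ)‖ ≠ 0 := by
    rw [← exp_ZZ hx1]
    exact (Real.exp_pos _).ne'
  exact ((h2.norm.rpow_const (Or.inl h3)).sub continuousAt_const).continuousWithinAt

lemma gk_int {κ : ℝ} (hκ0 : 0 ≤ κ) (hκ : κ < 1) : IntegrableOn (gk κ) (Set.Ioi 1) := by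
  have hsplit : Set.Ioi (1 : ℝ) = Set.Ioc 1 2 ∪ Set.Ioi 2 := by
    rw [Set.Ioc_union_Ioi_eq_Ioi (by norm_num)]
  have hmeas : AEStronglyMeasurable (gk κ) (volume.restrict (Set.Ioi 1)) :=
    (gk_cont κ).aestronglyMeasurable measurableSet_Ioi
  rw [hsplit]
  refine IntegrableOn.union ?_ ?_
  · -- near 1
    have h1 : IntervalIntegrable (fun y : ℝ => y ^ (-κ)) volume 0 1 :=
      intervalIntegral.intervalIntegrable_rpow' (by linarith)
    have h2 : IntervalIntegrable (fun x : ℝ => 3 ^ κ * (x - 1) ^ (-κ)) volume 1 2 := by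
      have := (h1.comp_sub_right 1).const_mul (3 ^ κ)
      norm_num at this
      exact this
    rw [intervalIntegrable_iff_integrableOn_Ioc_of_le (by norm_num)] at h2
    refine Integrable.mono' h2 (hmeas.mono_measure
      (Measure.restrict_mono (fun x hx => hx.1) le_rfl)) ?_
    rw [ae_restrict_iff' measurableSet_Ioc]
    refine Eventually.of_forall fun x hx => ?_
    have hx1 : 1 < x := hx.1
    rw [Real.norm_of_nonneg (gk_nonneg hκ0 hx1)]
    have h3 := zeta_norm_bound (s := (x : ℂ)) (by simpa using hx1)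
    have n1 : ‖(x : ℂ)‖ = x := by
      rw [Complex.norm_real, Real.norm_of_nonneg (by linarith)]
    have n2 : ‖(x : ℂ) - 1‖ = x - 1 := by
      have : (x : ℂ) - 1 = ((x - 1 : ℝ) : ℂ) := by
        push_cast
        ring
      rw [this, Complex.norm_real, Real.norm_of_nonneg (by linarith)]
    rw [n1, n2, Complex.ofReal_re] at h3
    have hpos : 0 < x - 1 := by linarith
    have h4 : x * (1 / (x - 1) + 1 / x) ≤ 3 / (x - 1) := by
      have e : x * (1 / (x - 1) + 1 / x) = (2 * x - 1) / (x - 1) := by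
        field_simp
        ring
      rw [e]
      gcongr
      linarith [hx.2]
    unfold gk
    calc ‖riemannZeta (x : ℂ)‖ ^ κ - 1 ≤ ‖riemannZeta (x : ℂ)‖ ^ κ := by linarith
      _ ≤ (3 / (x - 1)) ^ κ := Real.rpow_le_rpow (norm_nonneg _) (h3.trans h4) hκ0
      _ = 3 ^ κ * (x - 1) ^ (-κ) := by
        rw [Real.div_rpow (by norm_num) hpos.le, Real.rpow_neg hpos.le]
        ring
  · -- at infinity
    have hl : 0 < Real.log 2 := Real.log_pos (by norm_num)
    refine integrable_of_isBigO_exp_neg hl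
      ((gk_cont κ).mono fun x hx => lt_of_lt_of_le (by norm_num : (1 : ℝ) < 2) hx) ?_
    have hkey : ∀ x : ℝ, 2 ≤ x → ‖gk κ x‖ ≤
        (κ * (Real.exp (Real.log 2 * 2) * ZZ 2) * Real.exp (κ * ZZ 2)) *
          ‖Real.exp (-(Real.log 2) * x)‖ := by
      intro x hx
      have hx1 : 1 < x := by linarith
      rw [Real.norm_of_nonneg (gk_nonneg hκ0 hx1), gk_eq κ hx1, Real.norm_of_nonneg
        (Real.exp_pos _).le]
      have h1 := ZZ_decay hx
      have h0 := ZZ_nonneg x
      have h02 := ZZ_nonneg 2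
      have h2 : ZZ x ≤ ZZ 2 := by
        refine h1.trans ?_
        have : Real.exp (-(Real.log 2) * (x - 2)) ≤ 1 := Real.exp_le_one_iff.2 (by nlinarith)
        nlinarith
      have h3 : Real.exp (κ * ZZ x) - 1 ≤ κ * ZZ x * Real.exp (κ * ZZ x) := by
        have h4 := Real.add_one_le_exp (-(κ * ZZ x))
        have h5 := Real.exp_pos (κ * ZZ x)
        have h6 : Real.exp (κ * ZZ x) * Real.exp (-(κ * ZZ x)) = 1 := by
          rw [← Real.exp_add]
          simp
        nlinarith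
      have h7 : Real.exp (-(Real.log 2) * (x - 2)) =
          Real.exp (Real.log 2 * 2) * Real.exp (-(Real.log 2) * x) := by
        rw [← Real.exp_add]
        congr 1
        ring
      calc _ ≤ κ * ZZ x * Real.exp (κ * ZZ x) := h3
        _ ≤ κ * (Real.exp (-(Real.log 2) * (x - 2)) * ZZ 2) * Real.exp (κ * ZZ 2) := by gcongr
        _ = _ := by
          rw [h7]
          ring
    refine Asymptotics.IsBigO.of_bound
      (κ * (Real.exp (Real.log 2 * 2) * ZZ 2) * Real.exp (κ * ZZ 2)) ?_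
    filter_upwards [eventually_ge_atTop 2] with x hx
    exact hkey x hx

lemma gk_tendsto (κ : ℝ) : Tendsto (gk κ) atTop (𝓝 0) := by
  have h1 : Tendsto (fun x : ℝ => Real.exp (-(Real.log 2) * (x - 2)) * ZZ 2) atTop (𝓝 (0 * ZZ 2)) := by
    refine Tendsto.mul_const _ ?_
    refine Real.tendsto_exp_atBot.comp ?_
    have hl : 0 < Real.log 2 := Real.log_pos (by norm_num)
    have h2 : Tendsto (fun x : ℝ => x - 2) atTop atTop := tendsto_atTop_add_const_right _ _ tendsto_id
    exact h2.const_mul_atTop_of_neg (by linarith)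
  rw [zero_mul] at h1
  have h2 : Tendsto ZZ atTop (𝓝 0) := by
    refine tendsto_of_tendsto_of_tendsto_of_le_of_le' tendsto_const_nhds h1
      (Eventually.of_forall ZZ_nonneg) ?_
    filter_upwards [eventually_ge_atTop 2] with x hx
    exact ZZ_decay hx
  have h3 : Tendsto (fun x => Real.exp (κ * ZZ x) - 1) atTop (𝓝 (Real.exp (κ * 0) - 1)) :=
    ((Real.continuous_exp.tendsto _).comp (h2.const_mul κ)).sub_const 1
  rw [mul_zero, Real.exp_zero, sub_self] at h3
  refine h3.congr' ?_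
  filter_upwards [eventually_gt_atTop 1] with x hx
  exact (gk_eq κ hx).symm

/-- Cauchy's theorem -/
lemma inner_bound (hb : ∀ x, ‖b x‖ ≤ M / (x.2 + 1 : ℕ)) (hM : M < 1) {σ : ℝ} (hσ : 1 < σ) {a a' : ℝ}
    (haa : a ≤ a') : ‖∫ u in a..a', (Complex.exp (FF b ((σ : ℂ) + u * I)) - 1)‖ ≤
      2 * ∫ x in Set.Ioi (1 : ℝ), gk M x := by
  have hM0 := M_nonneg hb
  have hgi := gk_int hM0 hM
  set f : ℂ → ℂ := fun s => Complex.exp (FF b s) - 1 with hf
  have hfd : DifferentiableOn ℂ f {s | 1 < s.re} :=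
    (differentiableOn_FF hb).cexp.sub_const 1
  have hmain : ∀ A : ℝ, σ ≤ A → ‖∫ u in a..a', f ((σ : ℂ) + u * I)‖ ≤
      2 * (∫ x in Set.Ioi (1 : ℝ), gk M x) + (a' - a) * gk M A := by
    intro A hA
    have hA1 : 1 < A := by linarith
    have h1 := Complex.integral_boundary_rect_eq_zero_of_differentiableOn f (σ + a * I) (A + a' * I)
      (hfd.mono (by
        intro s hs
        have h2 := hs.1
        have e1 : ((σ : ℂ) + a * I).re = σ := by simp
        have e2 : ((A : ℂ) + a' * I).re = A := by simp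
        rw [e1, e2, Set.uIcc_of_le hA] at h2
        exact lt_of_lt_of_le hσ h2.1))
    simp only [Complex.add_re, Complex.ofReal_re, Complex.mul_re, Complex.I_re, mul_zero,
      Complex.ofReal_im, Complex.I_im, sub_self, add_zero, Complex.add_im, Complex.mul_im, mul_one,
      zero_add, smul_eq_mul] at h1
    have h2 : I * (∫ u in a..a', f ((σ : ℂ) + u * I)) =
        (∫ x in σ..A, f (x + a * I)) - (∫ x in σ..A, f (x + a' * I)) +
          I * ∫ u in a..a', f ((A : ℂ) + u * I) := by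
      linear_combination -h1
    have h3 : ∀ v : ℝ, ‖∫ x in σ..A, f (x + v * I)‖ ≤ ∫ x in Set.Ioi (1 : ℝ), gk M x := by
      intro v
      have h4 : ‖∫ x in σ..A, f (x + v * I)‖ ≤ ∫ x in σ..A, gk M x := by
        refine intervalIntegral.norm_integral_le_of_norm_le hA ?_ ?_
        · refine Eventually.of_forall fun x hx => ?_
          have hx1 : 1 < x := lt_trans hσ hx.1
          have := norm_G hb (s := (x : ℂ) + v * I) (by simpa using hx1)
          simpa using this
        · rw [intervalIntegrable_iff_integrableOn_Ioc_of_le hA]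
          exact hgi.mono_set fun x hx => lt_trans hσ hx.1
      refine h4.trans ?_
      rw [intervalIntegral.integral_of_le hA]
      refine setIntegral_mono_set hgi ?_ ?_
      · rw [EventuallyLE, ae_restrict_iff' measurableSet_Ioi]
        exact Eventually.of_forall fun x hx => gk_nonneg hM0 hx
      · refine LE.le.eventuallyLE ?_
        exact fun x hx => lt_trans hσ hx.1
    have h5 : ‖∫ u in a..a', f ((A : ℂ) + u * I)‖ ≤ (a' - a) * gk M A := by
      have h6 := intervalIntegral.norm_integral_le_of_norm_le_const (a := a) (b := a')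
        (f := fun u : ℝ => f ((A : ℂ) + u * I)) (C := gk M A) (fun u _ => by
          have := norm_G hb (s := (A : ℂ) + u * I) (by simpa using hA1)
          simpa using this)
      rw [abs_of_nonneg (by linarith)] at h6
      linarith
    calc ‖∫ u in a..a', f ((σ : ℂ) + u * I)‖ = ‖I * ∫ u in a..a', f ((σ : ℂ) + u * I)‖ := by
          rw [norm_mul, Complex.norm_I, one_mul]
      _ ≤ ‖∫ x in σ..A, f (x + a * I)‖ + ‖∫ x in σ..A, f (x + a' * I)‖ +
          ‖I * ∫ u in a..a', f ((A : ℂ) + u * I)‖ := by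
        rw [h2]
        exact (norm_add_le _ _).trans (by gcongr; exact norm_sub_le _ _)
      _ ≤ _ := by
        rw [norm_mul, Complex.norm_I, one_mul]
        have := h3 a
        have := h3 a'
        linarith
  have hlim : Tendsto (fun A : ℝ => 2 * (∫ x in Set.Ioi (1 : ℝ), gk M x) + (a' - a) * gk M A) atTop
      (𝓝 (2 * (∫ x in Set.Ioi (1 : ℝ), gk M x) + (a' - a) * 0)) :=
    ((gk_tendsto M).const_mul _).const_add _
  rw [mul_zero, add_zero] at hlim
  refine ge_of_tendsto hlim ?_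
  filter_upwards [eventually_ge_atTop σ] with A hA
  exact hmain A hA

/-- the boundary version of the local Hardy space bounds -/
lemma bl_lint (hb : ∀ x, ‖b x‖ ≤ M / (x.2 + 1 : ℕ)) (t : ℝ) {r : ℝ} (hr : |r| * M < 1) :
    ∫⁻ u in Set.Icc t (t + 1), ENNReal.ofReal (‖Complex.exp (bl b u)‖ ^ r) ≤
      ENNReal.ofReal (36 / (1 - |r| * M)) := by
  have hσ1 : ∀ n : ℕ, 1 < 1 + 1 / ((n : ℝ) + 1) := by
    intro n
    have h3 : (0 : ℝ) < 1 / ((n : ℝ) + 1) := by positivity
    linarith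
  have h1 : ∫⁻ u in Set.Icc t (t + 1), ENNReal.ofReal (‖Complex.exp (bl b u)‖ ^ r) ≤
      ∫⁻ u in Set.Icc t (t + 1), liminf (fun n : ℕ => ENNReal.ofReal
        (‖Complex.exp (FF b (((1 + 1 / ((n : ℝ) + 1) : ℝ) : ℂ) + u * I))‖ ^ r)) atTop := by
    refine lintegral_mono_ae ?_
    filter_upwards [ae_restrict_of_ae (ae_notMem hb)] with u hu
    have h2 : Tendsto (fun n : ℕ => ENNReal.ofReal
        (‖Complex.exp (FF b (((1 + 1 / ((n : ℝ) + 1) : ℝ) : ℂ) + u * I))‖ ^ r)) atTop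
        (𝓝 (ENNReal.ofReal (‖Complex.exp (bl b u)‖ ^ r))) := by
      refine (ENNReal.continuous_ofReal.tendsto _).comp (Tendsto.rpow_const ?_ ?_)
      · exact ((Complex.continuous_exp.tendsto _).comp (radial hb hu)).norm
      · exact Or.inl (norm_ne_zero_iff.2 (Complex.exp_ne_zero _))
    rw [h2.liminf_eq]
  refine h1.trans ((lintegral_liminf_le fun n => ?_).trans ?_)
  · exact (ENNReal.continuous_ofReal.comp
      (Pool.Agent.TH339.MP.continuous_norm_exp hb (hσ1 n) r)).measurable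
  · refine liminf_le_of_frequently_le' (Frequently.of_forall fun n => ?_)
    exact hardy_lint b hb (hσ1 n) t hr

/-- convergence of the integrals of the complex powers to the boundary -/
lemma tendsto_int (hb : ∀ x, ‖b x‖ ≤ M / (x.2 + 1 : ℕ)) (hM : M < 1) (a a' : ℝ) (haa : a ≤ a') :
    IntegrableOn (fun u => Complex.exp (bl b u)) (Set.Ioc a a') ∧
    Tendsto (fun n : ℕ => ∫ u in a..a',
      Complex.exp (FF b (((1 + 1 / ((n : ℝ) + 1) : ℝ) : ℂ) + u * I))) atTop
      (𝓝 (∫ u in a..a', Complex.exp (bl b u))) := by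
  have hM0 := M_nonneg hb
  have hσ1 : ∀ n : ℕ, 1 < 1 + 1 / ((n : ℝ) + 1) := by
    intro n
    have h3 : (0 : ℝ) < 1 / ((n : ℝ) + 1) := by positivity
    linarith
  set μ : Measure ℝ := volume.restrict (Set.Ioc a a') with hμ
  have : IsFiniteMeasure μ := ⟨by rw [hμ, Measure.restrict_apply_univ]; exact measure_Ioc_lt_top⟩
  set f : ℕ → ℝ → ℂ := fun n u =>
    Complex.exp (FF b (((1 + 1 / ((n : ℝ) + 1) : ℝ) : ℂ) + u * I)) with hf
  set g : ℝ → ℂ := fun u => Complex.exp (bl b u) with hg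
  have hfc : ∀ n, Continuous (f n) := fun n =>
    Complex.continuous_exp.comp (continuous_FF hb (hσ1 n))
  have hgm : AEStronglyMeasurable g μ :=
    ((Complex.measurable_exp.comp_aemeasurable (boundary hb).1).aestronglyMeasurable).restrict
  -- the number of unit intervals
  obtain ⟨n0, hn0⟩ := exists_nat_ge (a' - a)
  have hsub : Set.Ioc a a' ⊆ Set.Icc a (a + n0) := fun x hx => ⟨hx.1.le, by linarith [hx.2]⟩
  -- an exponent
  obtain ⟨r, hr1, hr2⟩ : ∃ r : ℝ, 1 < r ∧ |r| * M < 1 := by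
    refine ⟨2 / (1 + M), ?_, ?_⟩
    · rw [lt_div_iff₀ (by linarith)]
      linarith
    · rw [abs_of_nonneg (by positivity), div_mul_eq_mul_div, div_lt_one (by linarith)]
      linarith
  have hr0 : 0 < r := by linarith
  set C0 : ℝ≥0∞ := n0 * ENNReal.ofReal (36 / (1 - |r| * M)) with hC0
  have hC0t : C0 ≠ ⊤ := ENNReal.mul_ne_top (ENNReal.natCast_ne_top _) ENNReal.ofReal_ne_top
  have hfl : ∀ n, ∫⁻ u, ENNReal.ofReal (‖f n u‖ ^ r) ∂μ ≤ C0 := by
    intro n
    refine (lintegral_mono_set hsub).trans ?_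
    exact lint_nat (fun t => hardy_lint b hb (hσ1 n) t hr2) a n0
  have hgl : ∫⁻ u, ENNReal.ofReal (‖g u‖ ^ r) ∂μ ≤ C0 := by
    refine (lintegral_mono_set hsub).trans ?_
    exact lint_nat (fun t => bl_lint hb t hr2) a n0
  have hpow : ∀ w : ℂ, ‖w‖ₑ ≤ 1 + ENNReal.ofReal (‖w‖ ^ r) := by
    intro w
    rw [← ofReal_norm, ← ENNReal.ofReal_one, ← ENNReal.ofReal_add (by norm_num) (by positivity)]
    refine ENNReal.ofReal_le_ofReal ?_
    rcases le_total ‖w‖ 1 with h | h
    · have : 0 ≤ ‖w‖ ^ r := by positivity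
      linarith
    · have := Real.self_le_rpow_of_one_le h hr1.le
      linarith
  have hgL : MemLp g 1 μ := by
    refine ⟨hgm, ?_⟩
    rw [eLpNorm_one_eq_lintegral_enorm]
    calc ∫⁻ u, ‖g u‖ₑ ∂μ ≤ ∫⁻ u, (1 + ENNReal.ofReal (‖g u‖ ^ r)) ∂μ := lintegral_mono fun u => hpow _
      _ = μ Set.univ + ∫⁻ u, ENNReal.ofReal (‖g u‖ ^ r) ∂μ := by
        rw [lintegral_add_left measurable_const, lintegral_one]
      _ < ⊤ := ENNReal.add_lt_top.2 ⟨measure_lt_top _ _, lt_of_le_of_lt hgl hC0t.lt_top⟩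
  have hui : UnifIntegrable f 1 μ := by
    refine unifIntegrable_of le_rfl (by norm_num) (fun n => (hfc n).aestronglyMeasurable) ?_
    intro ε hε
    obtain ⟨C, hC1, hC⟩ : ∃ C : ℝ≥0, 1 ≤ C ∧ C0.toReal / (C : ℝ) ^ (r - 1) ≤ ε := by
      have h1 : Tendsto (fun C : ℝ => C0.toReal / C ^ (r - 1)) atTop (𝓝 0) :=
        Tendsto.div_atTop tendsto_const_nhds (tendsto_rpow_atTop (by linarith))
      obtain ⟨C, h2, h3⟩ := ((h1.eventually (ge_mem_nhds hε)).and (eventually_ge_atTop 1)).exists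
      refine ⟨⟨C, by linarith⟩, ?_, h2⟩
      exact_mod_cast h3
    have hCp : (0 : ℝ) < C := by
      have : (1 : ℝ) ≤ C := by exact_mod_cast hC1
      linarith
    refine ⟨C, fun n => ?_⟩
    rw [eLpNorm_one_eq_lintegral_enorm]
    have h1 : ∀ u, ‖({x | C ≤ ‖f n x‖₊}.indicator (f n)) u‖ₑ ≤
        ENNReal.ofReal (((C : ℝ) ^ (r - 1))⁻¹) * ENNReal.ofReal (‖f n u‖ ^ r) := by
      intro u
      by_cases h : u ∈ {x | C ≤ ‖f n x‖₊}
      · rw [Set.indicator_of_mem h, ← ofReal_norm, ← ENNReal.ofReal_mul (by positivity)]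
        refine ENNReal.ofReal_le_ofReal ?_
        have h2 : (C : ℝ) ≤ ‖f n u‖ := by exact_mod_cast h
        have h3 : (C : ℝ) ^ (r - 1) ≤ ‖f n u‖ ^ (r - 1) :=
          Real.rpow_le_rpow hCp.le h2 (by linarith)
        have h4 : ‖f n u‖ ^ r = ‖f n u‖ ^ (r - 1) * ‖f n u‖ := by
          have h5 : 0 < ‖f n u‖ := lt_of_lt_of_le hCp h2
          rw [← Real.rpow_add_one h5.ne']
          congr 1
          ring
        rw [h4, ← mul_assoc]
        have h6 : 1 ≤ ((C : ℝ) ^ (r - 1))⁻¹ * ‖f n u‖ ^ (r - 1) := by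
          rw [inv_mul_eq_div, one_le_div (by positivity)]
          exact h3
        nlinarith [norm_nonneg (f n u)]
      · rw [Set.indicator_of_notMem h]
        simp
    calc _ ≤ ∫⁻ u, ENNReal.ofReal (((C : ℝ) ^ (r - 1))⁻¹) * ENNReal.ofReal (‖f n u‖ ^ r) ∂μ :=
          lintegral_mono h1
      _ = ENNReal.ofReal (((C : ℝ) ^ (r - 1))⁻¹) * ∫⁻ u, ENNReal.ofReal (‖f n u‖ ^ r) ∂μ := by
        refine lintegral_const_mul' _ _ ENNReal.ofReal_ne_top
      _ ≤ ENNReal.ofReal (((C : ℝ) ^ (r - 1))⁻¹) * C0 := by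
        gcongr
        exact hfl n
      _ = ENNReal.ofReal (((C : ℝ) ^ (r - 1))⁻¹ * C0.toReal) := by
        rw [ENNReal.ofReal_mul (by positivity), ENNReal.ofReal_toReal hC0t]
      _ ≤ ENNReal.ofReal ε := by
        refine ENNReal.ofReal_le_ofReal ?_
        rw [inv_mul_eq_div]
        exact hC
  have hae : ∀ᵐ u ∂μ, Tendsto (fun n => f n u) atTop (𝓝 (g u)) := by
    filter_upwards [ae_restrict_of_ae (ae_notMem hb)] with u hu
    exact (Complex.continuous_exp.tendsto _).comp (radial hb hu)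
  have hconv := tendsto_Lp_finite_of_tendsto_ae le_rfl (by norm_num)
    (fun n => (hfc n).aestronglyMeasurable) hgL hui hae
  have hgi : Integrable g μ := memLp_one_iff_integrable.1 hgL
  refine ⟨hgi, ?_⟩
  have h2 : Tendsto (fun n => ∫ u, f n u ∂μ) atTop (𝓝 (∫ u, g u ∂μ)) := by
    refine tendsto_integral_of_L1' g hgi.aestronglyMeasurable (Eventually.of_forall fun n => ?_) hconv
    exact ((hfc n).intervalIntegrable a a').1
  refine (h2.congr fun n => ?_).trans ?_
  · rw [intervalIntegral.integral_of_le haa]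
  · rw [intervalIntegral.integral_of_le haa]

/-- **The mean value of the complex powers is one, with a bounded error.** -/
theorem hol (hb : ∀ x, ‖b x‖ ≤ M / (x.2 + 1 : ℕ)) (hM : M < 1) {a a' : ℝ} (haa : a ≤ a') :
    IntervalIntegrable (fun u => Complex.exp (bl b u)) volume a a' ∧
    ‖∫ u in a..a', (Complex.exp (bl b u) - 1)‖ ≤ 2 * ∫ x in Set.Ioi (1 : ℝ), gk M x := by
  obtain ⟨h1, h2⟩ := tendsto_int hb hM a a' haa
  have h3 : IntervalIntegrable (fun u => Complex.exp (bl b u)) volume a a' := by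
    rw [intervalIntegrable_iff_integrableOn_Ioc_of_le haa]
    exact h1
  refine ⟨h3, ?_⟩
  have hσ1 : ∀ n : ℕ, 1 < 1 + 1 / ((n : ℝ) + 1) := by
    intro n
    have h3 : (0 : ℝ) < 1 / ((n : ℝ) + 1) := by positivity
    linarith
  have h4 : Tendsto (fun n : ℕ => ‖∫ u in a..a',
      (Complex.exp (FF b (((1 + 1 / ((n : ℝ) + 1) : ℝ) : ℂ) + u * I)) - 1)‖) atTop
      (𝓝 ‖∫ u in a..a', (Complex.exp (bl b u) - 1)‖) := by
    refine Tendsto.norm ?_
    rw [intervalIntegral.integral_sub h3 intervalIntegrable_const]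
    refine (h2.sub_const (∫ _u in a..a', (1 : ℂ))).congr fun n => ?_
    rw [intervalIntegral.integral_sub ?_ intervalIntegrable_const]
    exact (Complex.continuous_exp.comp (continuous_FF hb (hσ1 n))).intervalIntegrable _ _
  exact le_of_tendsto h4 (Eventually.of_forall fun n => inner_bound hb hM (hσ1 n) haa)

end

end Pool.Agent.Q9.EL
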