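import Pool.Agent.Q9.EL.Tw
import Pool.Agent.Q9.EL.Hol

/-!
# Euler products of any real weight: normalisation, logarithms, linear combinations
-/

set_option autoImplicit false

namespace Pool.Agent.Q9.EL

open MeasureTheory Filter Topology NumberField IsDedekindDomain
open Pool.Agent.TH339.MP (PP wt fr ee qq TX PS two_le_qq fr_eq PS_diff continuous_PS wt_nonneg bl
  boundary M_nonneg FF bb norm_bb hasProd_L nm tm mem_TX ap bl_angle lv hasSum_all exp_lv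
  PS_tendsto ae_notMem)
open Pool.Agent.W350.Edge (divSet dimH_divSet)
open Pool.Agent.Y770.SC (tw norm_tw nm_pos bb_tw)

variable {K : Type} [Field K] [NumberField K] {N : ℕ}

open Classical in
/-- the normalised eigenvalues, weight `w` -/
noncomputable def nbw (w : ℝ) (S : Set (HeightOneSpectrum (𝓞 K)))
    (α : HeightOneSpectrum (𝓞 K) → Fin N → ℂ) (v : HeightOneSpectrum (𝓞 K)) (j : Fin N) : ℂ :=
  if v ∈ S then 0 else α v j / (((nm v : ℝ) ^ (w / 2) : ℝ) : ℂ)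

variable {w : ℝ} {S : Set (HeightOneSpectrum (𝓞 K))} {α : HeightOneSpectrum (𝓞 K) → Fin N → ℂ}
  {c : ℕ → ℂ}

lemma norm_nbw (hα : ∀ v, v ∉ S → ∀ j, ‖α v j‖ ≤ (nm v : ℝ) ^ (w / 2)) (v) (j) :
    ‖nbw w S α v j‖ ≤ 1 := by
  unfold nbw
  split_ifs with h
  · simp
  · have h0 : 0 < (nm v : ℝ) ^ (w / 2) := by
      have := nm_pos v
      positivity
    rw [norm_div, Complex.norm_real, Real.norm_of_nonneg h0.le, div_le_one h0]
    exact hα v h j

lemma factor_w (v : HeightOneSpectrum (𝓞 K)) (hv : v ∉ S) (j : Fin N) (s : ℂ) :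
    tw c (nbw w S α) v j * ((nm v : ℕ) : ℂ) ^ (-s) =
      c (Ideal.absNorm v.asIdeal) * α v j * (Ideal.absNorm v.asIdeal : ℂ) ^ (-(s + w / 2)) := by
  unfold tw nbw
  rw [if_neg hv]
  have hn0 : ((nm v : ℕ) : ℂ) ≠ 0 := by
    have := nm_pos v
    exact_mod_cast this.ne'
  have e1 : ((((nm v : ℝ) ^ (w / 2) : ℝ)) : ℂ) = ((nm v : ℕ) : ℂ) ^ ((w : ℂ) / 2) := by
    rw [Complex.ofReal_cpow (Nat.cast_nonneg _)]
    push_cast
    rfl
  have e2 : ((nm v : ℕ) : ℂ) ^ (-(s + w / 2)) =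
      ((nm v : ℕ) : ℂ) ^ (-s) / ((nm v : ℕ) : ℂ) ^ ((w : ℂ) / 2) := by
    rw [neg_add, Complex.cpow_add _ _ hn0, Complex.cpow_neg _ ((w : ℂ) / 2), ← div_eq_mul_inv]
  have e3 : (Ideal.absNorm v.asIdeal : ℂ) = ((nm v : ℕ) : ℂ) := rfl
  have e4 : c (Ideal.absNorm v.asIdeal) = c (nm v) := rfl
  rw [e1, e3, e4, e2]
  ring

open Classical in
/-- the Euler product over the primes outside `S`, and its logarithm -/
noncomputable def logC (c : ℕ → ℂ) (S : Set (HeightOneSpectrum (𝓞 K)))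
    (α : HeightOneSpectrum (𝓞 K) → Fin N → ℂ) (s : ℂ) : ℂ :=
  ∑' v : HeightOneSpectrum (𝓞 K), if v ∈ S then 0 else
    ∑ j, -Complex.log (1 - c (Ideal.absNorm v.asIdeal) * α v j *
      (Ideal.absNorm v.asIdeal : ℂ) ^ (-s))

lemma lv_w (v : HeightOneSpectrum (𝓞 K)) (s : ℂ) [Decidable (v ∈ S)] :
    lv (tw c (nbw w S α)) v s = if v ∈ S then 0 else
      ∑ j, -Complex.log (1 - c (Ideal.absNorm v.asIdeal) * α v j *
        (Ideal.absNorm v.asIdeal : ℂ) ^ (-(s + w / 2))) := by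
  unfold Pool.Agent.TH339.MP.lv
  by_cases hv : v ∈ S
  · rw [if_pos hv]
    refine Finset.sum_eq_zero fun j _ => ?_
    unfold tw nbw
    rw [if_pos hv]
    simp
  · rw [if_neg hv]
    refine Finset.sum_congr rfl fun j _ => ?_
    rw [factor_w v hv]

lemma logC_eq (hc : ∀ n, ‖c n‖ ≤ 1) (hα : ∀ v, v ∉ S → ∀ j, ‖α v j‖ ≤ (nm v : ℝ) ^ (w / 2)) {s : ℂ}
    (hs : 1 < s.re) : logC c S α (s + w / 2) = FF (bb (tw c (nbw w S α))) s := by
  classical
  have h1 := hasSum_all (norm_tw hc (norm_nbw hα)) hs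
  rw [← h1.tsum_eq]
  unfold logC
  exact tsum_congr fun v => by rw [lv_w v s]

lemma LCw_eq (hc : ∀ n, ‖c n‖ ≤ 1) (hα : ∀ v, v ∉ S → ∀ j, ‖α v j‖ ≤ (nm v : ℝ) ^ (w / 2)) {s : ℂ}
    (hs : 1 < s.re) :
    LC c S α (s + w / 2) = Complex.exp (FF (bb (tw c (nbw w S α))) s) := by
  classical
  have h1 := hasProd_L (norm_tw hc (norm_nbw hα)) hs
  rw [← h1.tprod_eq]
  unfold LC
  refine tprod_congr fun v => ?_
  by_cases hv : v ∈ S
  · rw [if_pos hv]
    symm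
    refine Finset.prod_eq_one fun j _ => ?_
    unfold tw nbw
    rw [if_pos hv]
    simp
  · rw [if_neg hv]
    refine Finset.prod_congr rfl fun j _ => ?_
    rw [factor_w v hv]

lemma norm_bw {M : ℝ} (hM : (Module.finrank ℚ K : ℝ) * N ≤ M) (hc : ∀ n, ‖c n‖ ≤ 1)
    (hα : ∀ v, v ∉ S → ∀ j, ‖α v j‖ ≤ (nm v : ℝ) ^ (w / 2)) (x : PP) :
    ‖bb (tw c (nbw w S α)) x‖ ≤ M / (x.2 + 1 : ℕ) := by
  refine (norm_bb (norm_tw hc (norm_nbw hα)) x).trans ?_
  gcongr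

/-! ### the edge `Re s = w/2 + 1` for any real weight -/

/-- the logarithm, unnormalised -/
noncomputable def lw (w : ℝ) (b : PP → ℂ) (s : ℂ) : ℂ := FF b (s - w / 2)

/-- the edge point -/
noncomputable def epw (w : ℝ) (τ : ℝ) : ℂ := ((w / 2 + 1 : ℝ) : ℂ) + τ * Complex.I

/-- the angle -/
def angw (w : ℝ) (τ C : ℝ) : Set ℂ :=
  {s : ℂ | w / 2 + 1 < s.re ∧ ‖s - epw w τ‖ ≤ C * (s.re - (w / 2 + 1))}

lemma epw_re (w τ : ℝ) : (epw w τ).re = w / 2 + 1 := by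
  unfold epw
  simp

lemma lw_angle {b : PP → ℂ} {M : ℝ} (hb : ∀ x, ‖b x‖ ≤ M / (x.2 + 1 : ℕ)) {τ : ℝ}
    (hτ : τ ∉ divSet (ap b)) (C : ℝ) :
    Tendsto (lw w b) (𝓝[angw w τ C] (epw w τ)) (𝓝 (bl b τ)) := by
  have h1 := bl_angle hb hτ C
  have h2 : Tendsto (fun s : ℂ => s - epw w τ) (𝓝[angw w τ C] (epw w τ))
      (𝓝[{z : ℂ | 0 < z.re ∧ ‖z‖ ≤ C * z.re}] 0) := by
    rw [tendsto_nhdsWithin_iff]
    constructor
    · have h3 : Tendsto (fun s : ℂ => s - epw w τ) (𝓝 (epw w τ))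
          (𝓝 (epw w τ - epw w τ)) := (continuous_id.sub continuous_const).tendsto _
      rw [sub_self] at h3
      exact h3.mono_left nhdsWithin_le_nhds
    · filter_upwards [self_mem_nhdsWithin] with s hs
      have e : (s - epw w τ).re = s.re - (w / 2 + 1) := by
        rw [Complex.sub_re, epw_re]
      refine ⟨?_, ?_⟩
      · rw [e]
        have := hs.1
        linarith
      · rw [e]
        exact hs.2
  refine (h1.comp h2).congr fun s => ?_
  unfold lw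
  simp only [Function.comp_apply]
  congr 1
  unfold epw
  push_cast
  ring

lemma lw_right {b : PP → ℂ} {M : ℝ} (hb : ∀ x, ‖b x‖ ≤ M / (x.2 + 1 : ℕ)) {τ : ℝ}
    (hτ : τ ∉ divSet (ap b)) :
    Tendsto (fun h : ℝ => lw w b (epw w τ + h)) (𝓝[>] 0) (𝓝 (bl b τ)) := by
  refine (lw_angle hb hτ 1 (w := w)).comp ?_
  rw [tendsto_nhdsWithin_iff]
  constructor
  · have h3 : Tendsto (fun h : ℝ => epw w τ + (h : ℂ)) (𝓝 0)
        (𝓝 (epw w τ + ((0 : ℝ) : ℂ))) :=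
      (continuous_const.add Complex.continuous_ofReal).tendsto _
    rw [Complex.ofReal_zero, add_zero] at h3
    exact h3.mono_left nhdsWithin_le_nhds
  · filter_upwards [self_mem_nhdsWithin] with h hh
    have hh' : (0 : ℝ) < h := hh
    have e : (epw w τ + (h : ℂ)).re = (w / 2 + 1) + h := by
      rw [Complex.add_re, epw_re, Complex.ofReal_re]
    refine ⟨?_, ?_⟩
    · rw [e]
      linarith
    · rw [e, add_sub_cancel_left, Complex.norm_real, Real.norm_of_nonneg hh'.le]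
      linarith

/-- the boundary value, as a limit along the horizontal line -/
noncomputable def bvw (w : ℝ) (b : PP → ℂ) (τ : ℝ) : ℂ :=
  limUnder (𝓝[>] (0 : ℝ)) fun h : ℝ => lw w b (epw w τ + h)

lemma bvw_eq {b : PP → ℂ} {M : ℝ} (hb : ∀ x, ‖b x‖ ≤ M / (x.2 + 1 : ℕ)) {τ : ℝ}
    (hτ : τ ∉ divSet (ap b)) : bvw w b τ = bl b τ := (lw_right hb hτ).limUnder_eq

lemma bvw_ae {b : PP → ℂ} {M : ℝ} (hb : ∀ x, ‖b x‖ ≤ M / (x.2 + 1 : ℕ)) :
    bvw w b =ᵐ[volume] bl b := by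
  filter_upwards [ae_notMem hb] with τ hτ
  exact bvw_eq hb hτ

/-- congruence: a function that agrees with `lw w b` in the half-plane has the same boundary values -/
lemma limUnder_cong {L : ℂ → ℂ} {b : PP → ℂ} (hL : ∀ s : ℂ, w / 2 + 1 < s.re → L s = lw w b s)
    (τ : ℝ) : (limUnder (𝓝[>] (0 : ℝ)) fun h : ℝ => L (epw w τ + h)) = bvw w b τ := by
  unfold bvw limUnder
  congr 1
  refine Filter.map_congr ?_
  filter_upwards [self_mem_nhdsWithin] with h hh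
  refine hL _ ?_
  have hh' : (0 : ℝ) < h := hh
  rw [Complex.add_re, epw_re, Complex.ofReal_re]
  linarith

/-- the exceptional set has dimension zero -/
lemma dim_exc_w {L : ℂ → ℂ} {b : PP → ℂ} {M : ℝ} (hb : ∀ x, ‖b x‖ ≤ M / (x.2 + 1 : ℕ))
    (hL : ∀ s : ℂ, w / 2 + 1 < s.re → L s = lw w b s) :
    dimH {τ : ℝ | ¬ ∀ C : ℝ, Tendsto L (𝓝[angw w τ C] (epw w τ)) (𝓝 (bvw w b τ))} = 0 := by
  refine le_antisymm ?_ bot_le
  rw [← (boundary hb).2.1]
  refine dimH_mono fun τ hτ => ?_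
  by_contra h
  refine hτ fun C => ?_
  rw [bvw_eq hb h]
  refine (lw_angle hb h C).congr' ?_
  filter_upwards [self_mem_nhdsWithin] with s hs
  exact (hL s hs.1).symm

/-! ### linear combinations -/

lemma norm_comb {m : ℕ} {b : Fin m → PP → ℂ} {M : Fin m → ℝ}
    (hb : ∀ j x, ‖b j x‖ ≤ M j / (x.2 + 1 : ℕ)) (z : Fin m → ℂ) (x : PP) :
    ‖∑ j, z j * b j x‖ ≤ (∑ j, ‖z j‖ * M j) / (x.2 + 1 : ℕ) := by
  refine (norm_sum_le _ _).trans ?_
  rw [Finset.sum_div]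
  refine Finset.sum_le_sum fun j _ => ?_
  rw [norm_mul, mul_div_assoc]
  exact mul_le_mul_of_nonneg_left (hb j x) (norm_nonneg _)

lemma bl_comb {m : ℕ} {b : Fin m → PP → ℂ} {M : Fin m → ℝ}
    (hb : ∀ j x, ‖b j x‖ ≤ M j / (x.2 + 1 : ℕ)) (z : Fin m → ℂ) :
    ∀ᵐ u : ℝ, bl (fun x => ∑ j, z j * b j x) u = ∑ j, z j * bl (b j) u := by
  have h1 : ∀ᵐ u : ℝ, ∀ j, u ∉ divSet (ap (b j)) := by
    rw [ae_all_iff]
    exact fun j => ae_notMem (hb j)
  filter_upwards [h1, ae_notMem (norm_comb hb z)] with u hu hu2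
  have h2 := PS_tendsto (norm_comb hb z) hu2
  have h3 : Tendsto (fun X => ∑ j, z j * PS (b j) X u) atTop (𝓝 (∑ j, z j * bl (b j) u)) :=
    tendsto_finsetSum _ fun j _ => (PS_tendsto (hb j) (hu j)).const_mul (z j)
  refine tendsto_nhds_unique h2 (h3.congr fun X => ?_)
  unfold Pool.Agent.TH339.MP.PS
  simp_rw [Finset.mul_sum, Finset.sum_mul]
  rw [Finset.sum_comm]
  exact Finset.sum_congr rfl fun x _ => Finset.sum_congr rfl fun j _ => by ring

/-- the mean of the product of complex powers -/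
theorem hol_comb {m : ℕ} {b : Fin m → PP → ℂ} {M : Fin m → ℝ}
    (hb : ∀ j x, ‖b j x‖ ≤ M j / (x.2 + 1 : ℕ)) (z : Fin m → ℂ) (hz : ∑ j, ‖z j‖ * M j < 1)
    {a a' : ℝ} (haa : a ≤ a') :
    IntervalIntegrable (fun u => Complex.exp (∑ j, z j * bl (b j) u)) volume a a' ∧
    ‖∫ u in a..a', (Complex.exp (∑ j, z j * bl (b j) u) - 1)‖ ≤
      2 * ∫ x in Set.Ioi (1 : ℝ), gk (∑ j, ‖z j‖ * M j) x := by
  obtain ⟨h1, h2⟩ := hol (norm_comb hb z) hz haa
  have hae := bl_comb hb z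
  refine ⟨?_, ?_⟩
  · refine (intervalIntegrable_congr_ae ?_).1 h1
    refine ae_restrict_of_ae ?_
    filter_upwards [hae] with u hu
    rw [hu]
  · have e : ∫ u in a..a', (Complex.exp (∑ j, z j * bl (b j) u) - 1) =
        ∫ u in a..a', (Complex.exp (bl (fun x => ∑ j, z j * b j x) u) - 1) := by
      refine intervalIntegral.integral_congr_ae ?_
      filter_upwards [hae] with u hu _
      rw [hu]
    rw [e]
    exact h2

end Pool.Agent.Q9.EL
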