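import Pool.Agent.Q9.EL.EC
import Pool.Agent.Q9.EL.Pure

/-!
# The logarithm of the twisted L-series of an elliptic curve on the edge
-/

set_option autoImplicit false

namespace Pool.Agent.Q9.EL

open MeasureTheory Filter Topology NumberField IsDedekindDomain
open Pool.Agent.TH339.MP (PP wt fr ee qq TX PS two_le_qq continuous_PS wt_nonneg bl
  boundary M_nonneg FF bb norm_bb hasProd_L nm tm mem_TX ap bl_angle lv hasSum_all exp_lv
  PS_tendsto ae_notMem elf S6 lfac av av_triv two_le_nm exists_beta cpow_two)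
open Pool.Agent.W350.Edge (divSet dimH_divSet)
open Pool.Agent.Y770.SC (tw norm_tw)

variable {K : Type} [Field K] [NumberField K]

open Classical in
/-- `1` minus the inverse of the twisted Euler factor -/
noncomputable def yv (c : ℕ → ℂ) (W : HeightOneSpectrum (𝓞 K) → WeierstrassCurve (𝓞 K))
    (v : HeightOneSpectrum (𝓞 K)) (s : ℂ) : ℂ :=
  (av W v : ℂ) * (c (nm v) * ((nm v : ℕ) : ℂ) ^ (-s)) -
    (if (W v).Δ ∈ v.asIdeal then 0 else ((nm v : ℕ) : ℂ)) * (c (nm v) * ((nm v : ℕ) : ℂ) ^ (-s)) ^ 2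

/-- the logarithm of the twisted Euler factor -/
noncomputable def lec (c : ℕ → ℂ) (W : HeightOneSpectrum (𝓞 K) → WeierstrassCurve (𝓞 K))
    (v : HeightOneSpectrum (𝓞 K)) (s : ℂ) : ℂ := -Complex.log (1 - yv c W v s)

/-- the logarithm of the L-series -/
noncomputable def lE (c : ℕ → ℂ) (W : HeightOneSpectrum (𝓞 K) → WeierstrassCurve (𝓞 K)) (s : ℂ) : ℂ :=
  ∑' v, lec c W v s

/-- the part of the primes above `6` -/
noncomputable def h6 (c : ℕ → ℂ) (W : HeightOneSpectrum (𝓞 K) → WeierstrassCurve (𝓞 K)) (s : ℂ) : ℂ :=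
  ∑ v ∈ (S6 : Finset (HeightOneSpectrum (𝓞 K))), lec c W v s

lemma q_half {q : ℕ} (hq : 2 ≤ q) {s : ℂ} (hs : 3 / 2 ≤ s.re) :
    (q : ℝ) * ‖(q : ℂ) ^ (-s)‖ ≤ 708 / 1000 ∧ (q : ℝ) * ‖(q : ℂ) ^ (-s)‖ ^ 2 ≤ 1 / 4 ∧
      ‖(q : ℂ) ^ (-s)‖ ≤ 1 / 2 := by
  have hq0 : (0 : ℝ) < q := by exact_mod_cast (by omega : 0 < q)
  have hq1 : (1 : ℝ) ≤ q := by exact_mod_cast (by omega : 1 ≤ q)
  have hq2 : (2 : ℝ) ≤ q := by exact_mod_cast hq
  have hx : ‖(q : ℂ) ^ (-s)‖ ≤ (q : ℝ) ^ (-(3 / 2) : ℝ) := by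
    rw [Complex.norm_natCast_cpow_of_pos (by omega), Complex.neg_re]
    exact Real.rpow_le_rpow_of_exponent_le hq1 (by linarith)
  have h1 : (q : ℝ) * (q : ℝ) ^ (-(3 / 2) : ℝ) ≤ 708 / 1000 := by
    have e1 : (q : ℝ) * (q : ℝ) ^ (-(3 / 2) : ℝ) = (Real.sqrt q)⁻¹ := by
      rw [Real.sqrt_eq_rpow, ← Real.rpow_neg hq0.le]
      nth_rewrite 1 [← Real.rpow_one (q : ℝ)]
      rw [← Real.rpow_add hq0]
      norm_num
    rw [e1, inv_le_comm₀ (Real.sqrt_pos.2 hq0) (by norm_num)]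
    refine Real.le_sqrt_of_sq_le ?_
    norm_num
    linarith
  have h2 : (q : ℝ) * ((q : ℝ) ^ (-(3 / 2) : ℝ)) ^ 2 ≤ 1 / 4 := by
    have e1 : (q : ℝ) * ((q : ℝ) ^ (-(3 / 2) : ℝ)) ^ 2 = ((q : ℝ) ^ 2)⁻¹ := by
      rw [← Real.rpow_natCast, ← Real.rpow_mul hq0.le]
      nth_rewrite 1 [← Real.rpow_one (q : ℝ)]
      rw [← Real.rpow_add hq0, ← Real.rpow_natCast (q : ℝ) 2, ← Real.rpow_neg hq0.le]
      norm_num
    rw [e1, inv_le_comm₀ (by positivity) (by norm_num)]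
    nlinarith
  have hn := norm_nonneg ((q : ℂ) ^ (-s))
  refine ⟨(mul_le_mul_of_nonneg_left hx hq0.le).trans h1, ?_, ?_⟩
  · refine (mul_le_mul_of_nonneg_left (pow_le_pow_left₀ hn hx 2) hq0.le).trans h2
  · have h3 := (mul_le_mul_of_nonneg_left hx hq0.le).trans h1
    nlinarith

section
variable {c : ℕ → ℂ} (hc : ∀ n, ‖c n‖ ≤ 1) (W : HeightOneSpectrum (𝓞 K) → WeierstrassCurve (𝓞 K))
include hc

lemma norm_cx (v : HeightOneSpectrum (𝓞 K)) (s : ℂ) :
    ‖c (nm v) * ((nm v : ℕ) : ℂ) ^ (-s)‖ ≤ ‖((nm v : ℕ) : ℂ) ^ (-s)‖ := by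
  rw [norm_mul]
  exact mul_le_of_le_one_left (norm_nonneg _) (hc _)

lemma norm_yv (v : HeightOneSpectrum (𝓞 K)) {s : ℂ} (hs : 3 / 2 ≤ s.re) :
    ‖yv c W v s‖ ≤ 958 / 1000 := by
  classical
  obtain ⟨h1, h2, h3⟩ := q_half (two_le_nm v) hs
  have h4 := norm_cx hc v s
  have h0 := norm_nonneg (c (nm v) * ((nm v : ℕ) : ℂ) ^ (-s))
  unfold yv
  refine (norm_sub_le _ _).trans ?_
  have h5 : ‖(av W v : ℂ) * (c (nm v) * ((nm v : ℕ) : ℂ) ^ (-s))‖ ≤ 708 / 1000 := by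
    rw [norm_mul, Complex.norm_real]
    calc _ ≤ (nm v : ℝ) * ‖((nm v : ℕ) : ℂ) ^ (-s)‖ :=
          mul_le_mul (av_triv W v) h4 h0 (Nat.cast_nonneg _)
      _ ≤ _ := h1
  have h6 : ‖(if (W v).Δ ∈ v.asIdeal then 0 else ((nm v : ℕ) : ℂ)) *
      (c (nm v) * ((nm v : ℕ) : ℂ) ^ (-s)) ^ 2‖ ≤ 1 / 4 := by
    rw [norm_mul, norm_pow]
    have h7 : ‖(if (W v).Δ ∈ v.asIdeal then (0 : ℂ) else ((nm v : ℕ) : ℂ))‖ ≤ (nm v : ℝ) := by
      split_ifs
      · simp
      · simp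
    calc _ ≤ (nm v : ℝ) * ‖((nm v : ℕ) : ℂ) ^ (-s)‖ ^ 2 :=
          mul_le_mul h7 (pow_le_pow_left₀ h0 h4 2) (by positivity) (Nat.cast_nonneg _)
      _ ≤ _ := h2
  linarith

lemma yv_ne (v : HeightOneSpectrum (𝓞 K)) {s : ℂ} (hs : 3 / 2 ≤ s.re) :
    1 - yv c W v s ∈ Complex.slitPlane := by
  have h := norm_yv hc W v hs
  have h1 := Complex.abs_re_le_norm (yv c W v s)
  left
  rw [Complex.sub_re, Complex.one_re]
  have := (abs_le.1 (h1.trans h)).2
  linarith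

omit hc in
lemma yv_continuous (v : HeightOneSpectrum (𝓞 K)) : Continuous (yv c W v) := by
  have hn : ((nm v : ℕ) : ℂ) ≠ 0 := by
    have := two_le_nm v
    exact Nat.cast_ne_zero.2 (by omega)
  have : NeZero (((nm v : ℕ) : ℂ)) := ⟨hn⟩
  have h1 : Continuous fun s : ℂ => ((nm v : ℕ) : ℂ) ^ (-s) :=
    (continuous_const_cpow _).comp continuous_neg
  unfold yv
  exact (continuous_const.mul (continuous_const.mul h1)).sub
    (continuous_const.mul ((continuous_const.mul h1).pow 2))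

lemma lec_cont (v : HeightOneSpectrum (𝓞 K)) {s : ℂ} (hs : 3 / 2 ≤ s.re) :
    ContinuousAt (lec c W v) s := by
  unfold lec
  exact ((continuousAt_const.sub (yv_continuous W v).continuousAt).clog (yv_ne hc W v hs)).neg

lemma h6_cont {s : ℂ} (hs : 3 / 2 ≤ s.re) : ContinuousAt (h6 c W) s := by
  unfold h6
  exact tendsto_finsetSum _ fun v _ => lec_cont hc W v hs

omit hc in
/-- the polynomial identity -/
lemma poly_id {v : HeightOneSpectrum (𝓞 K)} {β : Fin 2 → ℂ}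
    (h : ∀ s : ℂ, elf W v s = ∏ j, (1 - β j * ((nm v : ℕ) : ℂ) ^ (-(s - 1 / 2)))⁻¹) (s : ℂ) :
    1 - yv c W v s = ∏ j, (1 - (c (nm v) * β j) * ((nm v : ℕ) : ℂ) ^ (-(s - 1 / 2))) := by
  have hn : ((nm v : ℕ) : ℂ) ≠ 0 := by
    have := two_le_nm v
    exact Nat.cast_ne_zero.2 (by omega)
  have hl : Complex.log ((nm v : ℕ) : ℂ) ≠ 0 := by
    have h2 := two_le_nm v
    rw [← Complex.ofReal_natCast, ← Complex.ofReal_log (Nat.cast_nonneg _)]
    have : 0 < Real.log ((nm v : ℕ) : ℝ) := Real.log_pos (by exact_mod_cast (by omega : 1 < nm v))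
    exact_mod_cast this.ne'
  by_cases h0 : c (nm v) = 0
  · unfold yv
    rw [h0]
    simp
  · -- a point where the power takes the twisted value
    set s' : ℂ := s - Complex.log (c (nm v)) / Complex.log ((nm v : ℕ) : ℂ) with hs'
    have hcp : ∀ z : ℂ, ((nm v : ℕ) : ℂ) ^ (-(s' - z)) =
        c (nm v) * ((nm v : ℕ) : ℂ) ^ (-(s - z)) := by
      intro z
      have e : -(s' - z) = Complex.log (c (nm v)) / Complex.log ((nm v : ℕ) : ℂ) + -(s - z) := by
        rw [hs']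
        ring
      rw [e, Complex.cpow_add _ _ hn]
      congr 1
      rw [Complex.cpow_def_of_ne_zero hn, mul_div_cancel₀ _ hl, Complex.exp_log h0]
    have h1 := h s'
    unfold Pool.Agent.TH339.MP.elf Pool.Agent.TH339.MP.lfac at h1
    rw [Finset.prod_inv_distrib, inv_inj, cpow_two _ (by have := two_le_nm v; omega)] at h1
    have h2 := hcp 0
    rw [sub_zero, sub_zero] at h2
    rw [h2] at h1
    simp_rw [hcp] at h1
    unfold yv
    calc _ = _ := by ring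
      _ = _ := h1
      _ = _ := by
        refine Finset.prod_congr rfl fun j _ => ?_
        ring

/-- the logarithms of the Euler factors outside `6` -/
lemma lec_eq {v : HeightOneSpectrum (𝓞 K)} {β : Fin 2 → ℂ} (hβ : ∀ j, ‖β j‖ ≤ 1)
    (h : ∀ s : ℂ, elf W v s = ∏ j, (1 - β j * ((nm v : ℕ) : ℂ) ^ (-(s - 1 / 2)))⁻¹) {s : ℂ}
    (hs : 3 / 2 < s.re) :
    lec c W v s = ∑ j, -Complex.log (1 - (c (nm v) * β j) * ((nm v : ℕ) : ℂ) ^ (-(s - 1 / 2))) := by
  unfold lec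
  rw [poly_id W h s, Fin.prod_univ_two, Fin.sum_univ_two]
  have hq := two_le_nm v
  have hsmall : ∀ j, ‖(c (nm v) * β j) * ((nm v : ℕ) : ℂ) ^ (-(s - 1 / 2))‖ < 1 := by
    intro j
    rw [norm_mul, norm_mul]
    have h1 : ‖((nm v : ℕ) : ℂ) ^ (-(s - 1 / 2))‖ < 1 := by
      rw [Complex.norm_natCast_cpow_of_pos (by omega)]
      refine Real.rpow_lt_one_of_one_lt_of_neg (by exact_mod_cast (by omega : 1 < nm v)) ?_
      simp
      linarith
    have h2 : ‖c (nm v)‖ * ‖β j‖ ≤ 1 := mul_le_one₀ (hc _) (norm_nonneg _) (hβ j)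
    calc _ ≤ 1 * ‖((nm v : ℕ) : ℂ) ^ (-(s - 1 / 2))‖ :=
          mul_le_mul_of_nonneg_right h2 (norm_nonneg _)
      _ < 1 := by rw [one_mul]; exact h1
  have hre : ∀ j, 0 < (1 - (c (nm v) * β j) * ((nm v : ℕ) : ℂ) ^ (-(s - 1 / 2))).re := by
    intro j
    rw [Complex.sub_re, Complex.one_re]
    have := (Complex.re_le_norm _).trans_lt (hsmall j)
    linarith
  have harg : ∀ j, |(1 - (c (nm v) * β j) * ((nm v : ℕ) : ℂ) ^ (-(s - 1 / 2))).arg| <
      Real.pi / 2 := fun j => Complex.abs_arg_lt_pi_div_two_iff.2 (Or.inl (hre j))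
  have hne : ∀ j, (1 - (c (nm v) * β j) * ((nm v : ℕ) : ℂ) ^ (-(s - 1 / 2))) ≠ 0 := by
    intro j h0
    have := hre j
    rw [h0] at this
    simp at this
  rw [Complex.log_mul (hne 0) (hne 1)]
  · ring
  · have a0 := abs_lt.1 (harg 0)
    have a1 := abs_lt.1 (harg 1)
    exact ⟨by linarith [a0.1, a1.1], by linarith [a0.2, a1.2]⟩

/-- **The logarithm of the twisted L-series.** -/
theorem lE_main : ∃ b : PP → ℂ,
    (∀ x, ‖b x‖ ≤ ((2 * Module.finrank ℚ K : ℕ) : ℝ) / (x.2 + 1 : ℕ)) ∧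
      ∀ s : ℂ, 3 / 2 < s.re → Summable (fun v => lec c W v s) ∧
        lE c W s = h6 c W s + FF b (s - 1 / 2) := by
  classical
  obtain ⟨β, h1, h2⟩ := exists_beta W
  set β' : HeightOneSpectrum (𝓞 K) → Fin 2 → ℂ := fun v j => if v ∈ S6 then 0 else β v j with hβ'
  have hb' : ∀ v j, ‖β' v j‖ ≤ 1 := by
    intro v j
    simp only [hβ']
    split_ifs
    · simp
    · exact h1 v j
  refine ⟨bb (tw c β'), fun x => ?_, fun s hs => ?_⟩
  · have := norm_bb (norm_tw hc hb') x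
    push_cast at this ⊢
    rw [mul_comm (2 : ℝ)]
    exact this
  · have hs1 : 1 < (s - 1 / 2).re := by
      have : (s - 1 / 2).re = s.re - 1 / 2 := by simp
      rw [this]
      linarith
    have h3 := hasSum_all (norm_tw hc hb') hs1
    have h4 : HasSum (fun v => if v ∈ (S6 : Finset (HeightOneSpectrum (𝓞 K))) then
        lec c W v s else 0) (h6 c W s) := by
      have h5 := hasSum_sum_of_ne_finset_zero (L := SummationFilter.unconditional _)
        (s := (S6 : Finset (HeightOneSpectrum (𝓞 K))))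
        (f := fun v => if v ∈ (S6 : Finset (HeightOneSpectrum (𝓞 K))) then lec c W v s else 0)
        (fun v hv => if_neg hv)
      have h6' : ∑ v ∈ (S6 : Finset (HeightOneSpectrum (𝓞 K))),
          (if v ∈ (S6 : Finset (HeightOneSpectrum (𝓞 K))) then lec c W v s else 0) = h6 c W s :=
        Finset.sum_congr rfl fun v hv => if_pos hv
      rwa [h6'] at h5
    have h5 := h4.add h3
    have h7 : (fun v => (if v ∈ (S6 : Finset (HeightOneSpectrum (𝓞 K))) then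
        lec c W v s else 0) + lv (tw c β') v (s - 1 / 2)) = fun v => lec c W v s := by
      funext v
      by_cases hv : v ∈ (S6 : Finset (HeightOneSpectrum (𝓞 K)))
      · rw [if_pos hv]
        unfold Pool.Agent.TH339.MP.lv tw
        simp only [hβ', if_pos hv]
        simp
      · rw [if_neg hv, zero_add, lec_eq hc W (h1 v) (h2 v hv) hs]
        unfold Pool.Agent.TH339.MP.lv tw
        simp only [hβ', if_neg hv]
    rw [h7] at h5
    exact ⟨h5.summable, h5.tsum_eq⟩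

end

end Pool.Agent.Q9.EL
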