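import Pool.Agent.Q9.EL.AP
import Pool.Agent.Q9.EL.ECB
import Pool.Agent.Q9.EL.Chi

/-!
# The L-series of an elliptic curve twisted by completely multiplicative functions: one coefficient
function for all twists; the primes above `6` as functions on the torus
-/

set_option autoImplicit false

namespace Pool.Agent.Q9.EL

open MeasureTheory Filter Topology NumberField IsDedekindDomain
open scoped ENNReal
open Pool.Agent.Helper873.Mean Pool.Agent.Helper873.Monomial Pool.Agent.Helper873.Product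
  Pool.Agent.Helper873.OneVar
open Pool.Agent.TH339.MP (PP wt fr ee qq TX PS two_le_qq continuous_PS wt_nonneg bl
  boundary M_nonneg FF bb norm_bb hasProd_L nm tm mem_TX ap bl_angle lv hasSum_all exp_lv
  PS_tendsto ae_notMem elf S6 lfac av_triv two_le_nm exists_beta cpow_two ee_pow norm_ee
  card_S6 sum_dg_le dg pr nm_eq Sp mem_Sp)
open Pool.Agent.W350.Edge (divSet)
open Pool.Agent.Y770.SC (tw norm_tw bb_tw)

variable {K : Type} [Field K] [NumberField K]

/-- the twisted coefficients -/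
noncomputable def tb (c : ℕ → ℂ) (b : PP → ℂ) (x : PP) : ℂ := c (qq x) * b x

lemma norm_tb {c : ℕ → ℂ} (hc : ∀ n, ‖c n‖ ≤ 1) {b : PP → ℂ} {M : ℝ}
    (hb : ∀ x, ‖b x‖ ≤ M / (x.2 + 1 : ℕ)) (x : PP) : ‖tb c b x‖ ≤ M / (x.2 + 1 : ℕ) := by
  unfold tb
  rw [norm_mul]
  exact (mul_le_of_le_one_left (norm_nonneg _) (hc _)).trans (hb x)

/-- **One coefficient function for all twists.** -/
theorem lE_mult (W : HeightOneSpectrum (𝓞 K) → WeierstrassCurve (𝓞 K)) : ∃ b : PP → ℂ,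
    (∀ x, ‖b x‖ ≤ ((2 * Module.finrank ℚ K : ℕ) : ℝ) / (x.2 + 1 : ℕ)) ∧
      ∀ c : ℕ → ℂ, (∀ n, ‖c n‖ ≤ 1) → c 1 = 1 → (∀ m n, c (m * n) = c m * c n) →
        ∀ s : ℂ, 3 / 2 < s.re → lE c W s = h6 c W s + FF (tb c b) (s - 1 / 2) := by
  classical
  obtain ⟨β, h1, h2⟩ := exists_beta W
  set β' : HeightOneSpectrum (𝓞 K) → Fin 2 → ℂ := fun v j => if v ∈ S6 then 0 else β v j with hβ'
  have hb' : ∀ v j, ‖β' v j‖ ≤ 1 := by
    intro v j
    simp only [hβ']
    split_ifs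
    · simp
    · exact h1 v j
  refine ⟨bb β', fun x => ?_, fun c hc hc1 hcm s hs => ?_⟩
  · have := norm_bb hb' x
    push_cast at this ⊢
    rw [mul_comm (2 : ℝ)]
    exact this
  · have hs1 : 1 < (s - 1 / 2).re := by
      have : (s - 1 / 2).re = s.re - 1 / 2 := by simp
      rw [this]
      linarith
    have h3 := hasSum_all (norm_tw hc hb') hs1
    have hbt : bb (tw c β') = tb c (bb β') := funext fun x => bb_tw hc1 hcm β' x
    rw [hbt] at h3
    have h4 : HasSum (fun v => if v ∈ (S6 : Finset (HeightOneSpectrum (𝓞 K))) then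
        lec c W v s else 0) (h6 c W s) := by
      have h5 := hasSum_sum_of_ne_finset_zero (L := SummationFilter.unconditional _)
        (s := (S6 : Finset (HeightOneSpectrum (𝓞 K))))
        (f := fun v => if v ∈ (S6 : Finset (HeightOneSpectrum (𝓞 K))) then lec c W v s else 0)
        (fun v hv => if_neg hv)
      have h6' : ∑ v ∈ (S6 : Finset (HeightOneSpectrum (𝓞 K))),
          (if v ∈ (S6 : Finset (HeightOneSpectrum (𝓞 K))) then lec c W v s else 0) = h6 c W s :=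
        Finset.sum_congr rfl fun v hv => if_pos hv
      rwa [h6'] at h5
    have h5 := h4.add h3
    have h7 : (fun v => (if v ∈ (S6 : Finset (HeightOneSpectrum (𝓞 K))) then
        lec c W v s else 0) + lv (tw c β') v (s - 1 / 2)) = fun v => lec c W v s := by
      funext v
      by_cases hv : v ∈ (S6 : Finset (HeightOneSpectrum (𝓞 K)))
      · rw [if_pos hv]
        unfold Pool.Agent.TH339.MP.lv tw
        simp only [hβ', if_pos hv]
        simp
      · rw [if_neg hv, zero_add, lec_eq hc W (h1 v) (h2 v hv) hs]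
        unfold Pool.Agent.TH339.MP.lv tw
        simp only [hβ', if_neg hv]
    rw [h7] at h5
    exact h5.tsum_eq

lemma bE_tb {W : HeightOneSpectrum (𝓞 K) → WeierstrassCurve (𝓞 K)} {b : PP → ℂ} {M : ℝ}
    (hb : ∀ x, ‖b x‖ ≤ M / (x.2 + 1 : ℕ)) {c : ℕ → ℂ} (hc : ∀ n, ‖c n‖ ≤ 1)
    (hL : ∀ s : ℂ, 3 / 2 < s.re → lE c W s = h6 c W s + FF (tb c b) (s - 1 / 2)) {τ : ℝ}
    (hτ : τ ∉ divSet (ap (tb c b))) : bE c W τ = h6 c W (edg τ) + bl (tb c b) τ :=
  bE_eq hc W (norm_tb hc hb) hL hτ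

/-! ### the primes above `6` -/

lemma lec_diff {c c' : ℕ → ℂ} (hc : ∀ n, ‖c n‖ ≤ 1) (hc' : ∀ n, ‖c' n‖ ≤ 1)
    (W : HeightOneSpectrum (𝓞 K) → WeierstrassCurve (𝓞 K)) (v : HeightOneSpectrum (𝓞 K)) {s : ℂ}
    (hs : 3 / 2 ≤ s.re) :
    ‖lec c W v s - lec c' W v s‖ ≤ 32 * ‖c (nm v) - c' (nm v)‖ := by
  classical
  obtain ⟨q1, q2, q3⟩ := q_half (two_le_nm v) hs
  set Y : ℂ := ((nm v : ℕ) : ℂ) ^ (-s) with hY
  have hYn := norm_nonneg Y
  have hdiff : yv c W v s - yv c' W v s =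
      (Pool.Agent.TH339.MP.av W v : ℂ) * Y * (c (nm v) - c' (nm v)) -
        (if (W v).Δ ∈ v.asIdeal then 0 else ((nm v : ℕ) : ℂ)) * Y ^ 2 *
          ((c (nm v) - c' (nm v)) * (c (nm v) + c' (nm v))) := by
    unfold yv
    rw [hY]
    ring
  have hu1 : ‖c (nm v) + c' (nm v)‖ ≤ 2 := by
    refine (norm_add_le _ _).trans ?_
    have := hc (nm v)
    have := hc' (nm v)
    linarith
  have h7 : ‖(if (W v).Δ ∈ v.asIdeal then (0 : ℂ) else ((nm v : ℕ) : ℂ))‖ ≤ (nm v : ℝ) := by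
    split_ifs
    · simp
    · simp
  set u := ‖c (nm v) - c' (nm v)‖ with hu
  have hu0 : 0 ≤ u := norm_nonneg _
  have hy : ‖yv c W v s - yv c' W v s‖ ≤ 1.3 * u := by
    rw [hdiff]
    refine (norm_sub_le _ _).trans ?_
    have t1 : ‖(Pool.Agent.TH339.MP.av W v : ℂ) * Y * (c (nm v) - c' (nm v))‖ ≤ 708 / 1000 * u := by
      rw [norm_mul, norm_mul, Complex.norm_real]
      refine mul_le_mul_of_nonneg_right ?_ (norm_nonneg _)
      exact (mul_le_mul_of_nonneg_right (av_triv W v) hYn).trans q1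
    have t2 : ‖(if (W v).Δ ∈ v.asIdeal then 0 else ((nm v : ℕ) : ℂ)) * Y ^ 2 *
        ((c (nm v) - c' (nm v)) * (c (nm v) + c' (nm v)))‖ ≤ 1 / 4 * (u * 2) := by
      rw [norm_mul, norm_mul, norm_mul, norm_pow]
      refine mul_le_mul ?_ (by gcongr) (by positivity) (by norm_num)
      exact (mul_le_mul_of_nonneg_right h7 (by positivity)).trans q2
    linarith
  have hlog := log_lip (norm_yv hc W v hs) (norm_yv hc' W v hs)
  unfold lec
  rw [show -Complex.log (1 - yv c W v s) - -Complex.log (1 - yv c' W v s) =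
    (Complex.log (1 - yv c' W v s) - Complex.log (1 - yv c W v s)) by ring]
  refine hlog.trans ?_
  rw [norm_sub_rev]
  linarith

/-- the primes above `6` as a function on the torus -/
noncomputable def hT (W : HeightOneSpectrum (𝓞 K) → WeierstrassCurve (𝓞 K)) (z : Tor) : ℂ :=
  h6 (fz z) W (edg 0)

lemma S6_pow {v : HeightOneSpectrum (𝓞 K)} (hv : v ∈ (S6 : Finset (HeightOneSpectrum (𝓞 K)))) :
    ∃ f : ℕ, f ≤ Module.finrank ℚ K ∧ (nm v = 2 ^ f ∨ nm v = 3 ^ f) := by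
  classical
  refine ⟨dg v, ?_, ?_⟩
  · have h1 := sum_dg_le (K := K) (pr v)
    refine le_trans ?_ h1
    exact Finset.single_le_sum (f := fun v => dg v) (fun _ _ => Nat.zero_le _)
      ((mem_Sp _ _).2 rfl)
  · unfold Pool.Agent.TH339.MP.S6 at hv
    rcases Finset.mem_union.1 hv with h1 | h1
    · left
      have h2 := (mem_Sp _ _).1 h1
      rw [nm_eq, h2]
    · right
      have h2 := (mem_Sp _ _).1 h1
      rw [nm_eq, h2]

lemma pow_sub_pow_le {u w : ℂ} (hu : ‖u‖ ≤ 1) (hw : ‖w‖ ≤ 1) (n : ℕ) :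
    ‖u ^ n - w ^ n‖ ≤ n * ‖u - w‖ := by
  induction n with
  | zero => simp
  | succ n ih =>
    have e : u ^ (n + 1) - w ^ (n + 1) = u ^ n * (u - w) + w * (u ^ n - w ^ n) := by ring
    rw [e]
    refine (norm_add_le _ _).trans ?_
    have h1 : ‖u ^ n * (u - w)‖ ≤ ‖u - w‖ := by
      rw [norm_mul, norm_pow]
      exact mul_le_of_le_one_left (norm_nonneg _) (pow_le_one₀ (norm_nonneg _) hu)
    have h2 : ‖w * (u ^ n - w ^ n)‖ ≤ n * ‖u - w‖ := by
      rw [norm_mul]
      exact (mul_le_of_le_one_left (norm_nonneg _) hw).trans ih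
    push_cast
    linarith

/-- the modulus of continuity -/
noncomputable def om (z z0 : Tor) : ℝ := ‖fz z 2 - fz z0 2‖ + ‖fz z 3 - fz z0 3‖

lemma om_nonneg (z z0 : Tor) : 0 ≤ om z z0 := by unfold om; positivity

lemma hT_diff (W : HeightOneSpectrum (𝓞 K) → WeierstrassCurve (𝓞 K)) (z z0 : Tor) :
    ‖hT W z - hT W z0‖ ≤ 64 * (Module.finrank ℚ K : ℝ) ^ 2 * om z z0 := by
  unfold hT h6
  rw [← Finset.sum_sub_distrib]
  refine (norm_sum_le_of_le (n := fun _ => 32 * (Module.finrank ℚ K * om z z0)) _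
    fun v hv => ?_).trans ?_
  · refine (lec_diff (norm_fz_le z) (norm_fz_le z0) W v (by rw [edg_re])).trans ?_
    obtain ⟨f, hf, h1⟩ := S6_pow hv
    have hf' : (f : ℝ) ≤ Module.finrank ℚ K := by exact_mod_cast hf
    have h0 := om_nonneg z z0
    have hom : om z z0 = ‖fz z 2 - fz z0 2‖ + ‖fz z 3 - fz z0 3‖ := rfl
    have n2 := norm_nonneg (fz z 2 - fz z0 2)
    have n3 := norm_nonneg (fz z 3 - fz z0 3)
    gcongr
    rcases h1 with h1 | h1
    · rw [h1, fz_pow, fz_pow]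
      refine (pow_sub_pow_le (norm_fz_le _ _) (norm_fz_le _ _) f).trans ?_
      exact mul_le_mul hf' (by linarith) n2 (Nat.cast_nonneg _)
    · rw [h1, fz_pow, fz_pow]
      refine (pow_sub_pow_le (norm_fz_le _ _) (norm_fz_le _ _) f).trans ?_
      exact mul_le_mul hf' (by linarith) n3 (Nat.cast_nonneg _)
  · rw [Finset.sum_const, nsmul_eq_mul]
    have h1 := card_S6 (K := K)
    have h0 := om_nonneg z z0
    calc _ ≤ (2 * Module.finrank ℚ K : ℝ) * (32 * (Module.finrank ℚ K * om z z0)) := by gcongr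
      _ = _ := by ring

lemma yv_cong {c c' : ℕ → ℂ} {W : HeightOneSpectrum (𝓞 K) → WeierstrassCurve (𝓞 K)}
    {v : HeightOneSpectrum (𝓞 K)} {s s' : ℂ}
    (h : c (nm v) * ((nm v : ℕ) : ℂ) ^ (-s) = c' (nm v) * ((nm v : ℕ) : ℂ) ^ (-s')) :
    lec c W v s = lec c' W v s' := by
  unfold lec yv
  rw [h]

/-- the twists on the edge, at the primes above `6`, as values of the function on the torus -/
lemma h6_torus {c : ℕ → ℂ} {W : HeightOneSpectrum (𝓞 K) → WeierstrassCurve (𝓞 K)} {w : Tor} {t : ℝ}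
    (h : ∀ v ∈ (S6 : Finset (HeightOneSpectrum (𝓞 K))), fz w (nm v) = c (nm v)) :
    h6 c W (edg t) = hT W (w + zt t) := by
  unfold hT h6
  refine Finset.sum_congr rfl fun v hv => yv_cong ?_
  have hn0 : nm v ≠ 0 := by have := two_le_nm v; omega
  have hn : ((nm v : ℕ) : ℂ) ≠ 0 := Nat.cast_ne_zero.2 hn0
  rw [fz_add, h v hv, fz_zt t hn0]
  have h1 : ((nm v : ℕ) : ℂ) ^ (-edg t) = ee (-Real.log (nm v)) t * ((nm v : ℕ) : ℂ) ^ (-edg 0) := by
    have e : -edg t = -((t : ℂ) * Complex.I) + -edg 0 := by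
      unfold edg
      push_cast
      ring
    rw [e, Complex.cpow_add _ _ hn]
    congr 1
    rw [Complex.cpow_def_of_ne_zero hn]
    unfold Pool.Agent.TH339.MP.ee
    congr 1
    have hlog : Complex.log ((nm v : ℕ) : ℂ) = ((Real.log (nm v) : ℝ) : ℂ) := by
      rw [← Complex.ofReal_natCast, ← Complex.ofReal_log (Nat.cast_nonneg _)]
    rw [hlog]
    push_cast
    ring
  rw [h1]
  ring

end Pool.Agent.Q9.EL
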