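import Pool.Agent.Q9.EL.Lag
import Pool.Agent.TH339.MP.X6

/-!
# Analytic continuation across the edge and approximation by polynomials
-/

set_option autoImplicit false

namespace Pool.Agent.Q9.EL

open MeasureTheory Filter Topology Polynomial Finset
open scoped ENNReal
open Pool.Agent.TH339.MP (PP PS bl boundary FF tm M_nonneg continuous_PS radial_x unique_b ap
  ae_notMem differentiableOn_FF)
open Pool.Agent.W350.Edge (divSet)

/-- the bound on a disc -/
lemma disc_bound' (d : ℕ) {Q : ℂ[X]} (hQ : Q.natDegree ≤ d) {A h τ : ℝ} (hA : 0 < A) (hh : 0 < h)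
    (hI : ∫ t in (τ - h)..(τ + h), ‖Q.eval (t : ℂ)‖ ^ 2 ≤ h * A ^ 2) {z : ℂ}
    (hz : ‖z - τ‖ ≤ h) :
    ‖Q.eval z‖ ≤ (d + 1) * A * (2 ^ d * Real.exp 1 ^ (d + 1)) := by
  set R : ℂ[X] := Q.comp (C (h : ℂ) * X + C (τ : ℂ)) with hR
  have hdeg : R.natDegree ≤ d := by
    rw [hR]
    refine natDegree_comp_le.trans ?_
    have : (C (h : ℂ) * X + C (τ : ℂ)).natDegree ≤ 1 := natDegree_linear_le
    calc _ ≤ Q.natDegree * 1 := by gcongr
      _ ≤ d := by rwa [mul_one]
  have hev : ∀ w : ℂ, R.eval w = Q.eval (h * w + τ) := by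
    intro w
    rw [hR, eval_comp]
    simp
  have h1 : ∫ u in (-1 : ℝ)..1, ‖R.eval (u : ℂ)‖ ^ 2 ≤ A ^ 2 := by
    have h2 := intervalIntegral.integral_comp_mul_add (a := -1) (b := 1)
      (fun t : ℝ => ‖Q.eval (t : ℂ)‖ ^ 2) hh.ne' τ
    have e1 : h * (-1) + τ = τ - h := by ring
    have e2 : h * 1 + τ = τ + h := by ring
    rw [e1, e2, smul_eq_mul] at h2
    have h3 : ∫ u in (-1 : ℝ)..1, ‖R.eval (u : ℂ)‖ ^ 2 =
        ∫ x in (-1 : ℝ)..1, ‖Q.eval (((h * x + τ : ℝ)) : ℂ)‖ ^ 2 := by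
      congr 1
      funext u
      rw [hev]
      push_cast
      rfl
    rw [h3, h2]
    calc _ ≤ h⁻¹ * (h * A ^ 2) := by gcongr
      _ = A ^ 2 := by field_simp
  have hw : ‖(z - τ) / h‖ ≤ 1 := by
    rw [norm_div, Complex.norm_real, Real.norm_of_nonneg hh.le, div_le_one hh]
    exact hz
  have h2 := disc_bound d hdeg hA h1 hw
  rw [hev] at h2
  have h3 : (h : ℂ) * ((z - τ) / h) + τ = z := by
    have : (h : ℂ) ≠ 0 := by exact_mod_cast hh.ne'
    field_simp
    ring
  rwa [h3] at h2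

lemma two_exp_lt : 2 * Real.exp 1 / 10 < 1 := by
  have := Real.exp_one_lt_d9
  norm_num at this ⊢
  linarith

lemma sq_add_le (a b c : ℂ) : ENNReal.ofReal (‖a - c‖ ^ 2) ≤
    2 * ENNReal.ofReal (‖a - b‖ ^ 2) + 2 * ENNReal.ofReal (‖b - c‖ ^ 2) := by
  have h1 : ‖a - c‖ ≤ ‖a - b‖ + ‖b - c‖ := norm_sub_le_norm_sub_add_norm_sub a b c
  have h2 : ‖a - c‖ ^ 2 ≤ 2 * ‖a - b‖ ^ 2 + 2 * ‖b - c‖ ^ 2 := by
    nlinarith [norm_nonneg (a - c), sq_nonneg (‖a - b‖ - ‖b - c‖)]
  have e : (2 : ℝ≥0∞) = ENNReal.ofReal 2 := by simp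
  rw [e, ← ENNReal.ofReal_mul (by norm_num), ← ENNReal.ofReal_mul (by norm_num),
    ← ENNReal.ofReal_add (by positivity) (by positivity)]
  exact ENNReal.ofReal_le_ofReal h2

/-- interval integral from a lower Lebesgue integral -/
lemma int_le_of_lint {f : ℝ → ℝ} (hf : Continuous f) (h0 : ∀ t, 0 ≤ f t) {a b B : ℝ} (hab : a ≤ b)
    (hB : 0 ≤ B) (h : ∫⁻ t in Set.Icc a b, ENNReal.ofReal (f t) ≤ ENNReal.ofReal B) :
    ∫ t in a..b, f t ≤ B := by
  rw [intervalIntegral.integral_of_le hab, ← integral_Icc_eq_integral_Ioc]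
  have hi : IntegrableOn f (Set.Icc a b) := hf.continuousOn.integrableOn_Icc
  have h1 := ofReal_integral_eq_lintegral_ofReal hi (Eventually.of_forall h0)
  rw [← h1] at h
  exact (ENNReal.ofReal_le_ofReal_iff hB).1 h

lemma lint_of_int {f : ℝ → ℝ} (hf : Continuous f) (h0 : ∀ t, 0 ≤ f t) {a b B : ℝ} (hab : a ≤ b)
    (h : ∫ t in a..b, f t ≤ B) :
    ∫⁻ t in Set.Icc a b, ENNReal.ofReal (f t) ≤ ENNReal.ofReal B := by
  rw [intervalIntegral.integral_of_le hab, ← integral_Icc_eq_integral_Ioc] at h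
  have hi : IntegrableOn f (Set.Icc a b) := hf.continuousOn.integrableOn_Icc
  have h1 := ofReal_integral_eq_lintegral_ofReal hi (Eventually.of_forall h0)
  rw [← h1]
  exact ENNReal.ofReal_le_ofReal h

/-- **A function which is approximated by polynomials at the rate `10^{-d}` in the mean is analytic.** -/
theorem analytic_of_poly {f : ℝ → ℂ} (hf : AEMeasurable f) {P : ℕ → ℂ[X]}
    (hP : ∀ d, (P d).natDegree ≤ d) {h K τ : ℝ} (hh : 0 < h) (hK : 0 < K)
    (H : ∀ d, ∫⁻ t in Set.Icc (τ - h) (τ + h), ENNReal.ofReal (‖f t - (P d).eval (t : ℂ)‖ ^ 2) ≤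
      ENNReal.ofReal (K * (1 / 100) ^ d)) :
    ∃ G : ℂ → ℂ, DifferentiableOn ℂ G (Metric.ball (τ : ℂ) h) ∧
      ∀ᵐ t : ℝ, t ∈ Set.Ioo (τ - h) (τ + h) → f t = G t := by
  set J := Set.Icc (τ - h) (τ + h) with hJ
  have hJle : τ - h ≤ τ + h := by linarith
  set D : ℕ → ℂ[X] := fun k => P (k + 1) - P k with hD
  have hDdeg : ∀ k, (D k).natDegree ≤ k + 1 := by
    intro k
    refine (natDegree_sub_le _ _).trans (max_le (hP _) ((hP k).trans (by omega)))
  set A : ℕ → ℝ := fun k => 2 * Real.sqrt (K / h) * (1 / 10) ^ k with hA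
  have hA0 : ∀ k, 0 < A k := by
    intro k
    rw [hA]
    positivity
  have hint : ∀ k, ∫ t in (τ - h)..(τ + h), ‖(D k).eval (t : ℂ)‖ ^ 2 ≤ h * A k ^ 2 := by
    intro k
    have e : h * A k ^ 2 = 4 * K * (1 / 100) ^ k := by
      rw [hA]
      simp only
      rw [mul_pow, mul_pow, Real.sq_sqrt (by positivity), ← pow_mul, mul_comm k 2, pow_mul]
      have : (1 / 10 : ℝ) ^ 2 = 1 / 100 := by norm_num
      rw [this]
      field_simp
      norm_num
    rw [e]
    refine int_le_of_lint (by fun_prop) (fun t => by positivity) hJle (by positivity) ?_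
    calc _ ≤ ∫⁻ t in J, (2 * ENNReal.ofReal (‖f t - (P (k + 1)).eval (t : ℂ)‖ ^ 2) +
          2 * ENNReal.ofReal (‖f t - (P k).eval (t : ℂ)‖ ^ 2)) := by
          refine lintegral_mono fun t => ?_
          have h1 := sq_add_le ((P (k + 1)).eval (t : ℂ)) (f t) ((P k).eval (t : ℂ))
          rw [norm_sub_rev ((P (k + 1)).eval (t : ℂ)) (f t)] at h1
          have e2 : (D k).eval (t : ℂ) = (P (k + 1)).eval (t : ℂ) - (P k).eval (t : ℂ) := by
            rw [hD]
            simp
          rw [e2]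
          exact h1
      _ = 2 * (∫⁻ t in J, ENNReal.ofReal (‖f t - (P (k + 1)).eval (t : ℂ)‖ ^ 2)) +
          2 * ∫⁻ t in J, ENNReal.ofReal (‖f t - (P k).eval (t : ℂ)‖ ^ 2) := by
          rw [lintegral_add_left', lintegral_const_mul', lintegral_const_mul']
          · exact ENNReal.ofNat_ne_top
          · exact ENNReal.ofNat_ne_top
          · refine AEMeasurable.const_mul (AEMeasurable.ennreal_ofReal ?_) _
            refine AEMeasurable.pow_const (AEMeasurable.norm ?_) _
            refine AEMeasurable.sub hf.restrict ?_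
            exact (by fun_prop : Continuous fun t : ℝ => (P (k + 1)).eval (t : ℂ)).aemeasurable
      _ ≤ 2 * ENNReal.ofReal (K * (1 / 100) ^ (k + 1)) + 2 * ENNReal.ofReal (K * (1 / 100) ^ k) := by
          gcongr
          · exact H _
          · exact H _
      _ ≤ ENNReal.ofReal (4 * K * (1 / 100) ^ k) := by
          have e : (2 : ℝ≥0∞) = ENNReal.ofReal 2 := by simp
          rw [e, ← ENNReal.ofReal_mul (by norm_num), ← ENNReal.ofReal_mul (by norm_num),
            ← ENNReal.ofReal_add (by positivity) (by positivity)]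
          refine ENNReal.ofReal_le_ofReal ?_
          rw [pow_succ]
          have : 0 < K * (1 / 100) ^ k := by positivity
          nlinarith
  set u : ℕ → ℝ := fun k => (4 * Real.sqrt (K / h) * Real.exp 1 ^ 2) *
    ((k : ℝ) * (2 * Real.exp 1 / 10) ^ k + 2 * (2 * Real.exp 1 / 10) ^ k) with hu
  have hus : Summable u := by
    have h1 : ‖2 * Real.exp 1 / 10‖ < 1 := by
      rw [Real.norm_of_nonneg (by positivity)]
      exact two_exp_lt
    have h2 := summable_pow_mul_geometric_of_norm_lt_one 1 h1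
    have h3 := (summable_geometric_of_norm_lt_one h1).mul_left 2
    refine (Summable.add ?_ h3).mul_left _
    simpa using h2
  have hbd : ∀ k, ∀ z ∈ Metric.ball (τ : ℂ) h, ‖(D k).eval z‖ ≤ u k := by
    intro k z hz
    have h1 := disc_bound' (k + 1) (hDdeg k) (hA0 k) hh (hint k) (z := z) (by
      rw [Metric.mem_ball, dist_eq_norm] at hz
      exact hz.le)
    refine h1.trans (le_of_eq ?_)
    rw [hA, hu]
    simp only
    have e : (2 * Real.exp 1 / 10) ^ k = (1 / 10 : ℝ) ^ k * 2 ^ k * Real.exp 1 ^ k := by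
      rw [← mul_pow, ← mul_pow]
      congr 1
      ring
    rw [e]
    push_cast
    ring
  set G : ℂ → ℂ := fun z => (P 0).eval z + ∑' k, (D k).eval z with hG
  have hlim : ∀ z ∈ Metric.ball (τ : ℂ) h, Tendsto (fun d => (P d).eval z) atTop (𝓝 (G z)) := by
    intro z hz
    have h1 : Summable fun k => (D k).eval z := Summable.of_norm_bounded hus fun k => hbd k z hz
    have h2 := h1.hasSum.tendsto_sum_nat.const_add ((P 0).eval z)
    refine h2.congr fun d => ?_
    have h3 : ∑ k ∈ range d, (D k).eval z = (P d).eval z - (P 0).eval z := by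
      rw [← Finset.sum_range_sub (fun k => (P k).eval z) d]
      refine Finset.sum_congr rfl fun k _ => ?_
      rw [hD]
      simp
    rw [h3]
    ring
  refine ⟨G, ?_, ?_⟩
  · refine (P 0).differentiable.differentiableOn.add ?_
    exact Complex.differentiableOn_tsum_of_summable_norm hus
      (fun k => (D k).differentiable.differentiableOn) Metric.isOpen_ball hbd
  · have hmeas : ∀ d, AEMeasurable (fun t : ℝ => ENNReal.ofReal (‖f t - (P d).eval (t : ℂ)‖ ^ 2))
        (volume.restrict J) := by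
      intro d
      refine AEMeasurable.ennreal_ofReal (AEMeasurable.pow_const (AEMeasurable.norm ?_) _)
      refine AEMeasurable.sub hf.restrict ?_
      exact (by fun_prop : Continuous fun t : ℝ => (P d).eval (t : ℂ)).aemeasurable
    have h1 : ∫⁻ t in J, ∑' d, ENNReal.ofReal (‖f t - (P d).eval (t : ℂ)‖ ^ 2) ≠ ⊤ := by
      rw [lintegral_tsum hmeas]
      have h2 : ∑' d : ℕ, ENNReal.ofReal (K * (1 / 100) ^ d) ≠ ⊤ := by
        rw [← ENNReal.ofReal_tsum_of_nonneg (fun d => by positivity)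
          ((summable_geometric_of_lt_one (by norm_num) (by norm_num)).mul_left K)]
        exact ENNReal.ofReal_ne_top
      exact ne_top_of_le_ne_top h2 (ENNReal.tsum_le_tsum H)
    have h2 : ∀ᵐ t ∂(volume.restrict J), ∑' d, ENNReal.ofReal (‖f t - (P d).eval (t : ℂ)‖ ^ 2) < ⊤ :=
      ae_lt_top' (AEMeasurable.tsum hmeas) h1
    rw [ae_restrict_iff' measurableSet_Icc] at h2
    filter_upwards [h2] with t ht htJ
    have h3 := ht (Set.Ioo_subset_Icc_self htJ)
    have h4 := ENNReal.tendsto_atTop_zero_of_tsum_ne_top h3.ne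
    have h5 : Tendsto (fun d => ‖f t - (P d).eval (t : ℂ)‖ ^ 2) atTop (𝓝 0) := by
      have h6 := (ENNReal.tendsto_toReal ENNReal.zero_ne_top).comp h4
      simp only [ENNReal.toReal_zero] at h6
      refine h6.congr fun d => ?_
      simp
    have h6 : Tendsto (fun d => ‖f t - (P d).eval (t : ℂ)‖) atTop (𝓝 0) := by
      have h7 := h5.sqrt
      rw [Real.sqrt_zero] at h7
      refine h7.congr fun d => ?_
      rw [Real.sqrt_sq (norm_nonneg _)]
    have h7 : Tendsto (fun d => (P d).eval (t : ℂ)) atTop (𝓝 (f t)) := by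
      rw [tendsto_iff_norm_sub_tendsto_zero]
      refine h6.congr fun d => ?_
      rw [norm_sub_rev]
    refine tendsto_nhds_unique h7 (hlim _ ?_)
    rw [Metric.mem_ball, dist_eq_norm, ← Complex.ofReal_sub, Complex.norm_real, Real.norm_eq_abs,
      abs_lt]
    constructor
    · linarith [htJ.1]
    · linarith [htJ.2]

/-- the sums over the prime powers `≤ X` are approximated by polynomials of degree `d` near `τ`, with an
error of the size `10^{-d}` in the mean of order two -/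
def Appr (b : PP → ℂ) (τ : ℝ) : Prop :=
  ∃ h K : ℝ, 0 < h ∧ ∀ d : ℕ, ∃ P : ℂ[X], P.natDegree ≤ d ∧ ∃ X₀ : ℕ, ∀ X : ℕ, X₀ ≤ X →
    ∫ t in (τ - h)..(τ + h), ‖PS b X t - P.eval (t : ℂ)‖ ^ 2 ≤ K * (1 / 100) ^ d

/-- `exp (FF b)` has an analytic continuation without zeros to a neighbourhood of `1 + iτ` -/
def ContN (b : PP → ℂ) (τ : ℝ) : Prop :=
  ∃ (g : ℂ → ℂ) (r : ℝ), 0 < r ∧ DifferentiableOn ℂ g (Metric.ball (1 + τ * Complex.I) r) ∧
    (∀ s ∈ Metric.ball (1 + τ * Complex.I) r, g s ≠ 0) ∧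
    ∀ s ∈ Metric.ball (1 + τ * Complex.I) r, 1 < s.re → g s = Complex.exp (FF b s)

section
variable {b : PP → ℂ} {M : ℝ} {τ : ℝ}

/-- the boundary function is approximated by the sums -/
lemma bl_PS (hb : ∀ x, ‖b x‖ ≤ M / (x.2 + 1 : ℕ)) {h : ℝ} (hh : h ≤ 1 / 2) {ε : ℝ} (hε : 0 < ε) :
    ∃ X₁ : ℕ, ∀ X : ℕ, X₁ ≤ X → ∫⁻ t in Set.Icc (τ - h) (τ + h),
      ENNReal.ofReal (‖bl b t - PS b X t‖ ^ 2) ≤ ENNReal.ofReal ε := by
  have h1 : Tendsto (fun X : ℕ => 64800 * M ^ 2 / Real.log X) atTop (𝓝 0) :=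
    Tendsto.div_atTop tendsto_const_nhds
      (Real.tendsto_log_atTop.comp tendsto_natCast_atTop_atTop)
  obtain ⟨X₁, hX₁⟩ := eventually_atTop.1 (h1.eventually (ge_mem_nhds hε))
  refine ⟨max X₁ 2, fun X hX => ?_⟩
  obtain ⟨-, -, h2⟩ := boundary hb
  refine (lintegral_mono_set ?_).trans ((h2 X ((le_max_right _ _).trans hX) (τ - h)).trans
    (ENNReal.ofReal_le_ofReal (hX₁ X ((le_max_left _ _).trans hX))))
  intro x hx
  exact ⟨hx.1, by linarith [hx.2]⟩

lemma meas_PS (b : PP → ℂ) (X : ℕ) (P : ℂ[X]) :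
    Continuous fun t : ℝ => PS b X t - P.eval (t : ℂ) := by
  have := continuous_PS b X
  fun_prop

lemma cont_of_appr (hb : ∀ x, ‖b x‖ ≤ M / (x.2 + 1 : ℕ)) (H : Appr b τ) : ContN b τ := by
  obtain ⟨h', K', hh', H'⟩ := H
  set h : ℝ := min h' (1 / 2) with hh
  set K : ℝ := max K' 1 with hK
  have h0 : 0 < h := lt_min hh' (by norm_num)
  have K0 : 0 < K := lt_max_of_lt_right one_pos
  choose P hP hX using H'
  obtain ⟨hm, -, -⟩ := boundary hb
  have key : ∀ d, ∫⁻ t in Set.Icc (τ - h) (τ + h), ENNReal.ofReal (‖bl b t - (P d).eval (t : ℂ)‖ ^ 2) ≤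
      ENNReal.ofReal (4 * K * (1 / 100) ^ d) := by
    intro d
    obtain ⟨X₀, hX₀⟩ := hX d
    obtain ⟨X₁, hX₁⟩ := bl_PS (τ := τ) hb (min_le_right h' (1 / 2)) (ε := K * (1 / 100) ^ d)
      (by positivity)
    set X := max X₀ X₁
    have h1 : ∫⁻ t in Set.Icc (τ - h) (τ + h),
        ENNReal.ofReal (‖PS b X t - (P d).eval (t : ℂ)‖ ^ 2) ≤ ENNReal.ofReal (K * (1 / 100) ^ d) := by
      have h2 := lint_of_int (f := fun t => ‖PS b X t - (P d).eval (t : ℂ)‖ ^ 2)
        ((meas_PS b X (P d)).norm.pow 2) (fun t => by positivity) (by linarith)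
        (hX₀ X (le_max_left _ _))
      refine (lintegral_mono_set ?_).trans (h2.trans (ENNReal.ofReal_le_ofReal ?_))
      · exact Set.Icc_subset_Icc (by linarith [min_le_left h' (1 / 2 : ℝ)])
          (by linarith [min_le_left h' (1 / 2 : ℝ)])
      · exact mul_le_mul_of_nonneg_right (le_max_left _ _) (by positivity)
    calc _ ≤ ∫⁻ t in Set.Icc (τ - h) (τ + h), (2 * ENNReal.ofReal (‖bl b t - PS b X t‖ ^ 2) +
          2 * ENNReal.ofReal (‖PS b X t - (P d).eval (t : ℂ)‖ ^ 2)) :=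
          lintegral_mono fun t => sq_add_le _ _ _
      _ = 2 * (∫⁻ t in Set.Icc (τ - h) (τ + h), ENNReal.ofReal (‖bl b t - PS b X t‖ ^ 2)) +
          2 * ∫⁻ t in Set.Icc (τ - h) (τ + h),
            ENNReal.ofReal (‖PS b X t - (P d).eval (t : ℂ)‖ ^ 2) := by
          rw [lintegral_add_left', lintegral_const_mul', lintegral_const_mul']
          · exact ENNReal.ofNat_ne_top
          · exact ENNReal.ofNat_ne_top
          · refine AEMeasurable.const_mul (AEMeasurable.ennreal_ofReal ?_) _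
            exact AEMeasurable.pow_const (AEMeasurable.norm
              (hm.restrict.sub (continuous_PS b X).aemeasurable)) _
      _ ≤ 2 * ENNReal.ofReal (K * (1 / 100) ^ d) + 2 * ENNReal.ofReal (K * (1 / 100) ^ d) := by
          gcongr
          exact hX₁ X (le_max_right _ _)
      _ = ENNReal.ofReal (4 * K * (1 / 100) ^ d) := by
          have e : (2 : ℝ≥0∞) = ENNReal.ofReal 2 := by simp
          rw [e, ← ENNReal.ofReal_mul (by norm_num),
            ← ENNReal.ofReal_add (by positivity) (by positivity)]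
          congr 1
          ring
  obtain ⟨G, hG, hGe⟩ := analytic_of_poly hm hP h0 (by positivity : 0 < 4 * K) key
  set w : ℂ := 1 + τ * Complex.I with hw
  set φ : ℂ → ℂ := fun s => -Complex.I * (s - 1) with hφ
  have hφball : ∀ s ∈ Metric.ball w h, φ s ∈ Metric.ball (τ : ℂ) h := by
    intro s hs
    rw [Metric.mem_ball, dist_eq_norm] at hs ⊢
    have e : φ s - τ = -Complex.I * (s - w) := by
      rw [hφ, hw]
      simp only
      linear_combination (-(τ : ℂ)) * Complex.I_mul_I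
    rw [e, norm_mul, norm_neg, Complex.norm_I, one_mul]
    exact hs
  have hgd : DifferentiableOn ℂ (fun s => Complex.exp (G (φ s))) (Metric.ball w h) := by
    refine DifferentiableOn.cexp (hG.comp ?_ hφball)
    exact (by fun_prop : Differentiable ℂ φ).differentiableOn
  refine ⟨fun s => Complex.exp (G (φ s)), h, h0, hgd, fun s _ => Complex.exp_ne_zero _, ?_⟩
  -- the points where everything converges
  set Z : Set ℝ := {t : ℝ | t ∈ Set.Ioo (τ - h) (τ + h) ∧ bl b t = G t ∧ t ∉ divSet (ap b)} with hZ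
  have hZ0 : volume Z ≠ 0 := by
    intro h0'
    have h1 : ∀ᵐ t : ℝ, t ∉ Set.Ioo (τ - h) (τ + h) := by
      have h2 : ∀ᵐ t : ℝ, t ∉ Z := measure_eq_zero_iff_ae_notMem.1 h0'
      filter_upwards [h2, hGe, ae_notMem hb] with t h3 h4 h5 h6
      exact h3 ⟨h6, h4 h6, h5⟩
    have h2 := measure_eq_zero_iff_ae_notMem.2 h1
    rw [Real.volume_Ioo] at h2
    have h3 : 0 < ENNReal.ofReal (τ + h - (τ - h)) := by
      rw [ENNReal.ofReal_pos]
      linarith
    exact h3.ne' h2
  have hmem : ∀ t ∈ Set.Ioo (τ - h) (τ + h), (1 + t * Complex.I : ℂ) ∈ Metric.ball w h := by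
    intro t ht
    rw [Metric.mem_ball, dist_eq_norm, hw]
    have e : (1 + t * Complex.I : ℂ) - (1 + τ * Complex.I) = ((t - τ : ℝ) : ℂ) * Complex.I := by
      push_cast
      ring
    rw [e, norm_mul, Complex.norm_I, mul_one, Complex.norm_real, Real.norm_eq_abs, abs_lt]
    constructor
    · linarith [ht.1]
    · linarith [ht.2]
  have hφt : ∀ t : ℝ, φ (1 + t * Complex.I) = t := by
    intro t
    rw [hφ]
    simp only
    linear_combination (-(t : ℂ)) * Complex.I_mul_I
  have hconv : IsPreconnected (Metric.ball w h ∩ {s : ℂ | 1 < s.re}) :=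
    ((convex_ball w h).inter (convex_halfSpace_re_gt 1)).isPreconnected
  have huq := unique_b hb Metric.isOpen_ball hconv (h := fun _ => 1)
    (differentiableOn_const 1) hgd hZ0 (fun t ht => hmem t ht.1) (fun t ht => ?_)
  · intro s hs hs1
    have h1 := huq s hs hs1
    rw [one_mul] at h1
    exact h1.symm
  · have h1 := radial_x hb ht.2.2
    have h2 : Tendsto (fun x : ℝ => (1 + t * Complex.I + x : ℂ)) (𝓝[>] 0)
        (𝓝 (1 + t * Complex.I)) := by
      have h3 : Tendsto (fun x : ℝ => (1 + t * Complex.I + x : ℂ)) (𝓝 0)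
          (𝓝 (1 + t * Complex.I + ((0 : ℝ) : ℂ))) :=
        (continuous_const.add Complex.continuous_ofReal).tendsto _
      rw [Complex.ofReal_zero, add_zero] at h3
      exact h3.mono_left nhdsWithin_le_nhds
    have h3 : ContinuousAt (fun s => Complex.exp (G (φ s))) (1 + t * Complex.I) :=
      hgd.continuousOn.continuousAt (Metric.isOpen_ball.mem_nhds (hmem t ht.1))
    have h4 : Tendsto (fun x : ℝ => Complex.exp (G (φ (1 + t * Complex.I + x)))) (𝓝[>] 0)
        (𝓝 (Complex.exp (G (φ (1 + t * Complex.I))))) := h3.tendsto.comp h2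
    have h5 := ((Complex.continuous_exp.tendsto _).comp h1).sub h4
    rw [hφt, ← ht.2.1, sub_self] at h5
    refine h5.congr fun x => ?_
    simp [Function.comp_def]

end

end Pool.Agent.Q9.EL
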