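import Pool.Agent.Q9.EL.ECM

/-!
# The law over the characters of a large prime modulus, with a continuous part at the primes 2, 3
-/

set_option autoImplicit false

namespace Pool.Agent.Q9.EL

open MeasureTheory Filter Topology
open scoped ENNReal
open Pool.Agent.Helper873.Mean Pool.Agent.Helper873.Monomial Pool.Agent.Helper873.Product
  Pool.Agent.Helper873.OneVar
open Pool.Agent.TH339.MP (PP wt fr ee qq TX PS two_le_qq continuous_PS wt_nonneg bl
  boundary M_nonneg mem_TX ap ae_notMem)

/-- the family of the test functions of the partial sums and a continuous part -/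
def Fam6 (m : ℕ) (M C : ℝ) (X : ℕ) : Set C(Tor, ℂ) :=
  {g | ∃ (b : Fin m → PP → ℂ) (G : Fin m → Tor → ℂ) (φ : (Fin m → ℂ) → ℝ),
    (∀ j x, ‖b j x‖ ≤ M / (x.2 + 1 : ℕ)) ∧ (∀ j z z0, ‖G j z - G j z0‖ ≤ C * om z z0) ∧
    LipschitzWith 1 φ ∧ (∀ w, |φ w| ≤ 1) ∧ ∀ z, g z = ((φ fun j => G j z + PR (b j) X z : ℝ) : ℂ)}

lemma continuous_om (z0 : Tor) : Continuous fun z => om z0 z := by
  unfold om
  exact ((continuous_const.sub (continuous_fz _)).norm).add
    ((continuous_const.sub (continuous_fz _)).norm)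

lemma om_self (z : Tor) : om z z = 0 := by simp [om]

lemma Fam6_tb (m : ℕ) (M C : ℝ) (X : ℕ) : TotallyBounded (Fam6 m M C X) := by
  refine totallyBounded_of _ ?_ ?_
  · rintro g ⟨b, G, φ, -, -, -, h3, h4⟩ z
    rw [h4, Complex.norm_real]
    exact h3 _
  · intro z0 ε hε
    set H : Tor → ℝ := fun z => ∑ _j : Fin m, (C * om z0 z + ∑ x ∈ TX X, |M| * wt 1 x *
      ‖chi (qq x - 1) z0 - chi (qq x - 1) z‖) with hH
    have hc : Continuous H := by
      refine continuous_finsetSum _ fun _ _ => (continuous_const.mul (continuous_om z0)).add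
        (continuous_finsetSum _ fun x _ => ?_)
      exact continuous_const.mul (continuous_const.sub (continuous_chi _)).norm
    have h0 : H z0 = 0 := by simp [hH, om_self]
    have h1 : ∀ᶠ z in 𝓝 z0, H z < ε := by
      have := hc.tendsto z0
      rw [h0] at this
      exact this.eventually (gt_mem_nhds hε)
    filter_upwards [h1] with z hz
    rintro g ⟨b, G, φ, hb, hG, h2, h3, h4⟩
    rw [h4, h4, ← Complex.ofReal_sub, Complex.norm_real, Real.norm_eq_abs]
    refine lt_of_le_of_lt ((phi_le h2 _ _).trans ?_) hz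
    refine Finset.sum_le_sum fun j _ => ?_
    have e0 : G j z0 + PR (b j) X z0 - (G j z + PR (b j) X z) =
        (G j z0 - G j z) + (PR (b j) X z0 - PR (b j) X z) := by ring
    rw [e0]
    refine (norm_add_le _ _).trans (add_le_add (hG j z0 z) ?_)
    have e1 : PR (b j) X z0 - PR (b j) X z = ∑ x ∈ TX X, (b j x * (wt 1 x : ℂ)) *
        (chi (qq x - 1) z0 - chi (qq x - 1) z) := by
      unfold PR
      rw [← Finset.sum_sub_distrib]
      exact Finset.sum_congr rfl fun x _ => by ring
    rw [e1]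
    refine (norm_sum_le _ _).trans (Finset.sum_le_sum fun x _ => ?_)
    rw [norm_mul, norm_mul, Complex.norm_real, Real.norm_of_nonneg (wt_nonneg 1 x)]
    have h5 : ‖b j x‖ ≤ |M| := by
      refine (hb j x).trans ?_
      have hM := M_nonneg (hb j)
      rw [abs_of_nonneg hM]
      refine div_le_self hM ?_
      exact_mod_cast Nat.succ_le_succ (Nat.zero_le x.2)
    have := wt_nonneg 1 x
    gcongr

/-- a function with this modulus of continuity is continuous -/
lemma cont_of_om {G : Tor → ℂ} {C : ℝ} (hG : ∀ z z0, ‖G z - G z0‖ ≤ C * om z z0) : Continuous G := by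
  rw [continuous_iff_continuousAt]
  intro z0
  rw [ContinuousAt, tendsto_iff_norm_sub_tendsto_zero]
  have h1 : Tendsto (fun z => C * om z0 z) (𝓝 z0) (𝓝 0) := by
    have := ((continuous_om z0).const_mul C).tendsto z0
    simpa [om_self] using this
  refine squeeze_zero (fun _ => norm_nonneg _) (fun z => ?_) h1
  refine (hG z z0).trans (le_of_eq ?_)
  unfold om
  rw [norm_sub_rev, norm_sub_rev (fz z 3)]

lemma PS_tb {q : ℕ} [NeZero q] (hq : q.Prime) (χ : DirichletCharacter ℂ q) (b : PP → ℂ) {X : ℕ}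
    (hX : X < q) (t : ℝ) :
    PS (tb (fun n : ℕ => χ (n : ZMod q)) b) X t = PR b X (zx χ + zt t) := by
  unfold Pool.Agent.TH339.MP.PS PR tb
  refine Finset.sum_congr rfl fun x hx => ?_
  have h0 : qq x ≠ 0 := by have := two_le_qq x; omega
  have hxX := (mem_TX X x).1 hx
  have h1 : chi (qq x - 1) (zx χ + zt t) = fz (zx χ + zt t) (qq x) := by
    unfold fz
    rw [if_neg h0]
  rw [h1, fz_add, fz_zt t h0, fz_zx hq χ h0]
  · have h2 : ee (fr x) t = ee (-Real.log (qq x)) t := by
      rw [Pool.Agent.TH339.MP.fr_eq]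
    rw [h2]
    ring
  · intro p hp hpd
    exact lt_of_le_of_lt ((Nat.le_of_dvd (by omega) hpd).trans hxX) hX

/-- **The law over the characters.** -/
theorem law_chi (m : ℕ) {M C ε : ℝ} (hM : 0 ≤ M) (hε : 0 < ε) : ∃ q0 : ℕ,
    ∀ (b : Fin m → PP → ℂ) (G : Fin m → Tor → ℂ), (∀ j x, ‖b j x‖ ≤ M / (x.2 + 1 : ℕ)) →
      (∀ j z z0, ‖G j z - G j z0‖ ≤ C * om z z0) → ∀ q : ℕ, q.Prime → q0 ≤ q → ∀ T : ℝ, 1 ≤ T →
      ∀ a : ℝ, ∀ φ : (Fin m → ℂ) → ℝ, LipschitzWith 1 φ → (∀ w, |φ w| ≤ 1) →
        |(∑ᶠ χ : DirichletCharacter ℂ q, (∫ t in a..(a + T), φ fun j => G j (zx χ + zt t) +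
          bl (tb (fun n : ℕ => χ (n : ZMod q)) (b j)) t) / T) / q.totient -
          ∫ z, (φ fun j => G j z + FR (b j) z) ∂tor| ≤ ε := by
  obtain ⟨X, hX2, hXε⟩ : ∃ X : ℕ, 2 ≤ X ∧ m * dl M X ≤ ε / 4 := by
    have h1 : Tendsto (fun X => (m : ℝ) * dl M X) atTop (𝓝 0) := by
      have := (dl_tendsto M).const_mul (m : ℝ)
      rwa [mul_zero] at this
    have h2 := (h1.eventually (ge_mem_nhds (by positivity : (0 : ℝ) < ε / 4))).and
      (eventually_ge_atTop 2)
    obtain ⟨X, h3, h4⟩ := h2.exists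
    exact ⟨X, h4, h3⟩
  obtain ⟨q1, H⟩ := chi_unif (Fam6_tb m M C X) (by positivity : 0 < ε / 4)
  refine ⟨max q1 (X + 1), fun b G hb hG q hq hqq T hT1 a φ hφ hφ1 => ?_⟩
  have : NeZero q := ⟨hq.ne_zero⟩
  have hqX : X < q := by
    have := (le_max_right q1 (X + 1)).trans hqq
    omega
  have hqq1 : q1 ≤ q := (le_max_left _ _).trans hqq
  rw [finsum_eq_sum_of_fintype]
  have hTp : 0 < T := by linarith
  have hφc : Continuous φ := hφ.continuous
  have hGc : ∀ j, Continuous (G j) := fun j => cont_of_om (hG j)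
  have htot : (0 : ℝ) < q.totient := by
    exact_mod_cast Nat.totient_pos.2 hq.pos
  set c : DirichletCharacter ℂ q → ℕ → ℂ := fun χ n => χ (n : ZMod q) with hc
  have hcn : ∀ χ n, ‖c χ n‖ ≤ 1 := fun χ n => χ.norm_le_one _
  have hbc : ∀ χ j x, ‖tb (c χ) (b j) x‖ ≤ M / (x.2 + 1 : ℕ) := fun χ j x =>
    norm_tb (hcn χ) (hb j) x
  -- the time side
  have hbd : ∀ {f : ℝ → ℝ}, AEMeasurable f → (∀ t, |f t| ≤ 1) →
      IntervalIntegrable f volume a (a + T) := by
    intro f hf h1
    rw [intervalIntegrable_iff_integrableOn_Icc_of_le (by linarith)]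
    refine Measure.integrableOn_of_bounded (M := 1) ?_ hf.aestronglyMeasurable
      (Eventually.of_forall fun t => h1 t)
    rw [Real.volume_Icc]
    exact ENNReal.ofReal_ne_top
  have hGt : ∀ χ : DirichletCharacter ℂ q, ∀ j, Continuous fun t => G j (zx χ + zt t) :=
    fun χ j => (hGc j).comp (continuous_const.add continuous_zt)
  have hmbl : ∀ χ j, AEMeasurable fun t => G j (zx χ + zt t) + bl (tb (c χ) (b j)) t := fun χ j =>
    (hGt χ j).measurable.aemeasurable.add (boundary (hbc χ j)).1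
  have i1 : ∀ χ, IntervalIntegrable (fun t => φ fun j => G j (zx χ + zt t) +
      bl (tb (c χ) (b j)) t) volume a (a + T) := fun χ => by
    refine hbd ?_ (fun t => hφ1 _)
    exact hφc.measurable.comp_aemeasurable (aemeasurable_pi_lambda _ fun j => hmbl χ j)
  have hPSc : ∀ χ, Continuous fun t => φ fun j => G j (zx χ + zt t) + PS (tb (c χ) (b j)) X t :=
    fun χ => hφc.comp (continuous_pi fun j => (hGt χ j).add (continuous_PS _ X))
  have i2 : ∀ χ, IntervalIntegrable (fun t => φ fun j => G j (zx χ + zt t) +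
      PS (tb (c χ) (b j)) X t) volume a (a + T) := fun χ => (hPSc χ).intervalIntegrable _ _
  have i3 : ∀ χ, IntervalIntegrable (fun t => ∑ j, ‖bl (tb (c χ) (b j)) t -
      PS (tb (c χ) (b j)) X t‖) volume a (a + T) := fun χ => by
    have := IntervalIntegrable.sum (Finset.univ : Finset (Fin m))
      (f := fun j t => ‖bl (tb (c χ) (b j)) t - PS (tb (c χ) (b j)) X t‖) (μ := volume) (a := a)
      (b := a + T) fun j _ => (time_close (hbc χ j) hX2 a hT1).1
    refine this.congr ?_
    intro t _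
    simp
  have k1 : ∀ χ, |(∫ t in a..(a + T), φ fun j => G j (zx χ + zt t) + bl (tb (c χ) (b j)) t) / T -
      (∫ t in a..(a + T), φ fun j => G j (zx χ + zt t) + PS (tb (c χ) (b j)) X t) / T| ≤ ε / 4 := by
    intro χ
    rw [← sub_div, ← intervalIntegral.integral_sub (i1 χ) (i2 χ), abs_div, abs_of_pos hTp,
      div_le_iff₀ hTp]
    refine (intervalIntegral.abs_integral_le_integral_abs (by linarith)).trans ?_
    refine (intervalIntegral.integral_mono_on (by linarith) ((i1 χ).sub (i2 χ)).abs (i3 χ)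
      fun t _ => ?_).trans ?_
    · refine (phi_le hφ _ _).trans (Finset.sum_le_sum fun j _ => le_of_eq ?_)
      congr 1
      ring
    · rw [intervalIntegral.integral_finsetSum fun j _ => (time_close (hbc χ j) hX2 a hT1).1]
      calc ∑ j, ∫ t in a..(a + T), ‖bl (tb (c χ) (b j)) t - PS (tb (c χ) (b j)) X t‖ ≤
          ∑ _j : Fin m, T * dl M X :=
            Finset.sum_le_sum fun j _ => (time_close (hbc χ j) hX2 a hT1).2
        _ = (m * dl M X) * T := by
          rw [Finset.sum_const, Finset.card_univ, Fintype.card_fin, nsmul_eq_mul]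
          ring
        _ ≤ ε / 4 * T := by gcongr
  have k1' : |(∑ χ, (∫ t in a..(a + T), φ fun j => G j (zx χ + zt t) +
      bl (tb (c χ) (b j)) t) / T) / q.totient - (∑ χ, (∫ t in a..(a + T), φ fun j =>
        G j (zx χ + zt t) + PS (tb (c χ) (b j)) X t) / T) / q.totient| ≤ ε / 4 := by
    rw [← sub_div, ← Finset.sum_sub_distrib, abs_div, abs_of_pos htot, div_le_iff₀ htot]
    refine (Finset.abs_sum_le_sum_abs _ _).trans ((Finset.sum_le_sum fun χ _ => k1 χ).trans ?_)
    rw [Finset.sum_const, Finset.card_univ, card_char, nsmul_eq_mul, mul_comm]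
  -- the characters
  set g0 : Tor → ℝ := fun z => φ fun j => G j z + PR (b j) X z with hg0
  have hg0c : Continuous g0 := hφc.comp (continuous_pi fun j => (hGc j).add (continuous_PR (b j) X))
  have hgc : Continuous fun z : Tor => ((g0 z : ℝ) : ℂ) := Complex.continuous_ofReal.comp hg0c
  have k2 : |(∑ χ, (∫ t in a..(a + T), φ fun j => G j (zx χ + zt t) +
      PS (tb (c χ) (b j)) X t) / T) / q.totient - ∫ z, g0 z ∂tor| ≤ ε / 4 := by
    have h1 : ∀ t : ℝ, |(∑ χ : DirichletCharacter ℂ q, g0 (zx χ + zt t)) / q.totient -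
        ∫ z, g0 z ∂tor| ≤ ε / 4 := by
      intro t
      have h2 := H q hq hqq1 t ⟨_, hgc⟩ ⟨b, G, φ, hb, hG, hφ, hφ1, fun z => rfl⟩
      have e1 : av q (⟨_, hgc⟩ : C(Tor, ℂ)) t =
          (((∑ χ : DirichletCharacter ℂ q, g0 (zx χ + zt t)) / q.totient : ℝ) : ℂ) := by
        rw [av_eq]
        simp only [ContinuousMap.coe_mk]
        push_cast
        rfl
      have e2 : ∫ z, (⟨_, hgc⟩ : C(Tor, ℂ)) z ∂tor = ((∫ z, g0 z ∂tor : ℝ) : ℂ) := by
        simp only [ContinuousMap.coe_mk]
        exact integral_ofReal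
      rw [e1, e2, ← Complex.ofReal_sub, Complex.norm_real] at h2
      exact h2
    have hswap : (∑ χ, (∫ t in a..(a + T), φ fun j => G j (zx χ + zt t) +
        PS (tb (c χ) (b j)) X t) / T) / q.totient =
        (∫ t in a..(a + T), (∑ χ : DirichletCharacter ℂ q, g0 (zx χ + zt t)) / q.totient) / T := by
      rw [← Finset.sum_div, ← intervalIntegral.integral_finsetSum fun χ _ => i2 χ,
        intervalIntegral.integral_div, div_right_comm]
      congr 3
      funext t
      refine Finset.sum_congr rfl fun χ _ => ?_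
      rw [hg0]
      simp only [hc]
      congr 1
      funext j
      rw [PS_tb hq χ (b j) hqX t]
    rw [hswap]
    have hcont : Continuous fun t : ℝ => (∑ χ : DirichletCharacter ℂ q, g0 (zx χ + zt t)) /
        (q.totient : ℝ) :=
      (continuous_finsetSum _ fun χ _ => hg0c.comp (continuous_const.add continuous_zt)).div_const _
    have e3 : (∫ t in a..(a + T), (∑ χ : DirichletCharacter ℂ q, g0 (zx χ + zt t)) / q.totient) / T -
        ∫ z, g0 z ∂tor = (∫ t in a..(a + T), ((∑ χ : DirichletCharacter ℂ q, g0 (zx χ + zt t)) /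
          q.totient - ∫ z, g0 z ∂tor)) / T := by
      rw [intervalIntegral.integral_sub (hcont.intervalIntegrable _ _) intervalIntegrable_const,
        intervalIntegral.integral_const, sub_div, smul_eq_mul]
      congr 1
      field_simp
      ring
    rw [e3, abs_div, abs_of_pos hTp, div_le_iff₀ hTp]
    have h5 := intervalIntegral.norm_integral_le_of_norm_le_const (a := a) (b := a + T)
      (f := fun t => (∑ χ : DirichletCharacter ℂ q, g0 (zx χ + zt t)) /
          q.totient - ∫ z, g0 z ∂tor) (C := ε / 4) fun t _ => h1 t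
    rw [Real.norm_eq_abs, abs_of_nonneg (by linarith : 0 ≤ a + T - a)] at h5
    calc _ ≤ ε / 4 * (a + T - a) := h5
      _ = _ := by ring
  -- the random side
  have hmF : ∀ j, Measurable fun z => G j z + FR (b j) z := fun j =>
    (hGc j).measurable.add (FR_spec (hb j)).1
  have j1 : Integrable (fun z => φ fun j => G j z + FR (b j) z) tor := by
    refine Integrable.of_bound (C := 1) ?_ (Eventually.of_forall fun z => hφ1 _)
    exact (hφc.measurable.comp (measurable_pi_lambda _ hmF)).aestronglyMeasurable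
  have j2 : Integrable g0 tor := by
    refine Integrable.of_bound (C := 1) hg0c.aestronglyMeasurable
      (Eventually.of_forall fun z => hφ1 _)
  have k3 : |∫ z, g0 z ∂tor - ∫ z, (φ fun j => G j z + FR (b j) z) ∂tor| ≤ ε / 4 := by
    rw [← integral_sub j2 j1]
    refine (abs_integral_le_integral_abs).trans ?_
    have j3 : Integrable (fun z => ∑ j, ‖PR (b j) X z - FR (b j) z‖) tor :=
      integrable_finsetSum _ fun j _ => (FR_int (hb j) hX2).1
    refine (integral_mono (j2.sub j1).abs j3 fun z => ?_).trans ?_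
    · refine (phi_le hφ _ _).trans (Finset.sum_le_sum fun j _ => le_of_eq ?_)
      congr 1
      ring
    · rw [integral_finsetSum _ fun j _ => (FR_int (hb j) hX2).1]
      calc ∑ j, ∫ z, ‖PR (b j) X z - FR (b j) z‖ ∂tor ≤ ∑ _j : Fin m, dl M X := by
            refine Finset.sum_le_sum fun j _ => (FR_int (hb j) hX2).2.trans ?_
            unfold dl
            gcongr
            · norm_num
            · linarith
        _ = m * dl M X := by
          rw [Finset.sum_const, Finset.card_univ, Fintype.card_fin, nsmul_eq_mul]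
        _ ≤ ε / 4 := hXε
  have e : (∑ χ, (∫ t in a..(a + T), φ fun j => G j (zx χ + zt t) +
      bl (tb (c χ) (b j)) t) / T) / q.totient - ∫ z, (φ fun j => G j z + FR (b j) z) ∂tor =
      ((∑ χ, (∫ t in a..(a + T), φ fun j => G j (zx χ + zt t) +
        bl (tb (c χ) (b j)) t) / T) / q.totient - (∑ χ, (∫ t in a..(a + T), φ fun j =>
        G j (zx χ + zt t) + PS (tb (c χ) (b j)) X t) / T) / q.totient) +
      ((∑ χ, (∫ t in a..(a + T), φ fun j => G j (zx χ + zt t) +
        PS (tb (c χ) (b j)) X t) / T) / q.totient - ∫ z, g0 z ∂tor) +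
      (∫ z, g0 z ∂tor - ∫ z, (φ fun j => G j z + FR (b j) z) ∂tor) := by ring
  rw [e]
  refine (abs_add_three _ _ _).trans ?_
  linarith

end Pool.Agent.Q9.EL
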