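import Mathlib

/-!
# Polynomials which are small in the mean of order two on an interval are small on a disc

The bound for the disc with the interval as diameter is of the form `C (2e)^d`.
-/

set_option autoImplicit false

namespace Pool.Agent.Q9.EL

open Polynomial MeasureTheory Finset

/-- the nodes -/
noncomputable def nd' (d j : ℕ) : ℝ := -1 + 2 * j / (d + 1)

lemma nd'_sub (d j m : ℕ) : nd' d j - nd' d m = 2 * ((j : ℝ) - m) / (d + 1) := by
  unfold nd'
  ring

lemma nd'_inj (d : ℕ) : Function.Injective (nd' d) := by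
  intro j m h
  have h1 := nd'_sub d j m
  rw [h, sub_self] at h1
  have h2 : (0 : ℝ) < d + 1 := by positivity
  have h3 : (j : ℝ) - m = 0 := by
    have := h1.symm
    rw [div_eq_zero_iff] at this
    rcases this with h4 | h4
    · linarith
    · linarith
  exact_mod_cast sub_eq_zero.1 h3

/-- the product of the distances of the nodes -/
lemma prod_abs (d j : ℕ) (hj : j ≤ d) :
    ∏ m ∈ (range (d + 1)).erase j, |(j : ℝ) - m| = (j.factorial : ℝ) * (d - j).factorial := by
  have h1 : (range (d + 1)).erase j = range j ∪ Ico (j + 1) (d + 1) := by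
    ext m
    simp only [mem_erase, mem_range, mem_union, mem_Ico]
    omega
  have h2 : Disjoint (range j) (Ico (j + 1) (d + 1)) := by
    rw [Finset.disjoint_left]
    intro m hm hm'
    rw [mem_range] at hm
    rw [mem_Ico] at hm'
    omega
  rw [h1, prod_union h2]
  congr 1
  · rw [← prod_range_add_one_eq_factorial]
    push_cast
    rw [← prod_range_reflect]
    refine prod_congr rfl fun m hm => ?_
    rw [mem_range] at hm
    have h3 : ((j - 1 - m : ℕ) : ℝ) = (j : ℝ) - 1 - m := by
      have h4 : j - 1 - m + (1 + m) = j := by omega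
      have h5 : ((j - 1 - m : ℕ) : ℝ) + (1 + m) = j := by exact_mod_cast h4
      linarith
    rw [h3, abs_of_nonneg]
    · ring
    · have : (m : ℝ) + 1 ≤ j := by exact_mod_cast hm
      linarith
  · rw [prod_Ico_eq_prod_range, ← prod_range_add_one_eq_factorial]
    have h3 : d + 1 - (j + 1) = d - j := by omega
    rw [h3]
    push_cast
    refine prod_congr rfl fun m _ => ?_
    rw [abs_sub_comm, abs_of_nonneg]
    · ring
    · have : (0 : ℝ) ≤ m := Nat.cast_nonneg m
      linarith

/-- the exponential series -/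
lemma pow_le_exp (d : ℕ) : ((d : ℝ) + 1) ^ d ≤ Real.exp 1 ^ (d + 1) * d.factorial := by
  have h1 := Real.pow_div_factorial_le_exp ((d : ℝ) + 1) (by positivity) d
  rw [div_le_iff₀ (by positivity)] at h1
  rwa [← Real.exp_nat_mul, mul_one, Nat.cast_add, Nat.cast_one]

/-- the bound for the Lagrange basis -/
lemma lag_le (d j : ℕ) (hj : j ≤ d) {y : ℂ} (hy : ∀ m ≤ d, ‖y - nd' d m‖ ≤ 2) :
    ‖∏ m ∈ (range (d + 1)).erase j, (y - nd' d m) / ((nd' d j - nd' d m : ℝ) : ℂ)‖ ≤
      2 ^ d * Real.exp 1 ^ (d + 1) := by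
  have hd : (0 : ℝ) < d + 1 := by positivity
  have hcard : ((range (d + 1)).erase j).card = d := by
    rw [card_erase_of_mem (by rw [mem_range]; omega), card_range]
    rfl
  rw [prod_div_distrib, norm_div, norm_prod, norm_prod]
  have h1 : ∏ m ∈ (range (d + 1)).erase j, ‖y - nd' d m‖ ≤ 2 ^ d := by
    calc _ ≤ ∏ m ∈ (range (d + 1)).erase j, (2 : ℝ) := by
          refine prod_le_prod (fun m _ => norm_nonneg _) fun m hm => ?_
          rw [mem_erase, mem_range] at hm
          exact hy m (by omega)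
      _ = _ := by rw [prod_const, hcard]
  have h2 : ∏ m ∈ (range (d + 1)).erase j, ‖((nd' d j - nd' d m : ℝ) : ℂ)‖ =
      (2 / (d + 1)) ^ d * ((j.factorial : ℝ) * (d - j).factorial) := by
    have hc2 : (2 / ((d : ℝ) + 1)) ^ d = ∏ _m ∈ (range (d + 1)).erase j, (2 / ((d : ℝ) + 1)) := by
      rw [prod_const, hcard]
    rw [← prod_abs d j hj, hc2, ← prod_mul_distrib]
    refine prod_congr rfl fun m _ => ?_
    rw [Complex.norm_real, Real.norm_eq_abs, nd'_sub, abs_div, abs_mul, abs_of_pos hd, abs_two]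
    ring
  rw [h2, div_le_iff₀ (by positivity)]
  refine h1.trans ?_
  have h3 : (d.factorial : ℝ) ≤ 2 ^ d * ((j.factorial : ℝ) * (d - j).factorial) := by
    have h4 := Nat.choose_mul_factorial_mul_factorial hj
    have h5 : d.choose j ≤ 2 ^ d := Nat.choose_le_two_pow d j
    have h6 : d.factorial ≤ 2 ^ d * (j.factorial * (d - j).factorial) := by
      calc d.factorial = d.choose j * (j.factorial * (d - j).factorial) := by rw [← h4]; ring
        _ ≤ _ := by gcongr
    exact_mod_cast h6
  have h7 := pow_le_exp d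
  have h8 : (0 : ℝ) < (d + 1) ^ d := by positivity
  rw [div_pow]
  have e : 2 ^ d * Real.exp 1 ^ (d + 1) * (2 ^ d / ((d : ℝ) + 1) ^ d * (↑j.factorial * ↑(d - j).factorial))
      = 2 ^ d * (Real.exp 1 ^ (d + 1) * (2 ^ d * (↑j.factorial * ↑(d - j).factorial))) /
        ((d : ℝ) + 1) ^ d := by
    ring
  rw [e, le_div_iff₀ h8]
  refine mul_le_mul_of_nonneg_left (h7.trans ?_) (by positivity)
  exact mul_le_mul_of_nonneg_left h3 (by positivity)

/-- interpolation at the shifted nodes -/
lemma lag_interp (d : ℕ) {Q : ℂ[X]} (hQ : Q.natDegree ≤ d) (z : ℂ) (u : ℝ) :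
    Q.eval z = ∑ j ∈ range (d + 1), Q.eval ((nd' d j + u : ℝ) : ℂ) *
      ∏ m ∈ (range (d + 1)).erase j, (z - u - nd' d m) / ((nd' d j - nd' d m : ℝ) : ℂ) := by
  set R : ℂ[X] := Q.comp (X + C (u : ℂ)) with hR
  have hinj : Set.InjOn (fun j : ℕ => ((nd' d j : ℝ) : ℂ)) (range (d + 1)) := by
    intro j _ m _ h
    exact nd'_inj d (Complex.ofReal_injective h)
  have hdeg : R.degree < (range (d + 1)).card := by
    rw [card_range]
    refine lt_of_le_of_lt degree_le_natDegree ?_
    have h1 : R.natDegree ≤ d := by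
      rw [hR, natDegree_comp, natDegree_X_add_C, mul_one]
      exact hQ
    exact_mod_cast Nat.lt_succ_of_le h1
  have h1 := Lagrange.eq_interpolate_of_eval_eq
    (r := fun j => R.eval ((nd' d j : ℝ) : ℂ)) hinj hdeg fun j _ => rfl
  have h2 : Q.eval z = R.eval (z - u) := by
    rw [hR, eval_comp]
    simp
  rw [h2, h1, Lagrange.interpolate_apply, eval_finsetSum]
  refine sum_congr rfl fun j _ => ?_
  rw [eval_mul, eval_C, Lagrange.basis, eval_prod, hR, eval_comp]
  congr 1
  · simp
  · refine prod_congr rfl fun m _ => ?_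
    rw [Lagrange.basisDivisor]
    simp only [eval_mul, eval_C, eval_sub, eval_X]
    push_cast
    rw [div_eq_inv_mul]

/-- **the bound on the unit disc** -/
theorem disc_bound (d : ℕ) {Q : ℂ[X]} (hQ : Q.natDegree ≤ d) {A : ℝ} (hA : 0 < A)
    (hI : ∫ t in (-1 : ℝ)..1, ‖Q.eval (t : ℂ)‖ ^ 2 ≤ A ^ 2) {z : ℂ} (hz : ‖z‖ ≤ 1) :
    ‖Q.eval z‖ ≤ (d + 1) * A * (2 ^ d * Real.exp 1 ^ (d + 1)) := by
  have hd : (0 : ℝ) < d + 1 := by positivity
  set w : ℝ := 2 / (d + 1) with hw
  have hw0 : 0 < w := by positivity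
  set L : ℝ := 2 ^ d * Real.exp 1 ^ (d + 1) with hL
  have hL0 : 0 < L := by positivity
  set f : ℝ → ℝ := fun t => ‖Q.eval (t : ℂ)‖ with hf
  have hfc : Continuous f := by
    rw [hf]
    fun_prop
  -- the mean of order one
  have h1 : ∫ t in (-1 : ℝ)..1, f t ≤ 2 * A := by
    have h3 : ∀ t : ℝ, f t ≤ A / 2 + (1 / (2 * A)) * f t ^ 2 := by
      intro t
      have e : A / 2 + 1 / (2 * A) * f t ^ 2 - f t = (f t - A) ^ 2 / (2 * A) := by
        field_simp
        ring
      have : 0 ≤ (f t - A) ^ 2 / (2 * A) := by positivity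
      linarith
    calc _ ≤ ∫ t in (-1 : ℝ)..1, (A / 2 + (1 / (2 * A)) * f t ^ 2) :=
          intervalIntegral.integral_mono_on (by norm_num)
            (hfc.intervalIntegrable _ _)
            ((by fun_prop : Continuous fun t => A / 2 + (1 / (2 * A)) * f t ^ 2).intervalIntegrable _ _)
            fun t _ => h3 t
      _ = A + (1 / (2 * A)) * ∫ t in (-1 : ℝ)..1, f t ^ 2 := by
          rw [intervalIntegral.integral_add (by simp)
            ((by fun_prop : Continuous fun t => (1 / (2 * A)) * f t ^ 2).intervalIntegrable _ _),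
            intervalIntegral.integral_const_mul]
          simp
          ring
      _ ≤ A + (1 / (2 * A)) * A ^ 2 := by
          gcongr
      _ = 3 / 2 * A := by field_simp; ring
      _ ≤ 2 * A := by linarith
  -- pointwise in the shift
  have h2 : ∀ u ∈ Set.Icc (0 : ℝ) w, ‖Q.eval z‖ ≤ L * ∑ j ∈ range (d + 1), f (nd' d j + u) := by
    intro u hu
    have h3 := lag_interp d hQ z u
    rw [h3, mul_sum]
    refine norm_sum_le_of_le _ fun j hj => ?_
    rw [mem_range] at hj
    rw [norm_mul, mul_comm]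
    refine mul_le_mul_of_nonneg_right (lag_le d j (by omega) fun m hm => ?_) (norm_nonneg _)
    have h4 : |u + nd' d m| ≤ 1 := by
      unfold nd'
      have hm' : (m : ℝ) ≤ d := by exact_mod_cast hm
      have h5 : 2 * (m : ℝ) / (d + 1) + w ≤ 2 := by
        rw [hw, ← add_div, div_le_iff₀ hd]
        linarith
      have h6 : (0 : ℝ) ≤ 2 * m / (d + 1) := by positivity
      rw [abs_le]
      constructor
      · linarith [hu.1]
      · linarith [hu.2]
    calc ‖z - u - nd' d m‖ = ‖z - ((u + nd' d m : ℝ) : ℂ)‖ := by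
          congr 1
          push_cast
          ring
      _ ≤ ‖z‖ + ‖((u + nd' d m : ℝ) : ℂ)‖ := norm_sub_le _ _
      _ ≤ 1 + 1 := by
          gcongr
          rwa [Complex.norm_real, Real.norm_eq_abs]
      _ = 2 := by norm_num
  -- the integral over the shifts
  have h3 : w * ‖Q.eval z‖ ≤ L * ∫ t in (-1 : ℝ)..1, f t := by
    have h4 : ∫ u in (0 : ℝ)..w, ‖Q.eval z‖ ≤
        ∫ u in (0 : ℝ)..w, L * ∑ j ∈ range (d + 1), f (nd' d j + u) :=
      intervalIntegral.integral_mono_on hw0.le (by simp)
        ((by fun_prop : Continuous fun u => L * ∑ j ∈ range (d + 1), f (nd' d j + u)).intervalIntegrable _ _)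
        h2
    rw [intervalIntegral.integral_const, sub_zero, smul_eq_mul, intervalIntegral.integral_const_mul,
      intervalIntegral.integral_finsetSum (fun j _ =>
        (by fun_prop : Continuous fun u => f (nd' d j + u)).intervalIntegrable _ _)] at h4
    refine h4.trans (le_of_eq ?_)
    congr 1
    have h5 : ∀ j : ℕ, ∫ u in (0 : ℝ)..w, f (nd' d j + u) = ∫ u in (nd' d j)..(nd' d (j + 1)), f u := by
      intro j
      rw [intervalIntegral.integral_comp_add_left (fun u => f u) (nd' d j)]
      congr 1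
      · ring
      · rw [hw]
        unfold nd'
        push_cast
        ring
    simp_rw [h5]
    rw [intervalIntegral.sum_integral_adjacent_intervals (fun j _ => hfc.intervalIntegrable _ _)]
    congr 1
    · unfold nd'
      simp
    · unfold nd'
      push_cast
      field_simp
      ring
  have h4 : w * ‖Q.eval z‖ ≤ L * (2 * A) := h3.trans (mul_le_mul_of_nonneg_left h1 hL0.le)
  rw [hw, div_mul_eq_mul_div, div_le_iff₀ hd] at h4
  linarith

end Pool.Agent.Q9.EL
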