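import Pool.Agent.Q9.EL.Cnv
import Pool.Agent.Q9.EL.Loc

/-!
# Meromorphic continuation to a point of the edge, and sums over primes
-/

set_option autoImplicit false

namespace Pool.Agent.Q9.EL

open MeasureTheory Filter Topology Polynomial Finset
open scoped ENNReal NNReal
open Pool.Agent.TH339.MP (PP PS bl boundary FF tm M_nonneg continuous_PS radial_x unique_b ap
  ae_notMem differentiableOn_FF hpart sh wt wt_nonneg prime_pos two_le_prime FF_split norm_tm
  norm_b_le summable_tm FF_zeta ee norm_ee tm_eq fr ee_add TX mem_TX qq)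
open Pool.Agent.W350.Edge (divSet)

/-! ### the primes -/

/-- the coefficients at the primes -/
noncomputable def pb (b : PP → ℂ) (x : PP) : ℂ := if x.2 = 0 then b x else 0

section
variable {b : PP → ℂ} {M : ℝ} {τ : ℝ}

lemma norm_pb (hb : ∀ x, ‖b x‖ ≤ M / (x.2 + 1 : ℕ)) (x : PP) : ‖pb b x‖ ≤ M / (x.2 + 1 : ℕ) := by
  unfold pb
  split_ifs
  · exact hb x
  · rw [norm_zero]
    exact div_nonneg (M_nonneg hb) (by positivity)

lemma FF_pb (hb : ∀ x, ‖b x‖ ≤ M / (x.2 + 1 : ℕ)) {s : ℂ} (hs : 1 < s.re) :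
    FF b s = FF (pb b) s + hpart b s := by
  rw [FF_split hb hs, FF_split (norm_pb hb) hs]
  have h1 : hpart (pb b) s = 0 := by
    unfold hpart
    rw [← tsum_zero]
    refine tsum_congr fun x => ?_
    unfold tm pb sh
    simp
  have h2 : ∀ p : Nat.Primes, tm (pb b) s (p, 0) = tm b s (p, 0) := by
    intro p
    unfold tm pb
    simp
  rw [h1, add_zero, tsum_congr h2]

lemma wt_sh_summable' : Summable fun x : PP => wt (3 / 4) (sh x) := by
  have h2 : Summable fun p : Nat.Primes => ((p : ℕ) : ℝ) ^ (-(3 / 2) : ℝ) :=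
    (Nat.Primes.summable_rpow (r := -(3 / 2))).2 (by norm_num)
  set q : ℝ := (2 : ℝ) ^ (-(3 / 4) : ℝ) with hq
  have hq0 : 0 ≤ q := Real.rpow_nonneg (by norm_num) _
  have hq1 : q < 1 := Real.rpow_lt_one_of_one_lt_of_neg (by norm_num) (by norm_num)
  have h3 : Summable fun k : ℕ => q ^ k := summable_geometric_of_lt_one hq0 hq1
  have h4 := h2.mul_of_nonneg h3 (fun p => Real.rpow_nonneg (prime_pos p).le _)
    (fun k => by positivity)
  refine Summable.of_nonneg_of_le (fun x => wt_nonneg _ _) (fun x => ?_) h4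
  unfold wt sh
  simp only
  have h6 : 0 ≤ ((x.1 : ℕ) : ℝ) ^ (-(3 / 4) : ℝ) := Real.rpow_nonneg (prime_pos _).le _
  have h5 : ((x.1 : ℕ) : ℝ) ^ (-(3 / 4) : ℝ) ≤ q :=
    Real.rpow_le_rpow_of_nonpos (by norm_num) (two_le_prime x.1) (by norm_num)
  have e1 : ((x.1 : ℕ) : ℝ) ^ (-(3 / 2) : ℝ) = (((x.1 : ℕ) : ℝ) ^ (-(3 / 4) : ℝ)) ^ 2 := by
    rw [← Real.rpow_natCast, ← Real.rpow_mul (prime_pos _).le]
    norm_num
  rw [e1, show x.2 + 1 + 1 = 2 + x.2 by ring, pow_add]
  exact mul_le_mul_of_nonneg_left (pow_le_pow_left₀ h6 h5 _) (by positivity)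

lemma differentiableOn_hpart (hb : ∀ x, ‖b x‖ ≤ M / (x.2 + 1 : ℕ)) :
    DifferentiableOn ℂ (hpart b) {s : ℂ | 3 / 4 < s.re} := by
  unfold hpart
  refine Complex.differentiableOn_tsum_of_summable_norm (wt_sh_summable'.mul_left M) ?_
    (isOpen_lt continuous_const Complex.continuous_re) ?_
  · intro x
    have hne : (((sh x).1 : ℕ) : ℂ) ≠ 0 := by exact_mod_cast (sh x).1.2.ne_zero
    unfold tm
    refine DifferentiableOn.const_mul (DifferentiableOn.pow ?_ _) _
    exact (differentiable_id.neg.const_cpow (Or.inl hne)).differentiableOn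
  · intro x z hz
    have hz' : 3 / 4 < z.re := hz
    rw [norm_tm]
    refine mul_le_mul (norm_b_le hb _) ?_ (wt_nonneg _ _) (M_nonneg hb)
    unfold wt
    have h1 : (1 : ℝ) ≤ (((sh x).1 : ℕ) : ℝ) := by
      have := two_le_prime (sh x).1
      linarith
    exact pow_le_pow_left₀ (Real.rpow_nonneg (prime_pos _).le _)
      (Real.rpow_le_rpow_of_exponent_le h1 (by linarith)) _

end

/-! ### the zeta function at `s - iτ` -/

/-- the coefficients of `log ζ(s - iτ)` -/
noncomputable def zc (τ : ℝ) (x : PP) : ℂ := ee (fr x) (-τ) / ((x.2 + 1 : ℕ) : ℂ)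

lemma norm_zc (τ : ℝ) (x : PP) : ‖zc τ x‖ ≤ 1 / (x.2 + 1 : ℕ) := by
  unfold zc
  rw [norm_div, norm_ee, Complex.norm_natCast]

lemma FF_zc (τ : ℝ) {s : ℂ} (hs : 1 < s.re) :
    Complex.exp (FF (zc τ) s) = riemannZeta (s - τ * Complex.I) := by
  have hse : s = (s.re : ℂ) + s.im * Complex.I := (Complex.re_add_im s).symm
  have h1 := FF_zeta hs (s.im - τ)
  have e1 : (s.re : ℂ) + ((s.im - τ : ℝ) : ℂ) * Complex.I = s - τ * Complex.I := by
    conv_rhs => rw [hse]
    push_cast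
    ring
  rw [e1] at h1
  rw [← h1]
  congr 1
  unfold FF
  refine tsum_congr fun x => ?_
  rw [← e1]
  conv_lhs => rw [hse]
  rw [tm_eq, tm_eq]
  have e2 : s.im - τ = -τ + s.im := by ring
  rw [e2, ee_add]
  unfold zc
  ring

/-- `(s - 1) ζ(s)`, continued to `s = 1` -/
noncomputable def zz (s : ℂ) : ℂ := Function.update (fun s => (s - 1) * riemannZeta s) 1 1 s

lemma zz_eq {s : ℂ} (hs : s ≠ 1) : zz s = (s - 1) * riemannZeta s := by
  unfold zz
  rw [Function.update_of_ne hs]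

lemma zz_one : zz 1 = 1 := by
  unfold zz
  rw [Function.update_self]

lemma differentiable_zz : Differentiable ℂ zz := by
  have h1 : DifferentiableOn ℂ zz (Set.univ \ {1}) := by
    intro s hs
    have hs1 : s ≠ 1 := hs.2
    have h2 : DifferentiableAt ℂ (fun s => (s - 1) * riemannZeta s) s :=
      (by fun_prop : DifferentiableAt ℂ (fun s : ℂ => s - 1) s).mul (differentiableAt_riemannZeta hs1)
    refine (h2.congr_of_eventuallyEq ?_).differentiableWithinAt
    filter_upwards [isOpen_ne.mem_nhds hs1] with z hz using zz_eq hz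
  have h2 : ContinuousAt zz 1 := by
    rw [continuousAt_iff_punctured_nhds, zz_one]
    refine riemannZeta_residue_one.congr' ?_
    filter_upwards [self_mem_nhdsWithin] with z hz
    exact (zz_eq hz).symm
  have h3 := (Complex.differentiableOn_compl_singleton_and_continuousAt_iff (s := Set.univ)
    (c := 1) Filter.univ_mem).1 ⟨h1, h2⟩
  exact differentiableOn_univ.1 h3

/-! ### meromorphic continuation -/

section
variable {b : PP → ℂ} {M : ℝ} {τ : ℝ}

/-- `b` minus the coefficients of `m log ζ(s - iτ)` -/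
noncomputable def bm (b : PP → ℂ) (τ : ℝ) (m : ℤ) (x : PP) : ℂ := b x - m * zc τ x

lemma norm_bm (hb : ∀ x, ‖b x‖ ≤ M / (x.2 + 1 : ℕ)) (τ : ℝ) (m : ℤ) (x : PP) :
    ‖bm b τ m x‖ ≤ (M + ‖(m : ℂ)‖) / (x.2 + 1 : ℕ) := by
  unfold bm
  refine (norm_sub_le _ _).trans ?_
  rw [norm_mul, add_div]
  refine add_le_add (hb x) ?_
  calc _ ≤ ‖(m : ℂ)‖ * (1 / (x.2 + 1 : ℕ)) :=
        mul_le_mul_of_nonneg_left (norm_zc τ x) (norm_nonneg _)
    _ = _ := by ring

lemma FF_bm (hb : ∀ x, ‖b x‖ ≤ M / (x.2 + 1 : ℕ)) (τ : ℝ) (m : ℤ) {s : ℂ} (hs : 1 < s.re) :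
    FF (bm b τ m) s = FF b s - m * FF (zc τ) s := by
  have h1 := summable_tm hb hs
  have h2 := summable_tm (norm_zc τ) hs
  unfold FF
  rw [← tsum_mul_left, ← h1.tsum_sub (h2.mul_left _)]
  refine tsum_congr fun x => ?_
  unfold tm bm
  ring

/-- the function relating the two sides -/
lemma exp_pb_bm (hb : ∀ x, ‖b x‖ ≤ M / (x.2 + 1 : ℕ)) (m : ℤ) {s : ℂ} (hs : 1 < s.re) :
    Complex.exp (FF (pb (bm b τ m)) s) =
      ((s - (1 + τ * Complex.I)) ^ m * Complex.exp (FF b s)) *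
        ((zz (s - τ * Complex.I)) ^ (-m) * Complex.exp (-hpart (bm b τ m) s)) := by
  have h1 := FF_pb (norm_bm hb τ m) hs
  have h2 : FF (pb (bm b τ m)) s = FF b s + (-m : ℤ) * FF (zc τ) s + -hpart (bm b τ m) s := by
    rw [FF_bm hb τ m hs] at h1
    push_cast
    linear_combination -h1
  have hne : s - (1 + τ * Complex.I) ≠ 0 := by
    intro h
    rw [sub_eq_zero] at h
    rw [h] at hs
    simp at hs
  have hne1 : s - τ * Complex.I ≠ 1 := by
    intro h
    apply hne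
    rw [← h]
    ring
  have h3 : riemannZeta (s - τ * Complex.I) =
      (s - (1 + τ * Complex.I))⁻¹ * zz (s - τ * Complex.I) := by
    rw [zz_eq hne1]
    have e : s - τ * Complex.I - 1 = s - (1 + τ * Complex.I) := by ring
    rw [e, inv_mul_cancel_left₀ hne]
  rw [h2, Complex.exp_add, Complex.exp_add, Complex.exp_int_mul, FF_zc τ hs, h3, mul_zpow,
    inv_zpow', neg_neg]
  ring

lemma loc_iff (hb : ∀ x, ‖b x‖ ≤ M / (x.2 + 1 : ℕ)) (m : ℤ) :
    Loc (fun s => (s - (1 + τ * Complex.I)) ^ m * Complex.exp (FF b s)) 1 (1 + τ * Complex.I) ↔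
      ContN (pb (bm b τ m)) τ := by
  set w : ℂ := 1 + τ * Complex.I with hw
  set Q : ℂ → ℂ := fun s => (zz (s - τ * Complex.I)) ^ (-m) *
    Complex.exp (-hpart (bm b τ m) s) with hQ
  have hw1 : w - τ * Complex.I = 1 := by
    rw [hw]
    ring
  have hwre : w.re = 1 := by
    rw [hw]
    simp
  -- the neighbourhood
  have hz : Differentiable ℂ fun s : ℂ => zz (s - τ * Complex.I) :=
    differentiable_zz.comp (by fun_prop)
  have h1 : ∀ᶠ s in 𝓝 w, zz (s - τ * Complex.I) ≠ 0 := by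
    refine hz.continuous.continuousAt.eventually_ne ?_
    rw [hw1, zz_one]
    exact one_ne_zero
  have h2 : ∀ᶠ s in 𝓝 w, 3 / 4 < s.re := by
    refine (isOpen_lt continuous_const Complex.continuous_re).mem_nhds ?_
    change 3 / 4 < w.re
    rw [hwre]
    norm_num
  obtain ⟨r₀, hr₀, H⟩ := Metric.eventually_nhds_iff_ball.1 (h1.and h2)
  have hQd : DifferentiableOn ℂ Q (Metric.ball w r₀) := by
    refine DifferentiableOn.mul ?_ ?_
    · intro s hs
      exact ((hz s).zpow (Or.inl (H s hs).1)).differentiableWithinAt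
    · refine DifferentiableOn.cexp (DifferentiableOn.neg ?_)
      exact (differentiableOn_hpart (norm_bm hb τ m)).mono fun s hs => (H s hs).2
  have hQ0 : ∀ s ∈ Metric.ball w r₀, Q s ≠ 0 := fun s hs =>
    mul_ne_zero (zpow_ne_zero _ (H s hs).1) (Complex.exp_ne_zero _)
  constructor
  · intro h
    exact h.mul hr₀ hQd hQ0 fun s _ hs1 => exp_pb_bm hb m hs1
  · intro h
    refine Loc.mul (F := fun s => Complex.exp (FF (pb (bm b τ m)) s)) (Q := fun s => (Q s)⁻¹) hr₀
      (hQd.inv hQ0) (fun s hs => inv_ne_zero (hQ0 s hs)) (fun s hs hs1 => ?_) h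
    rw [exp_pb_bm hb m hs1, mul_assoc]
    have : Q s * (Q s)⁻¹ = 1 := mul_inv_cancel₀ (hQ0 s hs)
    rw [hQ] at this ⊢
    simp only at this ⊢
    rw [this, mul_one]

/-- **The criterion.** -/
theorem mer_iff {F : ℂ → ℂ} {κ : ℝ} (hb : ∀ x, ‖b x‖ ≤ M / (x.2 + 1 : ℕ))
    (hF : ∀ s : ℂ, 1 < s.re → F (s + κ) = Complex.exp (FF b s)) (m : ℤ) :
    Mer F (1 + κ) (((1 + κ : ℝ) : ℂ) + τ * Complex.I) (-m) ↔ Appr (pb (bm b τ m)) τ := by
  rw [mer_iff_loc (by simp), neg_neg, ← cont_iff (norm_pb (norm_bm hb τ m)), ← loc_iff hb]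
  have e1 : (((1 + κ : ℝ) : ℂ) + τ * Complex.I) = (1 + τ * Complex.I) + κ := by
    push_cast
    ring
  rw [e1, ← Loc.shift]
  refine (Loc.congr fun s hs => ?_).symm
  rw [hF s hs]
  congr 2
  ring

end

end Pool.Agent.Q9.EL
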