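import Pool.Agent.Q9.EL.Law
import Pool.Agent.Y770.SC.Rep2

/-!
# The twists of the L-functions of varieties by completely multiplicative functions, on the edge
-/

set_option autoImplicit false

namespace Pool.Agent.Q9.EL

open MeasureTheory Filter Topology NumberField IsDedekindDomain
open scoped ComplexConjugate ENNReal
open Pool.Agent.Helper873.Mean Pool.Agent.Helper873.Monomial Pool.Agent.Helper873.Product
  Pool.Agent.Helper873.OneVar
open Pool.Agent.TH339.MP (PP wt fr ee qq TX PS two_le_qq fr_eq PS_diff continuous_PS wt_nonneg bl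
  boundary M_nonneg FF bb norm_bb hasProd_L nm tm mem_TX ap bl_angle)
open Pool.Agent.W350.Edge (divSet dimH_divSet)
open Pool.Agent.Y770.SC (nb tw norm_nb norm_tw nm_pos bb_tw trI trI_eq)
open Pool.Agent.TH958.BV (edgePoint angle)

/-- the random unit number attached to the prime `p` -/
noncomputable def un (z : Tor) (p : Nat.Primes) : ℂ := fourier (-1) (z (Nat.count Nat.Prime p))

lemma chi_qq_un (x : PP) (z : Tor) : chi (qq x - 1) z = un z x.1 ^ (x.2 + 1) := by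
  have h2 := two_le_qq x
  have hp := x.1.2
  unfold chi
  rw [show qq x - 1 + 1 = qq x by omega]
  unfold mon
  have hex : ∀ k, ex (qq x) k = if k = Nat.count Nat.Prime x.1 then x.2 + 1 else 0 := by
    intro k
    unfold ex Pool.Agent.TH339.MP.qq
    rw [Nat.Prime.factorization_pow hp]
    by_cases hk : k = Nat.count Nat.Prime x.1
    · subst hk
      rw [if_pos rfl, Nat.nth_count hp, Finsupp.single_eq_same]
    · rw [if_neg hk, Finsupp.single_eq_of_ne]
      intro h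
      apply hk
      have := Nat.count_nth_of_infinite Nat.infinite_setOfPred_prime k
      rw [← this, h]
  have hlt : Nat.count Nat.Prime x.1 < qq x := by
    have h3 : Nat.count Nat.Prime x.1 < (x.1 : ℕ) := by
      have h4 := Nat.count_le (p := Nat.Prime) (n := (x.1 : ℕ))
      rcases h4.lt_or_eq with h | h
      · exact h
      · exfalso
        rw [Nat.count_eq_card_filter_range] at h
        have h5 : (Finset.range (x.1 : ℕ)).filter Nat.Prime = Finset.range (x.1 : ℕ) := by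
          refine Finset.eq_of_subset_of_card_le (Finset.filter_subset _ _) ?_
          rw [h, Finset.card_range]
        have h6 : 0 ∈ (Finset.range (x.1 : ℕ)).filter Nat.Prime := by
          rw [h5]
          exact Finset.mem_range.2 hp.pos
        exact Nat.not_prime_zero (Finset.mem_filter.1 h6).2
    have h4 : (x.1 : ℕ) ≤ qq x := by
      unfold Pool.Agent.TH339.MP.qq
      exact Nat.le_self_pow (by omega) _
    omega
  rw [Finset.prod_eq_single (Nat.count Nat.Prime x.1)]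
  · rw [hex, if_pos rfl]
    rfl
  · intro k _ hk
    rw [hex, if_neg hk, pow_zero]
  · intro h
    exact absurd (Finset.mem_range.2 hlt) h

variable {K : Type} [Field K] [NumberField K] {N : ℕ}

open Classical in
/-- the Euler product of the twist by `c` over the primes outside `S` -/
noncomputable def LC (c : ℕ → ℂ) (S : Set (HeightOneSpectrum (𝓞 K)))
    (α : HeightOneSpectrum (𝓞 K) → Fin N → ℂ) (s : ℂ) : ℂ :=
  ∏' v : HeightOneSpectrum (𝓞 K), if v ∈ S then 1 else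
    ∏ j, (1 - c (Ideal.absNorm v.asIdeal) * α v j * (Ideal.absNorm v.asIdeal : ℂ) ^ (-s))⁻¹

variable {i : ℕ} {S : Set (HeightOneSpectrum (𝓞 K))} {α : HeightOneSpectrum (𝓞 K) → Fin N → ℂ}
  {c : ℕ → ℂ}

lemma LC_eq (hc : ∀ n, ‖c n‖ ≤ 1)
    (hα : ∀ v, v ∉ S → ∀ j, ‖α v j‖ = (nm v : ℝ) ^ ((i : ℝ) / 2)) {s : ℂ} (hs : 1 < s.re) :
    LC c S α (s + i / 2) = Complex.exp (FF (bb (tw c (nb i S α))) s) := by
  have h1 := hasProd_L (norm_tw hc (norm_nb hα)) hs
  rw [← h1.tprod_eq]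
  unfold LC
  refine tprod_congr fun v => ?_
  by_cases hv : v ∈ S
  · rw [if_pos hv]
    symm
    refine Finset.prod_eq_one fun j _ => ?_
    unfold tw nb
    rw [if_pos hv]
    simp
  · rw [if_neg hv]
    refine Finset.prod_congr rfl fun j _ => ?_
    unfold tw nb
    rw [if_neg hv]
    have hn0 : ((nm v : ℕ) : ℂ) ≠ 0 := by
      have := nm_pos v
      exact_mod_cast this.ne'
    have e1 : ((((nm v : ℝ) ^ ((i : ℝ) / 2) : ℝ)) : ℂ) = ((nm v : ℕ) : ℂ) ^ ((i : ℂ) / 2) := by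
      rw [Complex.ofReal_cpow (Nat.cast_nonneg _)]
      push_cast
      rfl
    have e2 : ((nm v : ℕ) : ℂ) ^ (-(s + i / 2)) =
        ((nm v : ℕ) : ℂ) ^ (-s) / ((nm v : ℕ) : ℂ) ^ ((i : ℂ) / 2) := by
      rw [neg_add, Complex.cpow_add _ _ hn0, Complex.cpow_neg _ ((i : ℂ) / 2), ← div_eq_mul_inv]
    have e3 : (Ideal.absNorm v.asIdeal : ℂ) = ((nm v : ℕ) : ℂ) := rfl
    have e4 : c (Ideal.absNorm v.asIdeal) = c (nm v) := rfl
    rw [e1, e3, e4, e2]
    ring

lemma norm_of_frob {n d : ℕ} {X : Set (MvPolynomial (Fin n) (𝓞 K))}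
    (hα : ∀ v, v ∉ S → Pool.Agent.TH958.BV.IsFrobenius X d i v (α v)) :
    ∀ v, v ∉ S → ∀ j, ‖α v j‖ = (nm v : ℝ) ^ ((i : ℝ) / 2) := by
  intro v hv j
  obtain ⟨β, h1, h2, h3⟩ := hα v hv
  refine h2 i (α v j) ?_
  rw [h1]
  exact Multiset.mem_map_of_mem _ (Finset.mem_univ_val j)

/-- the coefficients of the logarithm -/
noncomputable def cf (i : ℕ) (S : Set (HeightOneSpectrum (𝓞 K)))
    (α : HeightOneSpectrum (𝓞 K) → Fin N → ℂ) (c : ℕ → ℂ) (x : PP) : ℂ :=
  c x.1 ^ (x.2 + 1) * trI i S α x.1 (x.2 + 1) / ((x.2 + 1 : ℕ) : ℂ)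

lemma cf_eq (hc1 : c 1 = 1) (hcm : ∀ m n, c (m * n) = c m * c n) :
    cf i S α c = bb (tw c (nb i S α)) := by
  have hpow : ∀ m k : ℕ, c (m ^ k) = c m ^ k := by
    intro m k
    induction k with
    | zero => simp [hc1]
    | succ k ih => rw [pow_succ, hcm, ih, pow_succ]
  funext x
  unfold cf
  rw [bb_tw hc1 hcm, trI_eq]
  have h1 : c (qq x) = c x.1 ^ (x.2 + 1) := by
    unfold Pool.Agent.TH339.MP.qq
    exact hpow _ _
  rw [h1]
  have h2 : ((x.2 + 1 : ℕ) : ℂ) ≠ 0 := by exact_mod_cast Nat.succ_ne_zero x.2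
  field_simp

lemma cf_norm {M : ℕ} (hM : N * Module.finrank ℚ K ≤ M) (hc : ∀ n, ‖c n‖ ≤ 1) (hc1 : c 1 = 1)
    (hcm : ∀ m n, c (m * n) = c m * c n)
    (hα : ∀ v, v ∉ S → ∀ j, ‖α v j‖ = (nm v : ℝ) ^ ((i : ℝ) / 2)) (x : PP) :
    ‖cf i S α c x‖ ≤ (M : ℝ) / (x.2 + 1 : ℕ) := by
  rw [cf_eq hc1 hcm]
  refine (norm_bb (norm_tw hc (norm_nb hα)) x).trans ?_
  gcongr
  rw [mul_comm]
  exact_mod_cast hM

/-- the logarithm -/
noncomputable def lL (i : ℕ) (b : PP → ℂ) (s : ℂ) : ℂ := FF b (s - i / 2)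

lemma lL_angle {b : PP → ℂ} {M : ℝ} (hb : ∀ x, ‖b x‖ ≤ M / (x.2 + 1 : ℕ)) {τ : ℝ}
    (hτ : τ ∉ divSet (ap b)) (C : ℝ) :
    Tendsto (lL i b) (𝓝[angle i τ C] (edgePoint i τ)) (𝓝 (bl b τ)) := by
  have h1 := bl_angle hb hτ C
  have h2 : Tendsto (fun s : ℂ => s - edgePoint i τ) (𝓝[angle i τ C] (edgePoint i τ))
      (𝓝[{z : ℂ | 0 < z.re ∧ ‖z‖ ≤ C * z.re}] 0) := by
    rw [tendsto_nhdsWithin_iff]
    constructor
    · have h3 : Tendsto (fun s : ℂ => s - edgePoint i τ) (𝓝 (edgePoint i τ))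
          (𝓝 (edgePoint i τ - edgePoint i τ)) := (continuous_id.sub continuous_const).tendsto _
      rw [sub_self] at h3
      exact h3.mono_left nhdsWithin_le_nhds
    · filter_upwards [self_mem_nhdsWithin] with s hs
      have e : (s - edgePoint i τ).re = s.re - ((i : ℝ) / 2 + 1) := by
        unfold Pool.Agent.TH958.BV.edgePoint
        simp
      refine ⟨?_, ?_⟩
      · rw [e]
        have := hs.1
        linarith
      · rw [e]
        exact hs.2
  refine (h1.comp h2).congr fun s => ?_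
  unfold lL
  simp only [Function.comp_apply]
  congr 1
  unfold Pool.Agent.TH958.BV.edgePoint
  push_cast
  ring

lemma lL_right {b : PP → ℂ} {M : ℝ} (hb : ∀ x, ‖b x‖ ≤ M / (x.2 + 1 : ℕ)) {τ : ℝ}
    (hτ : τ ∉ divSet (ap b)) :
    Tendsto (fun h : ℝ => lL i b (edgePoint i τ + h)) (𝓝[>] 0) (𝓝 (bl b τ)) := by
  refine (lL_angle hb hτ 1 (i := i)).comp ?_
  rw [tendsto_nhdsWithin_iff]
  constructor
  · have h3 : Tendsto (fun h : ℝ => edgePoint i τ + (h : ℂ)) (𝓝 0)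
        (𝓝 (edgePoint i τ + ((0 : ℝ) : ℂ))) :=
      (continuous_const.add Complex.continuous_ofReal).tendsto _
    rw [Complex.ofReal_zero, add_zero] at h3
    exact h3.mono_left nhdsWithin_le_nhds
  · filter_upwards [self_mem_nhdsWithin] with h hh
    have hh' : (0 : ℝ) < h := hh
    have e : (edgePoint i τ + (h : ℂ)).re = ((i : ℝ) / 2 + 1) + h := by
      unfold Pool.Agent.TH958.BV.edgePoint
      simp
    refine ⟨?_, ?_⟩
    · rw [e]
      linarith
    · rw [e, add_sub_cancel_left, Complex.norm_real, Real.norm_of_nonneg hh'.le]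
      linarith

/-- the boundary value, as a limit along the horizontal line -/
noncomputable def bv (i : ℕ) (b : PP → ℂ) (τ : ℝ) : ℂ :=
  limUnder (𝓝[>] (0 : ℝ)) fun h : ℝ => lL i b (edgePoint i τ + h)

lemma bv_eq {b : PP → ℂ} {M : ℝ} (hb : ∀ x, ‖b x‖ ≤ M / (x.2 + 1 : ℕ)) {τ : ℝ}
    (hτ : τ ∉ divSet (ap b)) : bv i b τ = bl b τ := (lL_right hb hτ).limUnder_eq

lemma bv_ae {b : PP → ℂ} {M : ℝ} (hb : ∀ x, ‖b x‖ ≤ M / (x.2 + 1 : ℕ)) :
    bv i b =ᵐ[volume] bl b := by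
  filter_upwards [Pool.Agent.TH339.MP.ae_notMem hb] with τ hτ
  exact bv_eq hb hτ

/-- the exceptional set has dimension zero -/
lemma dim_exc {b : PP → ℂ} {M : ℝ} (hb : ∀ x, ‖b x‖ ≤ M / (x.2 + 1 : ℕ)) :
    dimH {τ : ℝ | ¬ ∀ C : ℝ, Tendsto (lL i b) (𝓝[angle i τ C] (edgePoint i τ))
      (𝓝 (bv i b τ))} = 0 := by
  refine le_antisymm ?_ bot_le
  rw [← (boundary hb).2.1]
  refine dimH_mono fun τ hτ => ?_
  by_contra h
  exact hτ fun C => by
    rw [bv_eq hb h]
    exact lL_angle hb h C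

lemma FR_PR {b : PP → ℂ} {M : ℝ} (hb : ∀ x, ‖b x‖ ≤ M / (x.2 + 1 : ℕ)) :
    Measurable (FR b) ∧ MemLp (FR b) 2 tor ∧
      Tendsto (fun X : ℕ => eLpNorm (fun z => (∑ x ∈ TX X, (b x * (wt 1 x : ℂ)) *
        un z x.1 ^ (x.2 + 1)) - FR b z) 2 tor) atTop (𝓝 0) := by
  obtain ⟨h1, h2, h3⟩ := FR_spec hb
  refine ⟨h1, h2, ?_⟩
  refine h3.congr fun X => ?_
  congr 1
  funext z
  unfold PR
  congr 1
  exact Finset.sum_congr rfl fun x _ => by rw [chi_qq_un]

end Pool.Agent.Q9.EL
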