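import Pool.Agent.Q9.EL.Mer
import Pool.Agent.Q9.EL.Tw

/-!
# The criterion in terms of the coefficients at the primes
-/

set_option autoImplicit false

namespace Pool.Agent.Q9.EL

open MeasureTheory Filter Topology Polynomial Finset NumberField IsDedekindDomain
open Pool.Agent.TH339.MP (PP FF PS ap tm prime_pos wt ee fr ee_neg_left ee_neg_right qq TX mem_TX
  tm_eq ee_zero norm_ap)
open Pool.Agent.Y770.SC (trI)

/-- the sum over the primes `p ≤ X` -/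
noncomputable def QS (a : ℕ → ℂ) (X : ℕ) (t : ℝ) : ℂ :=
  ∑ p ∈ (Finset.range (X + 1)).filter Nat.Prime, a p * (p : ℂ) ^ (-(1 + t * Complex.I : ℂ))

lemma PS_eq_tm (b : PP → ℂ) (X : ℕ) (t : ℝ) :
    PS b X t = ∑ x ∈ TX X, tm b (1 + t * Complex.I) x := by
  unfold Pool.Agent.TH339.MP.PS
  refine Finset.sum_congr rfl fun x _ => ?_
  have h1 := tm_eq b 1 t x
  rw [Complex.ofReal_one] at h1
  exact h1.symm

lemma PS_pb (b : PP → ℂ) (X : ℕ) (t : ℝ) : PS (pb b) X t = QS (ap b) X t := by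
  classical
  rw [PS_eq_tm]
  unfold QS
  have h1 : ∑ x ∈ TX X, tm (pb b) (1 + t * Complex.I) x =
      ∑ x ∈ (TX X).filter (fun x => x.2 = 0), tm (pb b) (1 + t * Complex.I) x := by
    symm
    refine Finset.sum_filter_of_ne fun x _ hx => ?_
    by_contra h
    apply hx
    unfold tm pb
    rw [if_neg h, zero_mul]
  rw [h1]
  refine Finset.sum_bij' (fun x _ => ((x.1 : ℕ)))
    (fun p _ => if h : p.Prime then ((⟨p, h⟩, 0) : PP) else (⟨2, Nat.prime_two⟩, 0)) ?_ ?_ ?_ ?_ ?_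
  · intro x hx
    rw [Finset.mem_filter, mem_TX] at hx
    obtain ⟨h2, h3⟩ := hx
    unfold Pool.Agent.TH339.MP.qq at h2
    rw [h3, zero_add, pow_one] at h2
    rw [Finset.mem_filter, Finset.mem_range]
    exact ⟨by omega, x.1.2⟩
  · intro p hp
    rw [Finset.mem_filter, Finset.mem_range] at hp
    rw [dif_pos hp.2, Finset.mem_filter, mem_TX]
    refine ⟨?_, rfl⟩
    unfold Pool.Agent.TH339.MP.qq
    simp only [zero_add, pow_one]
    omega
  · intro x hx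
    rw [Finset.mem_filter] at hx
    simp only [dif_pos x.1.2]
    exact Prod.ext rfl hx.2.symm
  · intro p hp
    rw [Finset.mem_filter] at hp
    simp only [dif_pos hp.2]
  · intro x hx
    rw [Finset.mem_filter] at hx
    have hx2 : x = (x.1, 0) := Prod.ext rfl hx.2
    unfold tm pb ap
    rw [if_pos hx.2, dif_pos x.1.2, hx.2, zero_add, pow_one]
    congr 2

lemma ap_bm (b : PP → ℂ) (τ : ℝ) (m : ℤ) (p : ℕ) (hp : p.Prime) :
    ap (bm b τ m) p = ap b p - m * (p : ℂ) ^ ((τ : ℂ) * Complex.I) := by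
  unfold ap bm zc
  rw [dif_pos hp, dif_pos hp]
  have h1 : ee (fr ((⟨p, hp⟩, 0) : PP)) (-τ) = (p : ℂ) ^ ((τ : ℂ) * Complex.I) := by
    have hne : (p : ℂ) ≠ 0 := by exact_mod_cast hp.ne_zero
    rw [Complex.cpow_def_of_ne_zero hne]
    unfold Pool.Agent.TH339.MP.ee Pool.Agent.TH339.MP.fr
    congr 1
    have h2 : Complex.log (p : ℂ) = ((Real.log p : ℝ) : ℂ) := by
      rw [Complex.ofReal_log (Nat.cast_nonneg _)]
      simp
    rw [h2]
    push_cast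
    ring
  rw [h1]
  simp

lemma QS_congr {a a' : ℕ → ℂ} (h : ∀ p : ℕ, p.Prime → a p = a' p) (X : ℕ) (t : ℝ) :
    QS a X t = QS a' X t := by
  unfold QS
  refine Finset.sum_congr rfl fun p hp => ?_
  rw [h p (Finset.mem_filter.1 hp).2]

/-- approximation by polynomials, for the sums over the primes -/
def ApprQ (a : ℕ → ℂ) (τ : ℝ) : Prop :=
  ∃ h K : ℝ, 0 < h ∧ ∀ d : ℕ, ∃ P : ℂ[X], P.natDegree ≤ d ∧ ∃ X₀ : ℕ, ∀ X : ℕ, X₀ ≤ X →
    ∫ t in (τ - h)..(τ + h), ‖QS a X t - P.eval (t : ℂ)‖ ^ 2 ≤ K * (1 / 100) ^ d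

lemma appr_iff_apprQ (b : PP → ℂ) (τ : ℝ) : Appr (pb b) τ ↔ ApprQ (ap b) τ := by
  unfold Appr ApprQ
  simp_rw [PS_pb]

lemma apprQ_congr {a a' : ℕ → ℂ} (h : ∀ p : ℕ, p.Prime → a p = a' p) (τ : ℝ) :
    ApprQ a τ ↔ ApprQ a' τ := by
  unfold ApprQ
  simp_rw [QS_congr h]

section
variable {b : PP → ℂ} {M : ℝ} {τ : ℝ}

/-- **The criterion, for the coefficients at the primes.** -/
theorem mer_iff_prime {F : ℂ → ℂ} {κ : ℝ} (hb : ∀ x, ‖b x‖ ≤ M / (x.2 + 1 : ℕ))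
    (hF : ∀ s : ℂ, 1 < s.re → F (s + κ) = Complex.exp (FF b s)) {a : ℕ → ℂ}
    (ha : ∀ (p : ℕ) (hp : p.Prime), a p = b (⟨p, hp⟩, 0)) (m : ℤ) :
    Mer F (1 + κ) (((1 + κ : ℝ) : ℂ) + τ * Complex.I) (-m) ↔
      ApprQ (fun p => a p - m * (p : ℂ) ^ ((τ : ℂ) * Complex.I)) τ := by
  rw [mer_iff hb hF, appr_iff_apprQ]
  refine apprQ_congr (fun p hp => ?_) τ
  rw [ap_bm b τ m p hp, ha p hp]
  unfold ap
  rw [dif_pos hp]

/-- the global version -/
theorem mer_glue {F : ℂ → ℂ} {κ : ℝ} (hb : ∀ x, ‖b x‖ ≤ M / (x.2 + 1 : ℕ))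
    (hF : ∀ s : ℂ, 1 < s.re → F (s + κ) = Complex.exp (FF b s)) {a : ℕ → ℂ}
    (ha : ∀ (p : ℕ) (hp : p.Prime), a p = b (⟨p, hp⟩, 0)) (A : Set ℝ) :
    (∃ (U : Set ℂ) (G : ℂ → ℂ), IsOpen U ∧ {s : ℂ | 1 + κ < s.re} ⊆ U ∧
      (∀ τ ∈ A, (((1 + κ : ℝ) : ℂ) + τ * Complex.I) ∈ U) ∧ MeromorphicOn G U ∧
        ∀ s, 1 + κ < s.re → G s = F s) ↔
      ∀ τ ∈ A, ∃ m : ℤ, ApprQ (fun p => a p - m * (p : ℂ) ^ ((τ : ℂ) * Complex.I)) τ := by
  have hF' : ∀ s : ℂ, 1 + κ < s.re → F s = Complex.exp (FF b (s - κ)) := by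
    intro s hs
    have h1 : 1 < (s - κ).re := by
      rw [Complex.sub_re, Complex.ofReal_re]
      linarith
    have h2 := hF (s - κ) h1
    rwa [sub_add_cancel] at h2
  have hFne : ∀ s : ℂ, 1 + κ < s.re → F s ≠ 0 := by
    intro s hs
    rw [hF' s hs]
    exact Complex.exp_ne_zero _
  have hFd : DifferentiableOn ℂ F {s : ℂ | 1 + κ < s.re} := by
    have h1 : DifferentiableOn ℂ (fun s : ℂ => Complex.exp (FF b (s - κ))) {s : ℂ | 1 + κ < s.re} := by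
      refine DifferentiableOn.cexp ?_
      refine (Pool.Agent.TH339.MP.differentiableOn_FF hb).comp
        (by fun_prop : Differentiable ℂ fun s : ℂ => s - κ).differentiableOn ?_
      intro s hs
      have hs' : 1 + κ < s.re := hs
      change 1 < (s - κ).re
      rw [Complex.sub_re, Complex.ofReal_re]
      linarith
    exact h1.congr fun s hs => hF' s hs
  rw [← glue hFd hFne A]
  refine forall₂_congr fun τ _ => ?_
  constructor
  · rintro ⟨m, hm⟩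
    refine ⟨-m, ?_⟩
    rw [← mer_iff_prime hb hF ha, neg_neg]
    exact hm
  · rintro ⟨m, hm⟩
    refine ⟨-m, ?_⟩
    exact (mer_iff_prime hb hF ha m).2 hm

end

/-! ### varieties -/

section
variable {K : Type} [Field K] [NumberField K] {N : ℕ}
variable {i : ℕ} {S : Set (HeightOneSpectrum (𝓞 K))} {α : HeightOneSpectrum (𝓞 K) → Fin N → ℂ}
  {c : ℕ → ℂ}

open Classical in
/-- the normalised trace of Frobenius at the prime `p` -/
noncomputable def av (i : ℕ) (S : Set (HeightOneSpectrum (𝓞 K)))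
    (α : HeightOneSpectrum (𝓞 K) → Fin N → ℂ) (c : ℕ → ℂ) (p : ℕ) : ℂ :=
  c p * (∑' v : HeightOneSpectrum (𝓞 K),
    if v ∉ S ∧ Ideal.absNorm v.asIdeal = p then ∑ j, α v j else 0) / (((p : ℝ) ^ ((i : ℝ) / 2) : ℝ) : ℂ)

lemma av_eq (p : ℕ) (hp : p.Prime) : av i S α c p = cf i S α c (⟨p, hp⟩, 0) := by
  classical
  unfold av cf trI
  simp only [zero_add, pow_one, Nat.divisors_one, Finset.sum_singleton, Nat.cast_one, one_mul,
    Nat.div_one, div_one]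
  rw [mul_div_assoc]

end

end Pool.Agent.Q9.EL
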