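import Pool.Agent.Q9.EL.Tw

/-!
# Steinhaus functions: the random model as a boundary value
-/

set_option autoImplicit false

namespace Pool.Agent.Q9.EL

open MeasureTheory Filter Topology
open scoped ENNReal
open Pool.Agent.Helper873.Mean Pool.Agent.Helper873.Monomial Pool.Agent.Helper873.Product
  Pool.Agent.Helper873.OneVar
open Pool.Agent.TH339.MP (PP wt fr ee qq TX PS two_le_qq continuous_PS wt_nonneg bl
  boundary M_nonneg mem_TX ap PS_tendsto ae_notMem ee_zero norm_ap)
open Pool.Agent.W350.Edge (divSet ps term dimH_divSet)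

/-- the random completely multiplicative function -/
noncomputable def fz (z : Tor) (n : ℕ) : ℂ := if n = 0 then 0 else chi (n - 1) z

lemma fz_one (z : Tor) : fz z 1 = 1 := by
  unfold fz
  rw [if_neg one_ne_zero, Nat.sub_self, chi_zero]

lemma fz_mul (z : Tor) (m n : ℕ) : fz z (m * n) = fz z m * fz z n := by
  unfold fz
  by_cases hm : m = 0
  · simp [hm]
  by_cases hn : n = 0
  · simp [hn]
  rw [if_neg hm, if_neg hn, if_neg (mul_ne_zero hm hn), chi_mul, Nat.sub_add_cancel (by omega),
    Nat.sub_add_cancel (by omega)]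

lemma fz_zero (z : Tor) : fz z 0 = 0 := by simp [fz]

lemma norm_fz {z : Tor} {n : ℕ} (hn : n ≠ 0) : ‖fz z n‖ = 1 := by
  unfold fz
  rw [if_neg hn, norm_chi]

lemma norm_fz_le (z : Tor) (n : ℕ) : ‖fz z n‖ ≤ 1 := by
  by_cases hn : n = 0
  · rw [hn, fz_zero]
    simp
  · rw [norm_fz hn]

lemma fz_prime (z : Tor) {p : ℕ} (hp : p.Prime) : fz z p = zet (z (Nat.count Nat.Prime p)) := by
  unfold fz
  rw [if_neg hp.ne_zero]
  have h1 := chi_prime (Nat.count Nat.Prime p) z
  rwa [Nat.nth_count hp] at h1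

lemma fz_pow (z : Tor) (m k : ℕ) : fz z (m ^ k) = fz z m ^ k := by
  induction k with
  | zero => simp [fz_one]
  | succ k ih => rw [pow_succ, fz_mul, ih, pow_succ]

/-- the explicit formula -/
lemma fz_factorization (z : Tor) {n : ℕ} (hn : n ≠ 0) :
    fz z n = n.factorization.prod fun p k => fourier (-1) (z (Nat.count Nat.Prime p)) ^ k := by
  conv_lhs => rw [← Nat.prod_factorization_pow_eq_self hn]
  rw [Finsupp.prod, Finsupp.prod]
  have key : ∀ s : Finset ℕ, (∀ p ∈ s, p.Prime) → fz z (∏ p ∈ s, p ^ n.factorization p) =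
      ∏ p ∈ s, (fourier (-1) (z (Nat.count Nat.Prime p)) : ℂ) ^ n.factorization p := by
    intro s
    induction s using Finset.induction_on with
    | empty => intro _; simp [fz_one]
    | insert p s hps ih =>
      intro h
      rw [Finset.prod_insert hps, Finset.prod_insert hps, fz_mul, fz_pow,
        fz_prime z (h p (Finset.mem_insert_self _ _)), ih fun q hq => h q (Finset.mem_insert_of_mem hq)]
      rfl
  exact key _ fun p hp => Nat.prime_of_mem_primeFactors hp

lemma fz_add (z w : Tor) {n : ℕ} : fz (z + w) n = fz z n * fz w n := by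
  by_cases hn : n = 0
  · rw [hn, fz_zero, fz_zero, zero_mul]
  · rw [fz_factorization _ hn, fz_factorization _ hn, fz_factorization _ hn, ← Finsupp.prod_mul]
    refine Finsupp.prod_congr fun p _ => ?_
    rw [Pi.add_apply, ← mul_pow]
    congr 1
    rw [fourier_apply, fourier_apply, fourier_apply, ← Circle.coe_mul, ← AddCircle.toCircle_add]
    congr 2
    rw [smul_add]

lemma fz_zt (t : ℝ) {n : ℕ} (hn : n ≠ 0) : fz (zt t) n = ee (-Real.log n) t := by
  unfold fz Pool.Agent.TH339.MP.ee
  rw [if_neg hn, chi_zt]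
  have : (((n - 1 : ℕ) : ℝ) + 1) = (n : ℝ) := by
    rw [Nat.cast_sub (by omega)]
    simp
  rw [this]

/-- the coefficients of the random Euler product -/
noncomputable def fb (z : Tor) (b : PP → ℂ) (x : PP) : ℂ := fz z (qq x) * b x

section
variable {b : PP → ℂ} {M : ℝ}

lemma norm_fb (hb : ∀ x, ‖b x‖ ≤ M / (x.2 + 1 : ℕ)) (z : Tor) (x : PP) :
    ‖fb z b x‖ ≤ M / (x.2 + 1 : ℕ) := by
  unfold fb
  rw [norm_mul]
  exact (mul_le_of_le_one_left (norm_nonneg _) (norm_fz_le _ _)).trans (hb x)

lemma PS_fb (z : Tor) (X : ℕ) (t : ℝ) : PS (fb z b) X t = PR b X (z + zt t) := by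
  unfold Pool.Agent.TH339.MP.PS PR fb
  refine Finset.sum_congr rfl fun x _ => ?_
  have h0 : qq x ≠ 0 := by have := two_le_qq x; omega
  have h1 : chi (qq x - 1) (z + zt t) = fz (z + zt t) (qq x) := by
    unfold fz
    rw [if_neg h0]
  rw [h1, fz_add, fz_zt t h0]
  have h2 : ee (fr x) t = ee (-Real.log (qq x)) t := by
    rw [Pool.Agent.TH339.MP.fr_eq]
  rw [h2]
  ring

lemma zt_zero : zt 0 = (0 : Tor) := by
  funext k
  unfold zt
  simp

lemma term_fb (z : Tor) (t : ℝ) (p : ℕ) :
    term (ap (fb z b)) t p = term (ap (fb (z + zt t) b)) 0 p := by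
  unfold Pool.Agent.W350.Edge.term
  split_ifs with hp
  · unfold Pool.Agent.TH339.MP.ap
    rw [dif_pos hp, dif_pos hp]
    unfold fb
    have h0 : qq ((⟨p, hp⟩, 0) : PP) ≠ 0 := by have := two_le_qq ((⟨p, hp⟩, 0) : PP); omega
    rw [fz_add, fz_zt t h0]
    have h1 : ee (-Real.log (qq ((⟨p, hp⟩, 0) : PP))) t =
        Complex.exp (-(t * Real.log p) * Complex.I) := by
      unfold Pool.Agent.TH339.MP.ee Pool.Agent.TH339.MP.qq
      congr 1
      push_cast
      simp
      ring
    rw [h1]
    simp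
    ring
  · rfl

lemma mem_div_shift (z : Tor) (t : ℝ) :
    t ∈ divSet (ap (fb z b)) ↔ (0 : ℝ) ∈ divSet (ap (fb (z + zt t) b)) := by
  have h1 : ps (ap (fb z b)) t = ps (ap (fb (z + zt t) b)) 0 := by
    funext X
    unfold Pool.Agent.W350.Edge.ps
    exact Finset.sum_congr rfl fun p _ => term_fb z t p
  change (¬ ∃ l, Tendsto (ps (ap (fb z b)) t) atTop (𝓝 l)) ↔
    ¬ ∃ l, Tendsto (ps (ap (fb (z + zt t) b)) 0) atTop (𝓝 l)
  rw [h1]

lemma continuous_fz (n : ℕ) : Continuous fun z : Tor => fz z n := by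
  unfold fz
  by_cases hn : n = 0
  · simp only [hn, if_true]
    exact continuous_const
  · simp only [hn, if_false]
    exact continuous_chi _

lemma continuous_ps (X : ℕ) : Continuous fun z : Tor => ps (ap (fb z b)) 0 X := by
  unfold Pool.Agent.W350.Edge.ps Pool.Agent.W350.Edge.term
  refine continuous_finsetSum _ fun p _ => ?_
  by_cases hp : p.Prime
  · simp only [hp, if_true]
    unfold Pool.Agent.TH339.MP.ap fb
    simp only [hp, dif_pos]
    exact (((continuous_fz _).mul continuous_const).div_const _).mul continuous_const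
  · simp only [hp, if_false]
    exact continuous_const

lemma meas_div : MeasurableSet {z : Tor | (0 : ℝ) ∈ divSet (ap (fb z b))} := by
  have h1 : MeasurableSet {z : Tor | ∃ l, Tendsto (fun X => ps (ap (fb z b)) 0 X) atTop (𝓝 l)} :=
    measurableSet_exists_tendsto fun X => (continuous_ps X).measurable
  exact h1.compl

lemma mp_add (w : Tor) : MeasurePreserving (fun z : Tor => z + w) tor tor := by
  have hm : Measurable fun z : Tor => z + w := (continuous_id.add continuous_const).measurable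
  refine ⟨hm, ?_⟩
  have h1 := Measure.infinitePi_map_pi (μ := fun _ : ℕ => AddCircle.haarAddCircle (T := 1))
    (f := fun i (x : UnitAddCircle) => x + w i) (fun i => (measurable_add_const (w i)))
  have h2 : (fun (x : ℕ → UnitAddCircle) (i : ℕ) => x i + w i) = fun z : Tor => z + w := rfl
  rw [h2] at h1
  rw [h1]
  congr 1
  funext i
  exact (measurePreserving_add_right (AddCircle.haarAddCircle (T := 1)) (w i)).map_eq

/-- for almost every `z` the random Euler product has a boundary value at the point zero -/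
theorem ae_zero (hb : ∀ x, ‖b x‖ ≤ M / (x.2 + 1 : ℕ)) :
    ∀ᵐ z ∂tor, (0 : ℝ) ∉ divSet (ap (fb z b)) := by
  obtain ⟨N, hN⟩ : ∃ N : Set Tor, N = {z : Tor | (0 : ℝ) ∈ divSet (ap (fb z b))} := ⟨_, rfl⟩
  have hNm : MeasurableSet N := by
    rw [hN]
    exact meas_div
  have hmem : ∀ z, z ∈ N ↔ (0 : ℝ) ∈ divSet (ap (fb z b)) := fun z => by rw [hN]; rfl
  set μ : Measure ℝ := volume.restrict (Set.Icc 0 1) with hμ
  have hsh : Measurable fun q : Tor × ℝ => q.1 + zt q.2 :=
    (continuous_fst.add (continuous_zt.comp continuous_snd)).measurable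
  have hS : MeasurableSet ((fun q : Tor × ℝ => q.1 + zt q.2) ⁻¹' N) := hsh hNm
  have h1 : (tor.prod μ) ((fun q : Tor × ℝ => q.1 + zt q.2) ⁻¹' N) = 0 := by
    rw [Measure.prod_apply hS]
    refine (lintegral_eq_zero_iff (measurable_measure_prodMk_left hS)).2 ?_
    refine Eventually.of_forall fun z => ?_
    have h2 : Prod.mk z ⁻¹' ((fun q : Tor × ℝ => q.1 + zt q.2) ⁻¹' N) = divSet (ap (fb z b)) := by
      ext t
      exact (hmem _).trans (mem_div_shift z t).symm
    have h3 : volume (divSet (ap (fb z b))) = 0 :=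
      measure_eq_zero_iff_ae_notMem.2 (ae_notMem (norm_fb hb z))
    have h6 : μ (divSet (ap (fb z b))) = 0 :=
      Measure.absolutelyContinuous_of_le Measure.restrict_le_self h3
    rw [← h2] at h6
    exact h6
  have h4 : (tor.prod μ) ((fun q : Tor × ℝ => q.1 + zt q.2) ⁻¹' N) = tor N := by
    rw [Measure.prod_apply_symm hS]
    have h5 : ∀ t : ℝ, tor ((fun z => (z, t)) ⁻¹' ((fun q : Tor × ℝ => q.1 + zt q.2) ⁻¹' N)) =
        tor N := fun t => (mp_add (zt t)).measure_preimage hNm.nullMeasurableSet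
    simp_rw [h5]
    rw [lintegral_const, hμ, Measure.restrict_apply_univ, Real.volume_Icc]
    simp
  rw [h4] at h1
  filter_upwards [measure_eq_zero_iff_ae_notMem.1 h1] with z hz
  exact fun h => hz ((hmem z).2 h)

/-- **The random model is the boundary value of the random Euler product.** -/
theorem FR_eq_bl (hb : ∀ x, ‖b x‖ ≤ M / (x.2 + 1 : ℕ)) :
    ∀ᵐ z ∂tor, FR b z = bl (fb z b) 0 := by
  obtain ⟨h1, h2, h3⟩ := FR_spec hb
  have h4 : TendstoInMeasure tor (fun X => PR b X) atTop (FR b) := by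
    refine tendstoInMeasure_of_tendsto_eLpNorm (p := 2) (by norm_num)
      (fun X => (continuous_PR b X).aestronglyMeasurable) h1.aestronglyMeasurable ?_
    exact h3
  obtain ⟨ns, hns, h5⟩ := h4.exists_seq_tendsto_ae
  filter_upwards [h5, ae_zero hb] with z hz hz2
  have h6 := PS_tendsto (norm_fb hb z) hz2
  have h7 : Tendsto (fun X => PR b X z) atTop (𝓝 (bl (fb z b) 0)) := by
    refine h6.congr fun X => ?_
    rw [PS_fb, zt_zero, add_zero]
  exact tendsto_nhds_unique hz (h7.comp hns.tendsto_atTop)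

end

end Pool.Agent.Q9.EL
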